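import Mathlib
import Pool.Agent.Perc.Base

/-! Constrained-degree percolation: definitions shared by all modules. -/

namespace Pool.Agent.CDP

open MeasureTheory

/-! ### Graphs, finite edge sets, the greedy process -/

/-- A simple graph with vertex type `V` and edge type `E`: the edge `e` joins `a e` and `b e`. -/
structure Gr (V E : Type*) where
  a : E → V
  b : E → V
  ne : ∀ e, a e ≠ b e
  simple : ∀ e f, ((a e = a f ∧ b e = b f) ∨ (a e = b f ∧ b e = a f)) → e = f

variable {V E : Type*}

namespace Gr

/-- The vertex `x` is an endpoint of the edge `e`. -/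
def Inc (G : Gr V E) (x : V) (e : E) : Prop := G.a e = x ∨ G.b e = x

open Classical in
/-- The edges of `X` at the vertex `x`. -/
noncomputable def inc (G : Gr V E) (X : Finset E) (x : V) : Finset E :=
  X.filter (fun e => G.Inc x e)

open Classical in
/-- The edges of `X` at the vertex `x` with label smaller than that of `e`. -/
noncomputable def pre (G : Gr V E) (s : E → ℝ) (X : Finset E) (x : V) (e : E) : Finset E :=
  X.filter (fun f => G.Inc x f ∧ s f < s e)

/-- The vertices `x` and `y` are the ends of some edge in `W` (or `x = y` is an end of an edge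
of `W`). -/
def Adj (G : Gr V E) (W : Set E) (x y : V) : Prop := ∃ e ∈ W, G.Inc x e ∧ G.Inc y e

/-- In the graph with edge set `W` some vertex of `S` is reachable from `o`. -/
def Conn (G : Gr V E) (o : V) (S : Set V) (W : Set E) : Prop :=
  ∃ z ∈ S, Relation.ReflTransGen (G.Adj W) o z

/-- `X` is the outcome of the greedy process with attempted edges `B`, labels `s` and
capacities `cap`: an edge `e` of `B` is accepted iff at each of its endpoints `x` the number
of accepted edges with smaller label is smaller than `cap x`. -/
def IsSol (G : Gr V E) (s : E → ℝ) (cap : V → ℕ) (B X : Finset E) : Prop :=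
  X ⊆ B ∧ ∀ e ∈ B, (e ∈ X ↔ ∀ x, G.Inc x e → (G.pre s X x e).card < cap x)

open Classical in
/-- The outcome of the greedy process. -/
noncomputable def sol (G : Gr V E) (s : E → ℝ) (cap : V → ℕ) (B : Finset E) : Finset E :=
  if h : ∃ X, G.IsSol s cap B X then h.choose else ∅

/-- A heavy vertex: at least `κ` attempted edges. -/
def Heavy (G : Gr V E) (κ : ℕ) (B : Finset E) (x : V) : Prop := κ ≤ (G.inc B x).card

/-- Two heavy vertices joined by an attempted edge. -/
def HR (G : Gr V E) (κ : ℕ) (B : Finset E) (x y : V) : Prop :=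
  G.Heavy κ B x ∧ G.Heavy κ B y ∧ G.Adj (B : Set E) x y

open Classical in
/-- The heavy cluster of `v`: all heavy vertices joined to the heavy vertex `v` by a path of
attempted edges through heavy vertices (empty if `v` is not heavy).  For `κ ≥ 1`. -/
noncomputable def HC (G : Gr V E) (κ : ℕ) (B : Finset E) (v : V) : Finset V :=
  (B.image G.a ∪ B.image G.b).filter
    (fun x => G.Heavy κ B v ∧ G.Heavy κ B x ∧ Relation.ReflTransGen (G.HR κ B) v x)

open Classical in
/-- Capacity `κ + 1` on `K` and `κ` elsewhere. -/
noncomputable def capK (κ : ℕ) (K : Finset V) (x : V) : ℕ := if x ∈ K then κ + 1 else κ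

/-- The sets `B` which can be mapped to `B'` by the surgery at `u`. -/
def Pre (G : Gr V E) (κ : ℕ) (u : V) (B' B : Finset E) : Prop :=
  B' ⊆ B ∧ (∀ e ∈ B, e ∉ B' → ∃ y ∈ G.HC κ B u, G.Inc y e) ∧
  (∀ y ∈ G.HC κ B u, y ≠ u → (G.inc B' y).card ≤ 3) ∧ u ∈ G.HC κ B u ∧
  ∃ y ∈ G.HC κ B u, y ≠ u

end Gr

/-! ### The lattice -/

/-- The vertices of the lattice `ℤ^d`. -/
abbrev Vx (d : ℕ) := Fin d → ℤ

/-- The nearest-neighbour edges of `ℤ^d`: the pair `(x, i)` stands for the (undirected) edge
joining `x` and `x + e_i`, where `e_i` is the `i`-th unit vector. -/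
abbrev Ed (d : ℕ) := Vx d × Fin d

/-- The lattice `ℤ^d` as a graph. -/
def latt (d : ℕ) : Gr (Vx d) (Ed d) where
  a e := e.1
  b e := e.1 + Pi.single e.2 1
  ne e h := by
    have := congrFun h e.2
    simp at this
  simple e f h := by
    rcases h with ⟨h1, h2⟩ | ⟨h1, h2⟩
    · have h3 : (Pi.single e.2 1 : Vx d) = Pi.single f.2 1 := by
        rw [h1] at h2
        exact add_left_cancel h2
      have h4 := congrFun h3 e.2
      have h5 : e.2 = f.2 := by
        by_contra hne
        rw [Pi.single_eq_same, Pi.single_eq_of_ne hne] at h4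
        exact one_ne_zero h4
      exact Prod.ext h1 h5
    · exfalso
      have h3 : (Pi.single f.2 1 : Vx d) + Pi.single e.2 1 = 0 := by
        rw [h1, add_assoc] at h2
        exact left_eq_add.mp h2.symm
      have h4 := congrFun h3 e.2
      rw [Pi.add_apply, Pi.single_eq_same, Pi.zero_apply] at h4
      by_cases hne : e.2 = f.2
      · rw [hne, Pi.single_eq_same] at h4
        norm_num at h4
      · rw [Pi.single_eq_of_ne hne] at h4
        norm_num at h4

/-- Independent uniform labels on the edges. -/
noncomputable def labels (d : ℕ) : Measure (Ed d → unitInterval) :=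
  Measure.infinitePi (fun _ : Ed d => (volume : Measure unitInterval))

/-- `ω e` says that the edge `e` is accepted (it opens at time `U e` and stays open): it is
accepted iff, at each of its endpoints `x`, fewer than `κ` edges other than `e` are open at
time `U e`, i.e. are accepted and have label at most `U e`. -/
def IsCDP {d : ℕ} (κ : ℕ) (U : Ed d → unitInterval) (ω : Ed d → Prop) : Prop :=
  ∀ e, ω e ↔ ∀ x, (latt d).Inc x e →
    {f | (latt d).Inc x f ∧ f ≠ e ∧ U f ≤ U e ∧ ω f}.ncard < κ

/-- The edges which are open at time `t`. -/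
def openAt {d : ℕ} (U : Ed d → unitInterval) (ω : Ed d → Prop) (t : ℝ) : Set (Ed d) :=
  {e | (U e : ℝ) ≤ t ∧ ω e}

/-- The cluster of the origin in the graph with edge set `W`. -/
def cluster {d : ℕ} (W : Set (Ed d)) : Set (Vx d) :=
  {x | Relation.ReflTransGen ((latt d).Adj W) 0 x}

/-- Percolation probability of constrained-degree percolation at time `t`. -/
noncomputable def theta (κ d : ℕ) (t : ℝ) : ENNReal :=
  labels d {U | ∃ ω, IsCDP κ U ω ∧ (cluster (openAt U ω t)).Infinite}

/-- The critical time, with value `⊤` if there is no percolation at any time. -/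
noncomputable def tc (κ d : ℕ) : ENNReal :=
  sInf (ENNReal.ofReal '' {t : ℝ | 0 ≤ t ∧ t ≤ 1 ∧ 0 < theta κ d t})

/-- Vertices outside the box of radius `n`. -/
def far (d n : ℕ) : Set (Vx d) := {x | ∃ i, (n : ℤ) < |x i|}

/-- The attempts at time `t` inside the finite edge set `F`. -/
noncomputable def att {d : ℕ} (F : Finset (Ed d)) (U : Ed d → unitInterval) (t : ℝ) :
    Finset (Ed d) := by
  classical exact F.filter (fun e => (U e : ℝ) ≤ t)

/-- The labels as real numbers. -/
def lab {d : ℕ} (U : Ed d → unitInterval) : Ed d → ℝ := fun e => (U e : ℝ)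

/-- The two edges are different and share a vertex, and `f` has the smaller label. -/
def Below {d : ℕ} (U : Ed d → unitInterval) (f e : Ed d) : Prop :=
  U f < U e ∧ ∃ x, (latt d).Inc x f ∧ (latt d).Inc x e

/-- The good labels: no ties, and no infinite decreasing chain of adjacent edges. -/
def GoodU {d : ℕ} (U : Ed d → unitInterval) : Prop :=
  Function.Injective U ∧ ∀ e, Acc (Below U) e

end Pool.Agent.CDP
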