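import Mathlib
import Pool.Agent.CDP.Defs

/-! CDP, module SOL: existence, uniqueness and elementary properties of the greedy process
(`IsSol`, `sol` of `Defs.lean`).

All statements are for arbitrary labels `s` (ties allowed) unless `InjOn` is assumed: the rule for
`e` only looks at edges with strictly smaller label.

* uniqueness: strong induction on the label: if `X, X'` are two solutions, show
  `∀ e ∈ B, (e ∈ X ↔ e ∈ X')` by well-founded induction on `s` over the finite set `B`
  (e.g. induction on `(B.filter (fun f => s f < s e)).card`, or `Finset.strongInduction`), since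
  `pre s X x e` only contains edges `f` with `s f < s e`.
* existence: induction on `B` with `Finset.induction_on_max_value s`
  (`s f ≤ s e` for `f` in the old set).  With ties inserting a maximal `e` does not change the rule
  for the old edges (it is not strictly below any of them), and the rule for `e` reads off `pre`.
* `sol_filter_lt`: the filtered solution is a solution for the filtered set.
* `card_inc_sol_le`: if `inc (sol) x` is nonempty take the edge `e` of maximal label in it (labels
  are injective on `B`); then `inc X x = insert e (pre s X x e)` and `(pre ..).card < cap x`. -/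

namespace Pool.Agent.CDP

variable {V E : Type*}

theorem Gr.mem_inc (G : Gr V E) {X : Finset E} {x : V} {e : E} :
    e ∈ G.inc X x ↔ e ∈ X ∧ G.Inc x e := by
  classical
  unfold Gr.inc
  exact Finset.mem_filter

theorem Gr.mem_pre (G : Gr V E) {s : E → ℝ} {X : Finset E} {x : V} {e f : E} :
    f ∈ G.pre s X x e ↔ f ∈ X ∧ G.Inc x f ∧ s f < s e := by
  classical
  unfold Gr.pre
  exact Finset.mem_filter

private theorem pre_congr (G : Gr V E) {s : E → ℝ} {B X X' : Finset E} (hX : X ⊆ B) (hX' : X' ⊆ B) {e : E}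
    (h : ∀ f ∈ B, s f < s e → (f ∈ X ↔ f ∈ X')) (x : V) : G.pre s X x e = G.pre s X' x e := by
  ext f
  rw [G.mem_pre, G.mem_pre]
  constructor
  · rintro ⟨h1, h2, h3⟩
    exact ⟨(h f (hX h1) h3).1 h1, h2, h3⟩
  · rintro ⟨h1, h2, h3⟩
    exact ⟨(h f (hX' h1) h3).2 h1, h2, h3⟩

private theorem pre_insert (G : Gr V E) [DecidableEq E] {s : E → ℝ} {X : Finset E} {e g : E} (h : s g ≤ s e) (x : V) :
    G.pre s (insert e X) x g = G.pre s X x g := by
  ext f
  rw [G.mem_pre, G.mem_pre, Finset.mem_insert]
  constructor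
  · rintro ⟨h1 | h1, h2, h3⟩
    · rw [h1] at h3
      exact absurd h3 (not_lt.2 h)
    · exact ⟨h1, h2, h3⟩
  · rintro ⟨h1, h2, h3⟩
    exact ⟨Or.inr h1, h2, h3⟩

open Classical in
private theorem isSol_insert (G : Gr V E) [DecidableEq E] {s : E → ℝ} {cap : V → ℕ} {B X : Finset E} {e : E} (he : e ∉ B)
    (hmax : ∀ f ∈ B, s f ≤ s e) (h : G.IsSol s cap B X) :
    G.IsSol s cap (insert e B) (if ∀ x, G.Inc x e → (G.pre s X x e).card < cap x then insert e X else X) := by
  have heX : e ∉ X := fun h1 => he (h.1 h1)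
  by_cases hc : ∀ x, G.Inc x e → (G.pre s X x e).card < cap x
  · rw [if_pos hc]
    refine ⟨Finset.insert_subset_insert _ h.1, ?_⟩
    intro g hg
    rcases Finset.mem_insert.1 hg with h1 | h1
    · subst h1
      simp only [pre_insert G le_rfl]
      exact ⟨fun _ => hc, fun _ => Finset.mem_insert_self _ _⟩
    · simp only [pre_insert G (hmax g h1)]
      rw [← h.2 g h1, Finset.mem_insert]
      constructor
      · rintro (h2 | h2)
        · rw [h2] at h1
          exact absurd h1 he
        · exact h2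
      · exact Or.inr
  · rw [if_neg hc]
    refine ⟨h.1.trans (Finset.subset_insert _ _), ?_⟩
    intro g hg
    rcases Finset.mem_insert.1 hg with h1 | h1
    · subst h1
      exact ⟨fun h2 => absurd h2 heX, fun h2 => absurd h2 hc⟩
    · exact h.2 g h1

private theorem isSol_exists (G : Gr V E) (s : E → ℝ) (cap : V → ℕ) (B : Finset E) : ∃ X, G.IsSol s cap B X := by
  classical
  refine Finset.induction_on_max_value s B ?_ ?_
  · exact ⟨∅, Finset.Subset.refl _, fun e he => absurd he (Finset.notMem_empty e)⟩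
  · intro e B he hmax ⟨X, hX⟩
    exact ⟨_, isSol_insert G he hmax hX⟩

theorem Gr.isSol_unique (G : Gr V E) {s : E → ℝ} {cap : V → ℕ} {B X X' : Finset E}
    (h : G.IsSol s cap B X) (h' : G.IsSol s cap B X') : X = X' := by
  classical
  have key : ∀ n : ℕ, ∀ e ∈ B, (B.filter (fun f => s f < s e)).card = n → (e ∈ X ↔ e ∈ X') := by
    intro n
    induction n using Nat.strong_induction_on with
    | _ n ih =>
      intro e he hn
      have h1 : ∀ f ∈ B, s f < s e → (f ∈ X ↔ f ∈ X') := by
        intro f hf hfe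
        refine ih _ ?_ f hf rfl
        rw [← hn]
        refine Finset.card_lt_card ((Finset.ssubset_iff_of_subset ?_).2 ⟨f, ?_, ?_⟩)
        · intro g hg
          rw [Finset.mem_filter] at hg ⊢
          exact ⟨hg.1, hg.2.trans hfe⟩
        · exact Finset.mem_filter.2 ⟨hf, hfe⟩
        · intro hg
          exact lt_irrefl _ (Finset.mem_filter.1 hg).2
      rw [h.2 e he, h'.2 e he]
      simp only [pre_congr G h.1 h'.1 h1]
  ext e
  constructor
  · intro he
    exact (key _ e (h.1 he) rfl).1 he
  · intro he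
    exact (key _ e (h'.1 he) rfl).2 he

theorem Gr.isSol_sol (G : Gr V E) (s : E → ℝ) (cap : V → ℕ) (B : Finset E) :
    G.IsSol s cap B (G.sol s cap B) := by
  have h := isSol_exists G s cap B
  unfold Gr.sol
  rw [dif_pos h]
  exact h.choose_spec

theorem Gr.sol_eq (G : Gr V E) {s : E → ℝ} {cap : V → ℕ} {B X : Finset E}
    (h : G.IsSol s cap B X) : G.sol s cap B = X :=
  G.isSol_unique (G.isSol_sol s cap B) h

theorem Gr.sol_subset (G : Gr V E) (s : E → ℝ) (cap : V → ℕ) (B : Finset E) :
    G.sol s cap B ⊆ B := (G.isSol_sol s cap B).1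

theorem Gr.mem_sol (G : Gr V E) {s : E → ℝ} {cap : V → ℕ} {B : Finset E} {e : E} (he : e ∈ B) :
    e ∈ G.sol s cap B ↔ ∀ x, G.Inc x e → (G.pre s (G.sol s cap B) x e).card < cap x :=
  (G.isSol_sol s cap B).2 e he

open Classical in
theorem Gr.sol_insert_max (G : Gr V E) [DecidableEq E] {s : E → ℝ} {cap : V → ℕ} {B : Finset E} {e : E}
    (he : e ∉ B) (hmax : ∀ f ∈ B, s f < s e) :
    G.sol s cap (insert e B) =
      if ∀ x, G.Inc x e → (G.inc (G.sol s cap B) x).card < cap x
      then insert e (G.sol s cap B) else G.sol s cap B := by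
  have h1 := isSol_insert G (e := e) he (fun f hf => (hmax f hf).le) (G.isSol_sol s cap B)
  have h2 : ∀ x, G.pre s (G.sol s cap B) x e = G.inc (G.sol s cap B) x := by
    intro x
    ext f
    rw [G.mem_pre, G.mem_inc]
    constructor
    · rintro ⟨a1, a2, -⟩
      exact ⟨a1, a2⟩
    · rintro ⟨a1, a2⟩
      exact ⟨a1, a2, hmax f (G.sol_subset s cap B a1)⟩
  simp only [h2] at h1
  exact G.sol_eq h1

open Classical in
theorem Gr.sol_filter_lt (G : Gr V E) (s : E → ℝ) (cap : V → ℕ) (B : Finset E) (r : ℝ) :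
    (G.sol s cap B).filter (fun e => s e < r) = G.sol s cap (B.filter (fun e => s e < r)) := by
  refine (G.sol_eq ⟨?_, ?_⟩).symm
  · exact Finset.filter_subset_filter _ (G.sol_subset s cap B)
  · intro e he
    obtain ⟨he1, he2⟩ := Finset.mem_filter.1 he
    have h1 : ∀ x, G.pre s ((G.sol s cap B).filter (fun e => s e < r)) x e = G.pre s (G.sol s cap B) x e := by
      intro x
      ext f
      rw [G.mem_pre, G.mem_pre, Finset.mem_filter]
      constructor
      · rintro ⟨⟨a1, -⟩, a2, a3⟩
        exact ⟨a1, a2, a3⟩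
      · rintro ⟨a1, a2, a3⟩
        exact ⟨⟨a1, a3.trans he2⟩, a2, a3⟩
    simp only [h1]
    rw [← G.mem_sol he1, Finset.mem_filter]
    exact ⟨fun h => h.1, fun h => ⟨h, he2⟩⟩

theorem Gr.sol_congr_order (G : Gr V E) {s s' : E → ℝ} {cap : V → ℕ} {B : Finset E}
    (h : ∀ e ∈ B, ∀ f ∈ B, (s e < s f ↔ s' e < s' f)) : G.sol s cap B = G.sol s' cap B := by
  refine G.sol_eq ⟨G.sol_subset s' cap B, ?_⟩
  intro e he
  have h1 : ∀ x, G.pre s (G.sol s' cap B) x e = G.pre s' (G.sol s' cap B) x e := by
    intro x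
    ext f
    rw [G.mem_pre, G.mem_pre]
    constructor
    · rintro ⟨a1, a2, a3⟩
      exact ⟨a1, a2, (h f (G.sol_subset s' cap B a1) e he).1 a3⟩
    · rintro ⟨a1, a2, a3⟩
      exact ⟨a1, a2, (h f (G.sol_subset s' cap B a1) e he).2 a3⟩
  simp only [h1]
  exact G.mem_sol he

theorem Gr.sol_congr_cap (G : Gr V E) {s : E → ℝ} {cap cap' : V → ℕ} {B : Finset E}
    (h : ∀ x, ∀ e ∈ B, G.Inc x e → cap x = cap' x) : G.sol s cap B = G.sol s cap' B := by
  refine G.sol_eq ⟨G.sol_subset s cap' B, ?_⟩
  intro e he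
  rw [G.mem_sol he]
  constructor
  · intro h1 x hx
    rw [h x e he hx]
    exact h1 x hx
  · intro h1 x hx
    rw [← h x e he hx]
    exact h1 x hx

theorem Gr.card_inc_sol_le (G : Gr V E) {s : E → ℝ} {cap : V → ℕ} {B : Finset E}
    (hs : Set.InjOn s (B : Set E)) (x : V) : (G.inc (G.sol s cap B) x).card ≤ cap x := by
  classical
  rcases (G.inc (G.sol s cap B) x).eq_empty_or_nonempty with h0 | h0
  · rw [h0, Finset.card_empty]
    exact Nat.zero_le _
  · obtain ⟨e, he, hmax⟩ := Finset.exists_max_image _ s h0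
    obtain ⟨he1, he2⟩ := G.mem_inc.1 he
    have heB := G.sol_subset s cap B he1
    have h1 := (G.mem_sol heB).1 he1 x he2
    have h2 : G.inc (G.sol s cap B) x ⊆ insert e (G.pre s (G.sol s cap B) x e) := by
      intro f hf
      obtain ⟨hf1, hf2⟩ := G.mem_inc.1 hf
      rw [Finset.mem_insert, G.mem_pre]
      by_cases hfe : f = e
      · exact Or.inl hfe
      · right
        refine ⟨hf1, hf2, lt_of_le_of_ne (hmax f hf) ?_⟩
        intro h3
        exact hfe (hs (G.sol_subset s cap B hf1) heB h3)
    have h3 := (Finset.card_le_card h2).trans (Finset.card_insert_le _ _)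
    omega

end Pool.Agent.CDP
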