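import Mathlib
import Pool.Agent.CDP.Defs
import Pool.Agent.CDP.SOL

/-! CDP, module APX: for good labels the finite-volume outcomes converge edge by edge.

PROOF.  Well-founded induction on `e` along `Below U`.  Let `N` be the finite set of edges sharing a
vertex with `e` (finitely many edges at a vertex).  By induction, eventually (for all finite `F ⊇ F0`)
for all `f ∈ N` with `Below U f e`: `f ∈ sol (att F U t) ↔ f ∈ openAt U ω t`; let also `e ∈ F` and
`N ⊆ F`.  If `t < U e` both sides are false (`sol ⊆ att`).  If `U e ≤ t`: `e ∈ att F U t`,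
`e ∈ sol ↔ ∀ x, Inc x e → (pre (lab U) sol x e).card < κ`, and for every endpoint `x` of `e` the set
`{f | Inc x f ∧ f ≠ e ∧ U f ≤ U e ∧ ω f}` equals the coercion of `pre (lab U) sol x e`: for `f` at `x`
with `U f < U e ≤ t`: `f ∈ sol ↔ ω f`. -/

namespace Pool.Agent.CDP

private theorem apx_fin {d : ℕ} (x : Vx d) : {f : Ed d | (latt d).Inc x f}.Finite := by
  classical
  have hsub : {f : Ed d | (latt d).Inc x f} ⊆
      ((Finset.univ.image (fun i : Fin d => ((x, i) : Ed d)) ∪
        Finset.univ.image (fun i : Fin d => ((x - Pi.single i 1, i) : Ed d)) : Finset (Ed d)) :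
        Set (Ed d)) := by
    rintro ⟨y, i⟩ hf
    rw [Set.mem_setOf_eq] at hf
    rw [Finset.mem_coe, Finset.mem_union, Finset.mem_image, Finset.mem_image]
    rcases hf with hf | hf
    · left
      refine ⟨i, Finset.mem_univ _, ?_⟩
      change y = x at hf
      rw [hf]
    · right
      refine ⟨i, Finset.mem_univ _, ?_⟩
      change y + Pi.single i 1 = x at hf
      rw [← hf, add_sub_cancel_right]
  exact (Finset.finite_toSet _).subset hsub

private theorem apx_nb {d : ℕ} (e : Ed d) :
    {f : Ed d | ∃ x, (latt d).Inc x f ∧ (latt d).Inc x e}.Finite := by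
  refine ((apx_fin ((latt d).a e)).union (apx_fin ((latt d).b e))).subset ?_
  rintro f ⟨x, h1, h2 | h2⟩
  · left
    rw [Set.mem_setOf_eq, h2]
    exact h1
  · right
    rw [Set.mem_setOf_eq, h2]
    exact h1

private theorem apx_att {d : ℕ} {F : Finset (Ed d)} {U : Ed d → unitInterval} {t : ℝ} {e : Ed d} :
    e ∈ att F U t ↔ e ∈ F ∧ (U e : ℝ) ≤ t := by
  unfold att
  exact Finset.mem_filter

theorem eventually_mem {d κ : ℕ} {U : Ed d → unitInterval} (h : GoodU U) {ω : Ed d → Prop}
    (hω : IsCDP κ U ω) (t : ℝ) (e : Ed d) :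
    ∀ᶠ F : Finset (Ed d) in Filter.atTop,
      (e ∈ (latt d).sol (lab U) (fun _ => κ) (att F U t) ↔ e ∈ openAt U ω t) := by
  classical
  have wf : WellFounded (Below U) := ⟨h.2⟩
  induction e using wf.induction with
  | _ e ih =>
    have h1 : ∀ᶠ F : Finset (Ed d) in Filter.atTop, ∀ f ∈ (apx_nb e).toFinset, Below U f e →
        (f ∈ (latt d).sol (lab U) (fun _ => κ) (att F U t) ↔ f ∈ openAt U ω t) := by
      rw [Filter.eventually_all_finset]
      intro f _
      by_cases hb : Below U f e
      · filter_upwards [ih f hb] with F hF _ using hF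
      · exact Filter.Eventually.of_forall (fun F hb' => absurd hb' hb)
    have h2 : ∀ᶠ F : Finset (Ed d) in Filter.atTop, {e} ≤ F := Filter.eventually_ge_atTop _
    filter_upwards [h1, h2] with F h1 h2
    by_cases ht : (U e : ℝ) ≤ t
    · have heB : e ∈ att F U t := apx_att.2 ⟨h2 (Finset.mem_singleton_self e), ht⟩
      rw [(latt d).mem_sol heB]
      have h3 : e ∈ openAt U ω t ↔ ω e := ⟨fun h => h.2, fun h => ⟨ht, h⟩⟩
      rw [h3, hω e]
      refine forall_congr' fun x => forall_congr' fun hx => ?_
      have h4 : {f | (latt d).Inc x f ∧ f ≠ e ∧ U f ≤ U e ∧ ω f} =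
          (((latt d).pre (lab U) ((latt d).sol (lab U) (fun _ => κ) (att F U t)) x e :
            Finset (Ed d)) : Set (Ed d)) := by
        ext f
        rw [Finset.mem_coe, (latt d).mem_pre, Set.mem_setOf_eq]
        constructor
        · rintro ⟨h5, h6, h7, h8⟩
          have hlt : U f < U e := lt_of_le_of_ne h7 (fun hh => h6 (h.1 hh))
          have hb : Below U f e := ⟨hlt, x, h5, hx⟩
          have hfN : f ∈ (apx_nb e).toFinset := (Set.Finite.mem_toFinset _).2 ⟨x, h5, hx⟩
          exact ⟨(h1 f hfN hb).2 ⟨le_trans (Subtype.coe_le_coe.2 hlt.le) ht, h8⟩, h5, hlt⟩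
        · rintro ⟨h5, h6, h7⟩
          have hlt : U f < U e := h7
          have hb : Below U f e := ⟨hlt, x, h6, hx⟩
          have hfN : f ∈ (apx_nb e).toFinset := (Set.Finite.mem_toFinset _).2 ⟨x, h6, hx⟩
          refine ⟨h6, ?_, hlt.le, ((h1 f hfN hb).1 h5).2⟩
          rintro rfl
          exact lt_irrefl _ hlt
      rw [h4, Set.ncard_coe_finset]
    · constructor
      · intro h3
        exact absurd (apx_att.1 ((latt d).sol_subset _ _ _ h3)).2 ht
      · intro h3
        exact absurd h3.1 ht

end Pool.Agent.CDP
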