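import Mathlib
import Pool.Agent.CDP.Defs
import Pool.Agent.H96Perc.Green

/-! CDP, definitions for the second moment argument (oriented paths). -/

namespace Pool.Agent.CDP

/-- The vertex reached from the origin after `i` steps of the word `w`. -/
noncomputable def pv {d n : ℕ} (w : Fin n → Fin d) (i : ℕ) : Vx d :=
  ∑ j : Fin n, if (j : ℕ) < i then Pi.single (w j) 1 else 0

/-- The `i`-th edge of the path of the word `w`. -/
noncomputable def pe {d n : ℕ} (w : Fin n → Fin d) (i : Fin n) : Ed d := (pv w i, w i)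

/-- The edges of the path of the word `w`. -/
noncomputable def PE {d n : ℕ} (w : Fin n → Fin d) : Finset (Ed d) := Finset.univ.image (pe w)

/-- The path of `w` is attempted and at each of its vertices at most `k` other edges are
attempted. -/
noncomputable def Iw {d n : ℕ} (k : ℕ) (w : Fin n → Fin d) (B : Finset (Ed d)) : Prop :=
  PE w ⊆ B ∧ ∀ i ≤ n, ((latt d).inc (B \ PE w) (pv w i)).card ≤ k

/-- `D = e_a - e_b` for some `a, b` (including `D = 0` if `d > 0`). -/
def Near {d : ℕ} (D : Vx d) : Prop := ∃ a b : Fin d, D = Pi.single a 1 - Pi.single b 1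

open Classical in
/-- The pair weight, for the difference `D` of the starting points. -/
noncomputable def Wt {d n : ℕ} (s t : ℝ) (D : Vx d) (w w' : Fin n → Fin d) : ℝ :=
  (∏ i : Fin n, if D + pv w i - pv w' i = 0 ∧ w i = w' i then 1 / t else 1) *
    ∏ i ∈ Finset.range (n + 1), if Near (D + pv w i - pv w' i) then s else 1

open Classical in
/-- The average pair weight, by recursion. -/
noncomputable def Mr {d : ℕ} (s t : ℝ) : ℕ → Vx d → ℝ
  | 0, D => if Near D then s else 1
  | n + 1, D => (if Near D then s else 1) *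
      ((∑ i : Fin d, ∑ j : Fin d, (if D = 0 ∧ i = j then 1 / t else 1) *
        Mr s t n (D + Pi.single i 1 - Pi.single j 1)) / d / d)

/-- `P(Bin(m, t) ≤ k)`. -/
noncomputable def bin (t : ℝ) (m k : ℕ) : ℝ :=
  ∑ j ∈ (Finset.range (m + 1)).filter (fun j => j ≤ k),
    (m.choose j : ℝ) * (t ^ j * (1 - t) ^ (m - j))

/-- The probability of `Iw` for a word of length `n`. -/
noncomputable def cI (d : ℕ) (t : ℝ) (k n : ℕ) : ℝ :=
  t ^ n * ∏ i ∈ Finset.range (n + 1),
    bin t (if n = 0 then 2 * d else if i = 0 ∨ i = n then 2 * d - 1 else 2 * d - 2) k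

end Pool.Agent.CDP
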