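import Mathlib
import Pool.Agent.CDP.PTD

/-! CDP, module BINM: binomial probabilities.

* `Pr_card_le`: `Finset.sum_powerset_apply_card` after unfolding `Perc.Pr`, `Perc.E`.
* `bin_anti`: `Pr_mono`, `Pr_restrict` on initial segments of `ℕ`.
* `bin_ge`: `1 - bin t m k ≤ m.choose (k+1) * t ^ (k+1) ≤ (m t) ^ (k+1) / (k+1)!`. -/

namespace Pool.Agent.CDP

theorem Pr_card_le {E : Type*} [DecidableEq E] {t : ℝ} (R : Finset E) (k : ℕ) :
    Perc.Pr t R (fun ω => ω.card ≤ k) = bin t R.card k := by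
  classical
  unfold Perc.Pr Perc.E bin
  have h1 : (∑ ω ∈ R.powerset, t ^ ω.card * (1 - t) ^ (R \ ω).card *
      (fun ω : Finset E => if (fun ω : Finset E => ω.card ≤ k) ω then (1 : ℝ) else 0) ω) =
      ∑ ω ∈ R.powerset,
        (fun j : ℕ => t ^ j * (1 - t) ^ (R.card - j) * (if j ≤ k then (1 : ℝ) else 0)) ω.card := by
    apply Finset.sum_congr rfl
    intro ω hω
    have h2 := Finset.mem_powerset.1 hω
    simp only [Finset.card_sdiff_of_subset h2]
  refine Eq.trans ?_ (h1.trans ?_)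
  · apply Finset.sum_congr rfl
    intro ω _
    by_cases hj : ω.card ≤ k
    · simp only [hj, if_true]
    · simp only [hj, if_false]
  refine (Finset.sum_powerset_apply_card
    (f := fun j : ℕ => t ^ j * (1 - t) ^ (R.card - j) * (if j ≤ k then (1 : ℝ) else 0)) (x := R)).trans ?_
  rw [Finset.sum_filter]
  apply Finset.sum_congr rfl
  intro j _
  by_cases hj : j ≤ k
  · simp [hj]
  · simp [hj]

theorem bin_nonneg {t : ℝ} (ht0 : 0 ≤ t) (ht1 : t ≤ 1) (m k : ℕ) : 0 ≤ bin t m k := by
  unfold bin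
  apply Finset.sum_nonneg
  intro j _
  have : (0 : ℝ) ≤ 1 - t := by linarith
  positivity

theorem bin_le_one {t : ℝ} (ht0 : 0 ≤ t) (ht1 : t ≤ 1) (m k : ℕ) : bin t m k ≤ 1 := by
  have h := Pr_card_le (t := t) (Finset.range m) k
  rw [Finset.card_range] at h
  rw [← h]
  exact Perc.Pr_le_one ht0 ht1 _ _

theorem bin_anti {t : ℝ} (ht0 : 0 ≤ t) (ht1 : t ≤ 1) {m m' : ℕ} (h : m ≤ m') (k : ℕ) :
    bin t m' k ≤ bin t m k := by
  have h1 := Pr_card_le (t := t) (Finset.range m) k
  have h2 := Pr_card_le (t := t) (Finset.range m') k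
  rw [Finset.card_range] at h1 h2
  rw [← h1, ← h2]
  have hs : Finset.range m ⊆ Finset.range m' := Finset.range_subset_range.2 h
  calc Perc.Pr t (Finset.range m') (fun ω => ω.card ≤ k)
      ≤ Perc.Pr t (Finset.range m') (fun ω => (ω ∩ Finset.range m).card ≤ k) := by
        apply Perc.Pr_mono ht0 ht1
        intro ω _ hω
        exact (Finset.card_le_card Finset.inter_subset_left).trans hω
    _ = Perc.Pr t (Finset.range m) (fun ω => (ω ∩ Finset.range m).card ≤ k) := by
        apply Perc.Pr_restrict t hs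
        intro ω _
        rw [Finset.inter_assoc, Finset.inter_self]
    _ = Perc.Pr t (Finset.range m) (fun ω => ω.card ≤ k) := by
        apply Perc.Pr_congr
        intro ω hω
        rw [Finset.inter_eq_left.2 hω]

private theorem tail_le {t : ℝ} (ht0 : 0 ≤ t) (ht1 : t ≤ 1) (m k : ℕ) :
    1 - (m.choose (k + 1) : ℝ) * t ^ (k + 1) ≤ bin t m k := by
  have hs0 : (0 : ℝ) ≤ 1 - t := by linarith
  have htot : ∑ j ∈ Finset.range (m + 1), (m.choose j : ℝ) * (t ^ j * (1 - t) ^ (m - j)) = 1 := by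
    have h := add_pow t (1 - t) m
    have h2 : t + (1 - t) = 1 := by ring
    rw [h2, one_pow] at h
    refine Eq.trans ?_ h.symm
    apply Finset.sum_congr rfl
    intro j _
    ring
  have hsplit := Finset.sum_filter_add_sum_filter_not (Finset.range (m + 1)) (fun j => j ≤ k)
    (fun j => (m.choose j : ℝ) * (t ^ j * (1 - t) ^ (m - j)))
  rw [htot] at hsplit
  have hbin : bin t m k = ∑ j ∈ (Finset.range (m + 1)).filter (fun j => j ≤ k),
    (m.choose j : ℝ) * (t ^ j * (1 - t) ^ (m - j)) := rfl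
  rw [← hbin] at hsplit
  suffices hx : ∑ j ∈ (Finset.range (m + 1)).filter (fun j => ¬ j ≤ k),
      (m.choose j : ℝ) * (t ^ j * (1 - t) ^ (m - j)) ≤ (m.choose (k + 1) : ℝ) * t ^ (k + 1) by
    linarith
  by_cases hkm : k + 1 ≤ m
  · obtain ⟨r, rfl⟩ := Nat.exists_eq_add_of_le hkm
    have himg : (Finset.range (k + 1 + r + 1)).filter (fun j => ¬ j ≤ k) =
        (Finset.range (r + 1)).image (fun i => k + 1 + i) := by
      ext j
      simp only [Finset.mem_filter, Finset.mem_range, Finset.mem_image, not_le]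
      constructor
      · rintro ⟨h1, h2⟩
        exact ⟨j - (k + 1), by omega, by omega⟩
      · rintro ⟨i, h1, rfl⟩
        omega
    rw [himg, Finset.sum_image (by intro a _ b _ hab; simpa using hab)]
    have htot2 : ∑ i ∈ Finset.range (r + 1), (r.choose i : ℝ) * (t ^ i * (1 - t) ^ (r - i)) = 1 := by
      have h := add_pow t (1 - t) r
      have h2 : t + (1 - t) = 1 := by ring
      rw [h2, one_pow] at h
      refine Eq.trans ?_ h.symm
      apply Finset.sum_congr rfl
      intro j _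
      ring
    calc ∑ i ∈ Finset.range (r + 1), ((k + 1 + r).choose (k + 1 + i) : ℝ) *
          (t ^ (k + 1 + i) * (1 - t) ^ (k + 1 + r - (k + 1 + i)))
        ≤ ∑ i ∈ Finset.range (r + 1), ((k + 1 + r).choose (k + 1) : ℝ) * t ^ (k + 1) *
          ((r.choose i : ℝ) * (t ^ i * (1 - t) ^ (r - i))) := by
          apply Finset.sum_le_sum
          intro i hi
          have hir : i ≤ r := by have := Finset.mem_range.1 hi; omega
          have h1 : (k + 1 + r).choose (k + 1 + i) ≤ (k + 1 + r).choose (k + 1) * r.choose i := by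
            have h2 := Nat.choose_mul (n := k + 1 + r) (k := k + 1 + i) (s := k + 1) (by omega)
            rw [Nat.add_sub_cancel_left, Nat.add_sub_cancel_left] at h2
            rw [← h2]
            exact Nat.le_mul_of_pos_right _ (Nat.choose_pos (by omega))
          have h3 : ((k + 1 + r).choose (k + 1 + i) : ℝ) ≤
              ((k + 1 + r).choose (k + 1) : ℝ) * (r.choose i : ℝ) := by exact_mod_cast h1
          have h4 : k + 1 + r - (k + 1 + i) = r - i := by omega
          rw [h4, pow_add]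
          have h5 : 0 ≤ t ^ (k + 1) * t ^ i * (1 - t) ^ (r - i) := by positivity
          calc ((k + 1 + r).choose (k + 1 + i) : ℝ) * (t ^ (k + 1) * t ^ i * (1 - t) ^ (r - i))
              ≤ (((k + 1 + r).choose (k + 1) : ℝ) * (r.choose i : ℝ)) *
                (t ^ (k + 1) * t ^ i * (1 - t) ^ (r - i)) := mul_le_mul_of_nonneg_right h3 h5
            _ = _ := by ring
      _ = ((k + 1 + r).choose (k + 1) : ℝ) * t ^ (k + 1) := by
          rw [← Finset.mul_sum, htot2, mul_one]
  · have hemp : (Finset.range (m + 1)).filter (fun j => ¬ j ≤ k) = ∅ := by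
      ext j
      simp only [Finset.mem_filter, Finset.mem_range, Finset.notMem_empty, iff_false]
      omega
    rw [hemp, Finset.sum_empty]
    positivity

private theorem seq_le (j : ℕ) : (11 / 5 : ℝ) ^ (j + 17) / ((j + 17).factorial : ℝ) ≤
    1 / 10 ^ 6 := by
  induction j with
  | zero =>
    have : (Nat.factorial (0 + 17) : ℝ) = 355687428096000 := by
      norm_num [Nat.factorial]
    rw [this]
    norm_num
  | succ j ih =>
    have h1 : (j + 1 + 17).factorial = (j + 18) * (j + 17).factorial := by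
      rw [show j + 1 + 17 = (j + 17) + 1 by ring, Nat.factorial_succ]
    have hf : (0 : ℝ) < ((j + 17).factorial : ℝ) := by exact_mod_cast Nat.factorial_pos _
    have h2 : (11 / 5 : ℝ) ^ (j + 1 + 17) / ((j + 1 + 17).factorial : ℝ) =
        ((11 / 5) / ((j : ℝ) + 18)) * ((11 / 5 : ℝ) ^ (j + 17) / ((j + 17).factorial : ℝ)) := by
      rw [h1]
      push_cast
      rw [show j + 1 + 17 = (j + 17) + 1 by ring, pow_succ]
      field_simp
    rw [h2]
    have h3 : (11 / 5 : ℝ) / ((j : ℝ) + 18) ≤ 1 := by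
      rw [div_le_one (by positivity)]
      have : (0 : ℝ) ≤ (j : ℝ) := by positivity
      linarith
    have h4 : 0 ≤ (11 / 5 : ℝ) ^ (j + 17) / ((j + 17).factorial : ℝ) := by positivity
    calc ((11 / 5 : ℝ) / ((j : ℝ) + 18)) * ((11 / 5 : ℝ) ^ (j + 17) / ((j + 17).factorial : ℝ))
        ≤ 1 * ((11 / 5 : ℝ) ^ (j + 17) / ((j + 17).factorial : ℝ)) :=
          mul_le_mul_of_nonneg_right h3 h4
      _ ≤ 1 / 10 ^ 6 := by rw [one_mul]; exact ih

theorem bin_ge {d : ℕ} (hd : 10 ≤ d) {t : ℝ} (ht : t = 11 / (10 * d)) {k : ℕ} (hk : 16 ≤ k)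
    {m : ℕ} (hm : m ≤ 2 * d) : 1 - 1 / 10 ^ 6 ≤ bin t m k := by
  have hd' : (10 : ℝ) ≤ (d : ℝ) := by exact_mod_cast hd
  have ht0 : 0 ≤ t := by rw [ht]; positivity
  have ht1 : t ≤ 1 := by
    rw [ht, div_le_one (by positivity)]
    linarith
  have h := tail_le ht0 ht1 m k
  suffices hx : (m.choose (k + 1) : ℝ) * t ^ (k + 1) ≤ 1 / 10 ^ 6 by linarith
  have h1 : (m.choose (k + 1) : ℝ) ≤ (m : ℝ) ^ (k + 1) / ((k + 1).factorial : ℝ) :=
    Nat.choose_le_pow_div (k + 1) m
  have hm' : (m : ℝ) ≤ 2 * (d : ℝ) := by exact_mod_cast hm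
  have h2 : (m : ℝ) * t ≤ 11 / 5 := by
    calc (m : ℝ) * t ≤ 2 * (d : ℝ) * t := mul_le_mul_of_nonneg_right hm' ht0
      _ = 11 / 5 := by
        rw [ht]
        field_simp
        norm_num
  obtain ⟨j, rfl⟩ := Nat.exists_eq_add_of_le hk
  calc (m.choose (16 + j + 1) : ℝ) * t ^ (16 + j + 1)
      ≤ ((m : ℝ) ^ (16 + j + 1) / ((16 + j + 1).factorial : ℝ)) * t ^ (16 + j + 1) :=
        mul_le_mul_of_nonneg_right h1 (by positivity)
    _ = ((m : ℝ) * t) ^ (16 + j + 1) / ((16 + j + 1).factorial : ℝ) := by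
        rw [mul_pow]; ring
    _ ≤ (11 / 5 : ℝ) ^ (16 + j + 1) / ((16 + j + 1).factorial : ℝ) := by
        gcongr
    _ ≤ 1 / 10 ^ 6 := by
        have := seq_le j
        rw [show j + 17 = 16 + j + 1 by ring] at this
        exact this

end Pool.Agent.CDP
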