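import Mathlib
import Pool.Agent.CDP.Defs
import Pool.Agent.CDP.SOL

/-! CDP, module CONN: connections.

* `conn_mono`: `ReflTransGen.mono`.
* `conn_path`: take a shortest walk from `o` to `S` in the graph with edge set `X`:
  vertices `o = p 0, ..., p n ∈ S` pairwise distinct, `f i ∈ X` an edge with ends `p i, p (i+1)`
  (`Inc (p i) (f i)`, `Inc (p (i+1)) (f i)`, `p i ≠ p (i+1)`, so these are exactly the two ends).
  `F = {f i}`.  If `f j` is incident to `x` then `x = p j` or `x = p (j+1)`, so for given `x` at most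
  two values of `j` are possible.  (E.g. via `SimpleGraph.fromRel`/`SimpleGraph.Walk.toPath`, or
  by taking a chain of minimal length by hand, or by induction on the walk: minimal cardinality of
  `F`.)
* locality and exhaustion for the lattice: `Conn 0 (far d n) W` depends only on the finitely many
  edges with an endpoint in the box `{|x i| ≤ n}` (follow the path until it first leaves the box),
  and the cluster is infinite iff it is not contained in any box. -/

namespace Pool.Agent.CDP

variable {V E : Type*}

theorem Gr.conn_mono (G : Gr V E) {o : V} {S : Set V} {W W' : Set E} (h : W ⊆ W')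
    (hc : G.Conn o S W) : G.Conn o S W' := by
  obtain ⟨z, hz, hr⟩ := hc
  refine ⟨z, hz, Relation.ReflTransGen.mono ?_ _ _ hr⟩
  rintro x y ⟨e, he, h1, h2⟩
  exact ⟨e, h he, h1, h2⟩

/-- a walk of length `n` -/
private def cwalk (R : V → V → Prop) (o : V) (S : Set V) (n : ℕ) : Prop :=
  ∃ p : ℕ → V, p 0 = o ∧ p n ∈ S ∧ ∀ i < n, R (p i) (p (i + 1))

private theorem cwalk_of {R : V → V → Prop} {o z : V} (h : Relation.ReflTransGen R o z) :
    ∃ (n : ℕ) (p : ℕ → V), p 0 = o ∧ p n = z ∧ ∀ i < n, R (p i) (p (i + 1)) := by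
  classical
  induction h with
  | refl => exact ⟨0, fun _ => o, rfl, rfl, fun i hi => absurd hi (Nat.not_lt_zero _)⟩
  | @tail b c _ hbc ih =>
    obtain ⟨n, p, h0, h1, h2⟩ := ih
    refine ⟨n + 1, fun k => if k ≤ n then p k else c, ?_, ?_, ?_⟩
    · show (if 0 ≤ n then p 0 else c) = o
      rw [if_pos (Nat.zero_le _), h0]
    · show (if n + 1 ≤ n then p (n + 1) else c) = c
      rw [if_neg (by omega)]
    · intro i hi
      show R (if i ≤ n then p i else c) (if i + 1 ≤ n then p (i + 1) else c)
      rw [if_pos (by omega)]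
      by_cases h : i + 1 ≤ n
      · rw [if_pos h]
        exact h2 i h
      · rw [if_neg h]
        have : i = n := by omega
        rw [this, h1]
        exact hbc

private theorem cwalk_short {R : V → V → Prop} {o : V} {S : Set V} {n : ℕ} {p : ℕ → V}
    (h0 : p 0 = o) (h1 : p n ∈ S) (h2 : ∀ i < n, R (p i) (p (i + 1))) {i j : ℕ} (hij : i < j) (hj : j ≤ n)
    (he : p i = p j) : cwalk R o S (n - (j - i)) := by
  classical
  refine ⟨fun k => if k ≤ i then p k else p (k + (j - i)), ?_, ?_, ?_⟩
  · show (if 0 ≤ i then p 0 else p (0 + (j - i))) = o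
    rw [if_pos (Nat.zero_le _), h0]
  · show (if n - (j - i) ≤ i then p (n - (j - i)) else p (n - (j - i) + (j - i))) ∈ S
    by_cases h : n - (j - i) ≤ i
    · rw [if_pos h]
      have h3 : n = j := by omega
      have h4 : n - (j - i) = i := by omega
      rw [h4, he, ← h3]
      exact h1
    · rw [if_neg h]
      have h4 : n - (j - i) + (j - i) = n := by omega
      rw [h4]
      exact h1
  · intro k hk
    show R (if k ≤ i then p k else p (k + (j - i))) (if k + 1 ≤ i then p (k + 1) else p (k + 1 + (j - i)))
    by_cases h : k + 1 ≤ i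
    · rw [if_pos (by omega), if_pos h]
      exact h2 k (by omega)
    · rw [if_neg h]
      by_cases h' : k ≤ i
      · have hki : k = i := by omega
        rw [if_pos h', hki, he]
        have h4 : i + 1 + (j - i) = j + 1 := by omega
        rw [h4]
        exact h2 j (by omega)
      · rw [if_neg h']
        have h4 : k + 1 + (j - i) = k + (j - i) + 1 := by omega
        rw [h4]
        exact h2 (k + (j - i)) (by omega)

private theorem cinc_ends (G : Gr V E) {x y z : V} {e : E} (hx : G.Inc x e) (hy : G.Inc y e) (hz : G.Inc z e)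
    (hxy : x ≠ y) : z = x ∨ z = y := by
  rcases hx with hx | hx <;> rcases hy with hy | hy <;> rcases hz with hz | hz
  · exact absurd (hx.symm.trans hy) hxy
  · exact absurd (hx.symm.trans hy) hxy
  · exact Or.inl (hz.symm.trans hx)
  · exact Or.inr (hz.symm.trans hy)
  · exact Or.inr (hz.symm.trans hy)
  · exact Or.inl (hz.symm.trans hx)
  · exact absurd (hx.symm.trans hy) hxy
  · exact absurd (hx.symm.trans hy) hxy

theorem Gr.conn_path (G : Gr V E) {o : V} {S : Set V} {X : Finset E}
    (h : G.Conn o S (X : Set E)) :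
    ∃ F : Finset E, F ⊆ X ∧ G.Conn o S (F : Set E) ∧ ∀ x, (G.inc F x).card ≤ 2 := by
  classical
  obtain ⟨z, hz, hr⟩ := h
  have hex : ∃ n, cwalk (G.Adj (X : Set E)) o S n := by
    obtain ⟨n, p, h0, h1, h2⟩ := cwalk_of hr
    exact ⟨n, p, h0, h1 ▸ hz, h2⟩
  set n := Nat.find hex with hn
  obtain ⟨p, h0, h1, h2⟩ := Nat.find_spec hex
  rw [← hn] at h1 h2
  have hmin : ∀ m < n, ¬ cwalk (G.Adj (X : Set E)) o S m := fun m hm => Nat.find_min hex hm
  have hinj : ∀ i j, i < j → j ≤ n → p i ≠ p j := by
    intro i j hij hj he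
    exact hmin _ (by omega) (cwalk_short h0 h1 h2 hij hj he)
  have hch : ∀ i : ℕ, i < n → ∃ e ∈ X, G.Inc (p i) e ∧ G.Inc (p (i + 1)) e := fun i hi => by
    obtain ⟨e, he, h3, h4⟩ := h2 i hi
    exact ⟨e, Finset.mem_coe.1 he, h3, h4⟩
  rcases Nat.eq_zero_or_pos n with hn0 | hn0
  · refine ⟨∅, Finset.empty_subset _, ⟨o, ?_, Relation.ReflTransGen.refl⟩, fun x => ?_⟩
    · rw [hn0, h0] at h1
      exact h1
    · unfold Gr.inc
      rw [Finset.filter_empty, Finset.card_empty]
      exact Nat.zero_le _
  obtain ⟨e0, -⟩ := hch 0 hn0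
  have hch' : ∀ i : ℕ, ∃ e : E, i < n → (e ∈ X ∧ G.Inc (p i) e ∧ G.Inc (p (i + 1)) e) := by
    intro i
    by_cases hi : i < n
    · obtain ⟨e, he⟩ := hch i hi
      exact ⟨e, fun _ => he⟩
    · exact ⟨e0, fun h => absurd h hi⟩
  choose f hf using hch'
  refine ⟨(Finset.range n).image f, ?_, ?_, ?_⟩
  · intro e he
    obtain ⟨i, hi, rfl⟩ := Finset.mem_image.1 he
    exact (hf i (Finset.mem_range.1 hi)).1
  · refine ⟨p n, h1, ?_⟩
    have : ∀ m ≤ n, Relation.ReflTransGen (G.Adj (((Finset.range n).image f : Finset E) : Set E)) o (p m) := by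
      intro m
      induction m with
      | zero =>
        intro _
        rw [h0]
      | succ m ih =>
        intro hm
        refine (ih (by omega)).tail ⟨f m, ?_, (hf m (by omega)).2.1, (hf m (by omega)).2.2⟩
        exact Finset.mem_coe.2 (Finset.mem_image_of_mem _ (Finset.mem_range.2 (by omega)))
    exact this n le_rfl
  · intro x
    by_cases hx : ∃ m ≤ n, p m = x
    · obtain ⟨m, hm, rfl⟩ := hx
      have hsub : G.inc ((Finset.range n).image f) (p m) ⊆ {f m, f (m - 1)} := by
        intro e he
        have he' : e ∈ ((Finset.range n).image f).filter (fun e => G.Inc (p m) e) := by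
          convert he using 1
          unfold Gr.inc
          congr
        obtain ⟨he1, he2⟩ := Finset.mem_filter.1 he'
        obtain ⟨i, hi, rfl⟩ := Finset.mem_image.1 he1
        have hi' := Finset.mem_range.1 hi
        have hne : p i ≠ p (i + 1) := hinj i (i + 1) (by omega) (by omega)
        rw [Finset.mem_insert, Finset.mem_singleton]
        rcases cinc_ends G (hf i hi').2.1 (hf i hi').2.2 he2 hne with hc | hc
        · left
          have : m = i := by
            rcases lt_trichotomy m i with h5 | h5 | h5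
            · exact absurd hc (hinj m i h5 (by omega))
            · exact h5
            · exact absurd hc.symm (hinj i m h5 hm)
          rw [this]
        · right
          have : m = i + 1 := by
            rcases lt_trichotomy m (i + 1) with h5 | h5 | h5
            · exact absurd hc (hinj m (i + 1) h5 (by omega))
            · exact h5
            · exact absurd hc.symm (hinj (i + 1) m h5 hm)
          rw [this, Nat.add_sub_cancel]
      exact (Finset.card_le_card hsub).trans Finset.card_le_two
    · have hempty : G.inc ((Finset.range n).image f) x = ∅ := by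
        rw [Finset.eq_empty_iff_forall_notMem]
        intro e he
        have he' : e ∈ ((Finset.range n).image f).filter (fun e => G.Inc x e) := by
          convert he using 1
          unfold Gr.inc
          congr
        obtain ⟨he1, he2⟩ := Finset.mem_filter.1 he'
        obtain ⟨i, hi, rfl⟩ := Finset.mem_image.1 he1
        have hi' := Finset.mem_range.1 hi
        have hne : p i ≠ p (i + 1) := hinj i (i + 1) (by omega) (by omega)
        rcases cinc_ends G (hf i hi').2.1 (hf i hi').2.2 he2 hne with hc | hc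
        · exact hx ⟨i, by omega, hc.symm⟩
        · exact hx ⟨i + 1, by omega, hc.symm⟩
      rw [hempty, Finset.card_empty]
      exact Nat.zero_le _

/-- the box -/
private noncomputable def cbox (d : ℕ) (m : ℕ) : Finset (Vx d) := Fintype.piFinset fun _ => Finset.Icc (-(m : ℤ)) m

private theorem mem_cbox {d m : ℕ} {x : Vx d} : x ∈ cbox d m ↔ ∀ i, |x i| ≤ (m : ℤ) := by
  unfold cbox
  rw [Fintype.mem_piFinset]
  simp only [Finset.mem_Icc, abs_le]

private theorem cbox_of_not_far {d m : ℕ} {x : Vx d} (h : x ∉ far d m) : x ∈ cbox d m := by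
  rw [mem_cbox]
  intro i
  by_contra hn
  exact h ⟨i, not_le.1 hn⟩

private theorem cedge {d n : ℕ} {y : Vx d} {e : Ed d} (hy : y ∈ cbox d n) (he : (latt d).Inc y e) :
    e ∈ (cbox d (n + 1)) ×ˢ (Finset.univ : Finset (Fin d)) := by
  rw [Finset.mem_product]
  refine ⟨?_, Finset.mem_univ _⟩
  rw [mem_cbox] at hy ⊢
  intro i
  have hyi := hy i
  rcases he with he | he
  · have he' : e.1 = y := he
    rw [he']
    push_cast
    linarith
  · have he' : e.1 + Pi.single e.2 1 = y := he
    have h1 : e.1 i + (Pi.single e.2 1 : Vx d) i = y i := by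
      rw [← he']
      rfl
    have h2 : |(Pi.single e.2 1 : Vx d) i| ≤ 1 := by
      by_cases hi : i = e.2
      · rw [hi, Pi.single_eq_same]
        simp
      · rw [Pi.single_eq_of_ne hi]
        simp
    rw [abs_le] at hyi h2 ⊢
    push_cast
    constructor <;> linarith [h2.1, h2.2, hyi.1, hyi.2]

private theorem conn_far_aux {d n : ℕ} {W W' : Set (Ed d)}
    (hW : ∀ e ∈ (cbox d (n + 1)) ×ˢ (Finset.univ : Finset (Fin d)), (e ∈ W ↔ e ∈ W'))
    (h : (latt d).Conn 0 (far d n) W) : (latt d).Conn 0 (far d n) W' := by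
  obtain ⟨z, hz, hr⟩ := h
  have key : (latt d).Conn 0 (far d n) W' ∨ Relation.ReflTransGen ((latt d).Adj W') 0 z := by
    clear hz
    induction hr with
    | refl => exact Or.inr Relation.ReflTransGen.refl
    | @tail b c _ hbc ih =>
      rcases ih with ih | ih
      · exact Or.inl ih
      · by_cases hb : b ∈ far d n
        · exact Or.inl ⟨b, hb, ih⟩
        · right
          obtain ⟨e, he, h1, h2⟩ := hbc
          exact ih.tail ⟨e, (hW e (cedge (cbox_of_not_far hb) h1)).1 he, h1, h2⟩
  rcases key with key | key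
  · exact key
  · exact ⟨z, hz, key⟩

theorem conn_far_congr (d n : ℕ) : ∃ Q : Finset (Ed d), ∀ W W' : Set (Ed d),
    (∀ e ∈ Q, (e ∈ W ↔ e ∈ W')) →
    ((latt d).Conn 0 (far d n) W ↔ (latt d).Conn 0 (far d n) W') := by
  refine ⟨(cbox d (n + 1)) ×ˢ (Finset.univ : Finset (Fin d)), fun W W' hW => ⟨?_, ?_⟩⟩
  · exact conn_far_aux hW
  · exact conn_far_aux fun e he => (hW e he).symm

theorem cluster_infinite_iff (d : ℕ) (W : Set (Ed d)) :
    (cluster W).Infinite ↔ ∀ n, (latt d).Conn 0 (far d n) W := by
  constructor
  · intro h n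
    by_contra hn
    refine h ((cbox d n).finite_toSet.subset ?_)
    intro z hz
    refine Finset.mem_coe.2 (cbox_of_not_far fun hf => hn ⟨z, hf, hz⟩)
  · intro h hfin
    set n : ℕ := hfin.toFinset.sup (fun x => Finset.univ.sup (fun i => (x i).natAbs)) with hn
    obtain ⟨z, ⟨i, hi⟩, hz⟩ := h n
    have hz' : z ∈ hfin.toFinset := hfin.mem_toFinset.2 hz
    have h1 : (z i).natAbs ≤ n :=
      (Finset.le_sup (f := fun i => (z i).natAbs) (Finset.mem_univ i)).trans
        (Finset.le_sup (f := fun x : Vx d => Finset.univ.sup (fun i => (x i).natAbs)) hz')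
    have h2 : |z i| = ((z i).natAbs : ℤ) := Int.abs_eq_natAbs _
    rw [h2] at hi
    have h3 : n < (z i).natAbs := by exact_mod_cast hi
    omega

theorem far_antitone (d : ℕ) {m n : ℕ} (h : m ≤ n) : far d n ⊆ far d m := by
  rintro x ⟨i, hi⟩
  refine ⟨i, lt_of_le_of_lt ?_ hi⟩
  exact_mod_cast h

/-- at most `2 d` edges at a vertex -/
theorem card_inc_latt (d : ℕ) (X : Finset (Ed d)) (x : Vx d) :
    ((latt d).inc X x).card ≤ 2 * d := by
  classical
  have hsub : (latt d).inc X x ⊆ (Finset.univ.image fun i : Fin d => ((x, i) : Ed d)) ∪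
      (Finset.univ.image fun i : Fin d => ((x - Pi.single i 1, i) : Ed d)) := by
    intro e he
    have he' : e ∈ X.filter (fun e => (latt d).Inc x e) := by
      convert he using 1
      unfold Gr.inc
      congr
    rcases (Finset.mem_filter.1 he').2 with h | h
    · have h' : e.1 = x := h
      refine Finset.mem_union_left _ (Finset.mem_image.2 ⟨e.2, Finset.mem_univ _, ?_⟩)
      rw [← h']
    · have h' : e.1 + Pi.single e.2 1 = x := h
      refine Finset.mem_union_right _ (Finset.mem_image.2 ⟨e.2, Finset.mem_univ _, ?_⟩)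
      rw [← h', add_sub_cancel_right]
  calc ((latt d).inc X x).card ≤ _ := Finset.card_le_card hsub
    _ ≤ (Finset.univ.image fun i : Fin d => ((x, i) : Ed d)).card +
        (Finset.univ.image fun i : Fin d => ((x - Pi.single i 1, i) : Ed d)).card := Finset.card_union_le _ _
    _ ≤ (Finset.univ : Finset (Fin d)).card + (Finset.univ : Finset (Fin d)).card :=
        add_le_add Finset.card_image_le Finset.card_image_le
    _ = 2 * d := by
        rw [Finset.card_univ, Fintype.card_fin]
        ring

end Pool.Agent.CDP
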