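import Mathlib
import Pool.Agent.CDP.Defs
import Pool.Agent.CDP.SOL

/-! CDP, module DISC: the discrepancy between the process `X` with capacities `cap` and the process
`Y` with one more unit of capacity at `v` (capacities `cap'`).

PROOF.  Fix `B`.  Show by induction on `B0 ⊆ B` (insert an edge `e` of largest label,
`Finset.induction_on_max_value s`, injectivity gives strict inequalities; use `sol_insert_max`)
the following invariant, where `X0 = sol cap B0`, `Y0 = sol cap' B0` and the remaining capacities are
`cX x = cap x - (inc X0 x).card`, `cY x = cap' x - (inc Y0 x).card` (naturals; degrees are at most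
the capacities by `card_inc_sol_le`; it may be easier to work in `ℤ`):

(I) there are `y : V` and a sign such that either (plus) `cY = cX + 1_y`, or (minus) `cX = cY + 1_y`
    and `y ≠ v`; and if `y ≠ v` then there is `w ∈ HC κ B v` with `Adj B w y`;
(D1') for all `e ∈ X0`, `e ∉ Y0` there is `u ∈ HC κ B v`, `u ≠ v`, `Inc u e`,
    `(pre s Y0 u e).card = cap u`, `∀ f ∈ X0, Inc u f → s f ≤ s e` and `(inc X0 u).card = cap u`,
    `(inc Y0 u).card = cap u`;
(D2') for all `e` in exactly one of `X0, Y0` some `w ∈ HC κ B v` is an endpoint of `e`.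

Step: let the new edge `e` have endpoints `a, b`.  If `y` is not an endpoint, `cX = cY` at both
endpoints, so `e` is accepted by both or by none and (I) holds with the same `y`, sign.  If `y = a`
(the case `y = b` is the same): `cX b = cY b`.  If this is `0`, nobody accepts.  Otherwise, with
`{cX a, cY a} = {m, m + 1}`: if `m ≥ 1` both accept and nothing changes; if `m = 0` exactly one
process (the one with the larger capacity at `a`) accepts, and afterwards both capacities at `a` are
`0`, and at `b` the process which accepted has one unit less: so the new discrepancy vertex is `b`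
with the opposite sign.  In the last case `a` has `0` remaining capacity in one process before and in
both after, so it is saturated: `κ ≤ cap a ≤ (inc (insert e B0) a).card ≤ (inc B a).card`, hence `a`
is heavy in `B`; `a = v` or `a` is adjacent to a vertex of `HC κ B v`, so `a ∈ HC κ B v` (for
`a = v`: `v` heavy and `ReflTransGen.refl`), and the new discrepancy vertex `b` is adjacent (via
`e ∈ B`) to `a ∈ HC κ B v`.  Also `b ≠ v`: if `a = v` clear (`a ≠ b`); if `a ≠ v` and `b = v`:
`v` is heavy (HC nonempty), but we need `b ≠ v` when the new sign is minus and we need to exclude that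
the discrepancy returns to `v`: every vertex left by the discrepancy has remaining capacity `0` in
both processes (add to (I): if `y ≠ v` then `cX v = cY v = 0`), so `e` would not be accepted.
(D1') new case: `e` accepted only by `X`: then `cX a = 1, cY a = 0`, sign minus, so `a ≠ v` and
`u = a`: `(pre s Y u e).card = (inc Y0 a).card = cap' a = cap a`, all other edges of `X` at `a` have
smaller labels, and both are saturated afterwards.  (D1') old case: the old `u` is saturated in both,
so a new accepted edge is not incident to `u`; thus nothing changes.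
`HC` is defined relative to the full `B` (for `κ ≥ 1` every heavy vertex is an endpoint of an edge of
`B`, so the `filter` in the definition is harmless; prove `mem_HC` first). -/

namespace Pool.Agent.CDP

variable {V E : Type*}

theorem Gr.mem_HC (G : Gr V E) {κ : ℕ} (hκ : 1 ≤ κ) {B : Finset E} {v x : V} :
    x ∈ G.HC κ B v ↔ G.Heavy κ B v ∧ G.Heavy κ B x ∧ Relation.ReflTransGen (G.HR κ B) v x := by
  classical
  unfold Gr.HC
  rw [Finset.mem_filter, Finset.mem_union, Finset.mem_image, Finset.mem_image]
  constructor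
  · exact fun h => h.2
  · intro h
    refine ⟨?_, h⟩
    have h1 : 0 < (G.inc B x).card := lt_of_lt_of_le hκ h.2.1
    obtain ⟨e, he⟩ := Finset.card_pos.1 h1
    obtain ⟨he1, he2⟩ := G.mem_inc.1 he
    rcases he2 with h2 | h2
    · exact Or.inl ⟨e, he1, h2⟩
    · exact Or.inr ⟨e, he1, h2⟩

private theorem HR_symm (G : Gr V E) (κ : ℕ) (B : Finset E) {x y : V} (h : G.HR κ B x y) : G.HR κ B y x := by
  obtain ⟨h1, h2, e, he, h3, h4⟩ := h
  exact ⟨h2, h1, e, he, h4, h3⟩

private theorem RTG_symm (G : Gr V E) (κ : ℕ) (B : Finset E) {x y : V}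
    (h : Relation.ReflTransGen (G.HR κ B) x y) : Relation.ReflTransGen (G.HR κ B) y x := by
  induction h with
  | refl => exact Relation.ReflTransGen.refl
  | tail _ h2 ih => exact Relation.ReflTransGen.head (HR_symm G κ B h2) ih

/-- if `u` is in the heavy cluster of `v` the two clusters coincide -/
theorem Gr.HC_eq (G : Gr V E) {κ : ℕ} (hκ : 1 ≤ κ) {B : Finset E} {v u : V}
    (hu : u ∈ G.HC κ B v) : G.HC κ B u = G.HC κ B v := by
  obtain ⟨h1, h2, h3⟩ := (G.mem_HC hκ).1 hu
  ext x
  rw [G.mem_HC hκ, G.mem_HC hκ]
  constructor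
  · rintro ⟨-, h5, h6⟩
    exact ⟨h1, h5, h3.trans h6⟩
  · rintro ⟨-, h5, h6⟩
    exact ⟨h2, h5, (RTG_symm G κ B h3).trans h6⟩

private theorem heavy_of_le (G : Gr V E) {κ : ℕ} {B W : Finset E} (hW : W ⊆ B) {x : V} (h : κ ≤ (G.inc W x).card) :
    G.Heavy κ B x := by
  refine h.trans (Finset.card_le_card ?_)
  intro e he
  obtain ⟨h1, h2⟩ := G.mem_inc.1 he
  exact G.mem_inc.2 ⟨hW h1, h2⟩

open Classical in
private theorem card_inc_insert (G : Gr V E) {X : Finset E} {e : E} (he : e ∉ X) (x : V) :
    (G.inc (insert e X) x).card = (G.inc X x).card + (if G.Inc x e then 1 else 0) := by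
  by_cases h : G.Inc x e
  · rw [if_pos h]
    have h1 : G.inc (insert e X) x = insert e (G.inc X x) := by
      ext f
      rw [G.mem_inc, Finset.mem_insert, Finset.mem_insert, G.mem_inc]
      constructor
      · rintro ⟨h2 | h2, h3⟩
        · exact Or.inl h2
        · exact Or.inr ⟨h2, h3⟩
      · rintro (h2 | ⟨h2, h3⟩)
        · rw [h2]
          exact ⟨Or.inl rfl, h⟩
        · exact ⟨Or.inr h2, h3⟩
    rw [h1, Finset.card_insert_of_notMem]
    intro h2
    exact he (G.mem_inc.1 h2).1
  · rw [if_neg h, add_zero]
    congr 1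
    ext f
    rw [G.mem_inc, Finset.mem_insert, G.mem_inc]
    constructor
    · rintro ⟨h2 | h2, h3⟩
      · rw [h2] at h3
        exact absurd h3 h
      · exact ⟨h2, h3⟩
    · rintro ⟨h2, h3⟩
      exact ⟨Or.inr h2, h3⟩

open Classical in
private theorem pre_insert' (G : Gr V E) {s : E → ℝ} {X : Finset E} {e g : E} (h : s g ≤ s e) (x : V) :
    G.pre s (insert e X) x g = G.pre s X x g := by
  ext f
  rw [G.mem_pre, G.mem_pre, Finset.mem_insert]
  constructor
  · rintro ⟨h1 | h1, h2, h3⟩
    · rw [h1] at h3
      exact absurd h3 (not_lt.2 h)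
    · exact ⟨h1, h2, h3⟩
  · rintro ⟨h1, h2, h3⟩
    exact ⟨Or.inr h1, h2, h3⟩

open Classical in
private structure Inv (G : Gr V E) (s : E → ℝ) (κ : ℕ) (B : Finset E) (cap cap' : V → ℕ) (v : V) (X Y : Finset E)
    (y : V) (σ τ : ℕ) : Prop where
  bal : ∀ x, cap' x + (G.inc X x).card + (if x = y then τ else 0) =
    cap x + (G.inc Y x).card + (if x = y then σ else 0)
  sgn : (σ = 1 ∧ τ = 0) ∨ (σ = 0 ∧ τ = 1 ∧ y ≠ v)
  sat : y ≠ v → (G.inc X v).card = cap v ∧ (G.inc Y v).card = cap' v ∧ ∃ w ∈ G.HC κ B v, G.Adj (B : Set E) w y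
  d1 : ∀ e ∈ X, e ∉ Y → ∃ u ∈ G.HC κ B v, u ≠ v ∧ G.Inc u e ∧ (G.pre s Y u e).card = cap u ∧
    (∀ f ∈ X, G.Inc u f → s f ≤ s e) ∧ (G.inc X u).card = cap u ∧ (G.inc Y u).card = cap u
  d2 : ∀ e, ((e ∈ X ∧ e ∉ Y) ∨ (e ∉ X ∧ e ∈ Y)) → ∃ w ∈ G.HC κ B v, G.Inc w e

private theorem other_end (G : Gr V E) {e : E} {y : V} (hy : G.Inc y e) :
    ∃ z, z ≠ y ∧ G.Inc z e ∧ ∀ x, G.Inc x e → x = y ∨ x = z := by
  rcases hy with h | h
  · refine ⟨G.b e, ?_, Or.inr rfl, ?_⟩
    · rw [← h]
      exact (G.ne e).symm
    · rintro x (h1 | h1)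
      · exact Or.inl (h1.symm.trans h)
      · exact Or.inr h1.symm
  · refine ⟨G.a e, ?_, Or.inl rfl, ?_⟩
    · rw [← h]
      exact G.ne e
    · rintro x (h1 | h1)
      · exact Or.inr h1.symm
      · exact Or.inl (h1.symm.trans h)

private theorem mem_y (G : Gr V E) {s : E → ℝ} {κ : ℕ} (hκ : 1 ≤ κ) {B : Finset E} {cap cap' : V → ℕ} {v : V}
    {X Y : Finset E} {y : V} {σ τ : ℕ} (h : Inv G s κ B cap cap' v X Y y σ τ) (hy : G.Heavy κ B y) :
    y ∈ G.HC κ B v := by
  by_cases hyv : y = v
  · subst hyv
    exact (G.mem_HC hκ).2 ⟨hy, hy, Relation.ReflTransGen.refl⟩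
  · obtain ⟨-, -, w, hw, ha⟩ := h.sat hyv
    obtain ⟨h1, h2, h3⟩ := (G.mem_HC hκ).1 hw
    exact (G.mem_HC hκ).2 ⟨h1, hy, h3.tail ⟨h2, hy, ha⟩⟩

open Classical in
private theorem step (G : Gr V E) {s : E → ℝ} {κ : ℕ} (hκ : 1 ≤ κ) {B : Finset E} {cap cap' : V → ℕ}
    (hcap : ∀ x, κ ≤ cap x) {v : V} (hne : ∀ x, x ≠ v → cap' x = cap x) (hv : cap' v = cap v + 1) {X Y : Finset E}
    {y : V} {σ τ : ℕ} (h : Inv G s κ B cap cap' v X Y y σ τ) {e : E} (heB : e ∈ B) (hXB : X ⊆ B) (hYB : Y ⊆ B)
    (heX : e ∉ X) (heY : e ∉ Y) (hsX : ∀ f ∈ X, s f < s e) (hsY : ∀ f ∈ Y, s f < s e)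
    (hXc : ∀ x, (G.inc X x).card ≤ cap x) (hYc : ∀ x, (G.inc Y x).card ≤ cap' x) :
    ∃ y' σ' τ', Inv G s κ B cap cap' v
      (if ∀ x, G.Inc x e → (G.inc X x).card < cap x then insert e X else X)
      (if ∀ x, G.Inc x e → (G.inc Y x).card < cap' x then insert e Y else Y) y' σ' τ' := by
  by_cases hX : ∀ x, G.Inc x e → (G.inc X x).card < cap x
  · rw [if_pos hX]
    have hXs : ∀ u, (G.inc X u).card = cap u → ¬ G.Inc u e := by
      intro u h1 h2
      have := hX u h2
      omega
    by_cases hY : ∀ x, G.Inc x e → (G.inc Y x).card < cap' x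
    · -- both accept
      rw [if_pos hY]
      refine ⟨y, σ, τ, ?_, h.sgn, ?_, ?_, ?_⟩
      · intro x
        rw [card_inc_insert G heX, card_inc_insert G heY]
        have := h.bal x
        omega
      · intro hyv
        obtain ⟨h1, h2, h3⟩ := h.sat hyv
        have h4 := hXs v h1
        refine ⟨?_, ?_, h3⟩
        · rw [card_inc_insert G heX, if_neg h4, h1, add_zero]
        · rw [card_inc_insert G heY, if_neg h4, h2, add_zero]
      · intro f hf hfY
        rw [Finset.mem_insert, not_or] at hfY
        rcases Finset.mem_insert.1 hf with hfe | hfX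
        · exact absurd hfe hfY.1
        · obtain ⟨u, hu, huv, hue, hp, hm, hdx, hdy⟩ := h.d1 f hfX hfY.2
          have h4 := hXs u hdx
          refine ⟨u, hu, huv, hue, ?_, ?_, ?_, ?_⟩
          · rw [pre_insert' G (hsX f hfX).le]
            exact hp
          · intro g hg hgu
            rcases Finset.mem_insert.1 hg with h5 | h5
            · rw [h5] at hgu
              exact absurd hgu h4
            · exact hm g h5 hgu
          · rw [card_inc_insert G heX, if_neg h4, hdx, add_zero]
          · rw [card_inc_insert G heY, if_neg h4, hdy, add_zero]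
      · intro f hf
        refine h.d2 f ?_
        rcases hf with ⟨h1, h2⟩ | ⟨h1, h2⟩
        · rw [Finset.mem_insert, not_or] at h2
          rcases Finset.mem_insert.1 h1 with h3 | h3
          · exact absurd h3 h2.1
          · exact Or.inl ⟨h3, h2.2⟩
        · rw [Finset.mem_insert, not_or] at h1
          rcases Finset.mem_insert.1 h2 with h3 | h3
          · exact absurd h3 h1.1
          · exact Or.inr ⟨h1.2, h3⟩
    · -- only X accepts
      rw [if_neg hY]
      push Not at hY
      obtain ⟨x, hxe, hxc⟩ := hY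
      have hxc' : (G.inc Y x).card = cap' x := le_antisymm (hYc x) hxc
      have hxX := hX x hxe
      have hb := h.bal x
      have hxy : x = y ∧ τ = 1 ∧ σ = 0 := by
        rcases h.sgn with ⟨h1, h2⟩ | ⟨h1, h2, -⟩
        · subst h1 h2
          split_ifs at hb <;> omega
        · subst h1 h2
          split_ifs at hb with h3
          · exact ⟨h3, rfl, rfl⟩
          · omega
      obtain ⟨rfl, rfl, rfl⟩ := hxy
      have hyv : x ≠ v := by
        rcases h.sgn with ⟨h1, -⟩ | ⟨-, -, h2⟩
        · omega
        · exact h2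
      rw [if_pos rfl, if_pos rfl] at hb
      obtain ⟨z, hzx, hze, hz⟩ := other_end G hxe
      have hbz := h.bal z
      rw [if_neg hzx, if_neg hzx] at hbz
      have hXz := hX z hze
      obtain ⟨hv1, hv2, -⟩ := h.sat hyv
      have hzv : z ≠ v := by
        rintro rfl
        omega
      have hve : ¬ G.Inc v e := hXs v hv1
      have hcx : cap' x = cap x := hne x hyv
      have hheavy : G.Heavy κ B x := heavy_of_le G hYB (by rw [hxc', hcx]; exact hcap x)
      have hxHC := mem_y G hκ h hheavy
      refine ⟨z, 1, 0, ?_, Or.inl ⟨rfl, rfl⟩, ?_, ?_, ?_⟩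
      · intro t
        rw [card_inc_insert G heX]
        by_cases htz : t = z
        · subst htz
          rw [if_pos hze, if_pos rfl, if_pos rfl]
          omega
        · rw [if_neg htz, if_neg htz]
          by_cases htx : t = x
          · subst htx
            rw [if_pos hxe]
            omega
          · have hte : ¬ G.Inc t e := by
              intro h5
              rcases hz t h5 with h6 | h6
              · exact htx h6
              · exact htz h6
            rw [if_neg hte]
            have := h.bal t
            rw [if_neg htx, if_neg htx] at this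
            omega
      · intro _
        refine ⟨?_, hv2, x, hxHC, e, heB, hxe, hze⟩
        rw [card_inc_insert G heX, if_neg hve, hv1, add_zero]
      · intro f hf hfY
        rcases Finset.mem_insert.1 hf with hfe | hfX
        · subst hfe
          refine ⟨x, hxHC, hyv, hxe, ?_, ?_, ?_, ?_⟩
          · have h5 : G.pre s Y x f = G.inc Y x := by
              ext g
              rw [G.mem_pre, G.mem_inc]
              constructor
              · rintro ⟨a1, a2, -⟩
                exact ⟨a1, a2⟩
              · rintro ⟨a1, a2⟩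
                exact ⟨a1, a2, hsY g a1⟩
            rw [h5, hxc', hcx]
          · intro g hg _
            rcases Finset.mem_insert.1 hg with h5 | h5
            · rw [h5]
            · exact (hsX g h5).le
          · rw [card_inc_insert G heX, if_pos hxe]
            omega
          · rw [hxc', hcx]
        · obtain ⟨u, hu, huv, hue, hp, hm, hdx, hdy⟩ := h.d1 f hfX hfY
          have h4 := hXs u hdx
          refine ⟨u, hu, huv, hue, hp, ?_, ?_, hdy⟩
          · intro g hg hgu
            rcases Finset.mem_insert.1 hg with h5 | h5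
            · rw [h5] at hgu
              exact absurd hgu h4
            · exact hm g h5 hgu
          · rw [card_inc_insert G heX, if_neg h4, hdx, add_zero]
      · intro f hf
        by_cases hfe : f = e
        · rw [hfe]
          exact ⟨x, hxHC, hxe⟩
        · refine h.d2 f ?_
          rcases hf with ⟨h1, h2⟩ | ⟨h1, h2⟩
          · rcases Finset.mem_insert.1 h1 with h3 | h3
            · exact absurd h3 hfe
            · exact Or.inl ⟨h3, h2⟩
          · rw [Finset.mem_insert, not_or] at h1
            exact Or.inr ⟨h1.2, h2⟩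
  · rw [if_neg hX]
    by_cases hY : ∀ x, G.Inc x e → (G.inc Y x).card < cap' x
    · -- only Y accepts
      rw [if_pos hY]
      push Not at hX
      obtain ⟨x, hxe, hxc⟩ := hX
      have hxc' : (G.inc X x).card = cap x := le_antisymm (hXc x) hxc
      have hxY := hY x hxe
      have hb := h.bal x
      have hxy : x = y ∧ τ = 0 ∧ σ = 1 := by
        rcases h.sgn with ⟨h1, h2⟩ | ⟨h1, h2, -⟩
        · subst h1 h2
          split_ifs at hb with h3
          · exact ⟨h3, rfl, rfl⟩
          · omega
        · subst h1 h2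
          split_ifs at hb <;> omega
      obtain ⟨rfl, rfl, rfl⟩ := hxy
      rw [if_pos rfl, if_pos rfl] at hb
      obtain ⟨z, hzx, hze, hz⟩ := other_end G hxe
      have hbz := h.bal z
      rw [if_neg hzx, if_neg hzx] at hbz
      have hYz := hY z hze
      have hzv : z ≠ v := by
        rintro rfl
        obtain ⟨-, hv2, -⟩ := h.sat hzx.symm
        omega
      have hheavy : G.Heavy κ B x := heavy_of_le G hXB (by rw [hxc']; exact hcap x)
      have hxHC := mem_y G hκ h hheavy
      refine ⟨z, 0, 1, ?_, Or.inr ⟨rfl, rfl, hzv⟩, ?_, ?_, ?_⟩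
      · intro t
        rw [card_inc_insert G heY]
        by_cases htz : t = z
        · subst htz
          rw [if_pos hze, if_pos rfl, if_pos rfl]
          omega
        · rw [if_neg htz, if_neg htz]
          by_cases htx : t = x
          · subst htx
            rw [if_pos hxe]
            omega
          · have hte : ¬ G.Inc t e := by
              intro h5
              rcases hz t h5 with h6 | h6
              · exact htx h6
              · exact htz h6
            rw [if_neg hte]
            have := h.bal t
            rw [if_neg htx, if_neg htx] at this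
            omega
      · intro _
        by_cases hxv : x = v
        · subst hxv
          refine ⟨hxc', ?_, x, hxHC, e, heB, hxe, hze⟩
          rw [card_inc_insert G heY, if_pos hxe]
          omega
        · obtain ⟨hv1, hv2, -⟩ := h.sat hxv
          have hve : ¬ G.Inc v e := by
            intro h5
            have := hY v h5
            omega
          refine ⟨hv1, ?_, x, hxHC, e, heB, hxe, hze⟩
          rw [card_inc_insert G heY, if_neg hve, hv2, add_zero]
      · intro f hfX hfY
        rw [Finset.mem_insert, not_or] at hfY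
        obtain ⟨u, hu, huv, hue, hp, hm, hdx, hdy⟩ := h.d1 f hfX hfY.2
        have h4 : ¬ G.Inc u e := by
          intro h5
          have := hY u h5
          rw [hne u huv] at this
          omega
        refine ⟨u, hu, huv, hue, ?_, hm, hdx, ?_⟩
        · rw [pre_insert' G (hsX f hfX).le]
          exact hp
        · rw [card_inc_insert G heY, if_neg h4, hdy, add_zero]
      · intro f hf
        by_cases hfe : f = e
        · rw [hfe]
          exact ⟨x, hxHC, hxe⟩
        · refine h.d2 f ?_
          rcases hf with ⟨h1, h2⟩ | ⟨h1, h2⟩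
          · rw [Finset.mem_insert, not_or] at h2
            exact Or.inl ⟨h1, h2.2⟩
          · rcases Finset.mem_insert.1 h2 with h3 | h3
            · exact absurd h3 hfe
            · exact Or.inr ⟨h1, h3⟩
    · rw [if_neg hY]
      exact ⟨y, σ, τ, h⟩

theorem Gr.disc (G : Gr V E) {s : E → ℝ} {κ : ℕ} (hκ : 1 ≤ κ) {B : Finset E}
    (hs : Set.InjOn s (B : Set E)) {cap cap' : V → ℕ} (hcap : ∀ x, κ ≤ cap x) {v : V}
    (hv : cap' v = cap v + 1) (hne : ∀ x, x ≠ v → cap' x = cap x) :
    (∀ e, e ∈ G.sol s cap B → e ∉ G.sol s cap' B → ∃ u ∈ G.HC κ B v, u ≠ v ∧ G.Inc u e ∧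
      (G.pre s (G.sol s cap' B) u e).card = cap u ∧
      ∀ f ∈ G.sol s cap B, G.Inc u f → s f ≤ s e) ∧
    (∀ e, ((e ∈ G.sol s cap B ∧ e ∉ G.sol s cap' B) ∨ (e ∉ G.sol s cap B ∧ e ∈ G.sol s cap' B)) →
      ∃ w ∈ G.HC κ B v, G.Inc w e) := by
  classical
  have key : ∀ B0 : Finset E, B0 ⊆ B → ∃ y σ τ, Inv G s κ B cap cap' v (G.sol s cap B0) (G.sol s cap' B0) y σ τ := by
    intro B0
    refine Finset.induction_on_max_value s B0 ?_ ?_
    · intro _
      have e1 : G.sol s cap ∅ = ∅ := Finset.subset_empty.1 (G.sol_subset s cap ∅)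
      have e2 : G.sol s cap' ∅ = ∅ := Finset.subset_empty.1 (G.sol_subset s cap' ∅)
      rw [e1, e2]
      refine ⟨v, 1, 0, ?_, Or.inl ⟨rfl, rfl⟩, fun h => absurd rfl h, ?_, ?_⟩
      · intro x
        by_cases hx : x = v
        · subst hx
          rw [if_pos rfl, if_pos rfl, hv]
          omega
        · rw [if_neg hx, if_neg hx, hne x hx]
      · intro e he
        exact absurd he (Finset.notMem_empty e)
      · rintro e (⟨h1, -⟩ | ⟨-, h2⟩)
        · exact absurd h1 (Finset.notMem_empty e)
        · exact absurd h2 (Finset.notMem_empty e)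
    · intro e B1 he hmax ih hB
      have heB : e ∈ B := hB (Finset.mem_insert_self _ _)
      have hB1 : B1 ⊆ B := (Finset.subset_insert _ _).trans hB
      obtain ⟨y, σ, τ, h⟩ := ih hB1
      have hlt : ∀ f ∈ B1, s f < s e := by
        intro f hf
        refine lt_of_le_of_ne (hmax f hf) ?_
        intro h3
        have := hs (hB1 hf) heB h3
        rw [this] at hf
        exact he hf
      rw [G.sol_insert_max he hlt, G.sol_insert_max he hlt]
      have hs1 : Set.InjOn s (B1 : Set E) := hs.mono hB1
      exact step G hκ hcap hne hv h heB ((G.sol_subset s cap B1).trans hB1) ((G.sol_subset s cap' B1).trans hB1)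
        (fun h1 => he (G.sol_subset s cap B1 h1)) (fun h1 => he (G.sol_subset s cap' B1 h1))
        (fun f hf => hlt f (G.sol_subset s cap B1 hf)) (fun f hf => hlt f (G.sol_subset s cap' B1 hf))
        (fun x => G.card_inc_sol_le hs1 x) (fun x => G.card_inc_sol_le hs1 x)
  obtain ⟨y, σ, τ, h⟩ := key B (Finset.Subset.refl B)
  refine ⟨?_, h.d2⟩
  intro e he heY
  obtain ⟨u, hu, huv, hue, hp, hm, -, -⟩ := h.d1 e he heY
  exact ⟨u, hu, huv, hue, hp, hm⟩

end Pool.Agent.CDP
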