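import Mathlib
import Pool.Agent.CDP.Defs

/-! CDP, module EXU: for good labels there is exactly one solution `ω`.

PROOF.  For injective `U` and `f ≠ e`: `U f ≤ U e` iff `U f < U e`.  So the rule for `e` only uses
`ω f` with `Below U f e`.  Existence: `WellFounded.fix` for the relation `Below U`
(`⟨fun e => h.2 e⟩ : WellFounded (Below U)`), with value
`∀ x, Inc x e → {f | Inc x f ∧ ∃ h : Below U f e, rec f h}.ncard < κ`.  Uniqueness: well-founded
induction.
`acc_of_large`: if `2 * d ≤ κ` then every edge is accepted: the other edges at `x` are at most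
`2 d - 1 < κ` many (they form a subset of the finite set of the edges at `x`, which has at most `2 d`
elements and contains `e`). -/

namespace Pool.Agent.CDP

private theorem exu_set {d : ℕ} {U : Ed d → unitInterval} (hU : Function.Injective U)
    (ω : Ed d → Prop) {x : Vx d} {e : Ed d} (hx : (latt d).Inc x e) :
    {f | (latt d).Inc x f ∧ f ≠ e ∧ U f ≤ U e ∧ ω f} =
      {f | (latt d).Inc x f ∧ ∃ _ : Below U f e, ω f} := by
  ext f
  simp only [Set.mem_setOf_eq]
  constructor
  · rintro ⟨h1, h2, h3, h4⟩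
    exact ⟨h1, ⟨lt_of_le_of_ne h3 (fun h => h2 (hU h)), x, h1, hx⟩, h4⟩
  · rintro ⟨h1, ⟨h2, -⟩, h4⟩
    refine ⟨h1, ?_, h2.le, h4⟩
    rintro rfl
    exact lt_irrefl _ h2

theorem exists_unique {d : ℕ} {U : Ed d → unitInterval} (h : GoodU U) (κ : ℕ) :
    ∃! ω : Ed d → Prop, IsCDP κ U ω := by
  have wf : WellFounded (Below U) := ⟨h.2⟩
  let F : ∀ e : Ed d, (∀ f : Ed d, Below U f e → Prop) → Prop := fun e rec =>
    ∀ x, (latt d).Inc x e → {f | (latt d).Inc x f ∧ ∃ hf : Below U f e, rec f hf}.ncard < κ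
  refine ⟨wf.fix F, ?_, ?_⟩
  · intro e
    have h1 := wf.fix_eq F e
    rw [h1]
    refine forall_congr' fun x => forall_congr' fun hx => ?_
    rw [exu_set h.1 _ hx]
  · intro ω hω
    have key : ∀ e, (ω e ↔ wf.fix F e) := by
      intro e
      induction e using wf.induction with
      | _ e ih =>
        rw [hω e, wf.fix_eq F e]
        refine forall_congr' fun x => forall_congr' fun hx => ?_
        rw [exu_set h.1 _ hx]
        have h2 : {f | (latt d).Inc x f ∧ ∃ _ : Below U f e, ω f} =
            {f | (latt d).Inc x f ∧ ∃ _ : Below U f e, wf.fix F f} := by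
          ext f
          simp only [Set.mem_setOf_eq]
          constructor
          · rintro ⟨a, b, c⟩
            exact ⟨a, b, (ih f b).1 c⟩
          · rintro ⟨a, b, c⟩
            exact ⟨a, b, (ih f b).2 c⟩
        rw [h2]
    funext e
    exact propext (key e)

private theorem exu_edges {d : ℕ} (x : Vx d) :
    {f : Ed d | (latt d).Inc x f}.Finite ∧ {f : Ed d | (latt d).Inc x f}.ncard ≤ 2 * d := by
  classical
  have hsub : {f : Ed d | (latt d).Inc x f} ⊆
      ((Finset.univ.image (fun i : Fin d => ((x, i) : Ed d)) ∪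
        Finset.univ.image (fun i : Fin d => ((x - Pi.single i 1, i) : Ed d)) : Finset (Ed d)) :
        Set (Ed d)) := by
    rintro ⟨y, i⟩ hf
    rw [Set.mem_setOf_eq] at hf
    rw [Finset.mem_coe, Finset.mem_union, Finset.mem_image, Finset.mem_image]
    rcases hf with hf | hf
    · left
      refine ⟨i, Finset.mem_univ _, ?_⟩
      change y = x at hf
      rw [hf]
    · right
      refine ⟨i, Finset.mem_univ _, ?_⟩
      change y + Pi.single i 1 = x at hf
      rw [← hf, add_sub_cancel_right]
  refine ⟨(Finset.finite_toSet _).subset hsub, ?_⟩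
  refine (Set.ncard_le_ncard hsub (Finset.finite_toSet _)).trans ?_
  rw [Set.ncard_coe_finset]
  refine (Finset.card_union_le _ _).trans ?_
  have h1 := Finset.card_image_le (s := (Finset.univ : Finset (Fin d)))
    (f := fun i : Fin d => ((x, i) : Ed d))
  have h2 := Finset.card_image_le (s := (Finset.univ : Finset (Fin d)))
    (f := fun i : Fin d => ((x - Pi.single i 1, i) : Ed d))
  rw [Finset.card_univ, Fintype.card_fin] at h1 h2
  omega

private theorem exu_lt {d κ : ℕ} (hκ : 2 * d ≤ κ) (U : Ed d → unitInterval) (ω : Ed d → Prop)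
    {x : Vx d} {e : Ed d} (hx : (latt d).Inc x e) :
    {f | (latt d).Inc x f ∧ f ≠ e ∧ U f ≤ U e ∧ ω f}.ncard < κ := by
  obtain ⟨hfin, hcard⟩ := exu_edges x
  refine lt_of_lt_of_le (Set.ncard_lt_ncard ?_ hfin) (hcard.trans hκ)
  refine ⟨fun f hf => hf.1, fun hsub => ?_⟩
  exact (hsub hx).2.1 rfl

theorem acc_of_large {d κ : ℕ} (hκ : 2 * d ≤ κ) {U : Ed d → unitInterval} {ω : Ed d → Prop}
    (h : IsCDP κ U ω) (e : Ed d) : ω e :=
  (h e).2 fun _ hx => exu_lt hκ U ω hx

private theorem exu_true {d κ : ℕ} (hκ : 2 * d ≤ κ) (U : Ed d → unitInterval) :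
    IsCDP κ U (fun _ => True) :=
  fun _ => ⟨fun _ _ hx => exu_lt hκ U _ hx, fun _ => trivial⟩

/-- no constraint: the critical times agree -/
theorem tc_eq_of_large {d κ : ℕ} (hκ : 2 * d ≤ κ) : tc κ d = tc (κ + 1) d := by
  have hth : ∀ t : ℝ, theta κ d t = theta (κ + 1) d t := by
    intro t
    unfold theta
    congr 1
    ext U
    simp only [Set.mem_setOf_eq]
    constructor
    · rintro ⟨ω, h1, h2⟩
      have h3 : ω = fun _ => True := funext fun e => propext ⟨fun _ => trivial, fun _ => acc_of_large hκ h1 e⟩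
      subst h3
      exact ⟨_, exu_true (by omega) U, h2⟩
    · rintro ⟨ω, h1, h2⟩
      have h3 : ω = fun _ => True := funext fun e => propext
        ⟨fun _ => trivial, fun _ => acc_of_large (by omega) h1 e⟩
      subst h3
      exact ⟨_, exu_true hκ U, h2⟩
  unfold tc
  simp only [hth]

end Pool.Agent.CDP
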