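import Mathlib

/-! CDP, module LEV (only Mathlib): averaging over levels of the cube.

PROOF.  `n = 𝒱.card`, `F k = ∑ K ∈ powersetCard k 𝒱, f K`.  Double counting:
`∑ K ∈ powersetCard k 𝒱, ∑ v ∈ 𝒱 \ K, f (insert v K) = (k + 1) * F (k + 1)` (pairs `(K, v)`
correspond to pairs `(L, v)`, `v ∈ L`, `L = insert v K`, `K = L.erase v`) and
`∑ K ∈ powersetCard k 𝒱, ∑ v ∈ 𝒱 \ K, f K = (n - k) * F k`.  So the hypothesis says
`(n - k) * F k ≤ (k + 1) * F (k + 1)`, i.e. `F k / n.choose k ≤ F (k + 1) / n.choose (k + 1)`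
(`Nat.succ_mul_choose_eq`/`Nat.choose_succ_right_eq`: `n.choose (k+1) * (k+1) = n.choose k * (n-k)`).
Hence `f ∅ = F 0 ≤ F n = f 𝒱`. -/

namespace Pool.Agent.CDP

private theorem lev_count {V : Type*} [DecidableEq V] (W : Finset V) (f : Finset V → ℝ) (k : ℕ) :
    ∑ K ∈ Finset.powersetCard k W, ∑ v ∈ W \ K, f (insert v K) =
      (k + 1) * ∑ L ∈ Finset.powersetCard (k + 1) W, f L := by
  have h1 : ∑ L ∈ Finset.powersetCard (k + 1) W, ∑ _v ∈ L, f L =
      (k + 1) * ∑ L ∈ Finset.powersetCard (k + 1) W, f L := by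
    rw [Finset.mul_sum]
    refine Finset.sum_congr rfl fun L hL => ?_
    rw [Finset.sum_const, (Finset.mem_powersetCard.1 hL).2, nsmul_eq_mul]
    push_cast
    ring
  rw [← h1, Finset.sum_sigma', Finset.sum_sigma']
  refine Finset.sum_bij' (fun p _ => ⟨insert p.2 p.1, p.2⟩) (fun p _ => ⟨p.1.erase p.2, p.2⟩) ?_ ?_ ?_ ?_ ?_
  · rintro ⟨K, v⟩ h
    simp only [Finset.mem_sigma, Finset.mem_powersetCard, Finset.mem_sdiff] at h ⊢
    obtain ⟨⟨h2, h3⟩, h4, h5⟩ := h
    refine ⟨⟨Finset.insert_subset h4 h2, ?_⟩, Finset.mem_insert_self _ _⟩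
    rw [Finset.card_insert_of_notMem h5, h3]
  · rintro ⟨L, v⟩ h
    simp only [Finset.mem_sigma, Finset.mem_powersetCard, Finset.mem_sdiff] at h ⊢
    obtain ⟨⟨h2, h3⟩, h4⟩ := h
    refine ⟨⟨(Finset.erase_subset _ _).trans h2, ?_⟩, h2 h4, Finset.notMem_erase _ _⟩
    rw [Finset.card_erase_of_mem h4, h3, Nat.add_sub_cancel]
  · rintro ⟨K, v⟩ h
    simp only [Finset.mem_sigma, Finset.mem_powersetCard, Finset.mem_sdiff] at h
    simp only [Finset.erase_insert h.2.2]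
  · rintro ⟨L, v⟩ h
    simp only [Finset.mem_sigma, Finset.mem_powersetCard] at h
    simp only [Finset.insert_erase h.2]
  · rintro ⟨K, v⟩ _
    rfl

theorem levels {V : Type*} [DecidableEq V] (𝒱 : Finset V) (f : Finset V → ℝ)
    (h : ∀ k, k < 𝒱.card →
      0 ≤ ∑ K ∈ Finset.powersetCard k 𝒱, ∑ v ∈ 𝒱 \ K, (f (insert v K) - f K)) :
    f ∅ ≤ f 𝒱 := by
  have hstep : ∀ k ≤ 𝒱.card, (𝒱.card.choose k : ℝ) * f ∅ ≤ ∑ K ∈ Finset.powersetCard k 𝒱, f K := by
    intro k
    induction k with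
    | zero =>
      intro _
      simp
    | succ k ih =>
      intro hk
      have h1 := h k (by omega)
      have h2 := ih (by omega)
      have h3 : ∑ K ∈ Finset.powersetCard k 𝒱, ∑ v ∈ 𝒱 \ K, (f (insert v K) - f K) =
          (k + 1) * ∑ L ∈ Finset.powersetCard (k + 1) 𝒱, f L -
            (𝒱.card - k) * ∑ K ∈ Finset.powersetCard k 𝒱, f K := by
        rw [← lev_count, Finset.mul_sum, ← Finset.sum_sub_distrib]
        refine Finset.sum_congr rfl fun K hK => ?_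
        obtain ⟨h4, h5⟩ := Finset.mem_powersetCard.1 hK
        rw [Finset.sum_sub_distrib, Finset.sum_const, Finset.card_sdiff_of_subset h4, h5, nsmul_eq_mul,
          Nat.cast_sub (by omega)]
      rw [h3] at h1
      have h6 : (𝒱.card.choose (k + 1) : ℝ) * (k + 1) = 𝒱.card.choose k * (𝒱.card - k) := by
        have h7 := Nat.choose_succ_right_eq 𝒱.card k
        have h8 : ((𝒱.card.choose (k + 1) * (k + 1) : ℕ) : ℝ) = ((𝒱.card.choose k * (𝒱.card - k) : ℕ) : ℝ) := by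
          rw [h7]
        push_cast [Nat.cast_sub (show k ≤ 𝒱.card by omega)] at h8
        exact h8
      have h9 : (0 : ℝ) ≤ (𝒱.card : ℝ) - k := by
        have : (k : ℝ) ≤ 𝒱.card := by exact_mod_cast (show k ≤ 𝒱.card by omega)
        linarith
      have h10 := mul_le_mul_of_nonneg_left h2 h9
      have hk1 : (0 : ℝ) < (k : ℝ) + 1 := by positivity
      have h11 : ((k : ℝ) + 1) * ((𝒱.card.choose (k + 1) : ℝ) * f ∅) ≤
          ((k : ℝ) + 1) * ∑ K ∈ Finset.powersetCard (k + 1) 𝒱, f K := by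
        calc ((k : ℝ) + 1) * ((𝒱.card.choose (k + 1) : ℝ) * f ∅)
            = ((𝒱.card.choose (k + 1) : ℝ) * (k + 1)) * f ∅ := by ring
          _ = (𝒱.card - k) * ((𝒱.card.choose k : ℝ) * f ∅) := by rw [h6]; ring
          _ ≤ _ := by linarith
      exact le_of_mul_le_mul_left h11 hk1
  have h := hstep 𝒱.card le_rfl
  rw [Nat.choose_self, Finset.powersetCard_self, Finset.sum_singleton] at h
  simpa using h

end Pool.Agent.CDP
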