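import Mathlib
import Pool.Agent.CDP.Defs

/-! CDP, module HYB: a change of an increasing event along time hybrids.

PROOF.  For a real `r` let `T_r = Y_{< r} ∪ X_{≥ r}`.  Among all `e ∈ B` with
`¬ A (Y_{≤ e} ∪ X_{> e})` (by label) take the one of smallest label; there is one: the edge of largest
label in `B` (then the set is `Y`); `B` is nonempty since otherwise `X = Y = ∅`.  By minimality
`A (Y_{< e} ∪ X_{≥ e})` (if `e` is the smallest edge of `B` this set is `X`, otherwise it is the set
of the previous edge).  If `e ∉ X` then `Y_{< e} ∪ X_{≥ e} = Y_{< e} ∪ X_{> e} ⊆ Y_{≤ e} ∪ X_{> e}`,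
contradiction to monotonicity.  So `e ∈ X`; if `e ∈ Y` the two sets are equal, contradiction.
So `e ∈ X \ Y` and with `T = Y_{< e} ∪ X_{> e}` we have `A (insert e T)` and `¬ A T`.
(Alternative: induction on `B` removing the largest edge.) -/

namespace Pool.Agent.CDP

theorem hybrid {E : Type*} [DecidableEq E] {s : E → ℝ} {B X Y : Finset E}
    (hs : Set.InjOn s (B : Set E)) (hX : X ⊆ B) (hY : Y ⊆ B) {A : Finset E → Prop}
    (hA : ∀ X Y : Finset E, X ⊆ Y → A X → A Y) (h1 : A X) (h2 : ¬ A Y) :
    ∃ e ∈ X, e ∉ Y ∧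
      A (insert e (Y.filter (fun f => s f < s e) ∪ X.filter (fun f => s e < s f))) ∧
      ¬ A (Y.filter (fun f => s f < s e) ∪ X.filter (fun f => s e < s f)) := by
  have hBne : B.Nonempty := by
    by_contra hB
    rw [Finset.not_nonempty_iff_eq_empty] at hB
    subst hB
    rw [Finset.subset_empty.1 hX] at h1
    rw [Finset.subset_empty.1 hY] at h2
    exact h2 h1
  set P : E → Prop := fun e => ¬ A (Y.filter (fun f => s f ≤ s e) ∪ X.filter (fun f => s e < s f)) with hP
  obtain ⟨m, hmB, hm⟩ := Finset.exists_max_image B s hBne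
  have hPm : P m := by
    have e1 : Y.filter (fun f => s f ≤ s m) = Y :=
      Finset.filter_true_of_mem fun f hf => hm f (hY hf)
    have e2 : X.filter (fun f => s m < s f) = ∅ :=
      Finset.filter_false_of_mem fun f hf => not_lt.2 (hm f (hX hf))
    simp only [hP, e1, e2, Finset.union_empty]
    exact h2
  classical
  obtain ⟨e, heP, hmin⟩ := Finset.exists_min_image (B.filter P) s ⟨m, Finset.mem_filter.2 ⟨hmB, hPm⟩⟩
  obtain ⟨heB, hPe⟩ := Finset.mem_filter.1 heP
  have hmin' : ∀ f ∈ B, s f < s e → A (Y.filter (fun g => s g ≤ s f) ∪ X.filter (fun g => s f < s g)) := by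
    intro f hf hlt
    by_contra hn
    have := hmin f (Finset.mem_filter.2 ⟨hf, hn⟩)
    linarith
  -- the hybrid just before `e`
  have hA1 : A (Y.filter (fun f => s f < s e) ∪ X.filter (fun f => s e ≤ s f)) := by
    by_cases hne : (B.filter (fun f => s f < s e)).Nonempty
    · obtain ⟨g, hg, hgmax⟩ := Finset.exists_max_image _ s hne
      obtain ⟨hgB, hgl⟩ := Finset.mem_filter.1 hg
      have hlt : ∀ f ∈ B, (s f ≤ s g ↔ s f < s e) := by
        intro f hf
        constructor
        · intro h
          linarith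
        · intro h
          exact hgmax f (Finset.mem_filter.2 ⟨hf, h⟩)
      have e1 : Y.filter (fun f => s f < s e) = Y.filter (fun f => s f ≤ s g) :=
        Finset.filter_congr fun f hf => (hlt f (hY hf)).symm
      have e2 : X.filter (fun f => s e ≤ s f) = X.filter (fun f => s g < s f) :=
        Finset.filter_congr fun f hf => by
          have h5 := (hlt f (hX hf)).not
          rw [not_le, not_lt] at h5
          exact h5.symm
      rw [e1, e2]
      exact hmin' g hgB hgl
    · rw [Finset.not_nonempty_iff_eq_empty] at hne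
      have hn : ∀ f ∈ B, ¬ s f < s e := by
        intro f hf h
        have : f ∈ B.filter (fun f => s f < s e) := Finset.mem_filter.2 ⟨hf, h⟩
        rw [hne] at this
        simp at this
      refine hA X _ ?_ h1
      intro f hf
      exact Finset.mem_union_right _ (Finset.mem_filter.2 ⟨hf, not_lt.1 (hn f (hX hf))⟩)
  set T := Y.filter (fun f => s f < s e) ∪ X.filter (fun f => s e < s f) with hT
  have heX : e ∈ X := by
    by_contra hne
    apply hPe
    refine hA _ _ ?_ hA1
    intro f hf
    rcases Finset.mem_union.1 hf with h | h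
    · obtain ⟨h3, h4⟩ := Finset.mem_filter.1 h
      exact Finset.mem_union_left _ (Finset.mem_filter.2 ⟨h3, h4.le⟩)
    · obtain ⟨h3, h4⟩ := Finset.mem_filter.1 h
      refine Finset.mem_union_right _ (Finset.mem_filter.2 ⟨h3, lt_of_le_of_ne h4 fun h5 => ?_⟩)
      have h6 : e = f := hs heB (hX h3) h5
      exact hne (h6 ▸ h3)
  have hA2 : A (insert e T) := by
    refine hA _ _ ?_ hA1
    intro f hf
    rcases Finset.mem_union.1 hf with h | h
    · exact Finset.mem_insert_of_mem (Finset.mem_union_left _ h)
    · obtain ⟨h3, h4⟩ := Finset.mem_filter.1 h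
      rcases eq_or_lt_of_le h4 with h5 | h5
      · have h6 : e = f := hs heB (hX h3) h5
        rw [h6]
        exact Finset.mem_insert_self _ _
      · exact Finset.mem_insert_of_mem (Finset.mem_union_right _ (Finset.mem_filter.2 ⟨h3, h5⟩))
  have heY : e ∉ Y := by
    intro hY'
    apply hPe
    refine hA _ _ ?_ hA2
    intro f hf
    rcases Finset.mem_insert.1 hf with rfl | h
    · exact Finset.mem_union_left _ (Finset.mem_filter.2 ⟨hY', le_rfl⟩)
    · rcases Finset.mem_union.1 h with h | h
      · obtain ⟨h3, h4⟩ := Finset.mem_filter.1 h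
        exact Finset.mem_union_left _ (Finset.mem_filter.2 ⟨h3, h4.le⟩)
      · exact Finset.mem_union_right _ h
  refine ⟨e, heX, heY, hA2, fun hAT => hPe (hA _ _ ?_ hAT)⟩
  intro f hf
  rcases Finset.mem_union.1 hf with h | h
  · obtain ⟨h3, h4⟩ := Finset.mem_filter.1 h
    exact Finset.mem_union_left _ (Finset.mem_filter.2 ⟨h3, h4.le⟩)
  · exact Finset.mem_union_right _ h

end Pool.Agent.CDP
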