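import Mathlib
import Pool.Agent.CDP.Defs
import Pool.Agent.CDP.SOL
import Pool.Agent.CDP.DISC
import Pool.Agent.CDP.HYB
import Pool.Agent.CDP.CONN

/-! CDP, module SURG: the surgery.

Setting: `X = sol (capK κ K) B`, `Y = sol (capK κ (insert v K)) B`, `v ∉ K`; the connection
`A = Conn o S` holds in `X` and fails in `Y`.

1. `hybrid` (module HYB) gives `e ∈ X \ Y` such that with `T = Y_{< e} ∪ X_{> e}` (labels) `A` holds
   in `insert e T` and fails in `T`.
2. `disc` (D1), with `cap = capK κ K`, `cap' = capK κ (insert v K)`: an endpoint `u ≠ v` of `e`,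
   `u ∈ HC κ B v`, with `(pre s Y u e).card = capK κ K u`, and `e` has the largest label among the
   edges of `X` at `u`.  Hence `inc T u = pre s Y u e` has exactly `capK κ K u` elements, all with
   label smaller than that of `e`; so `inc (insert e T) u` has `capK κ K u + 1` elements and `e` is
   the latest of them.
3. Let `H = HC κ B v = HC κ B u` (`HC_eq`).  `conn_path` applied to `insert e T` gives
   `F ⊆ insert e T` with `A F` and at most two edges at each vertex; `e ∈ F` (otherwise `F ⊆ T`).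
4. `Q ⊆ inc (insert e T) u` with `inc F u ⊆ Q`, and `Q.card = κ + 1`: if `u ∉ K` take all of
   `inc (insert e T) u` (`κ + 1` elements); if `u ∈ K` there are `κ + 2` elements and we remove one
   which is not in `F` (possible as `κ + 2 > 2`).  `e ∈ Q` as `e ∈ inc F u`.
5. `B' = (B.filter (fun f => ∀ y ∈ H, ¬ Inc y f)) ∪ F ∪ Q`, and `K' = K` if `u ∉ K`,
   `K' = insert v (K.erase u)` if `u ∈ K`.
6. Facts: `T ⊆ B`, so `B' ⊆ B`.  An edge `f ∈ B` which is not in `B'` is incident to a vertex of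
   `H`.  For `y ∈ H`, `y ≠ u`: the edges of `B'` at `y` are in `inc F y` (at most two) or are edges
   of `Q` at `y`, i.e. the edge `u y` (at most one, `G.simple`): at most `3`.  `inc B' u = Q` (edges
   of `F` at `u` are in `Q`; edges of the first part are not incident to `u ∈ H`).
7. By (D2) of `disc`, `X` and `Y` agree on edges not incident to `H`, hence so do `X` and `T`.
8. CLAIM: `X1 = X° ∪ F ∪ Q` is the solution for `B'` with capacities `capK κ (insert u K')` and
   `X0 = X1.erase e` is the solution for `B'` with capacities `capK κ K'`, where `X°` is the set of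
   edges of `X` not incident to `H`.  Check the rule for each `f ∈ B'`:
   * `f` not incident to `H` (then `f ∈ B`).  Such an `f ∈ F ∪ Q` is in `T`, so in `X` by 7.
     So `f ∈ X1` iff `f ∈ X` iff the rule holds in `X`.  Let `x` be an endpoint of `f`; `x ∉ H`.
     If no edge of `B` incident to `H` is incident to `x`, then the edges of `B'` at `x` are those of
     `B` at `x`, and `X`, `X1`, `X0` have the same edges at `x`, and the capacity of `x` is the same
     (`x ≠ u, v`), so the condition at `x` is the same.  If some edge `g ∈ B` joins `x` to `y ∈ H`,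
     then `x` is not heavy (otherwise `x ∈ H`), so `x` has less than `κ` edges in `B ⊇ B'` and the
     condition at `x` is true both in `X` and in `X1`, `X0`.
   * `f ∈ F ∪ Q` incident to `H`: it is in `X1`, and in `X0` unless `f = e`.  Endpoints `x`:
     `x ∉ H`: as before `x` is not heavy, the condition is true.  `x ∈ H`, `x ≠ u`: at most `3` edges
     of `B'` at `x`, so at most `2` before `f`... in any case `pre.card ≤ 3 < κ`.  `x = u`:
     `inc B' u = Q` with `κ + 1` elements, `e` the latest.  If `f ≠ e`: `pre` does not contain `e`, `f`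
     so `pre.card ≤ κ - 1 < κ`.  If `f = e`: in `X1`: `pre.card ≤ κ < κ + 1` (capacity of `u` is
     `κ + 1`): accepted.  In `X0`: `pre = Q.erase e` has `κ` elements, capacity `κ` (`u ∉ K'`):
     rejected.
9. `A X1` since `F ⊆ X1`.  `X0 ⊆ T`: `X° ⊆ T` by 7, `F.erase e ⊆ T`, `Q.erase e ⊆ T`; so `¬ A X0`. -/

namespace Pool.Agent.CDP

variable {V E : Type*}

private theorem capK_pos {κ : ℕ} {K : Finset V} {x : V} (h : x ∈ K) : Gr.capK κ K x = κ + 1 := by
  unfold Gr.capK
  rw [if_pos h]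

private theorem capK_neg {κ : ℕ} {K : Finset V} {x : V} (h : x ∉ K) : Gr.capK κ K x = κ := by
  unfold Gr.capK
  rw [if_neg h]

private theorem capK_ge {κ : ℕ} {K : Finset V} {x : V} : κ ≤ Gr.capK κ K x := by
  by_cases h : x ∈ K
  · rw [capK_pos h]
    omega
  · rw [capK_neg h]

private theorem capK_congr {κ : ℕ} {K K' : Finset V} {x : V} (h : x ∈ K ↔ x ∈ K') :
    Gr.capK κ K x = Gr.capK κ K' x := by
  by_cases h' : x ∈ K
  · rw [capK_pos h', capK_pos (h.1 h')]
  · rw [capK_neg h', capK_neg fun h'' => h' (h.2 h'')]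

/-- the new set of vertices -/
private theorem exists_K' [DecidableEq V] {K : Finset V} {u v : V} (hv : v ∉ K) (huv : u ≠ v) :
    ∃ K' : Finset V, u ∉ K' ∧ K'.card = K.card ∧ K' ⊆ insert v K ∧ (v ∉ K' → K = K') ∧
      (v ∈ K' → K = insert u (K'.erase v)) ∧ ∀ x, x ≠ u → x ≠ v → (x ∈ K' ↔ x ∈ K) := by
  by_cases hu : u ∈ K
  · refine ⟨insert v (K.erase u), ?_, ?_, ?_, ?_, ?_, ?_⟩
    · simp [huv]
    · rw [Finset.card_insert_of_notMem (by simp [hv]), Finset.card_erase_of_mem hu]
      have := Finset.card_pos.2 ⟨u, hu⟩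
      omega
    · exact Finset.insert_subset_insert _ (Finset.erase_subset _ _)
    · intro h
      exact absurd (Finset.mem_insert_self _ _) h
    · intro _
      rw [Finset.erase_insert (by simp [hv]), Finset.insert_erase hu]
    · intro x hxu hxv
      simp [hxu, hxv]
  · refine ⟨K, hu, rfl, Finset.subset_insert _ _, fun _ => rfl, fun h => absurd h hv, fun _ _ _ => Iff.rfl⟩

/-- at most one edge joins two given vertices -/
private theorem edge_unique (G : Gr V E) {x y : V} (hxy : x ≠ y) {f g : E} (h1 : G.Inc x f) (h2 : G.Inc y f)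
    (h3 : G.Inc x g) (h4 : G.Inc y g) : f = g := by
  apply G.simple
  unfold Gr.Inc at h1 h2 h3 h4
  rcases h1 with h1 | h1 <;> rcases h2 with h2 | h2
  · exact absurd (h1.symm.trans h2) hxy
  · rcases h3 with h3 | h3 <;> rcases h4 with h4 | h4
    · exact absurd (h3.symm.trans h4) hxy
    · exact Or.inl ⟨h1.trans h3.symm, h2.trans h4.symm⟩
    · exact Or.inr ⟨h1.trans h3.symm, h2.trans h4.symm⟩
    · exact absurd (h3.symm.trans h4) hxy
  · rcases h3 with h3 | h3 <;> rcases h4 with h4 | h4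
    · exact absurd (h3.symm.trans h4) hxy
    · exact Or.inr ⟨h2.trans h4.symm, h1.trans h3.symm⟩
    · exact Or.inl ⟨h2.trans h4.symm, h1.trans h3.symm⟩
    · exact absurd (h3.symm.trans h4) hxy
  · exact absurd (h1.symm.trans h2) hxy

/-- the rule for the edges which are not incident to `H` -/
private theorem caseA (G : Gr V E) {s : E → ℝ} {κ : ℕ} {B X Z : Finset E} {H : Finset V} {cap cap' : V → ℕ}
    (hcap : ∀ x, κ ≤ cap x) (hcap' : ∀ x, x ∉ H → cap' x = cap x)
    (hXB : X ⊆ B) (hZB : Z ⊆ B) (hX : ∀ e ∈ B, (e ∈ X ↔ ∀ x, G.Inc x e → (G.pre s X x e).card < cap x))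
    (hZ : ∀ f ∈ B, (∀ y ∈ H, ¬ G.Inc y f) → (f ∈ Z ↔ f ∈ X))
    (hnh : ∀ x, x ∉ H → ∀ g ∈ B, G.Inc x g → ¬ (∀ y ∈ H, ¬ G.Inc y g) → ∀ W ⊆ B, ∀ f, (G.pre s W x f).card < κ)
    {f : E} (hf : f ∈ B) (hP : ∀ y ∈ H, ¬ G.Inc y f) :
    f ∈ Z ↔ ∀ x, G.Inc x f → (G.pre s Z x f).card < cap' x := by
  rw [hZ f hf hP, hX f hf]
  refine forall_congr' fun x => forall_congr' fun hx => ?_
  have hxH : x ∉ H := fun h => hP x h hx
  by_cases hall : ∀ g ∈ B, G.Inc x g → ∀ y ∈ H, ¬ G.Inc y g
  · have h1 : G.pre s X x f = G.pre s Z x f := by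
      ext g
      rw [G.mem_pre, G.mem_pre]
      constructor
      · rintro ⟨h2, h3, h4⟩
        exact ⟨(hZ g (hXB h2) (hall g (hXB h2) h3)).2 h2, h3, h4⟩
      · rintro ⟨h2, h3, h4⟩
        exact ⟨(hZ g (hZB h2) (hall g (hZB h2) h3)).1 h2, h3, h4⟩
    rw [h1, hcap' x hxH]
  · have hall' : ∃ g ∈ B, G.Inc x g ∧ ¬ ∀ y ∈ H, ¬ G.Inc y g := by
      by_contra hc
      apply hall
      intro g hg hxg
      by_contra hd
      exact hc ⟨g, hg, hxg, hd⟩
    obtain ⟨g, hg, hxg, hgP⟩ := hall'
    refine iff_of_true ?_ ?_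
    · exact lt_of_lt_of_le (hnh x hxH g hg hxg hgP X hXB f) (hcap x)
    · rw [hcap' x hxH]
      exact lt_of_lt_of_le (hnh x hxH g hg hxg hgP Z hZB f) (hcap x)

theorem Gr.surgery (G : Gr V E) [DecidableEq V] {s : E → ℝ} {κ : ℕ} (hκ : 4 ≤ κ) {B : Finset E}
    (hs : Set.InjOn s (B : Set E)) (o : V) (S : Set V) {K : Finset V} {v : V} (hv : v ∉ K)
    (h1 : G.Conn o S (G.sol s (Gr.capK κ K) B : Set E))
    (h2 : ¬ G.Conn o S (G.sol s (Gr.capK κ (insert v K)) B : Set E)) :
    ∃ (u : V) (K' : Finset V) (B' : Finset E),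
      u ≠ v ∧ u ∉ K' ∧ K'.card = K.card ∧ K' ⊆ insert v K ∧
      (v ∉ K' → K = K') ∧ (v ∈ K' → K = insert u (K'.erase v)) ∧
      ¬ G.Conn o S (G.sol s (Gr.capK κ K') B' : Set E) ∧
      G.Conn o S (G.sol s (Gr.capK κ (insert u K')) B' : Set E) ∧
      G.Pre κ u B' B ∧ v ∈ G.HC κ B u ∧ (G.inc B' u).card = κ + 1 := by
  classical
  have hκ1 : 1 ≤ κ := by omega
  set X := G.sol s (Gr.capK κ K) B with hX
  set Y := G.sol s (Gr.capK κ (insert v K)) B with hY
  have hXB : X ⊆ B := G.sol_subset _ _ _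
  have hYB : Y ⊆ B := G.sol_subset _ _ _
  obtain ⟨e, heX, heY, hT1, hT2⟩ := hybrid (A := fun Z : Finset E => G.Conn o S (Z : Set E)) hs hXB hYB
    (fun Z W h hZ => G.conn_mono (by exact_mod_cast h) hZ) h1 h2
  set T := Y.filter (fun f => s f < s e) ∪ X.filter (fun f => s e < s f) with hT
  obtain ⟨hD1, hD2⟩ := G.disc hκ1 hs (cap := Gr.capK κ K) (cap' := Gr.capK κ (insert v K))
    (fun _ => capK_ge) (v := v) (by rw [capK_pos (Finset.mem_insert_self _ _), capK_neg hv])
    (fun x hx => capK_congr (by simp [hx]))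
  obtain ⟨u, huH, huv, hue, hpre, hmax⟩ := hD1 e heX heY
  have hHeq : G.HC κ B u = G.HC κ B v := G.HC_eq hκ1 huH
  set H := G.HC κ B u with hH
  have huH' : u ∈ H := by rw [hHeq]; exact huH
  have hvH : v ∈ H := by
    rw [hHeq, G.mem_HC hκ1]
    obtain ⟨h3, -, -⟩ := (G.mem_HC hκ1).1 huH
    exact ⟨h3, h3, Relation.ReflTransGen.refl⟩
  have heB : e ∈ B := hXB heX
  have hTB : T ⊆ B := by
    intro f hf
    rcases Finset.mem_union.1 hf with h | h
    · exact hYB (Finset.mem_filter.1 h).1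
    · exact hXB (Finset.mem_filter.1 h).1
  have hinsB : insert e T ⊆ B := Finset.insert_subset heB hTB
  have heT : e ∉ T := by
    intro h
    rcases Finset.mem_union.1 h with h | h
    · exact lt_irrefl _ (Finset.mem_filter.1 h).2
    · exact lt_irrefl _ (Finset.mem_filter.1 h).2
  -- the edges of `T` at `u`
  have hTu : G.inc T u = G.pre s Y u e := by
    ext f
    rw [G.mem_inc, G.mem_pre]
    constructor
    · rintro ⟨h3, h4⟩
      rcases Finset.mem_union.1 h3 with h | h
      · obtain ⟨h5, h6⟩ := Finset.mem_filter.1 h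
        exact ⟨h5, h4, h6⟩
      · obtain ⟨h5, h6⟩ := Finset.mem_filter.1 h
        exact absurd (hmax f h5 h4) (not_le.2 h6)
    · rintro ⟨h3, h4, h5⟩
      exact ⟨Finset.mem_union_left _ (Finset.mem_filter.2 ⟨h3, h5⟩), h4⟩
  have hlate : ∀ f ∈ insert e T, G.Inc u f → f ≠ e → s f < s e := by
    intro f hf hfu hfe
    have h3 : f ∈ T := (Finset.mem_insert.1 hf).resolve_left hfe
    have h4 : f ∈ G.inc T u := G.mem_inc.2 ⟨h3, hfu⟩
    rw [hTu, G.mem_pre] at h4
    exact h4.2.2
  have hinc : (G.inc (insert e T) u).card = Gr.capK κ K u + 1 := by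
    have h3 : G.inc (insert e T) u = insert e (G.inc T u) := by
      ext f
      rw [G.mem_inc, Finset.mem_insert, Finset.mem_insert, G.mem_inc]
      constructor
      · rintro ⟨rfl | h3, h4⟩
        · exact Or.inl rfl
        · exact Or.inr ⟨h3, h4⟩
      · rintro (rfl | ⟨h3, h4⟩)
        · exact ⟨Or.inl rfl, hue⟩
        · exact ⟨Or.inr h3, h4⟩
    rw [h3, Finset.card_insert_of_notMem (fun h => heT (G.mem_inc.1 h).1), hTu, hpre]
  -- the path
  obtain ⟨F, hFT, hFc, hF2⟩ := G.conn_path hT1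
  have heF : e ∈ F := by
    by_contra hne
    apply hT2
    refine G.conn_mono ?_ hFc
    intro f hf
    have hf' : f ∈ F := hf
    rcases Finset.mem_insert.1 (hFT hf') with rfl | h
    · exact absurd hf' hne
    · exact h
  -- the edges kept at `u`
  obtain ⟨Q, hFQ, hQT, hQc⟩ := Finset.exists_subsuperset_card_eq (s := G.inc F u) (t := G.inc (insert e T) u)
    (n := κ + 1) (fun f hf => G.mem_inc.2 ⟨hFT (G.mem_inc.1 hf).1, (G.mem_inc.1 hf).2⟩)
    ((hF2 u).trans (by omega)) (by rw [hinc]; have := capK_ge (κ := κ) (K := K) (x := u); omega)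
  have heQ : e ∈ Q := hFQ (G.mem_inc.2 ⟨heF, hue⟩)
  have hQT' : Q ⊆ insert e T := fun f hf => (G.mem_inc.1 (hQT hf)).1
  have hQu : ∀ f ∈ Q, G.Inc u f := fun f hf => (G.mem_inc.1 (hQT hf)).2
  obtain ⟨K', hK1, hK2, hK3, hK4, hK5, hK6⟩ := exists_K' hv huv
  set B' := (B.filter (fun f => ∀ y ∈ H, ¬ G.Inc y f) ∪ F) ∪ Q with hB'
  have hB'B : B' ⊆ B := by
    intro f hf
    rcases Finset.mem_union.1 hf with h | h
    · rcases Finset.mem_union.1 h with h | h
      · exact (Finset.mem_filter.1 h).1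
      · exact hinsB (hFT h)
    · exact hinsB (hQT' h)
  have hFQ' : ∀ f ∈ B', ¬ (∀ y ∈ H, ¬ G.Inc y f) → f ∈ F ∨ f ∈ Q := by
    intro f hf hn
    rcases Finset.mem_union.1 hf with h | h
    · rcases Finset.mem_union.1 h with h | h
      · exact absurd (Finset.mem_filter.1 h).2 hn
      · exact Or.inl h
    · exact Or.inr h
  have hincu : G.inc B' u = Q := by
    ext f
    rw [G.mem_inc]
    constructor
    · rintro ⟨h3, h4⟩
      rcases hFQ' f h3 (fun h => h u huH' h4) with h | h
      · exact hFQ (G.mem_inc.2 ⟨h, h4⟩)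
      · exact h
    · intro h
      exact ⟨Finset.mem_union_right _ h, hQu f h⟩
  have hinc3 : ∀ y ∈ H, y ≠ u → (G.inc B' y).card ≤ 3 := by
    intro y hy hyu
    have h3 : G.inc B' y ⊆ G.inc F y ∪ Q.filter (fun f => G.Inc y f) := by
      intro f hf
      obtain ⟨h4, h5⟩ := G.mem_inc.1 hf
      rcases hFQ' f h4 (fun h => h y hy h5) with h | h
      · exact Finset.mem_union_left _ (G.mem_inc.2 ⟨h, h5⟩)
      · exact Finset.mem_union_right _ (Finset.mem_filter.2 ⟨h, h5⟩)
    have h4 : (Q.filter (fun f => G.Inc y f)).card ≤ 1 := by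
      rw [Finset.card_le_one]
      intro f hf g hg
      obtain ⟨h5, h6⟩ := Finset.mem_filter.1 hf
      obtain ⟨h7, h8⟩ := Finset.mem_filter.1 hg
      exact edge_unique G hyu h6 (hQu f h5) h8 (hQu g h7)
    have h5 := Finset.card_le_card h3
    have h6 := Finset.card_union_le (G.inc F y) (Q.filter (fun f => G.Inc y f))
    have h7 := hF2 y
    omega
  -- agreement away from `H`
  have hagree : ∀ f ∈ B, (∀ y ∈ H, ¬ G.Inc y f) → (f ∈ T ↔ f ∈ X) := by
    intro f hf hP
    have h3 : f ∈ X ↔ f ∈ Y := by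
      by_contra hc
      have h4 : (f ∈ X ∧ f ∉ Y) ∨ (f ∉ X ∧ f ∈ Y) := by tauto
      obtain ⟨w, hw, hwf⟩ := hD2 f h4
      rw [← hHeq] at hw
      exact hP w hw hwf
    have hfe : f ≠ e := by
      rintro rfl
      exact hP u huH' hue
    have hne : s f ≠ s e := fun h => hfe (hs hf heB h)
    constructor
    · intro h
      rcases Finset.mem_union.1 h with h | h
      · exact h3.2 (Finset.mem_filter.1 h).1
      · exact (Finset.mem_filter.1 h).1
    · intro h
      rcases lt_or_gt_of_ne hne with h4 | h4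
      · exact Finset.mem_union_left _ (Finset.mem_filter.2 ⟨h3.1 h, h4⟩)
      · exact Finset.mem_union_right _ (Finset.mem_filter.2 ⟨h, h4⟩)
  have hagree' : ∀ f ∈ B, (∀ y ∈ H, ¬ G.Inc y f) → f ∈ insert e T → f ∈ X := by
    intro f hf hP h
    rcases Finset.mem_insert.1 h with rfl | h
    · exact absurd hue (hP u huH')
    · exact (hagree f hf hP).1 h
  -- vertices outside `H` joined to `H` are not heavy
  have hnh : ∀ x, x ∉ H → ∀ g ∈ B, G.Inc x g → ¬ (∀ y ∈ H, ¬ G.Inc y g) →
      ∀ W ⊆ B, ∀ f, (G.pre s W x f).card < κ := by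
    intro x hx g hg hxg hgP W hW f
    have hgP' : ∃ y ∈ H, G.Inc y g := by
      by_contra hc
      exact hgP fun y hy h => hc ⟨y, hy, h⟩
    obtain ⟨y, hy, hyg⟩ := hgP'
    have hnot : ¬ G.Heavy κ B x := by
      intro hheavy
      apply hx
      obtain ⟨h3, h4, h5⟩ := (G.mem_HC hκ1).1 hy
      exact (G.mem_HC hκ1).2 ⟨h3, hheavy, h5.tail ⟨h4, hheavy, ⟨g, hg, hyg, hxg⟩⟩⟩
    unfold Gr.Heavy at hnot
    have h3 : G.pre s W x f ⊆ G.inc B x := by
      intro g' hg'
      obtain ⟨h4, h5, -⟩ := G.mem_pre.1 hg'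
      exact G.mem_inc.2 ⟨hW h4, h5⟩
    have := Finset.card_le_card h3
    omega
  have hcase : ∀ Z ⊆ B', ∀ f ∈ B', ¬ (∀ y ∈ H, ¬ G.Inc y f) → ∀ x, G.Inc x f → x ≠ u →
      (G.pre s Z x f).card < κ := by
    intro Z hZ f hf hfP x hx hxu
    by_cases hxH : x ∈ H
    · have h3 : G.pre s Z x f ⊆ G.inc B' x := by
        intro g' hg'
        obtain ⟨h4, h5, -⟩ := G.mem_pre.1 hg'
        exact G.mem_inc.2 ⟨hZ h4, h5⟩
      have h4 := Finset.card_le_card h3
      have h5 := hinc3 x hxH hxu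
      omega
    · exact hnh x hxH f (hB'B hf) hx hfP Z (hZ.trans hB'B) f
  set X1 := (X.filter (fun f => ∀ y ∈ H, ¬ G.Inc y f) ∪ F) ∪ Q with hX1
  have hX1B' : X1 ⊆ B' := by
    intro f hf
    rcases Finset.mem_union.1 hf with h | h
    · rcases Finset.mem_union.1 h with h | h
      · obtain ⟨h3, h4⟩ := Finset.mem_filter.1 h
        exact Finset.mem_union_left _ (Finset.mem_union_left _ (Finset.mem_filter.2 ⟨hXB h3, h4⟩))
      · exact Finset.mem_union_left _ (Finset.mem_union_right _ h)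
    · exact Finset.mem_union_right _ h
  have hX1X : ∀ f ∈ B, (∀ y ∈ H, ¬ G.Inc y f) → (f ∈ X1 ↔ f ∈ X) := by
    intro f hf hP
    constructor
    · intro h
      rcases Finset.mem_union.1 h with h | h
      · rcases Finset.mem_union.1 h with h | h
        · exact (Finset.mem_filter.1 h).1
        · exact hagree' f hf hP (hFT h)
      · exact hagree' f hf hP (hQT' h)
    · intro h
      exact Finset.mem_union_left _ (Finset.mem_union_left _ (Finset.mem_filter.2 ⟨h, hP⟩))
  have hX0X : ∀ f ∈ B, (∀ y ∈ H, ¬ G.Inc y f) → (f ∈ X1.erase e ↔ f ∈ X) := by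
    intro f hf hP
    rw [Finset.mem_erase, hX1X f hf hP]
    constructor
    · exact fun h => h.2
    · intro h
      refine ⟨?_, h⟩
      rintro rfl
      exact hP u huH' hue
  have hFX1 : ∀ f, f ∈ F ∨ f ∈ Q → f ∈ X1 := by
    rintro f (h | h)
    · exact Finset.mem_union_left _ (Finset.mem_union_right _ h)
    · exact Finset.mem_union_right _ h
  have hXsol : ∀ e ∈ B, (e ∈ X ↔ ∀ x, G.Inc x e → (G.pre s X x e).card < Gr.capK κ K x) :=
    (G.isSol_sol s (Gr.capK κ K) B).2
  have hcapH : ∀ x, x ∉ H → (x ∈ K' ↔ x ∈ K) := by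
    intro x hx
    exact hK6 x (fun h => hx (h ▸ huH')) (fun h => hx (h ▸ hvH))
  have hpreQ : ∀ Z ⊆ B', ∀ f, G.pre s Z u f ⊆ Q.erase f := by
    intro Z hZ f g hg
    obtain ⟨h3, h4, h5⟩ := G.mem_pre.1 hg
    rw [Finset.mem_erase, ← hincu]
    exact ⟨fun h => by rw [h] at h5; exact lt_irrefl _ h5, G.mem_inc.2 ⟨hZ h3, h4⟩⟩
  have hsol1 : G.IsSol s (Gr.capK κ (insert u K')) B' X1 := by
    refine ⟨hX1B', fun f hf => ?_⟩
    by_cases hP : ∀ y ∈ H, ¬ G.Inc y f
    · refine caseA G (cap := Gr.capK κ K) (fun _ => capK_ge) ?_ hXB (hX1B'.trans hB'B) hXsol hX1X hnh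
        (hB'B hf) hP
      intro x hx
      refine capK_congr ?_
      rw [Finset.mem_insert, hcapH x hx]
      constructor
      · rintro (rfl | h)
        · exact absurd huH' hx
        · exact h
      · exact Or.inr
    · refine iff_of_true (hFX1 f (hFQ' f hf hP)) fun x hx => ?_
      by_cases hxu : x = u
      · subst hxu
        rw [capK_pos (Finset.mem_insert_self _ _)]
        have h3 := Finset.card_le_card (hpreQ X1 hX1B' f)
        have hfQ : f ∈ Q := by
          rw [← hincu]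
          exact G.mem_inc.2 ⟨hf, hx⟩
        rw [Finset.card_erase_of_mem hfQ, hQc] at h3
        omega
      · exact lt_of_lt_of_le (hcase X1 hX1B' f hf hP x hx hxu) capK_ge
  have hX0B' : X1.erase e ⊆ B' := (Finset.erase_subset _ _).trans hX1B'
  have hsol0 : G.IsSol s (Gr.capK κ K') B' (X1.erase e) := by
    refine ⟨hX0B', fun f hf => ?_⟩
    by_cases hP : ∀ y ∈ H, ¬ G.Inc y f
    · exact caseA G (cap := Gr.capK κ K) (fun _ => capK_ge) (fun x hx => capK_congr (hcapH x hx)) hXB
        (hX0B'.trans hB'B) hXsol hX0X hnh (hB'B hf) hP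
    · by_cases hfe : f = e
      · subst hfe
        refine iff_of_false (Finset.notMem_erase _ _) fun h => ?_
        have h3 := h u hue
        rw [capK_neg hK1] at h3
        have h4 : Q.erase f ⊆ G.pre s (X1.erase f) u f := by
          intro g hg
          obtain ⟨h5, h6⟩ := Finset.mem_erase.1 hg
          exact G.mem_pre.2 ⟨Finset.mem_erase.2 ⟨h5, hFX1 g (Or.inr h6)⟩, hQu g h6,
            hlate g (hQT' h6) (hQu g h6) h5⟩
        have h5 := Finset.card_le_card h4
        rw [Finset.card_erase_of_mem heQ, hQc] at h5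
        omega
      · refine iff_of_true (Finset.mem_erase.2 ⟨hfe, hFX1 f (hFQ' f hf hP)⟩) fun x hx => ?_
        by_cases hxu : x = u
        · subst hxu
          refine lt_of_lt_of_le ?_ capK_ge
          have hfQ : f ∈ Q := by
            rw [← hincu]
            exact G.mem_inc.2 ⟨hf, hx⟩
          have h3 : G.pre s (X1.erase e) x f ⊆ (Q.erase f).erase e := by
            intro g hg
            rw [Finset.mem_erase]
            refine ⟨?_, hpreQ _ hX0B' f hg⟩
            rintro rfl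
            exact absurd (G.mem_pre.1 hg).1 (Finset.notMem_erase _ _)
          have h4 := Finset.card_le_card h3
          rw [Finset.card_erase_of_mem (Finset.mem_erase.2 ⟨fun h => hfe h.symm, heQ⟩),
            Finset.card_erase_of_mem hfQ, hQc] at h4
          omega
        · exact lt_of_lt_of_le (hcase _ hX0B' f hf hP x hx hxu) capK_ge
  refine ⟨u, K', B', huv, hK1, hK2, hK3, hK4, hK5, ?_, ?_, ⟨hB'B, ?_, hinc3, huH', v, hvH, huv.symm⟩, hvH, ?_⟩
  · rw [G.sol_eq hsol0]
    intro hc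
    apply hT2
    refine G.conn_mono ?_ hc
    intro f hf
    have hf' : f ∈ X1.erase e := hf
    obtain ⟨h3, h4⟩ := Finset.mem_erase.1 hf'
    show f ∈ (T : Set E)
    rcases Finset.mem_union.1 h4 with h | h
    · rcases Finset.mem_union.1 h with h | h
      · obtain ⟨h5, h6⟩ := Finset.mem_filter.1 h
        exact (hagree f (hXB h5) h6).2 h5
      · exact (Finset.mem_insert.1 (hFT h)).resolve_left h3
    · exact (Finset.mem_insert.1 (hQT' h)).resolve_left h3
  · rw [G.sol_eq hsol1]
    refine G.conn_mono ?_ hFc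
    intro f hf
    exact hFX1 f (Or.inl hf)
  · intro f hf hfB'
    by_contra hc
    apply hfB'
    refine Finset.mem_union_left _ (Finset.mem_union_left _ (Finset.mem_filter.2 ⟨hf, ?_⟩))
    intro y hy h
    exact hc ⟨y, hy, h⟩
  · rw [hincu, hQc]

end Pool.Agent.CDP
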