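import Mathlib
import Pool.Agent.CDP.Defs
import Pool.Agent.CDP.SOL
import Pool.Agent.CDP.SURG

/-! CDP, module MAPM: the level inequality from the surgery and the preimage bound.

PROOF.  Write `A K B` for `Conn o S (sol s (capK κ K) B)`, `wt B = t ^ B.card * (1 - t) ^ (Λ \ B).card`.
Then `f K = ∑ B ∈ Λ.powerset, wt B * [A K B]` (unfold `Perc.Pr`, `Perc.E`) and
`∑_{K} ∑_{v} (f (insert v K) - f K) = Pos - Neg` where
`Neg = ∑ over triples (K, v, B)`, `K ∈ powersetCard k 𝒱`, `v ∈ 𝒱 \ K`, `B ⊆ Λ`, with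
`A K B ∧ ¬ A (insert v K) B`, of `wt B`, and `Pos` = the same sum over triples with
`¬ A K B ∧ A (insert v K) B` (`[p] - [q] = [p ∧ ¬ q] - [q ∧ ¬ p]`).
For every negative triple choose (`Gr.surgery`) `(u, K', B')`: it is a positive triple `(K', u, B')`:
`K' ∈ powersetCard k 𝒱` (`K' ⊆ insert v K ⊆ 𝒱`), `u ∈ 𝒱` as `u` is an endpoint of an edge of
`B ⊆ Λ` (it is in `HC κ B u`), `B' ⊆ B ⊆ Λ`.  If `t = 0` every `wt B` with `B ≠ ∅` is `0`; it is
convenient to assume `0 < t` (as in the statement).  `wt B = wt B' * (t / (1 - t)) ^ (B \ B').card` for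
`B' ⊆ B ⊆ Λ`.  So `Neg = ∑_{positive (K', u, B')} ∑_{negative (K, v, B) mapped to it} wt B`
(`Finset.sum_fiberwise_of_maps_to` or `Finset.sum_comp`), and for a fixed positive triple the inner sum
is at most `wt B' * ∑_{B : Pre κ u B' B} (number of (K, v)) * τ ^ (B \ B').card`, where for given `B`
the pair `(K, v)` is determined by `v` (if `v ∉ K'` then `K = K'`, else `K = insert u (K'.erase v)`) and
`v ∈ HC κ B u`, `v ≠ u`: at most `(HC κ B u).card - 1` possibilities.  By `hPB` this is at most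
`wt B'`.  If `(inc B' u).card ≠ κ + 1` no triple is mapped to it.  So `Neg ≤ Pos`. -/

namespace Pool.Agent.CDP

variable {V E : Type*}

private theorem MAPM_flat {β γ : Type*} [DecidableEq β] (P : Finset (Finset β)) (Q : Finset β) (R : Finset γ)
    (f : Finset β → β → γ → ℝ) :
    ∑ K ∈ P, ∑ v ∈ Q \ K, ∑ B ∈ R, f K v B =
      ∑ x ∈ (P ×ˢ Q ×ˢ R).filter (fun x => x.2.1 ∉ x.1), f x.1 x.2.1 x.2.2 := by
  rw [Finset.sum_filter, Finset.sum_product]
  refine Finset.sum_congr rfl fun K _ => ?_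
  rw [Finset.sum_product, Finset.sdiff_eq_filter, Finset.sum_filter]
  refine Finset.sum_congr rfl fun v _ => ?_
  by_cases h : v ∈ K
  · simp [h]
  · simp [h]

open Classical in
private theorem MAPM_count {ι : Type*} (Neg Pos : Finset ι) (R : ι → ι → Prop) (w : ι → ℝ)
    (hw : ∀ x ∈ Neg, 0 ≤ w x) (h1 : ∀ x ∈ Neg, ∃ y ∈ Pos, R x y)
    (h2 : ∀ y ∈ Pos, ∑ x ∈ Neg.filter (fun x => R x y), w x ≤ w y) :
    ∑ x ∈ Neg, w x ≤ ∑ y ∈ Pos, w y := by
  calc ∑ x ∈ Neg, w x ≤ ∑ x ∈ Neg, ∑ y ∈ Pos, (if R x y then w x else 0) := by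
        refine Finset.sum_le_sum fun x hx => ?_
        obtain ⟨y, hy, hR⟩ := h1 x hx
        calc w x = if R x y then w x else 0 := by rw [if_pos hR]
          _ ≤ _ := Finset.single_le_sum (f := fun y => if R x y then w x else 0)
              (fun z _ => by
                show 0 ≤ if R x z then w x else 0
                split_ifs
                · exact hw x hx
                · exact le_rfl) hy
    _ = ∑ y ∈ Pos, ∑ x ∈ Neg, (if R x y then w x else 0) := Finset.sum_comm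
    _ ≤ ∑ y ∈ Pos, w y := Finset.sum_le_sum fun y hy => by
        rw [← Finset.sum_filter]
        exact h2 y hy

private theorem MAPM_end (G : Gr V E) {κ : ℕ} {B : Finset E} {u : V} (h : u ∈ G.HC κ B u) :
    ∃ e ∈ B, G.a e = u ∨ G.b e = u := by
  classical
  unfold Gr.HC at h
  have h2 := (Finset.mem_filter.1 h).1
  rcases Finset.mem_union.1 h2 with h3 | h3
  · obtain ⟨e, he, h4⟩ := Finset.mem_image.1 h3
    exact ⟨e, he, Or.inl h4⟩
  · obtain ⟨e, he, h4⟩ := Finset.mem_image.1 h3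
    exact ⟨e, he, Or.inr h4⟩

private theorem MAPM_wt [DecidableEq E] {Λ B B' : Finset E} (h1 : B' ⊆ B) (h2 : B ⊆ Λ) {t : ℝ} (ht1 : t < 1) :
    t ^ B.card * (1 - t) ^ (Λ \ B).card =
      t ^ B'.card * (1 - t) ^ (Λ \ B').card * (t / (1 - t)) ^ (B \ B').card := by
  have e1 : B.card = B'.card + (B \ B').card := by
    rw [Finset.card_sdiff_of_subset h1]
    have := Finset.card_le_card h1
    omega
  have e2 : (Λ \ B').card = (Λ \ B).card + (B \ B').card := by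
    rw [Finset.card_sdiff_of_subset h1, Finset.card_sdiff_of_subset h2, Finset.card_sdiff_of_subset (h1.trans h2)]
    have := Finset.card_le_card h1
    have := Finset.card_le_card h2
    omega
  have e3 : (1 - t) ≠ 0 := by linarith
  rw [e1, e2, pow_add, pow_add, div_pow]
  field_simp

open Classical in
theorem Gr.level_nonneg (G : Gr V E) [DecidableEq V] [DecidableEq E] {s : E → ℝ} {κ : ℕ} (hκ : 4 ≤ κ) {Λ : Finset E}
    (hs : Set.InjOn s (Λ : Set E)) {t : ℝ} (ht0 : 0 < t) (ht1 : t < 1) (o : V) (S : Set V)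
    {𝒱 : Finset V} (h𝒱 : ∀ e ∈ Λ, G.a e ∈ 𝒱 ∧ G.b e ∈ 𝒱)
    (hPB : ∀ u, ∀ B' ⊆ Λ, (G.inc B' u).card = κ + 1 →
      ∑ B ∈ Λ.powerset.filter (fun B => G.Pre κ u B' B),
        (((G.HC κ B u).card : ℝ) - 1) * (t / (1 - t)) ^ (B \ B').card ≤ 1) (k : ℕ) :
    0 ≤ ∑ K ∈ Finset.powersetCard k 𝒱, ∑ v ∈ 𝒱 \ K,
      (Perc.Pr t Λ (fun B => G.Conn o S (G.sol s (Gr.capK κ (insert v K)) B : Set E)) -
        Perc.Pr t Λ (fun B => G.Conn o S (G.sol s (Gr.capK κ K) B : Set E))) := by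
  have ht1' : (0 : ℝ) ≤ 1 - t := by linarith
  obtain ⟨A, hA⟩ : ∃ A : Finset V → Finset E → Prop,
      A = fun K B => G.Conn o S (G.sol s (Gr.capK κ K) B : Set E) := ⟨_, rfl⟩
  obtain ⟨wt, hwt⟩ : ∃ wt : Finset E → ℝ, wt = fun B => t ^ B.card * (1 - t) ^ (Λ \ B).card := ⟨_, rfl⟩
  have hwt0 : ∀ B, 0 ≤ wt B := fun B => by
    rw [hwt]
    exact mul_nonneg (pow_nonneg ht0.le _) (pow_nonneg ht1' _)
  have hPr : ∀ K, Perc.Pr t Λ (fun B => G.Conn o S (G.sol s (Gr.capK κ K) B : Set E)) =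
      ∑ B ∈ Λ.powerset, wt B * (if A K B then 1 else 0) := by
    intro K
    rw [hA, hwt]
    rfl
  obtain ⟨T, hT⟩ : ∃ T : Finset (Finset V × V × Finset E),
      T = (Finset.powersetCard k 𝒱 ×ˢ 𝒱 ×ˢ Λ.powerset).filter (fun x => x.2.1 ∉ x.1) := ⟨_, rfl⟩
  have hsum : ∑ K ∈ Finset.powersetCard k 𝒱, ∑ v ∈ 𝒱 \ K,
      (Perc.Pr t Λ (fun B => G.Conn o S (G.sol s (Gr.capK κ (insert v K)) B : Set E)) -
        Perc.Pr t Λ (fun B => G.Conn o S (G.sol s (Gr.capK κ K) B : Set E))) =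
      ∑ x ∈ T.filter (fun x => ¬ A x.1 x.2.2 ∧ A (insert x.2.1 x.1) x.2.2), wt x.2.2 -
      ∑ x ∈ T.filter (fun x => A x.1 x.2.2 ∧ ¬ A (insert x.2.1 x.1) x.2.2), wt x.2.2 := by
    have e1 : ∀ K ∈ Finset.powersetCard k 𝒱, ∀ v ∈ 𝒱 \ K,
        (Perc.Pr t Λ (fun B => G.Conn o S (G.sol s (Gr.capK κ (insert v K)) B : Set E)) -
          Perc.Pr t Λ (fun B => G.Conn o S (G.sol s (Gr.capK κ K) B : Set E))) =
        ∑ B ∈ Λ.powerset, (wt B * (if A (insert v K) B then 1 else 0) - wt B * (if A K B then 1 else 0)) := by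
      intro K _ v _
      rw [hPr, hPr, Finset.sum_sub_distrib]
    rw [Finset.sum_congr rfl fun K hK => Finset.sum_congr rfl (e1 K hK)]
    rw [MAPM_flat (Finset.powersetCard k 𝒱) 𝒱 Λ.powerset (fun K v B =>
      (wt B * (if A (insert v K) B then 1 else 0) - wt B * (if A K B then 1 else 0))), ← hT]
    rw [Finset.sum_filter, Finset.sum_filter, ← Finset.sum_sub_distrib]
    refine Finset.sum_congr rfl fun x _ => ?_
    by_cases h1 : A x.1 x.2.2
    · by_cases h2 : A (insert x.2.1 x.1) x.2.2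
      · simp [h1, h2]
      · simp [h1, h2]
    · by_cases h2 : A (insert x.2.1 x.1) x.2.2
      · simp [h1, h2]
      · simp [h1, h2]
  rw [hsum, sub_nonneg]
  refine MAPM_count _ _ (fun x y : Finset V × V × Finset E => y.2.1 ≠ x.2.1 ∧ (x.2.1 ∉ y.1 → x.1 = y.1) ∧
    (x.2.1 ∈ y.1 → x.1 = insert y.2.1 (y.1.erase x.2.1)) ∧ G.Pre κ y.2.1 y.2.2 x.2.2 ∧
    x.2.1 ∈ G.HC κ x.2.2 y.2.1 ∧ (G.inc y.2.2 y.2.1).card = κ + 1) (fun x => wt x.2.2) (fun x _ => hwt0 _) ?_ ?_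
  · rintro ⟨K, v, B⟩ hx
    rw [Finset.mem_filter, hT, Finset.mem_filter, Finset.mem_product, Finset.mem_product,
      Finset.mem_powersetCard, Finset.mem_powerset] at hx
    obtain ⟨⟨⟨⟨hK1, hK2⟩, hv1, hB⟩, hv2⟩, h1, h2⟩ := hx
    simp only at hK1 hK2 hv1 hB hv2 h1 h2
    rw [hA] at h1 h2
    obtain ⟨u, K', B', c1, c2, c3, c4, c5, c6, c7, c8, c9, c10, c11⟩ :=
      G.surgery hκ (hs.mono (Finset.coe_subset.2 hB)) o S hv2 h1 h2
    have hBB : B' ⊆ B := c9.1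
    have hu : u ∈ 𝒱 := by
      obtain ⟨e, he, h3 | h3⟩ := MAPM_end G c9.2.2.2.1
      · exact h3 ▸ (h𝒱 e (hB he)).1
      · exact h3 ▸ (h𝒱 e (hB he)).2
    refine ⟨(K', u, B'), ?_, c1, c5, c6, c9, c10, c11⟩
    rw [Finset.mem_filter, hT, Finset.mem_filter, Finset.mem_product, Finset.mem_product,
      Finset.mem_powersetCard, Finset.mem_powerset]
    refine ⟨⟨⟨⟨c4.trans (Finset.insert_subset hv1 hK1), c3.trans hK2⟩, hu, hBB.trans hB⟩, c2⟩, ?_, ?_⟩
    · rw [hA]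
      exact c7
    · rw [hA]
      exact c8
  · rintro ⟨K', u, B'⟩ hy
    rw [Finset.mem_filter, hT, Finset.mem_filter, Finset.mem_product, Finset.mem_product,
      Finset.mem_powersetCard, Finset.mem_powerset] at hy
    obtain ⟨⟨⟨⟨hK1, hK2⟩, hv1, hB'⟩, hv2⟩, -, -⟩ := hy
    simp only at hK1 hK2 hv1 hB' hv2 ⊢
    obtain ⟨F, hF⟩ : ∃ F : Finset (Finset V × V × Finset E), F =
        (T.filter (fun x => A x.1 x.2.2 ∧ ¬ A (insert x.2.1 x.1) x.2.2)).filter
        (fun x => u ≠ x.2.1 ∧ (x.2.1 ∉ K' → x.1 = K') ∧ (x.2.1 ∈ K' → x.1 = insert u (K'.erase x.2.1)) ∧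
          G.Pre κ u B' x.2.2 ∧ x.2.1 ∈ G.HC κ x.2.2 u ∧ (G.inc B' u).card = κ + 1) := ⟨_, rfl⟩
    rw [← hF]
    rcases F.eq_empty_or_nonempty with hE | ⟨x₀, hx₀⟩
    · rw [hE, Finset.sum_empty]
      exact hwt0 _
    have hcard : (G.inc B' u).card = κ + 1 := by
      rw [hF] at hx₀
      exact (Finset.mem_filter.1 hx₀).2.2.2.2.2.2
    have hinj : Set.InjOn (fun x : Finset V × V × Finset E => (⟨x.2.2, x.2.1⟩ : Σ _ : Finset E, V)) (F : Set _) := by
      rintro ⟨K, v, B⟩ hx ⟨K1, v1, B1⟩ hx1 heq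
      simp only [Sigma.mk.injEq, heq_eq_eq] at heq
      obtain ⟨rfl, rfl⟩ := heq
      rw [hF] at hx hx1
      have d1 := (Finset.mem_filter.1 (Finset.mem_coe.1 hx)).2
      have d2 := (Finset.mem_filter.1 (Finset.mem_coe.1 hx1)).2
      simp only at d1 d2
      by_cases hvK : v ∈ K'
      · rw [d1.2.2.1 hvK, d2.2.2.1 hvK]
      · rw [d1.2.1 hvK, d2.2.1 hvK]
    have hmaps : F.image (fun x : Finset V × V × Finset E => (⟨x.2.2, x.2.1⟩ : Σ _ : Finset E, V)) ⊆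
        (Λ.powerset.filter (fun B => G.Pre κ u B' B)).sigma (fun B => (G.HC κ B u).erase u) := by
      intro z hz
      obtain ⟨⟨K, v, B⟩, hx, rfl⟩ := Finset.mem_image.1 hz
      rw [hF, Finset.mem_filter, Finset.mem_filter, hT, Finset.mem_filter, Finset.mem_product, Finset.mem_product,
        Finset.mem_powerset] at hx
      obtain ⟨⟨⟨⟨-, -, hB⟩, -⟩, -⟩, d1, -, -, d4, d5, -⟩ := hx
      rw [Finset.mem_sigma, Finset.mem_filter, Finset.mem_powerset, Finset.mem_erase]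
      exact ⟨⟨hB, d4⟩, fun h => d1 h.symm, d5⟩
    calc ∑ x ∈ F, wt x.2.2
        = ∑ z ∈ F.image (fun x : Finset V × V × Finset E => (⟨x.2.2, x.2.1⟩ : Σ _ : Finset E, V)), wt z.1 := by
          rw [Finset.sum_image hinj]
      _ ≤ ∑ z ∈ (Λ.powerset.filter (fun B => G.Pre κ u B' B)).sigma (fun B => (G.HC κ B u).erase u), wt z.1 :=
          Finset.sum_le_sum_of_subset_of_nonneg hmaps fun z _ _ => hwt0 _
      _ = ∑ B ∈ Λ.powerset.filter (fun B => G.Pre κ u B' B), ∑ v ∈ (G.HC κ B u).erase u, wt B :=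
          Finset.sum_sigma _ _ _
      _ = ∑ B ∈ Λ.powerset.filter (fun B => G.Pre κ u B' B),
            wt B' * ((((G.HC κ B u).card : ℝ) - 1) * (t / (1 - t)) ^ (B \ B').card) := by
          refine Finset.sum_congr rfl fun B hB => ?_
          rw [Finset.mem_filter, Finset.mem_powerset] at hB
          have hu : u ∈ G.HC κ B u := hB.2.2.2.2.1
          have hc : (((G.HC κ B u).erase u).card : ℝ) = ((G.HC κ B u).card : ℝ) - 1 := by
            rw [Finset.card_erase_of_mem hu, Nat.cast_sub (Finset.card_pos.2 ⟨u, hu⟩)]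
            simp
          rw [Finset.sum_const, nsmul_eq_mul, hc, hwt]
          simp only
          rw [MAPM_wt hB.2.1 hB.1 ht1]
          ring
      _ = wt B' * ∑ B ∈ Λ.powerset.filter (fun B => G.Pre κ u B' B),
            (((G.HC κ B u).card : ℝ) - 1) * (t / (1 - t)) ^ (B \ B').card := by
          rw [Finset.mul_sum]
      _ ≤ wt B' * 1 := mul_le_mul_of_nonneg_left (hPB u B' hB' hcard) (hwt0 _)
      _ = wt B' := mul_one _

end Pool.Agent.CDP
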