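import Mathlib

/-! CDP, module NUMB (only Mathlib): the numerical condition for `κ ≥ 18`.

PROOF.  `2 d ≥ κ + 1 ≥ 19` gives `d ≥ 10`, `t ≤ 11/100 < 1`, `τ = t / (1 - t)`,
`2 d τ ≤ (11/5) / (1 - 11/100) = 220/89 =: C'` (`≈ 2.4719`).  Take `x = 5/2`, `q = exp (τ x ^ 2 / 2)`,
`ρ = (55/10000) * (2/5) ^ (κ - 18)`.
`q ^ 2 = exp (τ x ^ 2) ≥ 1 + τ x ^ 2`; `q ≥ 1 + τ x ^ 2 / 2 ≥ 1 + τ x` since `x ≥ 2`.
`q ^ (2d) = exp (2 d τ x ^ 2 / 2) ≤ exp (C' * 25/8) ≤ 2264` (`C' * 25/8 = 7.7247`);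
`(1 + τ x ^ 2 ρ) ^ (2d) ≤ exp (C' x ^ 2 ρ) ≤ exp 0.08498 ≤ 1.0888`, `(1 + ρ) ^ 3 ≤ 1.0166`, and
`2 * (5/2) ^ (-(κ-3)) = 2 * (2/5) ^ 15 * (2/5) ^ (κ - 18)`, `2 * (2/5)^15 = 2.1475e-6`:
the left-hand side of (i) is at most `(2/5) ^ (κ-18) * 2.1475e-6 * 2264 * 1.0888 * 1.0166
≈ (2/5) ^ (κ-18) * 0.005382 ≤ ρ`.
(ii): `(1 + τ) ^ (2d) ≤ exp C' ≤ 11.845`; `(κ + 1) * (2/5) ^ (κ - 18) ≤ 19` so
`(1 + ρ) ^ (κ + 1) * (1 + τ x ρ) ^ (2d) ≤ exp (19 * 0.0055 + C' * 2.5 * 0.0055) ≤ exp 0.1385 ≤ 1.1486`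
and `(1/2) * 11.845 * 0.1486 ≤ 0.881 ≤ 1`. -/

namespace Pool.Agent.CDP

private theorem numb_pow {a : ℝ} (ha : 0 ≤ a) (n : ℕ) : (1 + a) ^ n ≤ Real.exp (n * a) := by
  rw [Real.exp_nat_mul]
  refine pow_le_pow_left₀ (by linarith) ?_ n
  rw [add_comm]
  exact Real.add_one_le_exp a

private theorem numb_inv {y : ℝ} (hy : y < 1) : Real.exp y ≤ (1 - y)⁻¹ := by
  have h1 : 1 - y ≤ Real.exp (-y) := by
    have := Real.add_one_le_exp (-y)
    linarith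
  rw [Real.exp_neg] at h1
  have h2 : 0 < Real.exp y := Real.exp_pos y
  rw [le_inv_comm₀ h2 (by linarith)]
  exact h1

private theorem numb_e1 : Real.exp (1375 / 178) ≤ 2300 := by
  have h1 : Real.exp (1375 / 178) ≤ Real.exp (85 / 11) := Real.exp_le_exp.2 (by norm_num)
  have h2 : Real.exp (85 / 11) ^ 11 = Real.exp 1 ^ 85 := by
    rw [← Real.exp_nat_mul, ← Real.exp_nat_mul]
    norm_num
  have h3 : Real.exp 1 ^ 85 ≤ (2.7182818286 : ℝ) ^ 85 :=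
    pow_le_pow_left₀ (Real.exp_pos 1).le Real.exp_one_lt_d9.le 85
  have h4 : (2.7182818286 : ℝ) ^ 85 ≤ 2300 ^ 11 := by norm_num
  have h5 : Real.exp (85 / 11) ^ 11 ≤ 2300 ^ 11 := by
    rw [h2]
    exact h3.trans h4
  exact h1.trans (le_of_pow_le_pow_left₀ (by norm_num) (by norm_num) h5)

private theorem numb_e2 : Real.exp (220 / 89) ≤ 61 / 5 := by
  have h1 : Real.exp (220 / 89) ≤ Real.exp (5 / 2) := Real.exp_le_exp.2 (by norm_num)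
  have h2 : Real.exp (5 / 2) ^ 2 = Real.exp 1 ^ 5 := by
    rw [← Real.exp_nat_mul, ← Real.exp_nat_mul]
    norm_num
  have h3 : Real.exp 1 ^ 5 ≤ (2.7182818286 : ℝ) ^ 5 :=
    pow_le_pow_left₀ (Real.exp_pos 1).le Real.exp_one_lt_d9.le 5
  have h4 : (2.7182818286 : ℝ) ^ 5 ≤ (61 / 5) ^ 2 := by norm_num
  have h5 : Real.exp (5 / 2) ^ 2 ≤ (61 / 5) ^ 2 := by
    rw [h2]
    exact h3.trans h4
  exact h1.trans (le_of_pow_le_pow_left₀ (by norm_num) (by norm_num) h5)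

private theorem numb_j (j : ℕ) : ((19 : ℝ) + j) * (2 / 5) ^ j ≤ 19 := by
  induction j with
  | zero => norm_num
  | succ j ih =>
    have hp : (0 : ℝ) ≤ (2 / 5) ^ j := by positivity
    have hj : (0 : ℝ) ≤ j := Nat.cast_nonneg j
    calc ((19 : ℝ) + ((j + 1 : ℕ) : ℝ)) * (2 / 5) ^ (j + 1)
        = ((19 + j + 1) * (2 / 5)) * (2 / 5) ^ j := by push_cast; ring
      _ ≤ (19 + j) * (2 / 5) ^ j := by
        refine mul_le_mul_of_nonneg_right ?_ hp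
        linarith
      _ ≤ 19 := ih

theorem numbers {κ d : ℕ} (hκ : 18 ≤ κ) (hd : κ + 1 ≤ 2 * d) {t : ℝ} (ht0 : 0 < t)
    (ht : t ≤ 11 / (10 * d)) :
    t < 1 ∧ ∃ x q ρ : ℝ, 1 ≤ x ∧ 1 + t / (1 - t) * x ^ 2 ≤ q ^ 2 ∧ 1 + t / (1 - t) * x ≤ q ∧ 0 ≤ ρ ∧
      2 * (x ^ (κ - 3))⁻¹ * q ^ (2 * d) * (1 + t / (1 - t) * x ^ 2 * ρ) ^ (2 * d) * (1 + ρ) ^ 3 ≤ ρ ∧
      (1 / 2) * (1 + t / (1 - t)) ^ (2 * d) *
        ((1 + ρ) ^ (κ + 1) * (1 + t / (1 - t) * x * ρ) ^ (2 * d) - 1) ≤ 1 := by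
  obtain ⟨j, rfl⟩ := Nat.exists_eq_add_of_le hκ
  have hd10 : 10 ≤ d := by omega
  have hdR : (10 : ℝ) ≤ d := by exact_mod_cast hd10
  have hdt : (d : ℝ) * t ≤ 11 / 10 := by
    rw [le_div_iff₀ (by positivity)] at ht
    linarith
  have ht1 : t ≤ 11 / 100 := by nlinarith
  have h1t : (0 : ℝ) < 1 - t := by linarith
  refine ⟨by linarith, ?_⟩
  set τ : ℝ := t / (1 - t) with hτ
  have hτ0 : 0 < τ := div_pos ht0 h1t
  have hdτ : (2 * d : ℝ) * τ ≤ 220 / 89 := by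
    rw [hτ, ← mul_div_assoc, div_le_iff₀ h1t]
    linarith
  have hc2d : ((2 * d : ℕ) : ℝ) = 2 * d := by push_cast; ring
  set y : ℝ := (2 / 5) ^ j with hy
  have hy0 : 0 < y := by rw [hy]; positivity
  have hy1 : y ≤ 1 := by
    rw [hy]
    exact pow_le_one₀ (by norm_num) (by norm_num)
  refine ⟨5 / 2, Real.exp (τ * (25 / 8)), 55 / 10000 * y, by norm_num, ?_, ?_, by positivity, ?_, ?_⟩
  · rw [← Real.exp_nat_mul]
    have h1 := Real.add_one_le_exp (((2 : ℕ) : ℝ) * (τ * (25 / 8)))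
    push_cast at h1 ⊢
    linarith
  · have h1 := Real.add_one_le_exp (τ * (25 / 8))
    linarith
  · have e1 : (((5 : ℝ) / 2) ^ (18 + j - 3))⁻¹ = (2 / 5) ^ 15 * y := by
      rw [show 18 + j - 3 = 15 + j by omega, pow_add, mul_inv, ← inv_pow, ← inv_pow, hy]
      norm_num
    have e2 : Real.exp (τ * (25 / 8)) ^ (2 * d) ≤ 2300 := by
      rw [← Real.exp_nat_mul, hc2d]
      refine (Real.exp_le_exp.2 ?_).trans numb_e1
      linarith
    have e3 : (1 + τ * (5 / 2) ^ 2 * (55 / 10000 * y)) ^ (2 * d) ≤ 1093 / 1000 := by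
      refine (numb_pow (by positivity) (2 * d)).trans ?_
      rw [hc2d]
      have h1 : (2 * d : ℝ) * (τ * (5 / 2) ^ 2 * (55 / 10000 * y)) ≤ 0.085 := by
        have h2 : (2 * d : ℝ) * (τ * (5 / 2) ^ 2 * (55 / 10000 * y)) =
            ((2 * d : ℝ) * τ) * y * ((5 / 2) ^ 2 * (55 / 10000)) := by ring
        have h3 : ((2 * d : ℝ) * τ) * y ≤ 220 / 89 * 1 := mul_le_mul hdτ hy1 hy0.le (by norm_num)
        rw [h2]
        linarith
      refine (Real.exp_le_exp.2 h1).trans ((numb_inv (by norm_num)).trans ?_)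
      norm_num
    have e4 : (1 + 55 / 10000 * y) ^ 3 ≤ (1 + 55 / 10000) ^ 3 :=
      pow_le_pow_left₀ (by positivity) (by linarith) 3
    rw [e1]
    have p2 : 0 ≤ Real.exp (τ * (25 / 8)) ^ (2 * d) := by positivity
    have p3 : 0 ≤ (1 + τ * (5 / 2) ^ 2 * (55 / 10000 * y)) ^ (2 * d) := by positivity
    have p4 : 0 ≤ (1 + 55 / 10000 * y) ^ 3 := by positivity
    calc 2 * ((2 / 5) ^ 15 * y) * Real.exp (τ * (25 / 8)) ^ (2 * d) *
          (1 + τ * (5 / 2) ^ 2 * (55 / 10000 * y)) ^ (2 * d) * (1 + 55 / 10000 * y) ^ 3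
        ≤ 2 * ((2 / 5) ^ 15 * y) * 2300 * (1093 / 1000) * (1 + 55 / 10000) ^ 3 := by gcongr
      _ = (2 * (2 / 5) ^ 15 * 2300 * (1093 / 1000) * (1 + 55 / 10000) ^ 3) * y := by ring
      _ ≤ 55 / 10000 * y := mul_le_mul_of_nonneg_right (by norm_num) hy0.le
  · have e1 : (1 + τ) ^ (2 * d) ≤ 61 / 5 := by
      refine (numb_pow hτ0.le (2 * d)).trans ?_
      rw [hc2d]
      exact (Real.exp_le_exp.2 hdτ).trans numb_e2
    have e2 : (1 + 55 / 10000 * y) ^ (18 + j + 1) * (1 + τ * (5 / 2) * (55 / 10000 * y)) ^ (2 * d) ≤ 1161 / 1000 := by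
      have h1 := numb_pow (show (0 : ℝ) ≤ 55 / 10000 * y by positivity) (18 + j + 1)
      have h2 := numb_pow (show (0 : ℝ) ≤ τ * (5 / 2) * (55 / 10000 * y) by positivity) (2 * d)
      refine (mul_le_mul h1 h2 (by positivity) (by positivity)).trans ?_
      rw [← Real.exp_add, hc2d]
      have h3 : ((18 + j + 1 : ℕ) : ℝ) * (55 / 10000 * y) ≤ 0.1045 := by
        have h4 := numb_j j
        push_cast
        rw [← hy] at h4
        linarith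
      have h5 : (2 * d : ℝ) * (τ * (5 / 2) * (55 / 10000 * y)) ≤ 0.034 := by
        have h2 : (2 * d : ℝ) * (τ * (5 / 2) * (55 / 10000 * y)) =
            ((2 * d : ℝ) * τ) * y * ((5 / 2) * (55 / 10000)) := by ring
        have h3 : ((2 * d : ℝ) * τ) * y ≤ 220 / 89 * 1 := mul_le_mul hdτ hy1 hy0.le (by norm_num)
        rw [h2]
        linarith
      refine (Real.exp_le_exp.2 (show _ ≤ (0.1385 : ℝ) by linarith)).trans ((numb_inv (by norm_num)).trans ?_)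
      norm_num
    have p1 : 0 ≤ (1 + τ) ^ (2 * d) := by positivity
    calc (1 / 2) * (1 + τ) ^ (2 * d) *
          ((1 + 55 / 10000 * y) ^ (18 + j + 1) * (1 + τ * (5 / 2) * (55 / 10000 * y)) ^ (2 * d) - 1)
        ≤ (1 / 2) * (1 + τ) ^ (2 * d) * (1161 / 1000 - 1) := by gcongr
      _ ≤ (1 / 2) * (61 / 5) * (1161 / 1000 - 1) := by
          refine mul_le_mul_of_nonneg_right ?_ (by norm_num)
          linarith
      _ ≤ 1 := by norm_num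

end Pool.Agent.CDP
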