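import Mathlib
import Pool.Agent.CDP.Defs
import Pool.Agent.CDP.SOL

/-! CDP, module TREZ: exploration bound for clusters.

`TZ U P` is the total weight of the pairs `(H, N)` where `P ⊆ H ⊆ U`, `N` is a set of edges of
`Λ \ B'` inside `U`, each of them incident to `H`, every vertex of `H` has at most three edges of `B'`
and `H` is spanned by `P` through edges of `N ∪ B'`; the weight is
`∏ y ∈ H, α * x ^ (inc N y).card` times `τ ^ N.card`, `α = 2 / x ^ (κ - 3)`.

CLAIM (`trez`): `TZ U P ≤ ∏ z ∈ P, (ρ / q ^ Δ) * q ^ (inc (ins Λ U) z).card`.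

PROOF by induction on `U.card`.  If `P = ∅` then `Spans` with `D = ∅` gives `H = ∅`, so `N = ∅`, and
`TZ U ∅ ≤ 1`.  Otherwise fix `y ∈ P`, let `U1 = U.erase y`, `L = inc (ins Λ U) y` (edges at `y` inside
`U`), `M = L \ B'`, `A = L ∩ B'` (`A.card ≤ 3` if there is any admissible `(H, N)`, since `y ∈ P ⊆ H`;
otherwise `TZ = 0`).  Every `e ∈ L` has another endpoint `oth e ∈ U1`, and `oth` is injective on `L`
(`G.simple`).  For admissible `(H, N)` put `N1 = N ∩ L`, `N2 = N \ L`, `H2 = H.erase y`, and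
`T = {e ∈ N1 ∪ A : oth e ∈ H, oth e ∉ P}`.  Then `(H2, N2)` is admissible for `(U1, P')` with
`P' = P.erase y ∪ oth(T)`:
 * `N2` is incident to `H`, not to `y` (an edge of `N` at `y` is in `L`), so incident to `H2`, and it is
   inside `U1`;
 * `Spans (N2 ∪ B') P' H2`: given `D'` containing `P'` and closed, apply `Spans (N ∪ B') P H` to
   `D' ∪ {y}`: a neighbour `h ∈ H`, `h ≠ y`, of `y` through an edge of `N ∪ B'` (the edge is in
   `N1 ∪ A`) is in `P.erase y` or is `oth e` for an `e ∈ T`, so it is in `P' ⊆ D'`; for `w ≠ y` an edge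
   of `N ∪ B'` joining `w` to `h ≠ y` is in `N2 ∪ B'` (or `w = h`).
The weight: `w (H, N) = α * x ^ N1.card * τ ^ N1.card * x ^ #{e ∈ N1 : oth e ∈ H2} * w (H2, N2)` and for
`e ∈ N1`: `oth e ∈ H2` iff `oth e ∈ P` or `e ∈ T`.  The map `(H, N) ↦ (N1, T, H2, N2)` is injective.
Hence
`TZ U P ≤ α * ∑ N1 ⊆ M, ∑ T ⊆ {e ∈ N1 ∪ A : oth e ∉ P},
   (τ * x) ^ N1.card * x ^ #{e ∈ N1 : oth e ∈ P} * x ^ #(T ∩ N1) * TZ U1 (P.erase y ∪ oth(T))`.
By induction, and since `inc (ins Λ U1) z` has one element less than `inc (ins Λ U) z` if `z` is a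
neighbour of `y` in `ins Λ U` and the same otherwise, and at most `Δ - 1` elements for a neighbour,
`TZ U1 P' ≤ (∏ z ∈ P.erase y, (ρ / q ^ Δ) * q ^ (inc (ins Λ U) z).card) * q⁻¹ ^ #{e ∈ L : oth e ∈ P} * ρ ^ T.card`
(`q ≥ 1` because `1 ≤ 1 + τ x ≤ q`).  Summing over `T` and `N1` (`Finset.prod_one_add` /
`Finset.prod_add_one`-type expansions) the factor is at most
`α * ∏ e ∈ A (1 + ρ) * ∏ e ∈ M, oth e ∈ P, ((1 + τ x ^ 2) * q⁻¹) * ∏ e ∈ M, oth e ∉ P, (1 + τ x + τ x ^ 2 ρ)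
 ≤ α * (1 + ρ) ^ 3 * q ^ L.card * (1 + τ x ^ 2 ρ) ^ Δ ≤ (ρ / q ^ Δ) * q ^ L.card`
by `hq1`, `hq2` (`1 + τ x + τ x ^ 2 ρ ≤ (1 + τ x) (1 + τ x ^ 2 ρ)`) and `hρ`. -/

namespace Pool.Agent.CDP

variable {V E : Type*}

open Classical in
/-- The edges of `Λ` with both endpoints in `U`. -/
noncomputable def Gr.ins (G : Gr V E) (Λ : Finset E) (U : Finset V) : Finset E :=
  Λ.filter (fun e => G.a e ∈ U ∧ G.b e ∈ U)

/-- Every vertex of `H` is joined to `P` inside `H` through edges of `W` (closure form). -/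
def Gr.Spans (G : Gr V E) (W : Set E) (P H : Finset V) : Prop :=
  ∀ D : Set V, (∀ z ∈ P, z ∈ D) → (∀ w ∈ D, w ∈ H → ∀ h ∈ H, G.Adj W w h → h ∈ D) →
    ∀ h ∈ H, h ∈ D

/-- Admissible pairs. -/
def Gr.TCond (G : Gr V E) (B' : Finset E) (P H : Finset V) (N : Finset E) : Prop :=
  (∀ y ∈ H, (G.inc B' y).card ≤ 3) ∧ (∀ e ∈ N, ∃ y ∈ H, G.Inc y e) ∧
    G.Spans ((N : Set E) ∪ (B' : Set E)) P H

/-- The weight of a pair. -/
noncomputable def Gr.tw (G : Gr V E) (κ : ℕ) (τ x : ℝ) (H : Finset V) (N : Finset E) : ℝ :=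
  (∏ y ∈ H, (2 * (x ^ (κ - 3))⁻¹ * x ^ (G.inc N y).card)) * τ ^ N.card

open Classical in
/-- The total weight. -/
noncomputable def Gr.TZ (G : Gr V E) [DecidableEq V] [DecidableEq E] (κ : ℕ) (τ x : ℝ) (Λ B' : Finset E) (U P : Finset V) : ℝ :=
  ∑ H ∈ U.powerset.filter (fun H => P ⊆ H), ∑ N ∈ (G.ins Λ U \ B').powerset,
    if G.TCond B' P H N then G.tw κ τ x H N else 0

private noncomputable def tzoth (G : Gr V E) [DecidableEq V] (y : V) (e : E) : V :=
  if G.a e = y then G.b e else G.a e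

private theorem tz_mem_inc {G : Gr V E} {X : Finset E} {x : V} {e : E} :
    e ∈ G.inc X x ↔ e ∈ X ∧ G.Inc x e := by
  classical
  unfold Gr.inc
  rw [Finset.mem_filter]

private theorem tz_mem_ins {G : Gr V E} {X : Finset E} {U : Finset V} {e : E} :
    e ∈ G.ins X U ↔ e ∈ X ∧ G.a e ∈ U ∧ G.b e ∈ U := by
  classical
  unfold Gr.ins
  rw [Finset.mem_filter]

private theorem tz_oth_ne {G : Gr V E} [DecidableEq V] {y : V} {e : E} (h : G.Inc y e) :
    tzoth G y e ≠ y := by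
  unfold tzoth
  split_ifs with h1
  · intro h2
    exact G.ne e (h1.trans h2.symm)
  · exact h1

private theorem tz_inc_iff {G : Gr V E} [DecidableEq V] {y z : V} {e : E} (h : G.Inc y e) (hz : z ≠ y) :
    G.Inc z e ↔ tzoth G y e = z := by
  unfold tzoth
  unfold Gr.Inc at h ⊢
  split_ifs with h1
  · constructor
    · rintro (h2 | h2)
      · exact absurd (h2.symm.trans h1) hz
      · exact h2
    · intro h2
      exact Or.inr h2
  · constructor
    · rintro (h2 | h2)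
      · exact h2
      · rcases h with h3 | h3
        · exact absurd h3 h1
        · exact absurd (h2.symm.trans h3) hz
    · intro h2
      exact Or.inl h2

private theorem tz_oth_mem {G : Gr V E} [DecidableEq V] {y : V} {e : E} {U : Finset V}
    (h : G.a e ∈ U ∧ G.b e ∈ U) : tzoth G y e ∈ U := by
  unfold tzoth
  split_ifs
  · exact h.2
  · exact h.1

private theorem tz_oth_inj {G : Gr V E} [DecidableEq V] {y : V} {e f : E} (h : G.Inc y e)
    (h' : G.Inc y f) (ho : tzoth G y e = tzoth G y f) : e = f := by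
  apply G.simple
  unfold Gr.Inc at h h'
  unfold tzoth at ho
  by_cases h1 : G.a e = y
  · by_cases h2 : G.a f = y
    · rw [if_pos h1, if_pos h2] at ho
      exact Or.inl ⟨h1.trans h2.symm, ho⟩
    · rw [if_pos h1, if_neg h2] at ho
      rcases h' with h3 | h3
      · exact absurd h3 h2
      · exact Or.inr ⟨h1.trans h3.symm, ho⟩
  · by_cases h2 : G.a f = y
    · rw [if_neg h1, if_pos h2] at ho
      rcases h with h3 | h3
      · exact absurd h3 h1
      · exact Or.inr ⟨ho, h3.trans h2.symm⟩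
    · rw [if_neg h1, if_neg h2] at ho
      rcases h with h3 | h3
      · exact absurd h3 h1
      · rcases h' with h4 | h4
        · exact absurd h4 h2
        · exact Or.inl ⟨ho, h3.trans h4.symm⟩

open Classical in
private theorem tz_pow_inc (G : Gr V E) (X : Finset E) (z : V) (x : ℝ) :
    x ^ (G.inc X z).card = ∏ e ∈ X, if G.Inc z e then x else 1 := by
  unfold Gr.inc
  rw [← Finset.prod_filter, Finset.prod_const]

open Classical in
/-- Product over the vertices of `D` of the powers given by edges at `y`. -/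
private theorem tz_prod_oth (G : Gr V E) [DecidableEq V] {X : Finset E} {y : V} (hX : ∀ e ∈ X, G.Inc y e)
    {D : Finset V} (hD : y ∉ D) (x : ℝ) :
    ∏ z ∈ D, x ^ (G.inc X z).card = ∏ e ∈ X, if tzoth G y e ∈ D then x else 1 := by
  rw [Finset.prod_congr rfl (fun z _ => tz_pow_inc G X z x), Finset.prod_comm]
  refine Finset.prod_congr rfl fun e he => ?_
  rw [Finset.prod_congr rfl (g := fun z => if tzoth G y e = z then x else 1)]
  · rw [Finset.prod_ite_eq]
  · intro z hz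
    have hzy : z ≠ y := fun h => hD (h ▸ hz)
    by_cases h : G.Inc z e
    · rw [if_pos h, if_pos ((tz_inc_iff (hX e he) hzy).1 h)]
    · rw [if_neg h, if_neg (fun h2 => h ((tz_inc_iff (hX e he) hzy).2 h2))]

open Classical in
private noncomputable def tzadm (G : Gr V E) [DecidableEq V] [DecidableEq E] (Λ B' : Finset E)
    (U P : Finset V) : Finset (Finset V × Finset E) :=
  ((U.powerset.filter (fun H => P ⊆ H)) ×ˢ (G.ins Λ U \ B').powerset).filter
    (fun p => G.TCond B' P p.1 p.2)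

private theorem tz_mem_adm {G : Gr V E} [DecidableEq V] [DecidableEq E] {Λ B' : Finset E}
    {U P : Finset V} {p : Finset V × Finset E} :
    p ∈ tzadm G Λ B' U P ↔ (p.1 ⊆ U ∧ P ⊆ p.1) ∧ p.2 ⊆ G.ins Λ U \ B' ∧ G.TCond B' P p.1 p.2 := by
  classical
  unfold tzadm
  rw [Finset.mem_filter, Finset.mem_product, Finset.mem_filter, Finset.mem_powerset,
    Finset.mem_powerset, and_assoc]

private theorem tz_eq (G : Gr V E) [DecidableEq V] [DecidableEq E] (κ : ℕ) (τ x : ℝ)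
    (Λ B' : Finset E) (U P : Finset V) :
    G.TZ κ τ x Λ B' U P = ∑ p ∈ tzadm G Λ B' U P, G.tw κ τ x p.1 p.2 := by
  classical
  unfold Gr.TZ tzadm
  symm
  rw [Finset.sum_filter, Finset.sum_product]

private theorem tz_tw_nonneg (G : Gr V E) (κ : ℕ) {τ x : ℝ} (hτ : 0 < τ) (hx : 1 ≤ x)
    (H : Finset V) (N : Finset E) : 0 ≤ G.tw κ τ x H N := by
  unfold Gr.tw
  refine mul_nonneg (Finset.prod_nonneg fun y _ => ?_) (by positivity)
  positivity

open Classical in
private noncomputable def tztt (G : Gr V E) [DecidableEq V] [DecidableEq E] (Λ B' : Finset E)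
    (U P : Finset V) (y : V) (H : Finset V) (N : Finset E) : Finset E :=
  ((N ∩ G.inc (G.ins Λ U) y) ∪ (G.inc (G.ins Λ U) y ∩ B')).filter
    (fun e => tzoth G y e ∈ H ∧ tzoth G y e ∉ P)

private theorem tz_step_mem {G : Gr V E} [DecidableEq V] [DecidableEq E] {Λ B' : Finset E}
    (hB' : B' ⊆ Λ) {U P : Finset V} {y : V} {H : Finset V} {N : Finset E}
    (hm : (H, N) ∈ tzadm G Λ B' U P) :
    (H.erase y, N \ G.inc (G.ins Λ U) y) ∈ tzadm G Λ B' (U.erase y)
      (P.erase y ∪ (tztt G Λ B' U P y H N).image (tzoth G y)) := by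
  classical
  obtain ⟨⟨hHU, hPH⟩, hN, h3, hNi, hsp⟩ := tz_mem_adm.1 hm
  simp only at hHU hPH hN h3 hNi hsp
  have hoth : ∀ e ∈ tztt G Λ B' U P y H N, G.Inc y e ∧ tzoth G y e ∈ H ∧ tzoth G y e ∉ P := by
    intro e he
    unfold tztt at he
    rw [Finset.mem_filter, Finset.mem_union, Finset.mem_inter, Finset.mem_inter] at he
    refine ⟨?_, he.2⟩
    rcases he.1 with h | h
    · exact (tz_mem_inc.1 h.2).2
    · exact (tz_mem_inc.1 h.1).2
  refine tz_mem_adm.2 ⟨⟨Finset.erase_subset_erase _ hHU, ?_⟩, ?_, ?_, ?_, ?_⟩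
  · show P.erase y ∪ (tztt G Λ B' U P y H N).image (tzoth G y) ⊆ H.erase y
    refine Finset.union_subset (Finset.erase_subset_erase _ hPH) ?_
    intro z hz
    obtain ⟨e, he, rfl⟩ := Finset.mem_image.1 hz
    exact Finset.mem_erase.2 ⟨tz_oth_ne (hoth e he).1, (hoth e he).2.1⟩
  · show N \ G.inc (G.ins Λ U) y ⊆ G.ins Λ (U.erase y) \ B'
    intro e he
    rw [Finset.mem_sdiff] at he
    have h1 := Finset.mem_sdiff.1 (hN he.1)
    have h2 := tz_mem_ins.1 h1.1
    have h4 : ¬ G.Inc y e := fun h => he.2 (tz_mem_inc.2 ⟨h1.1, h⟩)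
    refine Finset.mem_sdiff.2 ⟨tz_mem_ins.2 ⟨h2.1, ?_, ?_⟩, h1.2⟩
    · exact Finset.mem_erase.2 ⟨fun h => h4 (Or.inl h), h2.2.1⟩
    · exact Finset.mem_erase.2 ⟨fun h => h4 (Or.inr h), h2.2.2⟩
  · intro z hz
    exact h3 z (Finset.mem_of_mem_erase hz)
  · intro e he
    have he2 := Finset.mem_sdiff.1 he
    obtain ⟨z, hz, hze⟩ := hNi e he2.1
    refine ⟨z, Finset.mem_erase.2 ⟨?_, hz⟩, hze⟩
    rintro rfl
    exact he2.2 (tz_mem_inc.2 ⟨(Finset.mem_sdiff.1 (hN he2.1)).1, hze⟩)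
  · intro D hD hcl
    have key : ∀ h ∈ H, h ∈ insert y D := by
      refine hsp (insert y D) ?_ ?_
      · intro z hz
        by_cases hzy : z = y
        · exact Or.inl hzy
        · exact Or.inr (hD z (Finset.mem_union_left _ (Finset.mem_erase.2 ⟨hzy, hz⟩)))
      · intro w hw hwH h hh hadj
        by_cases hhy : h = y
        · exact Or.inl hhy
        refine Or.inr ?_
        obtain ⟨e, heW, hwe, hhe⟩ := hadj
        by_cases hwy : w = y
        · rw [hwy] at hwe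
          have hoe : tzoth G y e = h := (tz_inc_iff hwe hhy).1 hhe
          by_cases hhP : h ∈ P
          · exact hD h (Finset.mem_union_left _ (Finset.mem_erase.2 ⟨hhy, hhP⟩))
          · refine hD h (Finset.mem_union_right _ (Finset.mem_image.2 ⟨e, ?_, hoe⟩))
            have hyH : y ∈ H := hwy ▸ hwH
            have hein : e ∈ Λ → e ∈ G.inc (G.ins Λ U) y := by
              intro hΛ
              refine tz_mem_inc.2 ⟨tz_mem_ins.2 ⟨hΛ, ?_⟩, hwe⟩
              have hyU := hHU hyH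
              have hhU := hHU hh
              rcases hwe with h5 | h5
              · rcases hhe with h6 | h6
                · exact absurd (h6.symm.trans h5) hhy
                · exact ⟨h5 ▸ hyU, h6 ▸ hhU⟩
              · rcases hhe with h6 | h6
                · exact ⟨h6 ▸ hhU, h5 ▸ hyU⟩
                · exact absurd (h6.symm.trans h5) hhy
            unfold tztt
            rw [Finset.mem_filter, Finset.mem_union, Finset.mem_inter, Finset.mem_inter, hoe]
            refine ⟨?_, hh, hhP⟩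
            rcases heW with h7 | h7
            · have h8 : e ∈ N := h7
              exact Or.inl ⟨h8, hein (tz_mem_ins.1 (Finset.mem_sdiff.1 (hN h8)).1).1⟩
            · have h8 : e ∈ B' := h7
              exact Or.inr ⟨hein (hB' h8), h8⟩
        · have hwD : w ∈ D := hw.resolve_left hwy
          by_cases hwh : w = h
          · exact hwh ▸ hwD
          refine hcl w hwD (Finset.mem_erase.2 ⟨hwy, hwH⟩) h (Finset.mem_erase.2 ⟨hhy, hh⟩)
            ⟨e, ?_, hwe, hhe⟩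
          have hny : ¬ G.Inc y e := by
            intro hy
            have h9 := (tz_inc_iff hy hwy).1 hwe
            have h10 := (tz_inc_iff hy hhy).1 hhe
            exact hwh (h9.symm.trans h10)
          rcases heW with h7 | h7
          · have h8 : e ∈ N := h7
            refine Or.inl ?_
            show e ∈ N \ G.inc (G.ins Λ U) y
            exact Finset.mem_sdiff.2 ⟨h8, fun h => hny (tz_mem_inc.1 h).2⟩
          · exact Or.inr h7
    intro h hh
    have hh2 := Finset.mem_erase.1 hh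
    exact (key h hh2.2).resolve_left hh2.1

open Classical in
private theorem tz_step_w {G : Gr V E} [DecidableEq V] [DecidableEq E] {Λ B' : Finset E}
    {U P : Finset V} {y : V} {H : Finset V} {N : Finset E} (κ : ℕ) (τ x : ℝ)
    (hy : y ∈ P) (hm : (H, N) ∈ tzadm G Λ B' U P) :
    G.tw κ τ x H N = (2 * (x ^ (κ - 3))⁻¹) *
      (∏ e ∈ N ∩ G.inc (G.ins Λ U) y, (τ * x * (if tzoth G y e ∈ P then x else 1))) *
      (∏ e ∈ tztt G Λ B' U P y H N, if e ∈ N ∩ G.inc (G.ins Λ U) y then x else 1) *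
      G.tw κ τ x (H.erase y) (N \ G.inc (G.ins Λ U) y) := by
  obtain ⟨⟨hHU, hPH⟩, hN, h3, hNi, hsp⟩ := tz_mem_adm.1 hm
  simp only at hHU hPH hN h3 hNi hsp
  have hyH : y ∈ H := hPH hy
  obtain ⟨L, hL⟩ : ∃ L, L = G.inc (G.ins Λ U) y := ⟨_, rfl⟩
  have hLi : ∀ e ∈ L, G.Inc y e := by
    intro e he
    rw [hL] at he
    exact (tz_mem_inc.1 he).2
  have hNy : G.inc N y = N ∩ L := by
    ext e
    rw [tz_mem_inc, Finset.mem_inter, hL, tz_mem_inc]
    constructor
    · intro h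
      exact ⟨h.1, (Finset.mem_sdiff.1 (hN h.1)).1, h.2⟩
    · intro h
      exact ⟨h.1, h.2.2⟩
  rw [← hL]
  have hI : ∀ e ∈ N ∩ L, G.Inc y e := fun e he => hLi e (Finset.mem_inter.1 he).2
  have e1 : ∏ z ∈ H.erase y, (2 * (x ^ (κ - 3))⁻¹ * x ^ (G.inc N z).card) =
      (∏ z ∈ H.erase y, (2 * (x ^ (κ - 3))⁻¹ * x ^ (G.inc (N \ L) z).card)) *
        ∏ e ∈ N ∩ L, (if tzoth G y e ∈ H.erase y then x else 1) := by
    rw [← tz_prod_oth G hI (Finset.notMem_erase y H) x, ← Finset.prod_mul_distrib]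
    refine Finset.prod_congr rfl fun z _ => ?_
    have h1 : x ^ (G.inc N z).card = x ^ (G.inc (N ∩ L) z).card * x ^ (G.inc (N \ L) z).card := by
      rw [tz_pow_inc, tz_pow_inc, tz_pow_inc]
      exact (Finset.prod_inter_mul_prod_sdiff N L _).symm
    rw [h1]
    ring
  have e2 : ∏ e ∈ N ∩ L, (if tzoth G y e ∈ H.erase y then x else 1) =
      (∏ e ∈ N ∩ L, if tzoth G y e ∈ P then x else 1) *
        ∏ e ∈ N ∩ L, (if tzoth G y e ∈ H ∧ tzoth G y e ∉ P then x else 1) := by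
    rw [← Finset.prod_mul_distrib]
    refine Finset.prod_congr rfl fun e he => ?_
    have hne := tz_oth_ne (hI e he)
    by_cases h1 : tzoth G y e ∈ P
    · rw [if_pos h1, if_pos (Finset.mem_erase.2 ⟨hne, hPH h1⟩), if_neg (fun h => h.2 h1), mul_one]
    · by_cases h2 : tzoth G y e ∈ H
      · rw [if_neg h1, if_pos (Finset.mem_erase.2 ⟨hne, h2⟩), if_pos ⟨h2, h1⟩, one_mul]
      · rw [if_neg h1, if_neg (fun h => h2 (Finset.mem_of_mem_erase h)), if_neg (fun h => h2 h.1),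
          one_mul]
  have hdis : Disjoint (N ∩ L) (L ∩ B') := by
    rw [Finset.disjoint_left]
    intro e he he2
    exact (Finset.mem_sdiff.1 (hN (Finset.mem_inter.1 he).1)).2 (Finset.mem_inter.1 he2).2
  have e3 : (∏ e ∈ tztt G Λ B' U P y H N, if e ∈ N ∩ L then x else 1) =
      ∏ e ∈ N ∩ L, (if tzoth G y e ∈ H ∧ tzoth G y e ∉ P then x else 1) := by
    unfold tztt
    rw [← hL, Finset.prod_filter, Finset.prod_union hdis]
    have h1 : (∏ e ∈ L ∩ B', if tzoth G y e ∈ H ∧ tzoth G y e ∉ P then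
        (if e ∈ N ∩ L then x else 1) else 1) = 1 := by
      refine Finset.prod_eq_one fun e he => ?_
      have h2 : e ∉ N ∩ L := fun h => (Finset.disjoint_left.1 hdis) h he
      rw [if_neg h2, ite_self]
    rw [h1, mul_one]
    refine Finset.prod_congr rfl fun e he => ?_
    rw [if_pos he]
  have e4 : ∏ e ∈ N ∩ L, (τ * x * (if tzoth G y e ∈ P then x else 1)) =
      τ ^ (N ∩ L).card * x ^ (N ∩ L).card * ∏ e ∈ N ∩ L, if tzoth G y e ∈ P then x else 1 := by
    rw [Finset.prod_mul_distrib, Finset.prod_const, mul_pow]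
  have e5 : τ ^ N.card = τ ^ (N ∩ L).card * τ ^ (N \ L).card := by
    rw [← pow_add, Finset.card_inter_add_card_sdiff]
  unfold Gr.tw
  rw [← Finset.mul_prod_erase H _ hyH, hNy, e1, e2, e3, e4, e5]
  ring

open Classical in
private theorem tz_fiber {G : Gr V E} [DecidableEq V] [DecidableEq E] {Λ B' : Finset E}
    (hB' : B' ⊆ Λ) {U P : Finset V} {y : V} (κ : ℕ) {τ x : ℝ} (hτ : 0 < τ) (hx : 1 ≤ x)
    (hy : y ∈ P) (N1 T : Finset E) :
    ∑ p ∈ (tzadm G Λ B' U P).filter (fun p => p.2 ∩ G.inc (G.ins Λ U) y = N1 ∧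
      tztt G Λ B' U P y p.1 p.2 = T), G.tw κ τ x p.1 p.2 ≤
    (2 * (x ^ (κ - 3))⁻¹) * (∏ e ∈ N1, (τ * x * (if tzoth G y e ∈ P then x else 1))) *
      (∏ e ∈ T, if e ∈ N1 then x else 1) *
      G.TZ κ τ x Λ B' (U.erase y) (P.erase y ∪ T.image (tzoth G y)) := by
  obtain ⟨c, hc⟩ : ∃ c, c = (2 * (x ^ (κ - 3))⁻¹) *
    (∏ e ∈ N1, (τ * x * (if tzoth G y e ∈ P then x else 1))) *
      (∏ e ∈ T, if e ∈ N1 then x else 1) := ⟨_, rfl⟩
  have hx0 : 0 ≤ x := by linarith
  have hc0 : 0 ≤ c := by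
    rw [hc]
    refine mul_nonneg (mul_nonneg (by positivity) (Finset.prod_nonneg fun e _ => ?_))
      (Finset.prod_nonneg fun e _ => ?_)
    · split_ifs <;> positivity
    · split_ifs <;> positivity
  obtain ⟨Fb, hFb⟩ : ∃ Fb, Fb = (tzadm G Λ B' U P).filter (fun p => p.2 ∩ G.inc (G.ins Λ U) y = N1 ∧
      tztt G Λ B' U P y p.1 p.2 = T) := ⟨_, rfl⟩
  rw [← hc, ← hFb, tz_eq, Finset.mul_sum]
  have hmem : ∀ p ∈ Fb, p ∈ tzadm G Λ B' U P ∧ p.2 ∩ G.inc (G.ins Λ U) y = N1 ∧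
      tztt G Λ B' U P y p.1 p.2 = T := by
    intro p hp
    rw [hFb] at hp
    exact Finset.mem_filter.1 hp
  have h1 : ∀ p ∈ Fb, G.tw κ τ x p.1 p.2 =
      c * G.tw κ τ x (p.1.erase y, p.2 \ G.inc (G.ins Λ U) y).1
        (p.1.erase y, p.2 \ G.inc (G.ins Λ U) y).2 := by
    intro p hp
    obtain ⟨hp1, hp2, hp3⟩ := hmem p hp
    have h2 := tz_step_w (H := p.1) (N := p.2) κ τ x hy hp1
    rw [hp2, hp3, ← hc] at h2
    exact h2
  rw [Finset.sum_congr rfl h1]
  rw [← Finset.sum_image (s := Fb) (f := fun r : Finset V × Finset E => c * G.tw κ τ x r.1 r.2)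
    (g := fun p => (p.1.erase y, p.2 \ G.inc (G.ins Λ U) y))]
  · refine Finset.sum_le_sum_of_subset_of_nonneg ?_ fun r _ _ =>
      mul_nonneg hc0 (tz_tw_nonneg G κ hτ hx _ _)
    intro r hr
    obtain ⟨p, hp, rfl⟩ := Finset.mem_image.1 hr
    obtain ⟨hp1, hp2, hp3⟩ := hmem p hp
    have h2 := tz_step_mem (y := y) hB' (H := p.1) (N := p.2) hp1
    rw [hp3] at h2
    exact h2
  · intro p hp p' hp' hpp
    obtain ⟨hp1, hp2, hp3⟩ := hmem p hp
    obtain ⟨hp1', hp2', hp3'⟩ := hmem p' hp'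
    have h3 := (Prod.mk.injEq _ _ _ _).mp hpp
    refine Prod.ext ?_ ?_
    · rw [← Finset.insert_erase ((tz_mem_adm.1 hp1).1.2 hy), h3.1,
        Finset.insert_erase ((tz_mem_adm.1 hp1').1.2 hy)]
    · rw [← Finset.sdiff_union_inter p.2 (G.inc (G.ins Λ U) y), h3.2, hp2, ← hp2',
        Finset.sdiff_union_inter]

private theorem tz_prod_mono {ι : Type*} [DecidableEq ι] {s t : Finset ι} (hst : s ⊆ t) (f : ι → ℝ)
    (hf : ∀ i ∈ t, 1 ≤ f i) : ∏ i ∈ s, f i ≤ ∏ i ∈ t, f i := by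
  rw [← Finset.prod_sdiff hst]
  have h1 : 1 ≤ ∏ i ∈ t \ s, f i := by
    refine Finset.prod_induction f (fun r => 1 ≤ r) (fun a b ha hb => ?_) le_rfl
      fun i hi => hf i (Finset.mem_sdiff.1 hi).1
    exact one_le_mul_of_one_le_of_one_le ha hb
  have h2 : 0 ≤ ∏ i ∈ s, f i := Finset.prod_nonneg fun i hi => le_trans zero_le_one (hf i (hst hi))
  nlinarith

private theorem tz_ins_erase {G : Gr V E} [DecidableEq V] [DecidableEq E] {Λ : Finset E} {U : Finset V}
    {y : V} : G.ins Λ U \ G.inc (G.ins Λ U) y = G.ins Λ (U.erase y) := by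
  ext e
  rw [Finset.mem_sdiff, tz_mem_inc, tz_mem_ins, tz_mem_ins, Finset.mem_erase, Finset.mem_erase]
  unfold Gr.Inc
  tauto

open Classical in
private theorem tz_step {G : Gr V E} [DecidableEq V] [DecidableEq E] {κ Δ : ℕ} {Λ B' : Finset E}
    (hB' : B' ⊆ Λ) (hΔ : ∀ y, (G.inc Λ y).card ≤ Δ) {τ x q ρ : ℝ} (hτ : 0 < τ) (hx : 1 ≤ x)
    (hq1 : 1 + τ * x ^ 2 ≤ q ^ 2) (hq2 : 1 + τ * x ≤ q) (hρ0 : 0 ≤ ρ)
    (hρ : 2 * (x ^ (κ - 3))⁻¹ * q ^ Δ * (1 + τ * x ^ 2 * ρ) ^ Δ * (1 + ρ) ^ 3 ≤ ρ)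
    {U P : Finset V} {y : V} (hy : y ∈ P) (hP : P ⊆ U)
    (ih : ∀ P' ⊆ U.erase y, G.TZ κ τ x Λ B' (U.erase y) P' ≤
      ∏ z ∈ P', (ρ / q ^ Δ * q ^ (G.inc (G.ins Λ (U.erase y)) z).card)) :
    G.TZ κ τ x Λ B' U P ≤ ∏ z ∈ P, (ρ / q ^ Δ * q ^ (G.inc (G.ins Λ U) z).card) := by
  have hx0 : 0 ≤ x := by linarith
  have hτx : 0 < τ * x := mul_pos hτ (by linarith)
  have hq : 1 ≤ q := by linarith
  have hq0 : 0 < q := by linarith
  have hqΔ : 0 < q ^ Δ := by positivity
  obtain ⟨L, hL⟩ : ∃ L, L = G.inc (G.ins Λ U) y := ⟨_, rfl⟩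
  have hLi : ∀ e ∈ L, G.Inc y e := by
    intro e he
    rw [hL] at he
    exact (tz_mem_inc.1 he).2
  have hLU : ∀ e ∈ L, G.a e ∈ U ∧ G.b e ∈ U := by
    intro e he
    rw [hL] at he
    exact (tz_mem_ins.1 (tz_mem_inc.1 he).1).2
  have hLΔ : L.card ≤ Δ := by
    refine le_trans (Finset.card_le_card ?_) (hΔ y)
    intro e he
    rw [hL] at he
    have h1 := tz_mem_inc.1 he
    exact tz_mem_inc.2 ⟨(tz_mem_ins.1 h1.1).1, h1.2⟩
  have hfn : ∀ (W : Finset V) (z : V), 0 ≤ ρ / q ^ Δ * q ^ (G.inc (G.ins Λ W) z).card := by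
    intro W z
    positivity
  by_cases hA3 : (L ∩ B').card ≤ 3
  swap
  · have h1 : tzadm G Λ B' U P = ∅ := by
      rw [Finset.eq_empty_iff_forall_notMem]
      intro p hp
      obtain ⟨⟨hHU, hPH⟩, hN, h3, hNi, hsp⟩ := tz_mem_adm.1 hp
      have h4 := h3 y (hPH hy)
      apply hA3
      refine le_trans (Finset.card_le_card ?_) h4
      intro e he
      exact tz_mem_inc.2 ⟨(Finset.mem_inter.1 he).2, hLi e (Finset.mem_inter.1 he).1⟩
    rw [tz_eq, h1, Finset.sum_empty]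
    exact Finset.prod_nonneg fun z _ => hfn U z
  obtain ⟨A, hA⟩ : ∃ A, A = L ∩ B' := ⟨_, rfl⟩
  obtain ⟨M, hM⟩ : ∃ M, M = L \ B' := ⟨_, rfl⟩
  obtain ⟨F, hF⟩ : ∃ F : Finset E → Finset E, F = fun N1 => (N1 ∪ A).filter (fun e => tzoth G y e ∉ P) :=
    ⟨_, rfl⟩
  obtain ⟨α, hα⟩ : ∃ α, α = 2 * (x ^ (κ - 3))⁻¹ := ⟨_, rfl⟩
  have hα0 : 0 ≤ α := by rw [hα]; positivity
  obtain ⟨u, hu⟩ : ∃ u : E → ℝ, u = fun e => τ * x * (if tzoth G y e ∈ P then x else 1) := ⟨_, rfl⟩
  have hu0 : ∀ e, 0 ≤ u e := by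
    intro e
    rw [hu]
    show 0 ≤ τ * x * (if tzoth G y e ∈ P then x else 1)
    split_ifs <;> positivity
  obtain ⟨R1, hR1⟩ : ∃ R1, R1 = ∏ z ∈ P.erase y,
    (ρ / q ^ Δ * q ^ (G.inc (G.ins Λ (U.erase y)) z).card) := ⟨_, rfl⟩
  have hR10 : 0 ≤ R1 := by
    rw [hR1]
    exact Finset.prod_nonneg fun z _ => hfn _ z
  obtain ⟨QL, hQL⟩ : ∃ QL, QL = ∏ e ∈ L, (if tzoth G y e ∈ P then q else 1) := ⟨_, rfl⟩
  have hAL : A ⊆ L := by
    rw [hA]
    exact Finset.inter_subset_left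
  have hML : M ⊆ L := by
    rw [hM]
    exact Finset.sdiff_subset
  -- the sum over the pairs
  have hsum : G.TZ κ τ x Λ B' U P ≤ ∑ N1 ∈ M.powerset, ∑ T ∈ (F N1).powerset,
      α * (∏ e ∈ N1, u e) * (∏ e ∈ T, if e ∈ N1 then x else 1) *
        G.TZ κ τ x Λ B' (U.erase y) (P.erase y ∪ T.image (tzoth G y)) := by
    rw [tz_eq]
    have h1 : ∀ p ∈ tzadm G Λ B' U P, p.2 ∩ L ∈ M.powerset := by
      intro p hp
      obtain ⟨⟨hHU, hPH⟩, hN, h3, hNi, hsp⟩ := tz_mem_adm.1 hp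
      rw [Finset.mem_powerset, hM]
      intro e he
      have he2 := Finset.mem_inter.1 he
      exact Finset.mem_sdiff.2 ⟨he2.2, (Finset.mem_sdiff.1 (hN he2.1)).2⟩
    rw [← Finset.sum_fiberwise_of_maps_to h1]
    refine Finset.sum_le_sum fun N1 hN1 => ?_
    have h2 : ∀ p ∈ (tzadm G Λ B' U P).filter (fun p => p.2 ∩ L = N1),
        tztt G Λ B' U P y p.1 p.2 ∈ (F N1).powerset := by
      intro p hp
      obtain ⟨hp1, hp2⟩ := Finset.mem_filter.1 hp
      rw [Finset.mem_powerset, hF]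
      intro e he
      unfold tztt at he
      rw [← hL, hp2, ← hA] at he
      obtain ⟨h3, h4⟩ := Finset.mem_filter.1 he
      exact Finset.mem_filter.2 ⟨h3, h4.2⟩
    rw [← Finset.sum_fiberwise_of_maps_to h2]
    refine Finset.sum_le_sum fun T hT => ?_
    rw [Finset.filter_filter]
    have h5 := tz_fiber (G := G) (U := U) (P := P) (y := y) hB' κ hτ hx hy N1 T
    rw [← hL, ← hα] at h5
    rw [hu]
    exact h5
  have hIH : ∀ N1 ∈ M.powerset, ∀ T ∈ (F N1).powerset,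
      G.TZ κ τ x Λ B' (U.erase y) (P.erase y ∪ T.image (tzoth G y)) ≤ R1 * ρ ^ T.card := by
    intro N1 hN1 T hT
    have hTL : ∀ e ∈ T, e ∈ L ∧ tzoth G y e ∉ P := by
      intro e he
      have h1 := (Finset.mem_powerset.1 hT) he
      rw [hF] at h1
      obtain ⟨h2, h3⟩ := Finset.mem_filter.1 h1
      refine ⟨?_, h3⟩
      rcases Finset.mem_union.1 h2 with h4 | h4
      · exact hML ((Finset.mem_powerset.1 hN1) h4)
      · exact hAL h4
    refine le_trans (ih _ ?_) ?_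
    · refine Finset.union_subset (Finset.erase_subset_erase _ hP) ?_
      intro z hz
      obtain ⟨e, he, rfl⟩ := Finset.mem_image.1 hz
      exact Finset.mem_erase.2 ⟨tz_oth_ne (hLi e (hTL e he).1), tz_oth_mem (hLU e (hTL e he).1)⟩
    · have hdis : Disjoint (P.erase y) (T.image (tzoth G y)) := by
        rw [Finset.disjoint_left]
        intro z hz hz2
        obtain ⟨e, he, rfl⟩ := Finset.mem_image.1 hz2
        exact (hTL e he).2 (Finset.mem_of_mem_erase hz)
      rw [Finset.prod_union hdis, ← hR1]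
      refine mul_le_mul_of_nonneg_left ?_ hR10
      rw [Finset.prod_image (fun e he f hf hef =>
        tz_oth_inj (hLi e (hTL e he).1) (hLi f (hTL f hf).1) hef), ← Finset.prod_const]
      refine Finset.prod_le_prod (fun e _ => hfn _ _) fun e _ => ?_
      rw [div_mul_eq_mul_div, div_le_iff₀ hqΔ]
      refine mul_le_mul_of_nonneg_left (pow_le_pow_right₀ hq ?_) hρ0
      refine le_trans (Finset.card_le_card ?_) (hΔ (tzoth G y e))
      intro f hf
      have h1 := tz_mem_inc.1 hf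
      exact tz_mem_inc.2 ⟨(tz_mem_ins.1 h1.1).1, h1.2⟩
  -- the sum over T
  have hT : ∀ N1 ∈ M.powerset, ∑ T ∈ (F N1).powerset,
      α * (∏ e ∈ N1, u e) * (∏ e ∈ T, if e ∈ N1 then x else 1) *
        G.TZ κ τ x Λ B' (U.erase y) (P.erase y ∪ T.image (tzoth G y)) ≤
      α * R1 * (1 + ρ) ^ 3 * ∏ e ∈ N1, (u e * (if tzoth G y e ∉ P then 1 + ρ * x else 1)) := by
    intro N1 hN1
    have hN1M := Finset.mem_powerset.1 hN1
    have hu1 : 0 ≤ ∏ e ∈ N1, u e := Finset.prod_nonneg fun e _ => hu0 e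
    have h1 : ∑ T ∈ (F N1).powerset,
        α * (∏ e ∈ N1, u e) * (∏ e ∈ T, if e ∈ N1 then x else 1) *
          G.TZ κ τ x Λ B' (U.erase y) (P.erase y ∪ T.image (tzoth G y)) ≤
        ∑ T ∈ (F N1).powerset, α * (∏ e ∈ N1, u e) * R1 *
          ∏ e ∈ T, (ρ * (if e ∈ N1 then x else 1)) := by
      refine Finset.sum_le_sum fun T hT2 => ?_
      have h2 : 0 ≤ ∏ e ∈ T, (if e ∈ N1 then x else 1) :=
        Finset.prod_nonneg fun e _ => by split_ifs <;> positivity
      calc α * (∏ e ∈ N1, u e) * (∏ e ∈ T, if e ∈ N1 then x else 1) *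
          G.TZ κ τ x Λ B' (U.erase y) (P.erase y ∪ T.image (tzoth G y))
          ≤ α * (∏ e ∈ N1, u e) * (∏ e ∈ T, if e ∈ N1 then x else 1) * (R1 * ρ ^ T.card) :=
            mul_le_mul_of_nonneg_left (hIH N1 hN1 T hT2) (mul_nonneg (mul_nonneg hα0 hu1) h2)
        _ = α * (∏ e ∈ N1, u e) * R1 * ∏ e ∈ T, (ρ * (if e ∈ N1 then x else 1)) := by
            rw [Finset.prod_mul_distrib, Finset.prod_const]
            ring
    refine le_trans h1 ?_
    rw [← Finset.mul_sum, ← Finset.prod_one_add]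
    have hdis : Disjoint N1 A := by
      rw [Finset.disjoint_left]
      intro e he he2
      have h3 := hN1M he
      rw [hM] at h3
      rw [hA] at he2
      exact (Finset.mem_sdiff.1 h3).2 (Finset.mem_inter.1 he2).2
    have h3 : ∏ e ∈ F N1, (1 + ρ * (if e ∈ N1 then x else 1)) ≤
        (∏ e ∈ N1, (if tzoth G y e ∉ P then 1 + ρ * x else 1)) * (1 + ρ) ^ 3 := by
      rw [hF]
      show ∏ e ∈ (N1 ∪ A).filter (fun e => tzoth G y e ∉ P), (1 + ρ * (if e ∈ N1 then x else 1)) ≤ _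
      rw [Finset.prod_filter, Finset.prod_union hdis]
      have h4 : ∏ e ∈ N1, (if tzoth G y e ∉ P then 1 + ρ * (if e ∈ N1 then x else 1) else 1) =
          ∏ e ∈ N1, (if tzoth G y e ∉ P then 1 + ρ * x else 1) := by
        refine Finset.prod_congr rfl fun e he => ?_
        rw [if_pos he]
      rw [h4]
      refine mul_le_mul_of_nonneg_left ?_ (Finset.prod_nonneg fun e _ => by split_ifs <;> positivity)
      calc ∏ e ∈ A, (if tzoth G y e ∉ P then 1 + ρ * (if e ∈ N1 then x else 1) else 1)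
          ≤ ∏ e ∈ A, (1 + ρ) := by
            refine Finset.prod_le_prod (fun e _ => by split_ifs <;> positivity) fun e he => ?_
            rw [if_neg (fun h => (Finset.disjoint_left.1 hdis) h he), mul_one]
            split_ifs <;> linarith
        _ = (1 + ρ) ^ A.card := Finset.prod_const _
        _ ≤ (1 + ρ) ^ 3 := pow_le_pow_right₀ (by linarith) (by rw [hA]; exact hA3)
    calc α * (∏ e ∈ N1, u e) * R1 * ∏ e ∈ F N1, (1 + ρ * (if e ∈ N1 then x else 1))
        ≤ α * (∏ e ∈ N1, u e) * R1 *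
          ((∏ e ∈ N1, (if tzoth G y e ∉ P then 1 + ρ * x else 1)) * (1 + ρ) ^ 3) :=
          mul_le_mul_of_nonneg_left h3 (mul_nonneg (mul_nonneg hα0 hu1) hR10)
      _ = α * R1 * (1 + ρ) ^ 3 *
          ∏ e ∈ N1, (u e * (if tzoth G y e ∉ P then 1 + ρ * x else 1)) := by
          rw [Finset.prod_mul_distrib]
          ring
  have hall : G.TZ κ τ x Λ B' U P ≤ α * R1 * (1 + ρ) ^ 3 *
      ∏ e ∈ M, (1 + u e * (if tzoth G y e ∉ P then 1 + ρ * x else 1)) := by
    refine le_trans hsum (le_trans (Finset.sum_le_sum hT) ?_)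
    rw [← Finset.mul_sum, ← Finset.prod_one_add]
  have hfac : ∀ e, 1 + u e * (if tzoth G y e ∉ P then 1 + ρ * x else 1) ≤
      q * (1 + τ * x ^ 2 * ρ) * (if tzoth G y e ∈ P then q else 1) := by
    intro e
    have hz : 0 ≤ τ * x ^ 2 * ρ := by positivity
    rw [hu]
    show 1 + τ * x * (if tzoth G y e ∈ P then x else 1) *
      (if tzoth G y e ∉ P then 1 + ρ * x else 1) ≤
      q * (1 + τ * x ^ 2 * ρ) * (if tzoth G y e ∈ P then q else 1)
    by_cases h : tzoth G y e ∈ P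
    · rw [if_pos h, if_neg (not_not.2 h), if_pos h]
      have h1 : 0 ≤ τ * x ^ 2 * ρ * q ^ 2 := mul_nonneg hz (sq_nonneg q)
      calc 1 + τ * x * x * 1 = 1 + τ * x ^ 2 := by ring
        _ ≤ q ^ 2 + τ * x ^ 2 * ρ * q ^ 2 := by linarith
        _ = q * (1 + τ * x ^ 2 * ρ) * q := by ring
    · rw [if_neg h, if_pos h, if_neg h]
      have h1 : 0 ≤ τ * x ^ 2 * ρ * (τ * x) := mul_nonneg hz hτx.le
      have h2 : (1 + τ * x) * (1 + τ * x ^ 2 * ρ) ≤ q * (1 + τ * x ^ 2 * ρ) :=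
        mul_le_mul_of_nonneg_right hq2 (by linarith)
      calc 1 + τ * x * 1 * (1 + ρ * x) = 1 + τ * x + τ * x ^ 2 * ρ := by ring
        _ ≤ (1 + τ * x) * (1 + τ * x ^ 2 * ρ) := by nlinarith
        _ ≤ q * (1 + τ * x ^ 2 * ρ) := h2
        _ = q * (1 + τ * x ^ 2 * ρ) * 1 := by ring
  have hone : ∀ e ∈ L, 1 ≤ q * (1 + τ * x ^ 2 * ρ) * (if tzoth G y e ∈ P then q else 1) := by
    intro e _
    refine le_trans ?_ (hfac e)
    have h1 : 0 ≤ u e * (if tzoth G y e ∉ P then 1 + ρ * x else 1) :=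
      mul_nonneg (hu0 e) (by split_ifs <;> positivity)
    linarith
  have hprod : ∏ e ∈ M, (1 + u e * (if tzoth G y e ∉ P then 1 + ρ * x else 1)) ≤
      q ^ L.card * (1 + τ * x ^ 2 * ρ) ^ Δ * QL := by
    have hz : 0 ≤ τ * x ^ 2 * ρ := by positivity
    calc ∏ e ∈ M, (1 + u e * (if tzoth G y e ∉ P then 1 + ρ * x else 1))
        ≤ ∏ e ∈ M, (q * (1 + τ * x ^ 2 * ρ) * (if tzoth G y e ∈ P then q else 1)) := by
          refine Finset.prod_le_prod (fun e _ => ?_) fun e _ => hfac e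
          have h1 : 0 ≤ u e * (if tzoth G y e ∉ P then 1 + ρ * x else 1) :=
            mul_nonneg (hu0 e) (by split_ifs <;> positivity)
          linarith
      _ ≤ ∏ e ∈ L, (q * (1 + τ * x ^ 2 * ρ) * (if tzoth G y e ∈ P then q else 1)) :=
          tz_prod_mono hML _ hone
      _ = q ^ L.card * (1 + τ * x ^ 2 * ρ) ^ L.card * QL := by
          rw [Finset.prod_mul_distrib, Finset.prod_const, mul_pow, hQL]
      _ ≤ q ^ L.card * (1 + τ * x ^ 2 * ρ) ^ Δ * QL := by
          have h1 : 0 ≤ QL := by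
            rw [hQL]
            exact Finset.prod_nonneg fun e _ => by split_ifs <;> positivity
          refine mul_le_mul_of_nonneg_right (mul_le_mul_of_nonneg_left
            (pow_le_pow_right₀ (by linarith) hLΔ) (by positivity)) h1
  -- the right-hand side
  have hRHS : ∏ z ∈ P, (ρ / q ^ Δ * q ^ (G.inc (G.ins Λ U) z).card) =
      ρ / q ^ Δ * q ^ L.card * (QL * R1) := by
    rw [← Finset.mul_prod_erase P _ hy, ← hL]
    congr 1
    have h1 : QL = ∏ z ∈ P.erase y, q ^ (G.inc L z).card := by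
      rw [tz_prod_oth G hLi (Finset.notMem_erase y P) q, hQL]
      refine Finset.prod_congr rfl fun e he => ?_
      have hne := tz_oth_ne (hLi e he)
      by_cases h : tzoth G y e ∈ P
      · rw [if_pos h, if_pos (Finset.mem_erase.2 ⟨hne, h⟩)]
      · rw [if_neg h, if_neg (fun h2 => h (Finset.mem_of_mem_erase h2))]
    rw [h1, hR1, ← Finset.prod_mul_distrib]
    refine Finset.prod_congr rfl fun z _ => ?_
    have h2 : q ^ (G.inc (G.ins Λ U) z).card =
        q ^ (G.inc (G.ins Λ (U.erase y)) z).card * q ^ (G.inc L z).card := by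
      rw [tz_pow_inc, tz_pow_inc, tz_pow_inc, ← tz_ins_erase, ← hL]
      refine (Finset.prod_sdiff ?_).symm
      rw [hL]
      exact Finset.filter_subset _ _
    rw [h2]
    ring
  rw [hRHS]
  refine le_trans hall ?_
  have hQR : 0 ≤ QL * R1 := by
    refine mul_nonneg ?_ hR10
    rw [hQL]
    exact Finset.prod_nonneg fun e _ => by split_ifs <;> positivity
  calc α * R1 * (1 + ρ) ^ 3 * ∏ e ∈ M, (1 + u e * (if tzoth G y e ∉ P then 1 + ρ * x else 1))
      ≤ α * R1 * (1 + ρ) ^ 3 * (q ^ L.card * (1 + τ * x ^ 2 * ρ) ^ Δ * QL) :=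
        mul_le_mul_of_nonneg_left hprod (by positivity)
    _ = (α * (1 + τ * x ^ 2 * ρ) ^ Δ * (1 + ρ) ^ 3) * (q ^ L.card * (QL * R1)) := by ring
    _ ≤ (ρ / q ^ Δ) * (q ^ L.card * (QL * R1)) := by
        refine mul_le_mul_of_nonneg_right ?_ (mul_nonneg (by positivity) hQR)
        rw [le_div_iff₀ hqΔ, hα]
        refine le_trans (le_of_eq ?_) hρ
        ring
    _ = ρ / q ^ Δ * q ^ L.card * (QL * R1) := by ring

theorem Gr.trez (G : Gr V E) [DecidableEq V] [DecidableEq E] {κ Δ : ℕ} {Λ B' : Finset E} (hB' : B' ⊆ Λ)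
    (hΔ : ∀ y, (G.inc Λ y).card ≤ Δ) {τ x q ρ : ℝ} (hτ : 0 < τ) (hx : 1 ≤ x)
    (hq1 : 1 + τ * x ^ 2 ≤ q ^ 2) (hq2 : 1 + τ * x ≤ q) (hρ0 : 0 ≤ ρ)
    (hρ : 2 * (x ^ (κ - 3))⁻¹ * q ^ Δ * (1 + τ * x ^ 2 * ρ) ^ Δ * (1 + ρ) ^ 3 ≤ ρ)
    (U P : Finset V) (hP : P ⊆ U) :
    G.TZ κ τ x Λ B' U P ≤ ∏ z ∈ P, (ρ / q ^ Δ * q ^ (G.inc (G.ins Λ U) z).card) := by
  classical
  induction U using Finset.strongInduction generalizing P with
  | H U ih =>
    rcases P.eq_empty_or_nonempty with hPe | ⟨y, hy⟩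
    · subst hPe
      rw [Finset.prod_empty, tz_eq]
      have h1 : ∀ p ∈ tzadm G Λ B' U ∅, p = (∅, ∅) := by
        intro p hp
        obtain ⟨⟨hHU, hPH⟩, hN, h3, hNi, hsp⟩ := tz_mem_adm.1 hp
        have hH : p.1 = ∅ := by
          rw [Finset.eq_empty_iff_forall_notMem]
          intro h hh
          exact hsp (∅ : Set V) (fun z hz => absurd hz (Finset.notMem_empty z))
            (fun w hw => absurd hw (Set.notMem_empty w)) h hh
        have hN2 : p.2 = ∅ := by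
          rw [Finset.eq_empty_iff_forall_notMem]
          intro e he
          obtain ⟨z, hz, _⟩ := hNi e he
          rw [hH] at hz
          exact Finset.notMem_empty z hz
        exact Prod.ext hH hN2
      have h2 : tzadm G Λ B' U ∅ ⊆ {(∅, ∅)} := fun p hp => Finset.mem_singleton.2 (h1 p hp)
      refine le_trans (Finset.sum_le_sum_of_subset_of_nonneg h2 fun r _ _ =>
        tz_tw_nonneg G κ hτ hx _ _) ?_
      rw [Finset.sum_singleton]
      unfold Gr.tw
      simp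
    · exact tz_step hB' hΔ hτ hx hq1 hq2 hρ0 hρ hy hP fun P' hP' =>
        ih (U.erase y) (Finset.erase_ssubset (hP hy)) P' hP'

end Pool.Agent.CDP
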