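import Mathlib
import Pool.Agent.CDP.Defs
import Pool.Agent.CDP.SOL
import Pool.Agent.CDP.DISC
import Pool.Agent.CDP.TREZ

/-! CDP, module TREE: the preimage bound.

PROOF.  Let `𝒱` be the set of endpoints of edges of `Λ`, `U1 = 𝒱.erase u`, `L = inc Λ u`,
`M = L \ B'`, `A = L ∩ B' = inc B' u` (`A.card = κ + 1`); `oth e` is the other endpoint of `e ∈ L`
(injective on `L`).  For `B` with `Pre κ u B' B` put `H = HC κ B u`, `N = B \ B'`, `N1 = N ∩ L`,
`N2 = N \ L`, `H2 = H.erase u`, `T = {e ∈ N1 ∪ A : oth e ∈ H}`.  `T ≠ ∅`: `H` contains a `y ≠ u`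
joined to `u` by a path of heavy vertices through edges of `B`; the first step is along an edge of
`B` at `u` to a vertex of `H`.  As in TREZ: `(H2, N2)` is admissible for `(U1, P')`, `P' = oth(T)`:
`N2` is incident to `H`, not to `u`; `(inc B' y).card ≤ 3` on `H2` by `Pre`;
`Spans (N2 ∪ B') P' H2` (given `D'`, the set `D' ∪ {u}` contains `u` and is closed under `HR`-steps).
For `y ∈ H2`: `(inc N y).card ≥ κ - 3` because `y` is heavy and has at most three edges in `B'`;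
and `(inc N y).card = (inc N2 y).card + #{e ∈ N1 : oth e = y}`.  With `j ≤ (1/2) * 2 ^ j` for
`j = H.card - 1 = H2.card`:
`(H.card - 1) * τ ^ N.card ≤ (1/2) * tw κ τ x H2 N2 * τ ^ N1.card * x ^ #{e ∈ N1 : oth e ∈ H}` and
`{e ∈ N1 : oth e ∈ H} = T ∩ N1`.  `B ↦ (N1, T, H2, N2)` is injective (`B = B' ∪ N1 ∪ N2`).  So the sum
is at most
`(1/2) * ∑ N1 ⊆ M, ∑ T ⊆ N1 ∪ A, T ≠ ∅, τ ^ N1.card * x ^ #(T ∩ N1) * TZ U1 (oth(T))`
and by `trez`, `TZ U1 (oth T) ≤ ρ ^ T.card` (`q ≥ 1`, degrees at most `Δ`).  Including `T = ∅` with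
weight `1` the double sum is `(1 + ρ) ^ (κ + 1) * (1 + τ + τ x ρ) ^ M.card`, and the part `T = ∅` is
`(1 + τ) ^ M.card`.  So the sum is at most
`(1/2) * ((1 + ρ) ^ (κ + 1) * (1 + τ + τ x ρ) ^ m - (1 + τ) ^ m)
 ≤ (1/2) * (1 + τ) ^ m * ((1 + ρ) ^ (κ + 1) * (1 + τ x ρ) ^ m - 1)`, `m = M.card ≤ Δ`, at most `1` by
`hS` (monotone in `m`). -/

namespace Pool.Agent.CDP

variable {V E : Type*}

private noncomputable def TREE_oth (G : Gr V E) (u : V) (e : E) : V := by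
  classical exact if G.a e = u then G.b e else G.a e

private theorem TREE_oth_inc (G : Gr V E) (u : V) (e : E) : G.Inc (TREE_oth G u e) e := by
  unfold TREE_oth
  split_ifs
  · exact Or.inr rfl
  · exact Or.inl rfl

private theorem TREE_oth_ne (G : Gr V E) (u : V) (e : E) : TREE_oth G u e ≠ u := by
  unfold TREE_oth
  split_ifs with h
  · exact fun h2 => G.ne e (h.trans h2.symm)
  · exact h

private theorem TREE_oth_eq (G : Gr V E) {u w : V} {e : E} (hu : G.Inc u e) (hw : G.Inc w e) (hne : w ≠ u) :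
    TREE_oth G u e = w := by
  unfold TREE_oth
  rcases hu with hu | hu
  · rw [if_pos hu]
    rcases hw with hw | hw
    · exact absurd (hw.symm.trans hu) hne
    · exact hw
  · have h1 : G.a e ≠ u := fun h => G.ne e (h.trans hu.symm)
    rw [if_neg h1]
    rcases hw with hw | hw
    · exact hw
    · exact absurd (hw.symm.trans hu) hne

private theorem TREE_oth_inj (G : Gr V E) {u : V} {e f : E} (he : G.Inc u e) (hf : G.Inc u f)
    (h : TREE_oth G u e = TREE_oth G u f) : e = f := by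
  unfold TREE_oth at h
  rcases he with he | he
  · rw [if_pos he] at h
    rcases hf with hf | hf
    · rw [if_pos hf] at h
      exact G.simple e f (Or.inl ⟨he.trans hf.symm, h⟩)
    · have h1 : G.a f ≠ u := fun h' => G.ne f (h'.trans hf.symm)
      rw [if_neg h1] at h
      exact G.simple e f (Or.inr ⟨he.trans hf.symm, h⟩)
  · have h1 : G.a e ≠ u := fun h' => G.ne e (h'.trans he.symm)
    rw [if_neg h1] at h
    rcases hf with hf | hf
    · rw [if_pos hf] at h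
      exact G.simple e f (Or.inr ⟨h, he.trans hf.symm⟩)
    · have h2 : G.a f ≠ u := fun h' => G.ne f (h'.trans hf.symm)
      rw [if_neg h2] at h
      exact G.simple e f (Or.inl ⟨h, he.trans hf.symm⟩)

private theorem TREE_end (G : Gr V E) {κ : ℕ} {B : Finset E} {u z : V} (h : z ∈ G.HC κ B u) :
    ∃ e ∈ B, G.a e = z ∨ G.b e = z := by
  classical
  unfold Gr.HC at h
  have h2 := (Finset.mem_filter.1 h).1
  rcases Finset.mem_union.1 h2 with h3 | h3
  · obtain ⟨e, he, h4⟩ := Finset.mem_image.1 h3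
    exact ⟨e, he, Or.inl h4⟩
  · obtain ⟨e, he, h4⟩ := Finset.mem_image.1 h3
    exact ⟨e, he, Or.inr h4⟩

private theorem TREE_mem_ins (G : Gr V E) {Λ : Finset E} {U : Finset V} {e : E} :
    e ∈ G.ins Λ U ↔ e ∈ Λ ∧ G.a e ∈ U ∧ G.b e ∈ U := by
  classical
  unfold Gr.ins
  rw [Finset.mem_filter]

private theorem TREE_pow [DecidableEq E] (M : Finset E) (c : ℝ) : ∑ N ∈ M.powerset, c ^ N.card = (1 + c) ^ M.card := by
  have h := Finset.prod_one_add (f := fun _ : E => c) M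
  rw [Finset.prod_const] at h
  rw [h]
  refine Finset.sum_congr rfl fun N _ => ?_
  rw [Finset.prod_const]

private theorem TREE_inner [DecidableEq E] {N A : Finset E} (hd : Disjoint N A) (x ρ : ℝ) :
    ∑ T ∈ (N ∪ A).powerset, x ^ (T ∩ N).card * ρ ^ T.card = (1 + x * ρ) ^ N.card * (1 + ρ) ^ A.card := by
  have h := Finset.prod_one_add (f := fun e : E => (if e ∈ N then x else 1) * ρ) (N ∪ A)
  have h1 : ∀ T ∈ (N ∪ A).powerset, x ^ (T ∩ N).card * ρ ^ T.card = ∏ e ∈ T, ((if e ∈ N then x else 1) * ρ) := by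
    intro T _
    rw [Finset.prod_mul_distrib, Finset.prod_const, Finset.prod_ite_mem, Finset.prod_const]
  rw [Finset.sum_congr rfl h1, ← h, Finset.prod_union hd]
  congr 1
  · rw [Finset.prod_congr rfl (g := fun _ => 1 + x * ρ) fun e he => by rw [if_pos he], Finset.prod_const]
  · rw [Finset.prod_congr rfl (g := fun _ => 1 + ρ) fun e he => by
      rw [if_neg (Finset.disjoint_right.1 hd he), one_mul], Finset.prod_const]

private theorem TREE_num [DecidableEq E] {M A : Finset E} (hd : Disjoint M A) {κ Δ : ℕ} (hA : A.card = κ + 1)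
    (hM : M.card ≤ Δ) {τ x ρ : ℝ} (hτ : 0 < τ) (hx : 1 ≤ x) (hρ0 : 0 ≤ ρ)
    (hS : (1 / 2) * (1 + τ) ^ Δ * ((1 + ρ) ^ (κ + 1) * (1 + τ * x * ρ) ^ Δ - 1) ≤ 1) :
    ∑ N ∈ M.powerset, ∑ T ∈ (N ∪ A).powerset.erase ∅,
      (1 / 2) * τ ^ N.card * (x ^ (T ∩ N).card * ρ ^ T.card) ≤ 1 := by
  have h1 : ∀ N ∈ M.powerset, ∑ T ∈ (N ∪ A).powerset.erase ∅,
      (1 / 2) * τ ^ N.card * (x ^ (T ∩ N).card * ρ ^ T.card) =
      (1 / 2) * ((1 + ρ) ^ (κ + 1)) * (τ * (1 + x * ρ)) ^ N.card - (1 / 2) * τ ^ N.card := by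
    intro N hN
    rw [← Finset.mul_sum, Finset.sum_erase_eq_sub (Finset.empty_mem_powerset _),
      TREE_inner (hd.mono_left (Finset.mem_powerset.1 hN)), hA, mul_pow]
    simp only [Finset.empty_inter, Finset.card_empty, pow_zero, mul_one]
    ring
  rw [Finset.sum_congr rfl h1, Finset.sum_sub_distrib, ← Finset.mul_sum, ← Finset.mul_sum, TREE_pow, TREE_pow]
  have hxρ : 0 ≤ x * ρ := mul_nonneg (by linarith) hρ0
  have hτxρ : 0 ≤ τ * x * ρ := by positivity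
  have h2 : (1 + τ * (1 + x * ρ)) ^ M.card ≤ ((1 + τ) * (1 + τ * x * ρ)) ^ M.card := by
    refine pow_le_pow_left₀ (by positivity) ?_ _
    nlinarith [mul_nonneg hτ.le hτxρ]
  have h3 : 1 ≤ (1 + ρ) ^ (κ + 1) := one_le_pow₀ (by linarith)
  have h4 : (1 + τ * x * ρ) ^ M.card ≤ (1 + τ * x * ρ) ^ Δ := pow_le_pow_right₀ (by linarith) hM
  have h5 : (1 + τ) ^ M.card ≤ (1 + τ) ^ Δ := pow_le_pow_right₀ (by linarith) hM
  have h6 : 1 ≤ (1 + τ * x * ρ) ^ M.card := one_le_pow₀ (by linarith)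
  have h7 : (0 : ℝ) ≤ (1 + ρ) ^ (κ + 1) * (1 + τ * x * ρ) ^ M.card - 1 := by
    have := mul_le_mul h3 h6 zero_le_one (zero_le_one.trans h3)
    linarith
  calc (1 / 2) * ((1 + ρ) ^ (κ + 1)) * (1 + τ * (1 + x * ρ)) ^ M.card - (1 / 2) * (1 + τ) ^ M.card
      ≤ (1 / 2) * ((1 + ρ) ^ (κ + 1)) * ((1 + τ) * (1 + τ * x * ρ)) ^ M.card - (1 / 2) * (1 + τ) ^ M.card := by
        gcongr
    _ = (1 / 2) * (1 + τ) ^ M.card * ((1 + ρ) ^ (κ + 1) * (1 + τ * x * ρ) ^ M.card - 1) := by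
        rw [mul_pow]
        ring
    _ ≤ (1 / 2) * (1 + τ) ^ Δ * ((1 + ρ) ^ (κ + 1) * (1 + τ * x * ρ) ^ Δ - 1) := by
        refine mul_le_mul (by gcongr) (by gcongr) h7 (by positivity)
    _ ≤ 1 := hS

private theorem TREE_two (j : ℕ) : (j : ℝ) ≤ (1 / 2) * 2 ^ j := by
  have h : 2 * j ≤ 2 ^ j := by
    induction j with
    | zero => simp
    | succ n ih =>
      rcases Nat.eq_zero_or_pos n with rfl | hn
      · simp
      · rw [pow_succ]
        omega
  have h2 : ((2 * j : ℕ) : ℝ) ≤ ((2 ^ j : ℕ) : ℝ) := by exact_mod_cast h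
  push_cast at h2
  linarith

open Classical in
private theorem TREE_nonempty (G : Gr V E) {κ : ℕ} (hκ : 1 ≤ κ) {B : Finset E} {u : V}
    (hex : ∃ y ∈ G.HC κ B u, y ≠ u) : ∃ e ∈ B, G.Inc u e ∧ TREE_oth G u e ∈ G.HC κ B u := by
  by_contra hcon
  push Not at hcon
  obtain ⟨y, hy, hne⟩ := hex
  obtain ⟨h1, h2, h3⟩ := (G.mem_HC hκ).1 hy
  have key : ∀ z, Relation.ReflTransGen (G.HR κ B) u z → z = u := by
    intro z hz
    induction hz with
    | refl => rfl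
    | @tail b c hab hbc ih =>
      subst ih
      by_contra hc
      obtain ⟨e, he, he1, he2⟩ := hbc.2.2
      have he' : e ∈ B := he
      refine hcon e he' he1 ?_
      rw [TREE_oth_eq G he1 he2 hc, G.mem_HC hκ]
      exact ⟨h1, hbc.2.1, hab.tail hbc⟩
  exact hne (key y h3)

private theorem TREE_span (G : Gr V E) [DecidableEq V] [DecidableEq E] {κ : ℕ} (hκ : 1 ≤ κ) {B B' Λ : Finset E} {u : V}
    (hBΛ : B ⊆ Λ) (T : Finset E) (hT : ∀ e ∈ B, G.Inc u e → TREE_oth G u e ∈ G.HC κ B u → e ∈ T) :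
    G.Spans ((((B \ B') \ G.inc Λ u : Finset E) : Set E) ∪ (B' : Set E)) (T.image (TREE_oth G u))
      ((G.HC κ B u).erase u) := by
  intro D hD1 hD2 h hh
  rw [Finset.mem_erase] at hh
  obtain ⟨h1, h2, h3⟩ := (G.mem_HC hκ).1 hh.2
  have key : ∀ z, Relation.ReflTransGen (G.HR κ B) u z → z = u ∨ z ∈ D := by
    intro z hz
    induction hz with
    | refl => exact Or.inl rfl
    | @tail b c hab hbc ih =>
      by_cases hc : c = u
      · exact Or.inl hc
      right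
      have hcH : c ∈ G.HC κ B u := (G.mem_HC hκ).2 ⟨h1, hbc.2.1, hab.tail hbc⟩
      obtain ⟨e, he, he1, he2⟩ := hbc.2.2
      have he' : e ∈ B := he
      by_cases hb : b = u
      · subst hb
        refine hD1 c (Finset.mem_image.2 ⟨e, hT e he' he1 ?_, TREE_oth_eq G he1 he2 hc⟩)
        rw [TREE_oth_eq G he1 he2 hc]
        exact hcH
      · have hbD : b ∈ D := ih.resolve_left hb
        have hbH : b ∈ G.HC κ B u := (G.mem_HC hκ).2 ⟨h1, hbc.1, hab⟩
        by_cases hu : G.Inc u e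
        · have e1 := TREE_oth_eq G hu he1 hb
          have e2 := TREE_oth_eq G hu he2 hc
          rw [← e2, e1]
          exact hbD
        · refine hD2 b hbD (Finset.mem_erase.2 ⟨hb, hbH⟩) c (Finset.mem_erase.2 ⟨hc, hcH⟩) ⟨e, ?_, he1, he2⟩
          by_cases hB' : e ∈ B'
          · exact Or.inr hB'
          · left
            rw [Finset.mem_coe, Finset.mem_sdiff, Finset.mem_sdiff, G.mem_inc]
            exact ⟨⟨he', hB'⟩, fun hh' => hu hh'.2⟩
  exact (key h h3).resolve_left hh.1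

private theorem TREE_weight (G : Gr V E) [DecidableEq V] [DecidableEq E] {κ : ℕ} (hκ : 4 ≤ κ) {B B' Λ : Finset E} {u : V}
    (hBΛ : B ⊆ Λ) (hpre : G.Pre κ u B' B) {τ x : ℝ} (hτ : 0 < τ) (hx : 1 ≤ x) (T : Finset E)
    (hT : ∀ e ∈ B, G.Inc u e → TREE_oth G u e ∈ G.HC κ B u → e ∈ T)
    (hT' : ∀ e ∈ T, TREE_oth G u e ∈ G.HC κ B u) :
    (((G.HC κ B u).card : ℝ) - 1) * τ ^ (B \ B').card ≤
      (1 / 2) * τ ^ ((B \ B') ∩ G.inc Λ u).card * (x ^ (T ∩ ((B \ B') ∩ G.inc Λ u)).card *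
        G.tw κ τ x ((G.HC κ B u).erase u) ((B \ B') \ G.inc Λ u)) := by
  obtain ⟨N, hN⟩ : ∃ N, N = B \ B' := ⟨_, rfl⟩
  obtain ⟨L, hL⟩ : ∃ L, L = G.inc Λ u := ⟨_, rfl⟩
  obtain ⟨H, hH⟩ : ∃ H, H = G.HC κ B u := ⟨_, rfl⟩
  obtain ⟨p1, p2, p3, p4, p5⟩ := hpre
  rw [← hN, ← hL, ← hH]
  rw [← hH] at p3 p4 hT hT'
  have hx0 : 0 < x := by linarith
  have hcard : ((H.card : ℝ) - 1) = ((H.erase u).card : ℝ) := by
    rw [Finset.card_erase_of_mem p4, Nat.cast_sub (Finset.card_pos.2 ⟨u, p4⟩)]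
    simp
  have hτN : τ ^ N.card = τ ^ (N ∩ L).card * τ ^ (N \ L).card := by
    rw [← pow_add, Finset.card_inter_add_card_sdiff]
  -- local factors
  have hloc : ∀ y ∈ H.erase u, 1 ≤ (x ^ (κ - 3))⁻¹ * x ^ (G.inc (N \ L) y).card *
      x ^ ((N ∩ L).filter (fun e => TREE_oth G u e = y)).card := by
    intro y hy
    rw [Finset.mem_erase] at hy
    have hheavy : κ ≤ (G.inc B y).card := by
      have h1 := hy.2
      rw [hH, G.mem_HC (by omega)] at h1
      exact h1.2.1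
    have h1 : G.inc B y ⊆ G.inc N y ∪ G.inc B' y := by
      intro e he
      rw [G.mem_inc] at he
      rw [Finset.mem_union, G.mem_inc, G.mem_inc, hN, Finset.mem_sdiff]
      by_cases he' : e ∈ B'
      · exact Or.inr ⟨he', he.2⟩
      · exact Or.inl ⟨⟨he.1, he'⟩, he.2⟩
    have h2 : G.inc N y ⊆ G.inc (N \ L) y ∪ (N ∩ L).filter (fun e => TREE_oth G u e = y) := by
      intro e he
      rw [G.mem_inc] at he
      rw [Finset.mem_union, G.mem_inc, Finset.mem_sdiff, Finset.mem_filter, Finset.mem_inter]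
      by_cases he' : e ∈ L
      · right
        refine ⟨⟨he.1, he'⟩, TREE_oth_eq G ?_ he.2 hy.1⟩
        rw [hL, G.mem_inc] at he'
        exact he'.2
      · exact Or.inl ⟨⟨he.1, he'⟩, he.2⟩
    have h3 := (Finset.card_le_card h1).trans (Finset.card_union_le _ _)
    have h4 := (Finset.card_le_card h2).trans (Finset.card_union_le _ _)
    have h5 := p3 y hy.2 hy.1
    have h6 : κ - 3 ≤ (G.inc (N \ L) y).card + ((N ∩ L).filter (fun e => TREE_oth G u e = y)).card := by omega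
    rw [mul_assoc, ← pow_add, inv_mul_eq_div, one_le_div (by positivity)]
    exact pow_le_pow_right₀ hx h6
  have hprod : 1 ≤ (∏ y ∈ H.erase u, ((x ^ (κ - 3))⁻¹ * x ^ (G.inc (N \ L) y).card)) * x ^ (T ∩ (N ∩ L)).card := by
    have h1 : 1 ≤ ∏ y ∈ H.erase u, ((x ^ (κ - 3))⁻¹ * x ^ (G.inc (N \ L) y).card *
        x ^ ((N ∩ L).filter (fun e => TREE_oth G u e = y)).card) := by
      calc (1 : ℝ) = ∏ y ∈ H.erase u, (1 : ℝ) := by rw [Finset.prod_const_one]
        _ ≤ _ := Finset.prod_le_prod (fun _ _ => zero_le_one) hloc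
    rw [Finset.prod_mul_distrib, Finset.prod_pow_eq_pow_sum] at h1
    refine h1.trans (mul_le_mul_of_nonneg_left (pow_le_pow_right₀ hx ?_) (by positivity))
    have h2 : (T ∩ (N ∩ L)).card = ∑ b ∈ H.erase u, ((T ∩ (N ∩ L)).filter (fun e => TREE_oth G u e = b)).card :=
      Finset.card_eq_sum_card_fiberwise fun e he => by
        have he' := Finset.mem_coe.1 he
        rw [Finset.mem_inter] at he'
        exact Finset.mem_coe.2 (Finset.mem_erase.2 ⟨TREE_oth_ne G u e, hT' e he'.1⟩)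
    rw [h2]
    refine Finset.sum_le_sum fun b hb => Finset.card_le_card fun e he => ?_
    rw [Finset.mem_erase] at hb
    rw [Finset.mem_filter] at he ⊢
    refine ⟨Finset.mem_inter.2 ⟨?_, he.1⟩, he.2⟩
    have h3 := Finset.mem_inter.1 he.1
    have h4 := h3.1
    have h5 := h3.2
    rw [hN, Finset.mem_sdiff] at h4
    rw [hL, G.mem_inc] at h5
    exact hT e h4.1 h5.2 (by rw [he.2]; exact hb.2)
  have htw : G.tw κ τ x (H.erase u) (N \ L) = 2 ^ (H.erase u).card *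
      (∏ y ∈ H.erase u, ((x ^ (κ - 3))⁻¹ * x ^ (G.inc (N \ L) y).card)) * τ ^ (N \ L).card := by
    unfold Gr.tw
    have e2 : (2 : ℝ) ^ (H.erase u).card = ∏ y ∈ H.erase u, (2 : ℝ) := by rw [Finset.prod_const]
    rw [e2, ← Finset.prod_mul_distrib]
    congr 1
    refine Finset.prod_congr rfl fun y _ => ?_
    ring
  rw [hcard, hτN, htw]
  have h8 : (0 : ℝ) ≤ (1 / 2) * 2 ^ (H.erase u).card * (τ ^ (N ∩ L).card * τ ^ (N \ L).card) := by positivity
  calc ((H.erase u).card : ℝ) * (τ ^ (N ∩ L).card * τ ^ (N \ L).card)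
      ≤ (1 / 2) * 2 ^ (H.erase u).card * (τ ^ (N ∩ L).card * τ ^ (N \ L).card) :=
        mul_le_mul_of_nonneg_right (TREE_two _) (by positivity)
    _ ≤ (1 / 2) * 2 ^ (H.erase u).card * (τ ^ (N ∩ L).card * τ ^ (N \ L).card) *
        ((∏ y ∈ H.erase u, ((x ^ (κ - 3))⁻¹ * x ^ (G.inc (N \ L) y).card)) * x ^ (T ∩ (N ∩ L)).card) :=
        le_mul_of_one_le_right h8 hprod
    _ = _ := by ring

open Classical in
private theorem TREE_TZ (G : Gr V E) [DecidableEq V] [DecidableEq E] {κ : ℕ} {τ x : ℝ} {Λ B' : Finset E} (U P : Finset V) :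
    G.TZ κ τ x Λ B' U P = ∑ z ∈ U.powerset ×ˢ (G.ins Λ U \ B').powerset,
      if P ⊆ z.1 ∧ G.TCond B' P z.1 z.2 then G.tw κ τ x z.1 z.2 else 0 := by
  unfold Gr.TZ
  rw [Finset.sum_product, Finset.sum_filter]
  refine Finset.sum_congr rfl fun H _ => ?_
  by_cases h : P ⊆ H
  · simp [h]
  · simp [h]

open Classical in
theorem Gr.tree_bound (G : Gr V E) [DecidableEq V] [DecidableEq E] {κ Δ : ℕ} (hκ : 4 ≤ κ) {Λ : Finset E}
    (hΔ : ∀ y, (G.inc Λ y).card ≤ Δ) {τ x q ρ : ℝ} (hτ : 0 < τ) (hx : 1 ≤ x)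
    (hq1 : 1 + τ * x ^ 2 ≤ q ^ 2) (hq2 : 1 + τ * x ≤ q) (hρ0 : 0 ≤ ρ)
    (hρ : 2 * (x ^ (κ - 3))⁻¹ * q ^ Δ * (1 + τ * x ^ 2 * ρ) ^ Δ * (1 + ρ) ^ 3 ≤ ρ)
    (hS : (1 / 2) * (1 + τ) ^ Δ * ((1 + ρ) ^ (κ + 1) * (1 + τ * x * ρ) ^ Δ - 1) ≤ 1)
    (u : V) {B' : Finset E} (hB' : B' ⊆ Λ) (hu : (G.inc B' u).card = κ + 1) :
    ∑ B ∈ Λ.powerset.filter (fun B => G.Pre κ u B' B),
      (((G.HC κ B u).card : ℝ) - 1) * τ ^ (B \ B').card ≤ 1 := by
  have hκ1 : 1 ≤ κ := by omega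
  have hx0 : 0 < x := by linarith
  have hq : 1 ≤ q := by nlinarith [mul_pos hτ hx0]
  obtain ⟨𝒱, h𝒱⟩ : ∃ 𝒱 : Finset V, 𝒱 = Λ.image G.a ∪ Λ.image G.b := ⟨_, rfl⟩
  obtain ⟨U, hU⟩ : ∃ U : Finset V, U = 𝒱.erase u := ⟨_, rfl⟩
  obtain ⟨L, hL⟩ : ∃ L : Finset E, L = G.inc Λ u := ⟨_, rfl⟩
  obtain ⟨A, hA⟩ : ∃ A : Finset E, A = G.inc B' u := ⟨_, rfl⟩
  obtain ⟨M, hM⟩ : ∃ M : Finset E, M = L \ B' := ⟨_, rfl⟩
  have hAL : A ⊆ L := by
    intro e he
    rw [hA, G.mem_inc] at he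
    rw [hL, G.mem_inc]
    exact ⟨hB' he.1, he.2⟩
  have hMA : Disjoint M A := by
    rw [Finset.disjoint_left]
    intro e he he'
    rw [hM, Finset.mem_sdiff] at he
    rw [hA, G.mem_inc] at he'
    exact he.2 he'.1
  have hML : M ⊆ L := hM ▸ Finset.sdiff_subset
  have hmem𝒱 : ∀ e ∈ Λ, ∀ y, G.Inc y e → y ∈ 𝒱 := by
    intro e he y hy
    rw [h𝒱, Finset.mem_union, Finset.mem_image, Finset.mem_image]
    rcases hy with hy | hy
    · exact Or.inl ⟨e, he, hy⟩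
    · exact Or.inr ⟨e, he, hy⟩
  have hothU : ∀ e ∈ L, TREE_oth G u e ∈ U := by
    intro e he
    rw [hL, G.mem_inc] at he
    rw [hU, Finset.mem_erase]
    exact ⟨TREE_oth_ne G u e, hmem𝒱 e he.1 _ (TREE_oth_inc G u e)⟩
  -- the bound for TZ
  have hTZ : ∀ T ⊆ L, G.TZ κ τ x Λ B' U (T.image (TREE_oth G u)) ≤ ρ ^ T.card := by
    intro T hT
    have h1 : T.image (TREE_oth G u) ⊆ U := by
      intro z hz
      obtain ⟨e, he, rfl⟩ := Finset.mem_image.1 hz
      exact hothU e (hT he)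
    refine (G.trez hB' hΔ hτ hx hq1 hq2 hρ0 hρ U _ h1).trans ?_
    have h2 : (T.image (TREE_oth G u)).card = T.card :=
      Finset.card_image_of_injOn fun e he f hf hef => by
        have he' := hT (Finset.mem_coe.1 he)
        have hf' := hT (Finset.mem_coe.1 hf)
        rw [hL, G.mem_inc] at he' hf'
        exact TREE_oth_inj G he'.2 hf'.2 hef
    rw [← h2, ← Finset.prod_const]
    refine Finset.prod_le_prod (fun z _ => by positivity) fun z _ => ?_
    have h3 : (G.inc (G.ins Λ U) z).card ≤ Δ := by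
      refine (Finset.card_le_card fun e he => ?_).trans (hΔ z)
      rw [G.mem_inc] at he ⊢
      exact ⟨((TREE_mem_ins G).1 he.1).1, he.2⟩
    have h4 : q ^ (G.inc (G.ins Λ U) z).card ≤ q ^ Δ := pow_le_pow_right₀ hq h3
    calc ρ / q ^ Δ * q ^ (G.inc (G.ins Λ U) z).card ≤ ρ / q ^ Δ * q ^ Δ :=
          mul_le_mul_of_nonneg_left h4 (by positivity)
      _ = ρ := by
          have : q ^ Δ ≠ 0 := by positivity
          field_simp
  -- the map
  obtain ⟨Φ, hΦ⟩ : ∃ Φ : Finset E → (Finset E × Finset E) × (Finset V × Finset E), Φ = fun B =>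
      (((B \ B') ∩ L, (((B \ B') ∩ L) ∪ A).filter (fun e => TREE_oth G u e ∈ G.HC κ B u)),
        ((G.HC κ B u).erase u, (B \ B') \ L)) := ⟨_, rfl⟩
  obtain ⟨g, hg⟩ : ∃ g : (Finset E × Finset E) × (Finset V × Finset E) → ℝ, g = fun z =>
      (1 / 2) * τ ^ z.1.1.card * (x ^ (z.1.2 ∩ z.1.1).card * G.tw κ τ x z.2.1 z.2.2) := ⟨_, rfl⟩
  have hg0 : ∀ z, 0 ≤ g z := by
    intro z
    rw [hg]
    unfold Gr.tw
    positivity
  obtain ⟨F, hF⟩ : ∃ F : Finset (Finset E), F = Λ.powerset.filter (fun B => G.Pre κ u B' B) := ⟨_, rfl⟩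
  rw [← hF]
  have hFm : ∀ B ∈ F, B ⊆ Λ ∧ G.Pre κ u B' B := by
    intro B hB
    rw [hF, Finset.mem_filter, Finset.mem_powerset] at hB
    exact hB
  have hTin : ∀ B ∈ F, ∀ e ∈ B, G.Inc u e → TREE_oth G u e ∈ G.HC κ B u →
      e ∈ (((B \ B') ∩ L) ∪ A).filter (fun e => TREE_oth G u e ∈ G.HC κ B u) := by
    intro B hB e he h1 h2
    rw [Finset.mem_filter, Finset.mem_union, Finset.mem_inter, Finset.mem_sdiff, hL, G.mem_inc, hA, G.mem_inc]
    refine ⟨?_, h2⟩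
    by_cases he' : e ∈ B'
    · exact Or.inr ⟨he', h1⟩
    · exact Or.inl ⟨⟨he, he'⟩, (hFm B hB).1 he, h1⟩
  have hle : ∀ B ∈ F, (((G.HC κ B u).card : ℝ) - 1) * τ ^ (B \ B').card ≤ g (Φ B) := by
    intro B hB
    rw [hΦ, hg]
    have := TREE_weight G hκ (hFm B hB).1 (hFm B hB).2 hτ hx
      ((((B \ B') ∩ L) ∪ A).filter (fun e => TREE_oth G u e ∈ G.HC κ B u)) (hTin B hB)
      (fun e he => (Finset.mem_filter.1 he).2)
    rw [← hL] at this
    exact this
  have hinj : Set.InjOn Φ (F : Set (Finset E)) := by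
    intro B hB C hC hBC
    have hB1 := (hFm B (Finset.mem_coe.1 hB)).2.1
    have hC1 := (hFm C (Finset.mem_coe.1 hC)).2.1
    rw [hΦ] at hBC
    simp only [Prod.mk.injEq] at hBC
    obtain ⟨⟨e1, -⟩, -, e2⟩ := hBC
    have e3 : B \ B' = C \ B' := by
      rw [← Finset.sdiff_union_inter (B \ B') L, ← Finset.sdiff_union_inter (C \ B') L, e1, e2]
    rw [← Finset.sdiff_union_of_subset hB1, ← Finset.sdiff_union_of_subset hC1, e3]
  obtain ⟨Full, hFull⟩ : ∃ Full : Finset ((Finset E × Finset E) × (Finset V × Finset E)), Full =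
      (M.powerset ×ˢ L.powerset) ×ˢ (U.powerset ×ˢ (G.ins Λ U \ B').powerset) := ⟨_, rfl⟩
  have himg : F.image Φ ⊆ Full.filter (fun z => (z.1.2 ⊆ z.1.1 ∪ A ∧ z.1.2 ≠ ∅) ∧
      z.1.2.image (TREE_oth G u) ⊆ z.2.1 ∧ G.TCond B' (z.1.2.image (TREE_oth G u)) z.2.1 z.2.2) := by
    intro z hz
    obtain ⟨B, hB, rfl⟩ := Finset.mem_image.1 hz
    obtain ⟨hBΛ, hpre⟩ := hFm B hB
    obtain ⟨p1, p2, p3, p4, p5⟩ := hpre
    obtain ⟨e₀, he₀, he₁, he₂⟩ := TREE_nonempty G hκ1 p5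
    rw [hΦ, hFull, Finset.mem_filter, Finset.mem_product, Finset.mem_product, Finset.mem_product,
      Finset.mem_powerset, Finset.mem_powerset, Finset.mem_powerset, Finset.mem_powerset]
    refine ⟨⟨⟨?_, ?_⟩, ?_, ?_⟩, ⟨?_, ?_⟩, ?_, ?_, ?_, ?_⟩
    · intro e he
      rw [Finset.mem_inter, Finset.mem_sdiff] at he
      rw [hM, Finset.mem_sdiff]
      exact ⟨he.2, he.1.2⟩
    · intro e he
      have he' := (Finset.mem_filter.1 he).1
      rcases Finset.mem_union.1 he' with h | h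
      · exact (Finset.mem_inter.1 h).2
      · exact hAL h
    · intro z hz
      simp only [Finset.mem_erase] at hz
      obtain ⟨e, he, he'⟩ := TREE_end G hz.2
      rw [hU, Finset.mem_erase]
      exact ⟨hz.1, hmem𝒱 e (hBΛ he) z he'⟩
    · intro e he
      simp only [Finset.mem_sdiff] at he
      have hnu : ¬ G.Inc u e := fun h => he.2 (by rw [hL, G.mem_inc]; exact ⟨hBΛ he.1.1, h⟩)
      rw [Finset.mem_sdiff]
      refine ⟨?_, he.1.2⟩
      rw [TREE_mem_ins, hU, Finset.mem_erase, Finset.mem_erase]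
      exact ⟨hBΛ he.1.1, ⟨fun h => hnu (Or.inl h), hmem𝒱 e (hBΛ he.1.1) _ (Or.inl rfl)⟩,
        fun h => hnu (Or.inr h), hmem𝒱 e (hBΛ he.1.1) _ (Or.inr rfl)⟩
    · exact Finset.filter_subset _ _
    · exact Finset.ne_empty_of_mem (hTin B hB e₀ he₀ he₁ he₂)
    · intro z hz
      obtain ⟨e, he, rfl⟩ := Finset.mem_image.1 hz
      exact Finset.mem_erase.2 ⟨TREE_oth_ne G u e, (Finset.mem_filter.1 he).2⟩
    · intro y hy
      have hy' := Finset.mem_erase.1 hy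
      exact p3 y hy'.2 hy'.1
    · intro e he
      simp only [Finset.mem_sdiff] at he
      have hnu : ¬ G.Inc u e := fun h => he.2 (by rw [hL, G.mem_inc]; exact ⟨hBΛ he.1.1, h⟩)
      obtain ⟨y, hy, hy'⟩ := p2 e he.1.1 he.1.2
      exact ⟨y, Finset.mem_erase.2 ⟨fun h => hnu (h ▸ hy'), hy⟩, hy'⟩
    · have := TREE_span G hκ1 (B' := B') hBΛ
        ((((B \ B') ∩ L) ∪ A).filter (fun e => TREE_oth G u e ∈ G.HC κ B u)) (hTin B hB)
      rw [← hL] at this
      exact this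
  calc ∑ B ∈ F, (((G.HC κ B u).card : ℝ) - 1) * τ ^ (B \ B').card
      ≤ ∑ B ∈ F, g (Φ B) := Finset.sum_le_sum hle
    _ = ∑ z ∈ F.image Φ, g z := (Finset.sum_image hinj).symm
    _ ≤ ∑ z ∈ Full.filter (fun z => (z.1.2 ⊆ z.1.1 ∪ A ∧ z.1.2 ≠ ∅) ∧
          z.1.2.image (TREE_oth G u) ⊆ z.2.1 ∧ G.TCond B' (z.1.2.image (TREE_oth G u)) z.2.1 z.2.2), g z :=
        Finset.sum_le_sum_of_subset_of_nonneg himg fun z _ _ => hg0 z
    _ = ∑ N ∈ M.powerset, ∑ T ∈ L.powerset, (if T ⊆ N ∪ A ∧ T ≠ ∅ then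
          (1 / 2) * τ ^ N.card * (x ^ (T ∩ N).card * G.TZ κ τ x Λ B' U (T.image (TREE_oth G u))) else 0) := by
        rw [Finset.sum_filter, hFull, Finset.sum_product, Finset.sum_product]
        refine Finset.sum_congr rfl fun N _ => Finset.sum_congr rfl fun T _ => ?_
        by_cases h : T ⊆ N ∪ A ∧ T ≠ ∅
        · rw [if_pos h, TREE_TZ, Finset.mul_sum, Finset.mul_sum]
          refine Finset.sum_congr rfl fun z _ => ?_
          rw [hg]
          simp only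
          by_cases h' : T.image (TREE_oth G u) ⊆ z.1 ∧ G.TCond B' (T.image (TREE_oth G u)) z.1 z.2
          · rw [if_pos ⟨h, h'⟩, if_pos h']
          · rw [if_neg (fun hh => h' hh.2), if_neg h', mul_zero, mul_zero]
        · rw [if_neg h]
          exact Finset.sum_eq_zero fun z _ => if_neg (fun hh => h hh.1)
    _ ≤ ∑ N ∈ M.powerset, ∑ T ∈ L.powerset, (if T ⊆ N ∪ A ∧ T ≠ ∅ then
          (1 / 2) * τ ^ N.card * (x ^ (T ∩ N).card * ρ ^ T.card) else 0) := by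
        refine Finset.sum_le_sum fun N _ => Finset.sum_le_sum fun T hT => ?_
        split_ifs
        · exact mul_le_mul_of_nonneg_left (mul_le_mul_of_nonneg_left (hTZ T (Finset.mem_powerset.1 hT))
            (by positivity)) (by positivity)
        · exact le_rfl
    _ = ∑ N ∈ M.powerset, ∑ T ∈ (N ∪ A).powerset.erase ∅,
          (1 / 2) * τ ^ N.card * (x ^ (T ∩ N).card * ρ ^ T.card) := by
        refine Finset.sum_congr rfl fun N hN => ?_
        rw [← Finset.sum_filter]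
        refine Finset.sum_congr ?_ fun _ _ => rfl
        ext T
        rw [Finset.mem_filter, Finset.mem_powerset, Finset.mem_erase, Finset.mem_powerset]
        constructor
        · rintro ⟨-, h1, h2⟩
          exact ⟨h2, h1⟩
        · rintro ⟨h2, h1⟩
          exact ⟨h1.trans (Finset.union_subset ((Finset.mem_powerset.1 hN).trans hML) hAL), h1, h2⟩
    _ ≤ 1 := TREE_num hMA (hA ▸ hu) ((Finset.card_le_card hML).trans (hL ▸ hΔ u)) hτ hx hρ0 hS

end Pool.Agent.CDP
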