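import Mathlib
import Pool.Agent.CDP.Defs
import Pool.Agent.CDP.SOL
import Pool.Agent.CDP.CONN
import Pool.Agent.CDP.LEV
import Pool.Agent.CDP.MAPM
import Pool.Agent.CDP.TREE
import Pool.Agent.CDP.NUMB

/-! CDP, module FINM: the finite-volume monotonicity in the constraint.

PROOF.  `t = 0`: `Pr 0 Λ f` is the value at `∅` and `sol ∅ = ∅` for both.  `t > 0`: `𝒱` = endpoints of
`Λ`, `f K = Pr t Λ (Conn .. (sol s (capK κ K)))`; `levels` with `level_nonneg`, whose `hPB` is
`tree_bound` with `Δ = 2 d` (`card_inc_latt`), `τ = t / (1 - t)` and the numbers of `numbers`.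
`f ∅`: `capK κ ∅ = fun _ => κ`; `f 𝒱`: `sol_congr_cap` (all endpoints of `B ⊆ Λ` are in `𝒱`). -/

namespace Pool.Agent.CDP

theorem finite_mono {κ d : ℕ} (hκ : 18 ≤ κ) (hd : κ + 1 ≤ 2 * d) {t : ℝ} (ht0 : 0 ≤ t)
    (ht : t ≤ 11 / (10 * d)) {s : Ed d → ℝ} {Λ : Finset (Ed d)}
    (hs : Set.InjOn s (Λ : Set (Ed d))) (S : Set (Vx d)) :
    Perc.Pr t Λ (fun B => (latt d).Conn 0 S ((latt d).sol s (fun _ => κ) B : Set (Ed d))) ≤
      Perc.Pr t Λ (fun B => (latt d).Conn 0 S ((latt d).sol s (fun _ => κ + 1) B : Set (Ed d))) := by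
  classical
  set G := latt d with hG
  have hcap0 : (fun _ : Vx d => κ) = Gr.capK κ (∅ : Finset (Vx d)) := by
    funext x
    simp [Gr.capK]
  rcases ht0.eq_or_lt with h0 | h0
  · -- time zero
    have key : ∀ A : Finset (Ed d) → Prop, Perc.Pr t Λ A = if A ∅ then 1 else 0 := by
      intro A
      rw [← h0]
      unfold Perc.Pr Perc.E
      rw [Finset.sum_eq_single ∅]
      · simp
      · intro B _ hB
        have : B.card ≠ 0 := by
          rw [Ne, Finset.card_eq_zero]
          exact hB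
        rw [zero_pow this]
        simp
      · intro h
        exact absurd (Finset.empty_mem_powerset _) h
    rw [key, key]
    have e1 : G.sol s (fun _ => κ) ∅ = ∅ := Finset.subset_empty.1 (G.sol_subset s _ ∅)
    have e2 : G.sol s (fun _ => κ + 1) ∅ = ∅ := Finset.subset_empty.1 (G.sol_subset s _ ∅)
    rw [e1, e2]
  · obtain ⟨ht1, x, q, ρ, hx, hq1, hq2, hρ0, hρ, hS⟩ := numbers hκ hd h0 ht
    have hτ : 0 < t / (1 - t) := div_pos h0 (by linarith)
    obtain ⟨V, hV⟩ : ∃ V : Finset (Vx d), V = Λ.image G.a ∪ Λ.image G.b := ⟨_, rfl⟩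
    have hVm : ∀ e ∈ Λ, G.a e ∈ V ∧ G.b e ∈ V := by
      intro e he
      rw [hV]
      exact ⟨Finset.mem_union_left _ (Finset.mem_image_of_mem _ he),
        Finset.mem_union_right _ (Finset.mem_image_of_mem _ he)⟩
    have h4 : 4 ≤ κ := by omega
    have hPB : ∀ u, ∀ B' ⊆ Λ, (G.inc B' u).card = κ + 1 →
        ∑ B ∈ Λ.powerset.filter (fun B => G.Pre κ u B' B),
          (((G.HC κ B u).card : ℝ) - 1) * (t / (1 - t)) ^ (B \ B').card ≤ 1 := by
      intro u B' hB' hu
      exact G.tree_bound h4 (card_inc_latt d Λ) hτ hx hq1 hq2 hρ0 hρ hS u hB' hu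
    have hlev := levels V
      (fun K => Perc.Pr t Λ (fun B => G.Conn 0 S (G.sol s (Gr.capK κ K) B : Set (Ed d))))
      (fun k _ => G.level_nonneg h4 hs h0 ht1 0 S hVm hPB k)
    rw [hcap0]
    refine hlev.trans (le_of_eq ?_)
    show Perc.Pr t Λ (fun B => G.Conn 0 S (G.sol s (Gr.capK κ V) B : Set (Ed d))) = _
    apply Perc.Pr_congr
    intro B hB
    have e3 : G.sol s (Gr.capK κ V) B = G.sol s (fun _ => κ + 1) B := by
      apply G.sol_congr_cap
      intro y e he hy
      have hyV : y ∈ V := by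
        rcases hy with hy | hy
        · rw [← hy]
          exact (hVm e (hB he)).1
        · rw [← hy]
          exact (hVm e (hB he)).2
      simp [Gr.capK, hyV]
    show G.Conn 0 S (G.sol s (Gr.capK κ V) B : Set (Ed d)) ↔
      G.Conn 0 S (G.sol s (fun _ => κ + 1) B : Set (Ed d))
    rw [e3]

end Pool.Agent.CDP
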