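import Mathlib
import Pool.Agent.CDP.Defs

/-! CDP, module FUB: from fixed orders to random labels.

`Φ s B` is an event for the order given by the labels `s` on the finite attempted set `B`.

1. Measurability: `Φ (lab U) (att F U t)` depends on `U` only through the finitely many Booleans
   `U e ≤ t`, `U e < U f` for `e, f ∈ F` (each measurable): the event is a finite union of finite
   intersections of such events and their complements (e.g. `(U ↦ pattern)` is measurable into a
   finite discrete type and the event is a preimage; by order invariance choose for each pattern a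
   representative).
2. The law: for `t ∈ [0, 1]` let `g : Bool × unitInterval → unitInterval`,
   `g (true, y) = t * y`, `g (false, y) = t + (1 - t) * y`.  If `(b, y)` has law
   `Bernoulli(t) ⊗ volume` then `g (b, y)` has law `volume`.  So with `b e, y e` independent over the
   edges (only the edges of `F` matter: restrict `Measure.infinitePi` to `F`, then
   `Measure.pi_map_pi`, `measurePreserving_arrowProdEquivProdArrow`), the labels `U e = g (b e, y e)`
   have the right law.  Almost surely `y` is injective on `F` and `U e ≤ t` iff `b e = true` (a.s.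
   `y e > 0`; if `t = 1` then `b e = true` a.s.), and among the edges with `b e = true` the order of
   the `U e = t * y e` is the order of the `y e` (for `t > 0`; if `t = 0` then `b e = false` a.s. and
   `att = ∅` a.s.).  Hence by Fubini
   `labels d {U | Φ (lab U) (att F U t)} = ∫ y, Perc.Pr t F (Φ y)`, and the inequality follows from the
   one for every injective `y`.
   (For `Perc.Pr`: the law of `{e ∈ F | b e = true}` gives mass `t ^ |B| (1 - t) ^ |F \ B|` to `B`;
   compare `Pool.Agent.Perc.mu_trace` in `Pool/Agent/Perc/Lattice.lean`.)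
3. `labels_att`: the same without order. -/

namespace Pool.Agent.CDP

open MeasureTheory

/-- extension by zero -/
private noncomputable def ex {d : ℕ} (F : Finset (Ed d)) (u : F → ℝ) : Ed d → ℝ :=
  fun e => if h : e ∈ F then u ⟨e, h⟩ else 0

private theorem ex_mem {d : ℕ} {F : Finset (Ed d)} (u : F → ℝ) {e : Ed d} (h : e ∈ F) :
    ex F u e = u ⟨e, h⟩ := by
  unfold ex
  rw [dif_pos h]

private def pr {d : ℕ} (F : Finset (Ed d)) (U : Ed d → unitInterval) : F → ℝ := fun e => (U e : ℝ)

private noncomputable def ft {d : ℕ} (F : Finset (Ed d)) (t : ℝ) (u : F → ℝ) : Finset (Ed d) :=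
  F.filter (fun e => ex F u e ≤ t)

private def cube {d : ℕ} (F : Finset (Ed d)) : Set (F → ℝ) :=
  Set.pi Set.univ (fun _ => Set.Icc (0 : ℝ) 1)

private theorem ex_pr {d : ℕ} {F : Finset (Ed d)} (U : Ed d → unitInterval) {e : Ed d}
    (h : e ∈ F) : ex F (pr F U) e = lab U e := by
  rw [ex_mem _ h]
  rfl

private theorem att_eq {d : ℕ} (F : Finset (Ed d)) (U : Ed d → unitInterval) (t : ℝ) :
    att F U t = ft F t (pr F U) := by
  unfold att ft
  ext e
  simp only [Finset.mem_filter]
  constructor
  · rintro ⟨h1, h2⟩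
    exact ⟨h1, by rw [ex_pr U h1]; exact h2⟩
  · rintro ⟨h1, h2⟩
    exact ⟨h1, by rw [ex_pr U h1] at h2; exact h2⟩

private theorem meas_pr {d : ℕ} (F : Finset (Ed d)) : Measurable (pr F) := by
  unfold pr
  fun_prop

private theorem meas_cube {d : ℕ} (F : Finset (Ed d)) : MeasurableSet (cube F) :=
  MeasurableSet.univ_pi fun _ => measurableSet_Icc

private theorem law {d : ℕ} (F : Finset (Ed d)) :
    Measure.map (pr F) (labels d) = volume.restrict (cube F) := by
  have h1 : pr F = (fun (x : F → unitInterval) (i : F) => ((x i : unitInterval) : ℝ)) ∘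
      F.restrict := rfl
  have hm : Measurable (fun (x : F → unitInterval) (i : F) => ((x i : unitInterval) : ℝ)) := by
    fun_prop
  rw [h1, ← Measure.map_map hm (Finset.measurable_restrict _)]
  unfold labels
  rw [Measure.infinitePi_map_restrict]
  have h2 : Measure.map (Subtype.val : unitInterval → ℝ) volume =
      volume.restrict (Set.Icc (0 : ℝ) 1) := map_comap_subtype_coe measurableSet_Icc volume
  have hs : ∀ i : F, SigmaFinite (Measure.map (Subtype.val : unitInterval → ℝ) volume) := by
    intro i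
    rw [h2]
    infer_instance
  have h3 := Measure.pi_map_pi (μ := fun _ : F => (volume : Measure unitInterval))
    (f := fun _ => (Subtype.val : unitInterval → ℝ)) (hμ := hs)
    (fun _ => measurable_subtype_coe.aemeasurable)
  rw [h3, h2, volume_pi]
  unfold cube
  rw [Measure.restrict_pi_pi]

private theorem meas_pat {d : ℕ} {F : Finset (Ed d)} {t : ℝ} {P : (F → ℝ) → Prop}
    (hP : ∀ u u' : F → ℝ, (∀ e f, u e < u f ↔ u' e < u' f) → (∀ e, u e ≤ t ↔ u' e ≤ t) →
      (P u ↔ P u')) : MeasurableSet {u | P u} := by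
  let pt : (F → ℝ) → (F → F → Prop) × (F → Prop) :=
    fun u => (fun e f => u e < u f, fun e => u e ≤ t)
  have hm : Measurable pt := by
    refine Measurable.prodMk ?_ ?_
    · refine measurable_pi_iff.2 fun e => measurable_pi_iff.2 fun f => ?_
      exact measurableSet_setOfPred.1
        (measurableSet_lt (measurable_pi_apply e) (measurable_pi_apply f))
    · refine measurable_pi_iff.2 fun e => ?_
      exact measurableSet_setOfPred.1 (measurableSet_le (measurable_pi_apply e) measurable_const)
  have h : {u | P u} = pt ⁻¹' (pt '' {u | P u}) := by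
    ext u
    constructor
    · intro hu
      exact ⟨u, hu, rfl⟩
    · rintro ⟨u', hu', he⟩
      have h1 := congrArg Prod.fst he
      have h2 := congrArg Prod.snd he
      refine (hP u' u (fun e f => ?_) (fun e => ?_)).1 hu'
      · exact iff_of_eq (congrFun (congrFun h1 e) f)
      · exact iff_of_eq (congrFun h2 e)
  rw [h]
  exact hm (Set.toFinite _).measurableSet

private theorem null_good {d : ℕ} (F : Finset (Ed d)) :
    (volume : Measure (F → ℝ)) {u | ¬ (Function.Injective u ∧ ∀ e, u e ≠ 0)} = 0 := by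
  have h0 : ∀ e : F, (volume : Measure (F → ℝ)) {u | u e = 0} = 0 := by
    intro e
    have := Measure.addHaar_submodule (volume : Measure (F → ℝ))
      (LinearMap.ker (LinearMap.proj e : (F → ℝ) →ₗ[ℝ] ℝ)) (by
        intro h
        have h1 : (fun _ => 1 : F → ℝ) ∈ LinearMap.ker (LinearMap.proj e : (F → ℝ) →ₗ[ℝ] ℝ) := by
          rw [h]; trivial
        rw [LinearMap.mem_ker] at h1
        simp at h1)
    refine measure_mono_null ?_ this
    intro u hu
    exact hu
  have h1 : ∀ p : {p : F × F // p.1 ≠ p.2},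
      (volume : Measure (F → ℝ)) {u | u p.1.1 = u p.1.2} = 0 := by
    rintro ⟨⟨e, f⟩, hef⟩
    have := Measure.addHaar_submodule (volume : Measure (F → ℝ))
      (LinearMap.ker ((LinearMap.proj e : (F → ℝ) →ₗ[ℝ] ℝ) - LinearMap.proj f)) (by
        intro h
        have h1 : (Pi.single e 1 : F → ℝ) ∈
            LinearMap.ker ((LinearMap.proj e : (F → ℝ) →ₗ[ℝ] ℝ) - LinearMap.proj f) := by
          rw [h]; trivial
        rw [LinearMap.mem_ker] at h1
        have hef' : f ≠ e := fun h => hef h.symm
        simp [Pi.single_eq_of_ne hef'] at h1)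
    refine measure_mono_null ?_ this
    intro u hu
    change u e - u f = 0
    exact sub_eq_zero.2 hu
  refine measure_mono_null (t := (⋃ e : F, {u : F → ℝ | u e = 0}) ∪
    ⋃ p : {p : F × F // p.1 ≠ p.2}, {u : F → ℝ | u p.1.1 = u p.1.2}) ?_ ?_
  · intro u hu
    by_contra hn
    simp only [Set.mem_union, Set.mem_iUnion, Set.mem_ofPred_eq, not_or, not_exists] at hn
    refine hu ⟨fun e f hef => ?_, hn.1⟩
    by_contra hne
    exact hn.2 ⟨(e, f), hne⟩ hef
  · rw [measure_union_null_iff]
    exact ⟨measure_iUnion_null h0, measure_iUnion_null h1⟩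

private theorem Phi_congr {d : ℕ} {Φ : (Ed d → ℝ) → Finset (Ed d) → Prop}
    (hΦ : ∀ s s' B, (∀ e ∈ B, ∀ f ∈ B, (s e < s f ↔ s' e < s' f)) → (Φ s B ↔ Φ s' B))
    {F B : Finset (Ed d)} (hB : B ⊆ F) {u u' : F → ℝ}
    (h : ∀ e f : F, (e : Ed d) ∈ B → (f : Ed d) ∈ B → (u e < u f ↔ u' e < u' f)) :
    Φ (ex F u) B ↔ Φ (ex F u') B := by
  refine hΦ _ _ _ fun e he f hf => ?_
  rw [ex_mem _ (hB he), ex_mem _ (hB hf), ex_mem _ (hB he), ex_mem _ (hB hf)]
  exact h ⟨e, hB he⟩ ⟨f, hB hf⟩ he hf

private theorem meas_PhiB {d : ℕ} {Φ : (Ed d → ℝ) → Finset (Ed d) → Prop}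
    (hΦ : ∀ s s' B, (∀ e ∈ B, ∀ f ∈ B, (s e < s f ↔ s' e < s' f)) → (Φ s B ↔ Φ s' B))
    {F B : Finset (Ed d)} (hB : B ⊆ F) : MeasurableSet {u : F → ℝ | Φ (ex F u) B} :=
  meas_pat (t := 0) fun _ _ h1 _ => Phi_congr hΦ hB fun e f _ _ => h1 e f

private theorem meas_ft {d : ℕ} (F B : Finset (Ed d)) (t : ℝ) :
    MeasurableSet {u : F → ℝ | ft F t u = B} := by
  refine meas_pat (t := t) fun u u' _ h2 => ?_
  have : ft F t u = ft F t u' := by
    unfold ft
    refine Finset.filter_congr fun e he => ?_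
    rw [ex_mem _ he, ex_mem _ he]
    exact h2 _
  rw [this]

open Classical in
private theorem Pr_eq {d : ℕ} {t : ℝ} (ht0 : 0 ≤ t) (ht1 : t ≤ 1) (F : Finset (Ed d))
    (A : Finset (Ed d) → Prop) :
    ENNReal.ofReal (Perc.Pr t F A) = ∑ B ∈ F.powerset,
      ENNReal.ofReal (t ^ B.card * (1 - t) ^ (F \ B).card) *
        (if A B then (1 : ENNReal) else 0) := by
  unfold Perc.Pr Perc.E
  have h1 : 0 ≤ 1 - t := sub_nonneg.2 ht1
  rw [ENNReal.ofReal_sum_of_nonneg]
  · refine Finset.sum_congr rfl fun B _ => ?_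
    rw [ENNReal.ofReal_mul (by positivity)]
    congr 1
    by_cases hA : A B
    · simp only [if_pos hA, ENNReal.ofReal_one]
    · simp only [if_neg hA, ENNReal.ofReal_zero]
  · intro B _
    by_cases hA : A B
    · simp only [if_pos hA]
      positivity
    · simp only [if_neg hA]
      positivity

private theorem prod_w {d : ℕ} {t : ℝ} {F B : Finset (Ed d)} (hB : B ⊆ F) :
    ∏ e : F, (if (e : Ed d) ∈ B then t else 1 - t) = t ^ B.card * (1 - t) ^ (F \ B).card := by
  rw [Finset.prod_coe_sort F (fun e => if e ∈ B then t else 1 - t), Finset.prod_ite,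
    Finset.prod_const, Finset.prod_const]
  have e1 : F.filter (fun i => i ∈ B) = B := by
    ext x; simp only [Finset.mem_filter]; exact ⟨fun h => h.2, fun h => ⟨hB h, h⟩⟩
  have e2 : F.filter (fun i => i ∉ B) = F \ B := by
    ext x; simp only [Finset.mem_filter, Finset.mem_sdiff]
  rw [e1, e2]

private theorem vol_diag {d : ℕ} {F : Finset (Ed d)} {w c : F → ℝ} (hw : ∏ e, w e ≠ 0)
    (hw0 : 0 ≤ ∏ e, w e) {C : Set (F → ℝ)} (hC : MeasurableSet C) :
    volume C = ENNReal.ofReal (∏ e, w e) * volume {y : F → ℝ | (fun e => w e * y e + c e) ∈ C} := by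
  have hd : (Matrix.diagonal w).det ≠ 0 := by rwa [Matrix.det_diagonal]
  have h1 := Real.smul_map_diagonal_volume_pi hd
  have hS : MeasurableSet ((fun u : F → ℝ => u + c) ⁻¹' C) := (measurable_add_const c) hC
  have h2 : volume C = volume ((fun u : F → ℝ => u + c) ⁻¹' C) :=
    (measure_preimage_add_right volume c C).symm
  rw [h2]
  conv_lhs => rw [← h1]
  rw [Measure.smul_apply, smul_eq_mul, Matrix.det_diagonal, abs_of_nonneg hw0,
    Measure.map_apply (Continuous.measurable (LinearMap.continuous_on_pi _)) hS]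
  congr 2
  ext y
  simp only [Set.mem_preimage, Set.mem_ofPred_eq]
  have : (Matrix.toLin' (Matrix.diagonal w)) y + c = fun e => w e * y e + c e := by
    ext e
    rw [Pi.add_apply, Matrix.toLin'_apply, Matrix.mulVec_diagonal]
  rw [this]

private theorem mem_ft {d : ℕ} {F B : Finset (Ed d)} (hB : B ⊆ F) {t : ℝ} {u : F → ℝ} :
    ft F t u = B ↔ ∀ e : F, (u e ≤ t ↔ (e : Ed d) ∈ B) := by
  constructor
  · intro h e
    rw [← h]
    unfold ft
    rw [Finset.mem_filter, ex_mem _ e.2]
    exact ⟨fun h => ⟨e.2, h⟩, fun h => h.2⟩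
  · intro h
    unfold ft
    ext e
    rw [Finset.mem_filter]
    constructor
    · rintro ⟨h1, h2⟩
      rw [ex_mem _ h1] at h2
      exact (h ⟨e, h1⟩).1 h2
    · intro he
      refine ⟨hB he, ?_⟩
      rw [ex_mem _ (hB he)]
      exact (h ⟨e, hB he⟩).2 he

private theorem vol_scale {d : ℕ} {Φ : (Ed d → ℝ) → Finset (Ed d) → Prop}
    (hΦ : ∀ s s' B, (∀ e ∈ B, ∀ f ∈ B, (s e < s f ↔ s' e < s' f)) → (Φ s B ↔ Φ s' B))
    {F B : Finset (Ed d)} (hB : B ⊆ F) {t : ℝ} (ht0 : 0 ≤ t) (ht1 : t ≤ 1) :
    volume ({u : F → ℝ | Φ (ex F u) B} ∩ cube F ∩ {u | ft F t u = B}) =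
      ENNReal.ofReal (t ^ B.card * (1 - t) ^ (F \ B).card) *
        volume ({u : F → ℝ | Φ (ex F u) B} ∩ cube F) := by
  have h1t : 0 ≤ 1 - t := sub_nonneg.2 ht1
  set w : F → ℝ := fun e => if (e : Ed d) ∈ B then t else 1 - t with hw
  have hwn : ∀ e, 0 ≤ w e := by
    intro e
    simp only [hw]
    split_ifs <;> assumption
  have hwp : ∏ e, w e = t ^ B.card * (1 - t) ^ (F \ B).card := prod_w hB
  have hmC : MeasurableSet ({u : F → ℝ | Φ (ex F u) B} ∩ cube F ∩ {u | ft F t u = B}) :=
    ((meas_PhiB hΦ hB).inter (meas_cube F)).inter (meas_ft F B t)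
  by_cases h0 : ∏ e, w e = 0
  · rw [← hwp, h0, ENNReal.ofReal_zero, zero_mul]
    obtain ⟨e, -, he⟩ := Finset.prod_eq_zero_iff.1 h0
    have hz : (volume : Measure (F → ℝ)) {u | u e = 0} = 0 := by
      refine measure_mono_null ?_ (null_good F)
      intro u hu h
      exact h.2 e hu
    refine measure_mono_null ?_ hz
    rintro u ⟨⟨-, hc⟩, hf⟩
    have hc' := hc e (Set.mem_univ _)
    have hf' := (mem_ft hB).1 hf e
    simp only [hw] at he
    split_ifs at he with hb
    · have := hf'.2 hb
      rw [he] at this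
      exact le_antisymm this hc'.1
    · exfalso
      have h2 : t = 1 := by linarith
      exact hb (hf'.1 (by rw [h2]; exact hc'.2))
  · have hwpos : ∀ e, 0 < w e := by
      intro e
      refine lt_of_le_of_ne (hwn e) fun h => h0 (Finset.prod_eq_zero (Finset.mem_univ e) h.symm)
    set c : F → ℝ := fun e => if (e : Ed d) ∈ B then 0 else t with hc
    rw [vol_diag (c := c) h0 (Finset.prod_nonneg fun e _ => hwn e) hmC, hwp]
    congr 1
    refine measure_congr (Filter.eventuallyEq_set.2 ?_)
    have hg : ∀ᵐ y : F → ℝ, Function.Injective y ∧ ∀ e, y e ≠ 0 := ae_iff.2 (null_good F)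
    filter_upwards [hg] with y hy
    have hPhi : Φ (ex F fun e => w e * y e + c e) B ↔ Φ (ex F y) B := by
      refine Phi_congr hΦ hB fun e f he hf => ?_
      have hte : w e = t := by simp only [hw]; rw [if_pos he]
      have htf : w f = t := by simp only [hw]; rw [if_pos hf]
      have hce : c e = 0 := by simp only [hc]; rw [if_pos he]
      have hcf : c f = 0 := by simp only [hc]; rw [if_pos hf]
      have hp : 0 < t := by rw [← hte]; exact hwpos e
      rw [hte, htf, hce, hcf, add_zero, add_zero]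
      exact mul_lt_mul_iff_of_pos_left hp
    have hpt : ((fun e => w e * y e + c e) ∈ cube F ∧ ft F t (fun e => w e * y e + c e) = B) ↔
        y ∈ cube F := by
      rw [mem_ft hB]
      have hce : ∀ e : F, ((w e * y e + c e ∈ Set.Icc (0 : ℝ) 1) ∧
          (w e * y e + c e ≤ t ↔ (e : Ed d) ∈ B)) ↔ y e ∈ Set.Icc (0 : ℝ) 1 := by
        intro e
        by_cases he : (e : Ed d) ∈ B
        · have hte : w e = t := by simp only [hw]; rw [if_pos he]
          have hce : c e = 0 := by simp only [hc]; rw [if_pos he]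
          have hp : 0 < t := by rw [← hte]; exact hwpos e
          rw [hte, hce, add_zero]
          simp only [he, iff_true, Set.mem_Icc]
          constructor
          · rintro ⟨⟨h1, -⟩, h3⟩
            refine ⟨?_, ?_⟩
            · by_contra hn
              have := mul_neg_of_pos_of_neg hp (not_le.1 hn)
              linarith
            · by_contra hn
              have := mul_lt_mul_of_pos_left (not_le.1 hn) hp
              linarith
          · rintro ⟨h1, h2⟩
            have h3 : t * y e ≤ t * 1 := mul_le_mul_of_nonneg_left h2 hp.le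
            have h4 : 0 ≤ t * y e := mul_nonneg hp.le h1
            refine ⟨⟨h4, by linarith⟩, by linarith⟩
        · have hte : w e = 1 - t := by simp only [hw]; rw [if_neg he]
          have hce : c e = t := by simp only [hc]; rw [if_neg he]
          have hp : 0 < 1 - t := by rw [← hte]; exact hwpos e
          rw [hte, hce]
          simp only [he, iff_false, not_le, Set.mem_Icc]
          constructor
          · rintro ⟨⟨-, h2⟩, h3⟩
            refine ⟨?_, ?_⟩
            · by_contra hn
              have := mul_neg_of_pos_of_neg hp (not_le.1 hn)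
              linarith
            · by_contra hn
              have := mul_lt_mul_of_pos_left (not_le.1 hn) hp
              linarith
          · rintro ⟨h1, h2⟩
            have h1' : 0 < y e := lt_of_le_of_ne h1 (Ne.symm (hy.2 e))
            have h3 : (1 - t) * y e ≤ (1 - t) * 1 := mul_le_mul_of_nonneg_left h2 hp.le
            have h4 : 0 < (1 - t) * y e := mul_pos hp h1'
            refine ⟨⟨by linarith, by linarith⟩, by linarith⟩
      constructor
      · rintro ⟨h1, h2⟩ e _
        exact (hce e).1 ⟨h1 e (Set.mem_univ _), h2 e⟩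
      · intro h
        exact ⟨fun e _ => ((hce e).2 (h e (Set.mem_univ _))).1,
          fun e => ((hce e).2 (h e (Set.mem_univ _))).2⟩
    simp only [Set.mem_ofPred_eq, Set.mem_inter_iff]
    rw [hPhi, and_assoc, hpt]

private theorem key {d : ℕ} {Φ : (Ed d → ℝ) → Finset (Ed d) → Prop}
    (hΦ : ∀ s s' B, (∀ e ∈ B, ∀ f ∈ B, (s e < s f ↔ s' e < s' f)) → (Φ s B ↔ Φ s' B))
    (F : Finset (Ed d)) {t : ℝ} (ht0 : 0 ≤ t) (ht1 : t ≤ 1) :
    labels d {U | Φ (lab U) (att F U t)} =
      ∫⁻ u in cube F, ENNReal.ofReal (Perc.Pr t F (Φ (ex F u))) := by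
  have hset : {U | Φ (lab U) (att F U t)} = pr F ⁻¹' {u | Φ (ex F u) (ft F t u)} := by
    ext U
    simp only [Set.mem_ofPred_eq, Set.mem_preimage]
    rw [att_eq]
    refine hΦ _ _ _ fun e he f hf => ?_
    unfold ft at he hf
    rw [ex_pr U (Finset.mem_filter.1 he).1, ex_pr U (Finset.mem_filter.1 hf).1]
  have hmA : MeasurableSet {u : F → ℝ | Φ (ex F u) (ft F t u)} := by
    refine meas_pat (t := t) fun u u' h1 h2 => ?_
    have : ft F t u = ft F t u' := by
      unfold ft
      refine Finset.filter_congr fun e he => ?_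
      rw [ex_mem _ he, ex_mem _ he]
      exact h2 _
    rw [this]
    exact Phi_congr hΦ (Finset.filter_subset _ _) fun e f _ _ => h1 e f
  rw [hset, ← Measure.map_apply (meas_pr F) hmA, law, Measure.restrict_apply hmA]
  have hU : {u : F → ℝ | Φ (ex F u) (ft F t u)} ∩ cube F =
      ⋃ B ∈ F.powerset, ({u : F → ℝ | Φ (ex F u) B} ∩ cube F ∩ {u | ft F t u = B}) := by
    ext u
    simp only [Set.mem_inter_iff, Set.mem_ofPred_eq, Set.mem_iUnion, Finset.mem_powerset,
      exists_prop]
    constructor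
    · rintro ⟨h1, h2⟩
      exact ⟨ft F t u, Finset.filter_subset _ _, ⟨h1, h2⟩, rfl⟩
    · rintro ⟨B, -, ⟨h1, h2⟩, h3⟩
      rw [h3]
      exact ⟨h1, h2⟩
  rw [hU, measure_biUnion_finset]
  · have h1 : ∀ u : F → ℝ, ENNReal.ofReal (Perc.Pr t F (Φ (ex F u))) = ∑ B ∈ F.powerset,
        ENNReal.ofReal (t ^ B.card * (1 - t) ^ (F \ B).card) *
          Set.indicator {u : F → ℝ | Φ (ex F u) B} 1 u := by
      intro u
      rw [Pr_eq ht0 ht1]
      refine Finset.sum_congr rfl fun B _ => ?_
      congr 1
    simp_rw [h1]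
    rw [lintegral_finsetSum']
    · refine Finset.sum_congr rfl fun B hB => ?_
      have hB' := Finset.mem_powerset.1 hB
      rw [vol_scale hΦ hB' ht0 ht1, lintegral_const_mul _
        (measurable_one.indicator (meas_PhiB hΦ hB')), lintegral_indicator_one
        (meas_PhiB hΦ hB'), Measure.restrict_apply (meas_PhiB hΦ hB')]
    · intro B hB
      exact ((measurable_one.indicator (meas_PhiB hΦ (Finset.mem_powerset.1 hB))).const_mul
        _).aemeasurable
  · intro B _ B' _ hne
    rw [Function.onFun, Set.disjoint_left]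
    rintro u ⟨-, h1⟩ ⟨-, h2⟩
    exact hne (h1.symm.trans h2)
  · intro B hB
    exact ((meas_PhiB hΦ (Finset.mem_powerset.1 hB)).inter (meas_cube F)).inter (meas_ft F B t)

theorem measurableSet_att {d : ℕ} {Φ : (Ed d → ℝ) → Finset (Ed d) → Prop}
    (hΦ : ∀ s s' B, (∀ e ∈ B, ∀ f ∈ B, (s e < s f ↔ s' e < s' f)) → (Φ s B ↔ Φ s' B))
    (F : Finset (Ed d)) (t : ℝ) :
    MeasurableSet {U : Ed d → unitInterval | Φ (lab U) (att F U t)} := by
  have hset : {U | Φ (lab U) (att F U t)} = pr F ⁻¹' {u | Φ (ex F u) (ft F t u)} := by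
    ext U
    simp only [Set.mem_ofPred_eq, Set.mem_preimage]
    rw [att_eq]
    refine hΦ _ _ _ fun e he f hf => ?_
    unfold ft at he hf
    rw [ex_pr U (Finset.mem_filter.1 he).1, ex_pr U (Finset.mem_filter.1 hf).1]
  rw [hset]
  refine meas_pr F (meas_pat (t := t) fun u u' h1 h2 => ?_)
  have : ft F t u = ft F t u' := by
    unfold ft
    refine Finset.filter_congr fun e he => ?_
    rw [ex_mem _ he, ex_mem _ he]
    exact h2 _
  rw [this]
  exact Phi_congr hΦ (Finset.filter_subset _ _) fun e f _ _ => h1 e f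

theorem measure_le_of_Pr_le {d : ℕ} {Φ Ψ : (Ed d → ℝ) → Finset (Ed d) → Prop}
    (hΦ : ∀ s s' B, (∀ e ∈ B, ∀ f ∈ B, (s e < s f ↔ s' e < s' f)) → (Φ s B ↔ Φ s' B))
    (hΨ : ∀ s s' B, (∀ e ∈ B, ∀ f ∈ B, (s e < s f ↔ s' e < s' f)) → (Ψ s B ↔ Ψ s' B))
    (F : Finset (Ed d)) {t : ℝ} (ht0 : 0 ≤ t) (ht1 : t ≤ 1)
    (h : ∀ s : Ed d → ℝ, Set.InjOn s (F : Set (Ed d)) → Perc.Pr t F (Φ s) ≤ Perc.Pr t F (Ψ s)) :
    labels d {U | Φ (lab U) (att F U t)} ≤ labels d {U | Ψ (lab U) (att F U t)} := by
  rw [key hΦ F ht0 ht1, key hΨ F ht0 ht1]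
  refine lintegral_mono_ae (ae_restrict_of_ae ?_)
  have hg : ∀ᵐ y : F → ℝ, Function.Injective y ∧ ∀ e, y e ≠ 0 := ae_iff.2 (null_good F)
  filter_upwards [hg] with u hu
  refine ENNReal.ofReal_le_ofReal (h _ ?_)
  intro e he f hf hef
  rw [ex_mem _ he, ex_mem _ hf] at hef
  exact congrArg Subtype.val (hu.1 hef)

end Pool.Agent.CDP
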