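import Mathlib
import Pool.Agent.CDP.Defs

/-! CDP, module WFU: almost all labels are good (`GoodU`): injective, and the relation `Below U`
(adjacent edge with smaller label) has no infinite descending chain.

PROOF.  Injectivity: for `e ≠ f` the event `U e = U f` is null: it depends on two coordinates and the
joint law of `(U e, U f)` is `volume.prod volume` (e.g. `Measure.infinitePi` restricted to
`{e, f}`), the diagonal is null as `volume` on `unitInterval` has no atoms
(alternative: for every `m`, `{U e = U f} ⊆ ⋃_{i < m} {U e, U f ∈ J_i}`, `J_i = [i/m, (i+1)/m]`,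
with probability at most `m * (1/m)^2 = 1/m`).  Countably many pairs.

Descending chains: let `m = 8 d + 1`, `J_i = {y : unitInterval | i/m ≤ y ≤ (i+1)/m}`, `i < m`, of
measure `1/m` (`≤ 1/m`).  A list `e_0, ..., e_l` of pairwise distinct edges with `e_{k+1}` sharing a
vertex with `e_k` is a path; for given `e_0` there are at most `(4 d) ^ l` of them (an edge shares a
vertex with at most `2 (2d - 1) ≤ 4 d` other edges; it is enough to count sequences with
`e_{k+1} ∈ Nb (e_k)`, `Nb` a finset with at most `4 d` elements containing all edges sharing a vertex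
with `e_k`), and the probability that all its edges have labels in `J_i` is `m ^ (-(l+1))`
(`Measure.infinitePi_pi`/`infinitePi_cylinder` for distinct edges).  So for all `e, i` the probability
that there is such a path of every length starting at `e` inside `J_i` is at most
`(4d / m) ^ l → 0`, i.e. it is zero; take the countable union over `e` and `i`.
If `¬ Acc (Below U) e` there is an infinite sequence `e_0 = e, e_1, ...` with `Below U e_{k+1} e_k`
(`exists_not_acc_lt_of_not_acc`-style dependent choice, or `WellFounded`/`RelEmbedding` API); the integers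
`⌊m * U e_k⌋` are non-increasing, so constant from some `k_0` on, so the paths
`e_{k_0}, ..., e_{k_0 + l}` (distinct edges since the labels strictly decrease) have all their labels in
one `J_i`.  Excluded for almost all `U`. -/

namespace Pool.Agent.CDP

open MeasureTheory

private theorem wfu_prob (d : ℕ) : IsProbabilityMeasure (labels d) := by
  unfold labels
  infer_instance

/-- a cell of the unit interval -/
private def wfuJ (m i : ℕ) : Set unitInterval := {y | ⌊(m : ℝ) * (y : ℝ)⌋₊ = i}

private theorem wfuJ_meas (m i : ℕ) : MeasurableSet (wfuJ m i) := by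
  have h : Measurable (fun y : unitInterval => ⌊(m : ℝ) * (y : ℝ)⌋₊) :=
    Nat.measurable_floor.comp (measurable_const.mul measurable_subtype_coe)
  exact h (measurableSet_singleton i)

private theorem wfuJ_vol {m : ℕ} (hm : 0 < m) (i : ℕ) :
    (volume : Measure unitInterval) (wfuJ m i) ≤ ENNReal.ofReal (1 / m) := by
  have hm' : (0 : ℝ) < m := by exact_mod_cast hm
  rw [unitInterval.volume_apply]
  have hsub : (Subtype.val '' (wfuJ m i) : Set ℝ) ⊆ Set.Icc ((i : ℝ) / m) (((i : ℝ) + 1) / m) := by
    rintro _ ⟨y, hy, rfl⟩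
    have hy' : ⌊(m : ℝ) * (y : ℝ)⌋₊ = i := hy
    have h0 : (0 : ℝ) ≤ (m : ℝ) * (y : ℝ) := mul_nonneg hm'.le y.2.1
    have h1 : (i : ℝ) ≤ (m : ℝ) * (y : ℝ) := by
      rw [← hy']
      exact Nat.floor_le h0
    have h2 : (m : ℝ) * (y : ℝ) < (i : ℝ) + 1 := by
      rw [← hy']
      exact Nat.lt_floor_add_one _
    constructor
    · rw [div_le_iff₀ hm']
      linarith
    · rw [le_div_iff₀ hm']
      linarith
  refine (measure_mono hsub).trans ?_
  rw [Real.volume_Icc]
  apply ENNReal.ofReal_le_ofReal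
  have : ((i : ℝ) + 1) / m - (i : ℝ) / m = 1 / m := by
    rw [← sub_div]
    congr 1
    ring
  rw [this]

private theorem wfu_cell {d m : ℕ} (hm : 0 < m) (i : ℕ) (s : Finset (Ed d)) :
    labels d {U | ∀ e ∈ s, U e ∈ wfuJ m i} ≤ ENNReal.ofReal (1 / m) ^ s.card := by
  have h1 : {U : Ed d → unitInterval | ∀ e ∈ s, U e ∈ wfuJ m i} =
      Set.pi (s : Set (Ed d)) (fun _ => wfuJ m i) := by
    ext U
    simp [Set.mem_pi]
  rw [h1]
  unfold labels
  rw [Measure.infinitePi_pi (μ := fun _ : Ed d => (volume : Measure unitInterval))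
    (fun e _ => wfuJ_meas m i)]
  refine (Finset.prod_le_prod' (fun e _ => wfuJ_vol hm i)).trans ?_
  rw [Finset.prod_const]

private theorem wfu_pair {d : ℕ} {e f : Ed d} (hef : e ≠ f) :
    labels d {U | U e = U f} = 0 := by
  classical
  have hb : ∀ k : ℕ, labels d {U | U e = U f} ≤ ENNReal.ofReal (2 / ((k : ℝ) + 1)) := by
    intro k
    have hm : 0 < k + 1 := Nat.succ_pos k
    have hsub : {U : Ed d → unitInterval | U e = U f} ⊆
        ⋃ i ∈ Finset.range (k + 2), {U | ∀ g ∈ ({e, f} : Finset (Ed d)), U g ∈ wfuJ (k + 1) i} := by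
      intro U hU
      have hU' : U e = U f := hU
      rw [Set.mem_iUnion₂]
      refine ⟨⌊((k + 1 : ℕ) : ℝ) * (U e : ℝ)⌋₊, ?_, ?_⟩
      · rw [Finset.mem_range]
        have h1 : ((k + 1 : ℕ) : ℝ) * (U e : ℝ) ≤ ((k + 1 : ℕ) : ℝ) := by
          have := (U e).2.2
          have h0 : (0 : ℝ) ≤ ((k + 1 : ℕ) : ℝ) := Nat.cast_nonneg _
          nlinarith
        have h2 := Nat.floor_le_floor h1
        rw [Nat.floor_natCast] at h2
        omega
      · intro g hg
        rw [Finset.mem_insert, Finset.mem_singleton] at hg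
        rcases hg with rfl | rfl
        · rfl
        · change ⌊((k + 1 : ℕ) : ℝ) * (U g : ℝ)⌋₊ = _
          rw [← hU']
    refine (measure_mono hsub).trans ?_
    refine (measure_biUnion_finset_le _ _).trans ?_
    refine (Finset.sum_le_sum (fun i _ => wfu_cell hm i ({e, f} : Finset (Ed d)))).trans ?_
    rw [Finset.sum_const, Finset.card_range, Finset.card_pair hef, nsmul_eq_mul,
      ← ENNReal.ofReal_pow (by positivity)]
    have h3 : ((k + 2 : ℕ) : ENNReal) = ENNReal.ofReal ((k + 2 : ℕ) : ℝ) := by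
      rw [ENNReal.ofReal_natCast]
    rw [h3, ← ENNReal.ofReal_mul (by positivity)]
    apply ENNReal.ofReal_le_ofReal
    have hk : (0 : ℝ) ≤ k := Nat.cast_nonneg k
    push_cast
    rw [div_pow, one_pow, mul_one_div, div_le_div_iff₀ (by positivity) (by positivity)]
    nlinarith
  have ht : Filter.Tendsto (fun k : ℕ => ENNReal.ofReal (2 / ((k : ℝ) + 1))) Filter.atTop
      (nhds (ENNReal.ofReal 0)) := by
    apply ENNReal.tendsto_ofReal
    have h1 := (tendsto_one_div_add_atTop_nhds_zero_nat (𝕜 := ℝ)).const_mul 2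
    rw [mul_zero] at h1
    refine h1.congr fun k => ?_
    ring
  rw [ENNReal.ofReal_zero] at ht
  exact le_antisymm (ge_of_tendsto' ht hb) (zero_le)

/-- the edges at a vertex -/
private noncomputable def wfuN {d : ℕ} (v : Vx d) : Finset (Ed d) := by
  classical
  exact (Finset.univ.image (fun j : Fin d => ((v, j) : Ed d))) ∪
    (Finset.univ.image (fun j : Fin d => ((v - Pi.single j 1, j) : Ed d)))

private theorem wfuN_card {d : ℕ} (v : Vx d) : (wfuN v).card ≤ 2 * d := by
  classical
  unfold wfuN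
  refine (Finset.card_union_le _ _).trans ?_
  have h1 := Finset.card_image_le (s := (Finset.univ : Finset (Fin d)))
    (f := fun j : Fin d => ((v, j) : Ed d))
  have h2 := Finset.card_image_le (s := (Finset.univ : Finset (Fin d)))
    (f := fun j : Fin d => ((v - Pi.single j 1, j) : Ed d))
  rw [Finset.card_univ, Fintype.card_fin] at h1 h2
  omega

private theorem wfuN_mem {d : ℕ} {v : Vx d} {f : Ed d} (h : (latt d).Inc v f) : f ∈ wfuN v := by
  classical
  unfold wfuN
  rw [Finset.mem_union, Finset.mem_image, Finset.mem_image]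
  rcases h with h | h
  · left
    refine ⟨f.2, Finset.mem_univ _, ?_⟩
    have h' : f.1 = v := h
    rw [← h']
  · right
    refine ⟨f.2, Finset.mem_univ _, ?_⟩
    have h' : f.1 + Pi.single f.2 1 = v := h
    rw [← h', add_sub_cancel_right]

/-- the edges sharing a vertex with `e` -/
private noncomputable def wfuNb {d : ℕ} (e : Ed d) : Finset (Ed d) := by
  classical
  exact wfuN e.1 ∪ wfuN (e.1 + Pi.single e.2 1)

private theorem wfuNb_card {d : ℕ} (e : Ed d) : (wfuNb e).card ≤ 4 * d := by
  classical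
  unfold wfuNb
  refine (Finset.card_union_le _ _).trans ?_
  have h1 := wfuN_card e.1
  have h2 := wfuN_card (e.1 + Pi.single e.2 1)
  omega

private theorem wfuNb_mem {d : ℕ} {e f : Ed d}
    (h : ∃ x, (latt d).Inc x f ∧ (latt d).Inc x e) : f ∈ wfuNb e := by
  classical
  obtain ⟨x, hf, he⟩ := h
  unfold wfuNb
  rw [Finset.mem_union]
  rcases he with he | he
  · left
    have he' : e.1 = x := he
    rw [he']
    exact wfuN_mem hf
  · right
    have he' : e.1 + Pi.single e.2 1 = x := he
    rw [he']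
    exact wfuN_mem hf

/-- paths of edges with `l` steps from `e` -/
private noncomputable def wfuP {d : ℕ} : ℕ → Ed d → Finset (List (Ed d))
  | 0, e => {[e]}
  | l + 1, e => by
      classical
      exact (wfuNb e).biUnion (fun f => (wfuP l f).image (List.cons e))

private theorem wfuP_card {d : ℕ} (l : ℕ) : ∀ e : Ed d, (wfuP l e).card ≤ (4 * d) ^ l := by
  classical
  induction l with
  | zero =>
    intro e
    simp [wfuP]
  | succ l ih =>
    intro e
    have h1 : (wfuP (l + 1) e).card ≤ ∑ f ∈ wfuNb e, ((wfuP l f).image (List.cons e)).card :=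
      Finset.card_biUnion_le
    have h2 : ∑ f ∈ wfuNb e, ((wfuP l f).image (List.cons e)).card ≤
        ∑ _f ∈ wfuNb e, (4 * d) ^ l :=
      Finset.sum_le_sum fun f _ => Finset.card_image_le.trans (ih f)
    rw [Finset.sum_const, smul_eq_mul] at h2
    calc (wfuP (l + 1) e).card ≤ (wfuNb e).card * (4 * d) ^ l := h1.trans h2
      _ ≤ (4 * d) * (4 * d) ^ l := Nat.mul_le_mul_right _ (wfuNb_card e)
      _ = (4 * d) ^ (l + 1) := by rw [pow_succ]; ring

private theorem wfuP_len {d : ℕ} (l : ℕ) : ∀ e : Ed d, ∀ p ∈ wfuP l e, p.length = l + 1 := by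
  classical
  induction l with
  | zero =>
    intro e p hp
    have hp' : p = [e] := by simpa [wfuP] using hp
    rw [hp']
    rfl
  | succ l ih =>
    intro e p hp
    obtain ⟨f, _, hf⟩ := Finset.mem_biUnion.1
      (show p ∈ (wfuNb e).biUnion (fun f => (wfuP l f).image (List.cons e)) from hp)
    obtain ⟨q, hq, rfl⟩ := Finset.mem_image.1 hf
    rw [List.length_cons, ih f q hq]

private theorem wfuP_mem {d : ℕ} (l : ℕ) : ∀ g : ℕ → Ed d, (∀ n, g (n + 1) ∈ wfuNb (g n)) →
    (List.range (l + 1)).map g ∈ wfuP l (g 0) := by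
  classical
  induction l with
  | zero =>
    intro g _
    simp [wfuP]
  | succ l ih =>
    intro g hg
    have h1 := ih (fun n => g (n + 1)) (fun n => hg (n + 1))
    have h2 : (List.range (l + 1 + 1)).map g =
        g 0 :: (List.range (l + 1)).map (fun n => g (n + 1)) := by
      rw [List.range_succ_eq_map, List.map_cons, List.map_map]
      rfl
    rw [h2]
    change _ ∈ (wfuNb (g 0)).biUnion (fun f => (wfuP l f).image (List.cons (g 0)))
    exact Finset.mem_biUnion.2 ⟨g 1, hg 0, Finset.mem_image.2 ⟨_, h1, rfl⟩⟩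

/-- some path of distinct edges with `l` steps from `e` has all its labels in the cell `i` -/
private def wfuB {d : ℕ} (m l : ℕ) (e : Ed d) (i : ℕ) : Set (Ed d → unitInterval) :=
  {U | ∃ p ∈ wfuP l e, p.Nodup ∧ ∀ g ∈ p, U g ∈ wfuJ m i}

private theorem wfuB_le {d m : ℕ} (hm : 0 < m) (l : ℕ) (e : Ed d) (i : ℕ) :
    labels d (wfuB m l e i) ≤ ((4 * d) ^ l : ℕ) * ENNReal.ofReal (1 / m) ^ (l + 1) := by
  classical
  have hsub : wfuB m l e i ⊆ ⋃ p ∈ wfuP l e,
      {U : Ed d → unitInterval | p.Nodup ∧ ∀ g ∈ p, U g ∈ wfuJ m i} := by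
    intro U hU
    obtain ⟨p, hp, h⟩ := hU
    rw [Set.mem_iUnion₂]
    exact ⟨p, hp, h⟩
  refine (measure_mono hsub).trans ((measure_biUnion_finset_le _ _).trans ?_)
  have h1 : ∀ p ∈ wfuP l e,
      labels d {U : Ed d → unitInterval | p.Nodup ∧ ∀ g ∈ p, U g ∈ wfuJ m i} ≤
        ENNReal.ofReal (1 / m) ^ (l + 1) := by
    intro p hp
    by_cases hn : p.Nodup
    · have h2 : {U : Ed d → unitInterval | p.Nodup ∧ ∀ g ∈ p, U g ∈ wfuJ m i} =
          {U | ∀ g ∈ p.toFinset, U g ∈ wfuJ m i} := by
        ext U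
        constructor
        · rintro ⟨_, h⟩ g hg
          exact h g (List.mem_toFinset.1 hg)
        · intro h
          exact ⟨hn, fun g hg => h g (List.mem_toFinset.2 hg)⟩
      rw [h2]
      have h3 := wfu_cell hm i p.toFinset
      rwa [List.toFinset_card_of_nodup hn, wfuP_len l e p hp] at h3
    · have h2 : {U : Ed d → unitInterval | p.Nodup ∧ ∀ g ∈ p, U g ∈ wfuJ m i} = ∅ := by
        ext U
        constructor
        · rintro ⟨h, _⟩
          exact absurd h hn
        · intro h
          exact absurd h (Set.notMem_empty _)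
      rw [h2, measure_empty]
      exact zero_le
  refine (Finset.sum_le_sum h1).trans ?_
  rw [Finset.sum_const, nsmul_eq_mul]
  gcongr
  exact wfuP_card l e

private theorem wfuB_null {d : ℕ} (e : Ed d) (i : ℕ) :
    labels d {U | ∀ l, U ∈ wfuB (8 * d + 1) l e i} = 0 := by
  have hb : ∀ l : ℕ, labels d {U | ∀ l, U ∈ wfuB (8 * d + 1) l e i} ≤
      ENNReal.ofReal ((1 / 2) ^ l) := by
    intro l
    have hsub : {U : Ed d → unitInterval | ∀ l, U ∈ wfuB (8 * d + 1) l e i} ⊆
        wfuB (8 * d + 1) l e i := fun U hU => hU l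
    refine (measure_mono hsub).trans ((wfuB_le (Nat.succ_pos _) l e i).trans ?_)
    rw [← ENNReal.ofReal_pow (by positivity), ← ENNReal.ofReal_natCast,
      ← ENNReal.ofReal_mul (by positivity)]
    apply ENNReal.ofReal_le_ofReal
    have hd : (0 : ℝ) ≤ d := Nat.cast_nonneg d
    push_cast
    have hm0 : (0 : ℝ) < 8 * d + 1 := by linarith
    have h1 : (4 * (d : ℝ)) ^ l * (1 / (8 * (d : ℝ) + 1)) ^ (l + 1) =
        (4 * (d : ℝ) * (1 / (8 * (d : ℝ) + 1))) ^ l * (1 / (8 * (d : ℝ) + 1)) := by
      rw [pow_succ, ← mul_assoc, ← mul_pow]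
    rw [h1]
    have h2 : 4 * (d : ℝ) * (1 / (8 * (d : ℝ) + 1)) ≤ 1 / 2 := by
      rw [mul_one_div, div_le_div_iff₀ hm0 (by norm_num)]
      linarith
    have h3 : (1 / (8 * (d : ℝ) + 1)) ≤ 1 := by
      rw [div_le_one hm0]
      linarith
    have h4 : (4 * (d : ℝ) * (1 / (8 * (d : ℝ) + 1))) ^ l ≤ (1 / 2) ^ l :=
      pow_le_pow_left₀ (by positivity) h2 l
    calc (4 * (d : ℝ) * (1 / (8 * (d : ℝ) + 1))) ^ l * (1 / (8 * (d : ℝ) + 1))
        ≤ (1 / 2) ^ l * 1 := mul_le_mul h4 h3 (by positivity) (by positivity)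
      _ = (1 / 2) ^ l := mul_one _
  have ht : Filter.Tendsto (fun l : ℕ => ENNReal.ofReal ((1 / 2 : ℝ) ^ l)) Filter.atTop
      (nhds (ENNReal.ofReal 0)) := by
    apply ENNReal.tendsto_ofReal
    exact tendsto_pow_atTop_nhds_zero_of_lt_one (by norm_num) (by norm_num)
  rw [ENNReal.ofReal_zero] at ht
  exact le_antisymm (ge_of_tendsto' ht hb) (zero_le)

private theorem wfu_chain {d : ℕ} {U : Ed d → unitInterval}
    (h : ∀ e : Ed d, ∀ i : ℕ, ¬ ∀ l, U ∈ wfuB (8 * d + 1) l e i) (e : Ed d) :
    Acc (Below U) e := by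
  by_contra hna
  obtain ⟨f, _, hf⟩ := not_acc_iff_exists_descending_chain.1 hna
  set c : ℕ → ℕ := fun n => ⌊((8 * d + 1 : ℕ) : ℝ) * (U (f n) : ℝ)⌋₊ with hc
  have hanti : Antitone c := by
    apply antitone_nat_of_succ_le
    intro n
    apply Nat.floor_le_floor
    have h1 : (U (f (n + 1)) : ℝ) ≤ (U (f n) : ℝ) := (hf n).1.le
    exact mul_le_mul_of_nonneg_left h1 (Nat.cast_nonneg _)
  obtain ⟨N, hN⟩ : ∃ N, c N = sInf (Set.range c) := Nat.sInf_mem (Set.range_nonempty c)
  have hconst : ∀ n, N ≤ n → c n = c N := by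
    intro n hn
    apply le_antisymm (hanti hn)
    rw [hN]
    exact Nat.sInf_le (Set.mem_range_self n)
  have hstrict : StrictAnti (fun n => U (f (N + n))) := by
    apply strictAnti_nat_of_succ_lt
    intro n
    exact (hf (N + n)).1
  have hinj : Function.Injective (fun n => f (N + n)) := by
    intro a b hab
    apply hstrict.injective
    change U (f (N + a)) = U (f (N + b))
    have hab' : f (N + a) = f (N + b) := hab
    rw [hab']
  apply h (f (N + 0)) (c N)
  intro l
  refine ⟨(List.range (l + 1)).map (fun n => f (N + n)), ?_, ?_, ?_⟩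
  · exact wfuP_mem l (fun n => f (N + n)) (fun n => wfuNb_mem (hf (N + n)).2)
  · exact List.nodup_range.map hinj
  · intro g hg
    obtain ⟨n, _, rfl⟩ := List.mem_map.1 hg
    exact hconst (N + n) (Nat.le_add_right _ _)

theorem ae_good (d : ℕ) : ∀ᵐ U ∂(labels d), GoodU U := by
  have h1 : ∀ᵐ U ∂(labels d), ∀ e f : Ed d, e ≠ f → ¬ U e = U f := by
    rw [ae_all_iff]
    intro e
    rw [ae_all_iff]
    intro f
    by_cases hef : e = f
    · exact Filter.Eventually.of_forall fun U hne => absurd hef hne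
    · have h2 := wfu_pair hef
      have h3 : ∀ᵐ U ∂(labels d), ¬ U e = U f := by
        rw [ae_iff]
        simpa only [not_not] using h2
      filter_upwards [h3] with U hU _
      exact hU
  have h2 : ∀ᵐ U ∂(labels d), ∀ e : Ed d, ∀ i : ℕ, ¬ ∀ l, U ∈ wfuB (8 * d + 1) l e i := by
    rw [ae_all_iff]
    intro e
    rw [ae_all_iff]
    intro i
    rw [ae_iff]
    simpa only [not_not] using wfuB_null e i
  filter_upwards [h1, h2] with U hU1 hU2
  refine ⟨?_, fun e => wfu_chain hU2 e⟩
  intro e f hef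
  by_contra hne
  exact hU1 e f hne hef

end Pool.Agent.CDP
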