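import Mathlib
import Pool.Agent.CDP.Defs
import Pool.Agent.CDP.SOL
import Pool.Agent.CDP.CONN
import Pool.Agent.CDP.WFU
import Pool.Agent.CDP.EXU
import Pool.Agent.CDP.APX
import Pool.Agent.CDP.FUB
import Pool.Agent.CDP.FINM

/-! CDP, module LIM: passing to infinite volume.

PROOF.  `Φ κ n s B := (latt d).Conn 0 (far d n) ↑((latt d).sol s (fun _ => κ) B)` is order invariant
(`sol_congr_order`).  For good `U` let `ω_κ(U)` be the unique solution.
1. For fixed `n` and an exhausting sequence `F_M` of finite edge sets (`Filter.atTop` on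
   `Finset (Ed d)` is countably generated, or take an enumeration), for good `U`, eventually
   `Φ κ n (lab U) (att F_M U t) ↔ Conn 0 (far d n) (openAt U ω_κ(U) t)` (`conn_far_congr` and
   `eventually_mem` for the finitely many `e ∈ Q`).
2. Hence (`tendsto_measure_of_ae_tendsto_indicator` or dominated convergence; the sets at finite `M`
   are measurable by `measurableSet_att`) `P (Conn 0 (far d n) (openAt U ω_κ t)) = lim_M
   labels d {U | Φ κ n ..}`, where the set is `{U | ∃ ω, IsCDP κ U ω ∧ Conn 0 (far d n) (openAt U ω t)}`,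
   a.e. equal to the measurable set of `U` for which `Φ` holds eventually in `M`.  By
   `measure_le_of_Pr_le` with `finite_mono` this gives the inequality between `κ` and `κ + 1` for each
   `n`.
3. `{∃ ω, IsCDP ∧ infinite cluster}` is a.e. equal to the intersection over `n` of the sets of 2
   (`cluster_infinite_iff`), which decrease in `n` (`far_antitone`, `conn` monotone in `S`); continuity
   from above (`tendsto_measure_iInter_atTop`, null-measurable sets, finite measure) and
   `le_of_tendsto_of_tendsto'`. -/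

namespace Pool.Agent.CDP

open MeasureTheory

/-- the finite volume event -/
private def limPhi (κ d n : ℕ) (s : Ed d → ℝ) (B : Finset (Ed d)) : Prop :=
  (latt d).Conn 0 (far d n) (((latt d).sol s (fun _ => κ) B : Finset (Ed d)) : Set (Ed d))

/-- the infinite volume event -/
private def limQ (κ d n : ℕ) (t : ℝ) : Set (Ed d → unitInterval) :=
  {U | ∃ ω, IsCDP κ U ω ∧ (latt d).Conn 0 (far d n) (openAt U ω t)}

private theorem limPhi_inv (κ d n : ℕ) : ∀ s s' B,
    (∀ e ∈ B, ∀ f ∈ B, (s e < s f ↔ s' e < s' f)) → (limPhi κ d n s B ↔ limPhi κ d n s' B) := by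
  intro s s' B h
  unfold limPhi
  rw [(latt d).sol_congr_order (cap := fun _ => κ) h]

private theorem lim_event (κ d n : ℕ) (t : ℝ) {U : Ed d → unitInterval} (h : GoodU U) :
    ∀ᶠ F : Finset (Ed d) in Filter.atTop,
      (limPhi κ d n (lab U) (att F U t) ↔ U ∈ limQ κ d n t) := by
  obtain ⟨ω, hω, huniq⟩ := exists_unique h κ
  obtain ⟨Q, hQ⟩ := conn_far_congr d n
  have h1 : ∀ᶠ F : Finset (Ed d) in Filter.atTop, ∀ e ∈ Q,
      (e ∈ (latt d).sol (lab U) (fun _ => κ) (att F U t) ↔ e ∈ openAt U ω t) := by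
    rw [Filter.eventually_all_finset]
    intro e _
    exact eventually_mem h hω t e
  filter_upwards [h1] with F hF
  have h2 := hQ (((latt d).sol (lab U) (fun _ => κ) (att F U t) : Finset (Ed d)) : Set (Ed d))
    (openAt U ω t) (fun e he => by
      rw [Finset.mem_coe]
      exact hF e he)
  unfold limPhi
  rw [h2]
  constructor
  · intro h3
    exact ⟨ω, hω, h3⟩
  · rintro ⟨ω', hω', h3⟩
    have h4 : ω' = ω := huniq ω' hω'
    rwa [h4] at h3

private theorem lim_isProb (d : ℕ) : IsProbabilityMeasure (labels d) := by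
  unfold labels
  infer_instance

private theorem lim_null (κ d n : ℕ) (t : ℝ) :
    ∃ A : Set (Ed d → unitInterval), MeasurableSet A ∧
      (∀ᵐ U ∂(labels d), (U ∈ A ↔ U ∈ limQ κ d n t)) := by
  -- a countable cofinal sequence of finite sets
  obtain ⟨F, hF⟩ := Filter.exists_seq_tendsto (Filter.atTop : Filter (Finset (Ed d)))
  refine ⟨{U | ∀ᶠ k in Filter.atTop, limPhi κ d n (lab U) (att (F k) U t)}, ?_, ?_⟩
  · have h1 : {U : Ed d → unitInterval |
        ∀ᶠ k in Filter.atTop, limPhi κ d n (lab U) (att (F k) U t)} =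
        ⋃ K : ℕ, ⋂ k : ℕ, ⋂ _ : K ≤ k, {U | limPhi κ d n (lab U) (att (F k) U t)} := by
      ext U
      simp only [Filter.eventually_atTop, Set.mem_iUnion, Set.mem_iInter]
      rfl
    rw [h1]
    refine MeasurableSet.iUnion fun K => MeasurableSet.iInter fun k => MeasurableSet.iInter fun _ => ?_
    exact measurableSet_att (limPhi_inv κ d n) (F k) t
  · filter_upwards [ae_good d] with U hU
    have h2 := hF.eventually (lim_event κ d n t hU)
    constructor
    · intro h3
      have h3' : ∀ᶠ k in Filter.atTop, limPhi κ d n (lab U) (att (F k) U t) := h3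
      obtain ⟨k, hk⟩ := (h2.and h3').exists
      exact hk.1.1 hk.2
    · intro h3
      filter_upwards [h2] with k hk
      exact hk.2 h3

private theorem lim_tendsto (κ d n : ℕ) (t : ℝ) :
    Filter.Tendsto (fun F : Finset (Ed d) =>
      labels d {U | limPhi κ d n (lab U) (att F U t)}) Filter.atTop
      (nhds (labels d (limQ κ d n t))) := by
  have := lim_isProb d
  obtain ⟨A, hA, hAe⟩ := lim_null κ d n t
  have h1 : labels d (limQ κ d n t) = labels d A := by
    apply measure_congr
    filter_upwards [hAe] with U hU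
    exact propext hU.symm
  rw [h1]
  refine tendsto_measure_of_ae_tendsto_indicator_of_isFiniteMeasure Filter.atTop hA
    (fun F => measurableSet_att (limPhi_inv κ d n) F t) ?_
  filter_upwards [hAe, ae_good d] with U hU hg
  filter_upwards [lim_event κ d n t hg] with F hF
  rw [hU]
  exact hF

private theorem lim_le {κ d : ℕ} (hκ : 18 ≤ κ) (hd : κ + 1 ≤ 2 * d) {t : ℝ} (ht0 : 0 ≤ t)
    (ht : t ≤ 11 / (10 * d)) (n : ℕ) :
    labels d (limQ κ d n t) ≤ labels d (limQ (κ + 1) d n t) := by
  have ht1 : t ≤ 1 := by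
    have hd' : (10 : ℝ) ≤ d := by
      have : 10 ≤ d := by omega
      exact_mod_cast this
    refine ht.trans ?_
    rw [div_le_one (by linarith)]
    linarith
  refine le_of_tendsto_of_tendsto' (lim_tendsto κ d n t) (lim_tendsto (κ + 1) d n t) ?_
  intro F
  refine measure_le_of_Pr_le (limPhi_inv κ d n) (limPhi_inv (κ + 1) d n) F ht0 ht1 ?_
  intro s hs
  exact finite_mono hκ hd ht0 ht hs (far d n)

private theorem limQ_antitone (κ d : ℕ) (t : ℝ) : Antitone (fun n => limQ κ d n t) := by
  intro m n hmn U hU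
  obtain ⟨ω, hω, z, hz, hr⟩ := hU
  exact ⟨ω, hω, z, far_antitone d hmn hz, hr⟩

private theorem limQ_null (κ d n : ℕ) (t : ℝ) : NullMeasurableSet (limQ κ d n t) (labels d) := by
  obtain ⟨A, hA, hAe⟩ := lim_null κ d n t
  refine ⟨A, hA, ?_⟩
  filter_upwards [hAe] with U hU
  exact propext hU.symm

private theorem lim_theta (κ d : ℕ) (t : ℝ) :
    Filter.Tendsto (fun n => labels d (limQ κ d n t)) Filter.atTop (nhds (theta κ d t)) := by
  have := lim_isProb d
  have h1 : theta κ d t = labels d (⋂ n, limQ κ d n t) := by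
    unfold theta
    apply measure_congr
    filter_upwards [ae_good d] with U hU
    apply propext
    obtain ⟨ω, hω, huniq⟩ := exists_unique hU κ
    constructor
    · rintro ⟨ω', hω', hinf⟩
      refine Set.mem_iInter.2 fun n => ⟨ω', hω', ?_⟩
      exact (cluster_infinite_iff d _).1 hinf n
    · intro h
      refine ⟨ω, hω, (cluster_infinite_iff d _).2 fun n => ?_⟩
      obtain ⟨ω', hω', hc⟩ := Set.mem_iInter.1 h n
      have h4 : ω' = ω := huniq ω' hω'
      rwa [h4] at hc
  rw [h1]
  exact tendsto_measure_iInter_atTop (fun n => limQ_null κ d n t) (limQ_antitone κ d t)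
    ⟨0, measure_ne_top _ _⟩

theorem theta_mono {κ d : ℕ} (hκ : 18 ≤ κ) (hd : κ + 1 ≤ 2 * d) {t : ℝ} (ht0 : 0 ≤ t)
    (ht : t ≤ 11 / (10 * d)) : theta κ d t ≤ theta (κ + 1) d t :=
  le_of_tendsto_of_tendsto' (lim_theta κ d t) (lim_theta (κ + 1) d t)
    (fun n => lim_le hκ hd ht0 ht n)

end Pool.Agent.CDP
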