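import Mathlib
import Pool.Agent.CDP.Defs

/-! CDP, module MUA: the law of the attempts inside a finite set (no order).

PROOF.  For `S ⊆ F` the event `att F U t = S` is a cylinder: `U e ≤ t` for `e ∈ S`, `t < U e` for
`e ∈ F \ S`; its probability is `t ^ S.card * (1 - t) ^ (F \ S).card` (`Measure.infinitePi_pi`).
Sum over `S ∈ F.powerset` with `R S` (disjoint events).  Model: `mu_trace`, `mu_trace_eq` in
`Pool/Agent/Perc/Lattice.lean`. -/

namespace Pool.Agent.CDP

open MeasureTheory

private theorem mem_att {d : ℕ} {F : Finset (Ed d)} {U : Ed d → unitInterval} {t : ℝ} {e : Ed d} :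
    e ∈ att F U t ↔ e ∈ F ∧ (U e : ℝ) ≤ t := by
  classical
  unfold att
  simp

private theorem att_subset {d : ℕ} (F : Finset (Ed d)) (U : Ed d → unitInterval) (t : ℝ) :
    att F U t ⊆ F := fun _ h => (mem_att.1 h).1

private theorem att_eq_iff {d : ℕ} {F S : Finset (Ed d)} (hS : S ⊆ F) {U : Ed d → unitInterval}
    {t : ℝ} : att F U t = S ↔ ∀ e ∈ F, ((U e : ℝ) ≤ t ↔ e ∈ S) := by
  constructor
  · intro h e he
    rw [← h, mem_att]
    simp [he]
  · intro h
    ext e
    rw [mem_att]
    constructor
    · rintro ⟨he, hU⟩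
      exact (h e he).1 hU
    · intro he
      exact ⟨hS he, (h e (hS he)).2 he⟩

private theorem meas_le (t : ℝ) : MeasurableSet {u : unitInterval | (u : ℝ) ≤ t} :=
  measurableSet_le measurable_subtype_coe measurable_const

private theorem vol_le {t : ℝ} (ht0 : 0 ≤ t) (ht1 : t ≤ 1) :
    (volume : Measure unitInterval) {u : unitInterval | (u : ℝ) ≤ t} = ENNReal.ofReal t := by
  have h : {u : unitInterval | (u : ℝ) ≤ t} = Set.Iic (⟨t, ht0, ht1⟩ : unitInterval) := by
    ext u
    simp only [Set.mem_ofPred_eq, Set.mem_Iic]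
    exact Iff.rfl
  rw [h, unitInterval.volume_Iic]

private theorem vol_gt {t : ℝ} (ht0 : 0 ≤ t) (ht1 : t ≤ 1) :
    (volume : Measure unitInterval) {u : unitInterval | ¬ (u : ℝ) ≤ t} =
      ENNReal.ofReal (1 - t) := by
  have h : {u : unitInterval | ¬ (u : ℝ) ≤ t} = Set.Ioi (⟨t, ht0, ht1⟩ : unitInterval) := by
    ext u
    simp only [Set.mem_ofPred_eq, Set.mem_Ioi, not_le]
    exact Iff.rfl
  rw [h, unitInterval.volume_Ioi]

private theorem labels_att_eq {d : ℕ} {F S : Finset (Ed d)} (hS : S ⊆ F) {t : ℝ} (ht0 : 0 ≤ t)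
    (ht1 : t ≤ 1) :
    labels d {U | att F U t = S} = ENNReal.ofReal (t ^ S.card * (1 - t) ^ (F \ S).card) := by
  classical
  have h1 : {U : Ed d → unitInterval | att F U t = S} =
      Set.pi (↑F : Set (Ed d)) (fun e => {u : unitInterval | (u : ℝ) ≤ t ↔ e ∈ S}) := by
    ext U
    simp only [Set.mem_ofPred_eq, Set.mem_pi, Finset.mem_coe]
    exact att_eq_iff hS
  have hm : ∀ e ∈ F, MeasurableSet {u : unitInterval | (u : ℝ) ≤ t ↔ e ∈ S} := by
    intro e _
    by_cases he : e ∈ S
    · simp only [he, iff_true]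
      exact meas_le t
    · simp only [he, iff_false]
      exact (meas_le t).compl
  unfold labels
  rw [h1, Measure.infinitePi_pi _ hm]
  have h2 : ∀ e ∈ F, (volume : Measure unitInterval) {u : unitInterval | (u : ℝ) ≤ t ↔ e ∈ S} =
      if e ∈ S then ENNReal.ofReal t else ENNReal.ofReal (1 - t) := by
    intro e _
    split_ifs with he
    · simp only [he, iff_true]
      exact vol_le ht0 ht1
    · simp only [he, iff_false]
      exact vol_gt ht0 ht1
  rw [Finset.prod_congr rfl h2, Finset.prod_ite, Finset.prod_const, Finset.prod_const]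
  have e1 : F.filter (fun i => i ∈ S) = S := by
    ext x; simp only [Finset.mem_filter]; exact ⟨fun h => h.2, fun h => ⟨hS h, h⟩⟩
  have e2 : F.filter (fun i => i ∉ S) = F \ S := by
    ext x; simp only [Finset.mem_filter, Finset.mem_sdiff]
  rw [e1, e2, ENNReal.ofReal_mul (by positivity), ENNReal.ofReal_pow ht0,
    ENNReal.ofReal_pow (by linarith)]

private theorem meas_att_eq {d : ℕ} (F S : Finset (Ed d)) (t : ℝ) :
    MeasurableSet {U : Ed d → unitInterval | att F U t = S} := by
  classical
  by_cases hS : S ⊆ F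
  · have h1 : {U : Ed d → unitInterval | att F U t = S} =
        ⋂ e ∈ F, {U : Ed d → unitInterval | (U e : ℝ) ≤ t ↔ e ∈ S} := by
      ext U
      simp only [Set.mem_ofPred_eq, Set.mem_iInter]
      exact att_eq_iff hS
    rw [h1]
    refine Finset.measurableSet_biInter F (fun e _ => ?_)
    have h2 : MeasurableSet {U : Ed d → unitInterval | (U e : ℝ) ≤ t} :=
      measurableSet_le (measurable_subtype_coe.comp (measurable_pi_apply e)) measurable_const
    by_cases he : e ∈ S
    · simp only [he, iff_true]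
      exact h2
    · simp only [he, iff_false]
      exact h2.compl
  · have h1 : {U : Ed d → unitInterval | att F U t = S} = ∅ := by
      ext U
      simp only [Set.mem_ofPred_eq, Set.mem_empty_iff_false, iff_false]
      intro h
      exact hS (h ▸ att_subset F U t)
    rw [h1]
    exact MeasurableSet.empty

open Classical in
private theorem setOf_att {d : ℕ} (F : Finset (Ed d)) (t : ℝ) (R : Finset (Ed d) → Prop) :
    {U : Ed d → unitInterval | R (att F U t)} =
      ⋃ S ∈ F.powerset.filter R, {U : Ed d → unitInterval | att F U t = S} := by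
  ext U
  simp only [Set.mem_ofPred_eq, Set.mem_iUnion, Finset.mem_filter, Finset.mem_powerset]
  constructor
  · intro h
    exact ⟨att F U t, ⟨att_subset F U t, h⟩, rfl⟩
  · rintro ⟨S, ⟨_, h⟩, rfl⟩
    exact h

theorem labels_att {d : ℕ} (F : Finset (Ed d)) {t : ℝ} (ht0 : 0 ≤ t) (ht1 : t ≤ 1)
    (R : Finset (Ed d) → Prop) :
    labels d {U | R (att F U t)} = ENNReal.ofReal (Perc.Pr t F R) := by
  classical
  rw [setOf_att, measure_biUnion_finset]
  · unfold Perc.Pr Perc.E
    rw [← Finset.sum_filter_add_sum_filter_not F.powerset R]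
    have hz : ∑ x ∈ F.powerset.filter (fun x => ¬ R x),
        t ^ x.card * (1 - t) ^ (F \ x).card * (if R x then (1:ℝ) else 0) = 0 := by
      apply Finset.sum_eq_zero
      intro x hx
      rw [if_neg (Finset.mem_filter.1 hx).2, mul_zero]
    rw [hz, add_zero, ENNReal.ofReal_sum_of_nonneg]
    · apply Finset.sum_congr rfl
      intro S hS
      obtain ⟨h1, h2⟩ := Finset.mem_filter.1 hS
      rw [labels_att_eq (Finset.mem_powerset.1 h1) ht0 ht1]
      simp only [if_pos h2, mul_one]
    · intro S _
      have h1 : (0:ℝ) ≤ 1 - t := by linarith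
      beta_reduce
      split_ifs <;> positivity
  · intro S _ T _ hST
    rw [Function.onFun, Set.disjoint_left]
    intro ω h1 h2
    exact hST (h1.symm.trans h2)
  · intro S _
    exact meas_att_eq F S t

theorem measurableSet_att' {d : ℕ} (F : Finset (Ed d)) (t : ℝ) (R : Finset (Ed d) → Prop) :
    MeasurableSet {U : Ed d → unitInterval | R (att F U t)} := by
  classical
  rw [setOf_att]
  exact Finset.measurableSet_biUnion _ (fun S _ => meas_att_eq F S t)

end Pool.Agent.CDP
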