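import Mathlib
import Pool.Agent.CDP.PTD

/-! CDP, module MRS: the sum over pairs of words.

PROOF by induction on `n`, for all `D`.  `n = 0`: one word, `pv w 0 = 0`.  Step: words of length
`n + 1` are `Fin.cons i w`, `pv (Fin.cons i w) 0 = 0`,
`pv (Fin.cons i w) (m + 1) = Pi.single i 1 + pv w m`; so
`Wt s t D (cons i w) (cons j w') = (if D = 0 ∧ i = j then 1/t else 1) * (if Near D then s else 1) *
  Wt s t (D + e_i - e_j) w w'` (`Fin.prod_univ_succ`, `Finset.prod_range_succ'`).  Sum with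
`Fin.consEquiv`/`Fin.sum_univ...` (`Fintype.sum_equiv (Fin.consEquiv ..)`, `Fintype.sum_prod_type`). -/

namespace Pool.Agent.CDP

private theorem mrs_pv_zero {d n : ℕ} (w : Fin n → Fin d) : pv w 0 = 0 := by
  unfold pv
  refine Finset.sum_eq_zero fun j _ => ?_
  rw [if_neg (Nat.not_lt_zero _)]

private theorem mrs_pv_succ {d n : ℕ} (i : Fin d) (w : Fin n → Fin d) (m : ℕ) :
    pv (Fin.cons i w : Fin (n + 1) → Fin d) (m + 1) = Pi.single i 1 + pv w m := by
  unfold pv
  rw [Fin.sum_univ_succ]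
  have h1 : (if ((0 : Fin (n + 1)) : ℕ) < m + 1 then
      (Pi.single ((Fin.cons i w : Fin (n + 1) → Fin d) 0) 1 : Vx d) else 0) = Pi.single i 1 := by
    rw [if_pos (by simp)]
    rfl
  rw [h1]
  congr 1
  refine Finset.sum_congr rfl fun j _ => ?_
  simp only [Fin.cons_succ, Fin.val_succ, Nat.add_lt_add_iff_right]

open Classical in
private theorem mrs_cons {d n : ℕ} (s t : ℝ) (D : Vx d) (i j : Fin d) (w w' : Fin n → Fin d) :
    Wt s t D (Fin.cons i w : Fin (n + 1) → Fin d) (Fin.cons j w' : Fin (n + 1) → Fin d) =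
      (if D = 0 ∧ i = j then 1 / t else 1) * (if Near D then s else 1) *
        Wt s t (D + Pi.single i 1 - Pi.single j 1) w w' := by
  have hD : ∀ m : ℕ, D + pv (Fin.cons i w : Fin (n + 1) → Fin d) (m + 1) -
      pv (Fin.cons j w' : Fin (n + 1) → Fin d) (m + 1) =
      D + Pi.single i 1 - Pi.single j 1 + pv w m - pv w' m := by
    intro m
    rw [mrs_pv_succ, mrs_pv_succ]
    abel
  unfold Wt
  rw [Fin.prod_univ_succ, Finset.prod_range_succ' _ (n + 1)]
  simp only [Fin.cons_succ, Fin.cons_zero, Fin.val_succ, Fin.val_zero, hD, mrs_pv_zero, add_zero, sub_zero]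
  ring

private theorem mrs_sum {d n : ℕ} (f : (Fin (n + 1) → Fin d) → ℝ) :
    ∑ w : Fin (n + 1) → Fin d, f w = ∑ i : Fin d, ∑ w : Fin n → Fin d, f (Fin.cons i w) := by
  rw [← Fintype.sum_prod_type' (f := fun (i : Fin d) (w : Fin n → Fin d) => f (Fin.cons i w))]
  refine (Fintype.sum_equiv (Fin.consEquiv (fun _ : Fin (n + 1) => Fin d)) _ _ fun x => ?_).symm
  rfl

theorem sum_Wt {d : ℕ} (hd : 0 < d) (s t : ℝ) (n : ℕ) (D : Vx d) :
    ∑ w : Fin n → Fin d, ∑ w' : Fin n → Fin d, Wt s t D w w' = (d : ℝ) ^ (2 * n) * Mr s t n D := by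
  classical
  have hd' : (d : ℝ) ≠ 0 := by exact_mod_cast hd.ne'
  induction n generalizing D with
  | zero =>
    rw [Fintype.sum_unique, Fintype.sum_unique]
    unfold Wt Mr
    simp
  | succ n ih =>
    rw [mrs_sum]
    have h1 : ∀ (i : Fin d) (w : Fin n → Fin d), ∑ w' : Fin (n + 1) → Fin d,
        Wt s t D (Fin.cons i w : Fin (n + 1) → Fin d) w' =
        ∑ j : Fin d, ∑ w' : Fin n → Fin d, (if D = 0 ∧ i = j then 1 / t else 1) * (if Near D then s else 1) *
          Wt s t (D + Pi.single i 1 - Pi.single j 1) w w' := by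
      intro i w
      rw [mrs_sum]
      refine Finset.sum_congr rfl fun j _ => Finset.sum_congr rfl fun w' _ => ?_
      rw [mrs_cons]
    simp only [h1]
    have h2 : ∀ i : Fin d, ∑ w : Fin n → Fin d, ∑ j : Fin d, ∑ w' : Fin n → Fin d,
        (if D = 0 ∧ i = j then 1 / t else 1) * (if Near D then s else 1) *
          Wt s t (D + Pi.single i 1 - Pi.single j 1) w w' =
        ∑ j : Fin d, (if D = 0 ∧ i = j then 1 / t else 1) * (if Near D then s else 1) *
          ((d : ℝ) ^ (2 * n) * Mr s t n (D + Pi.single i 1 - Pi.single j 1)) := by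
      intro i
      rw [Finset.sum_comm]
      refine Finset.sum_congr rfl fun j _ => ?_
      rw [← ih, Finset.mul_sum]
      refine Finset.sum_congr rfl fun w _ => ?_
      rw [Finset.mul_sum]
    simp only [h2]
    have h3 : Mr s t (n + 1) D = (if Near D then s else 1) *
      ((∑ i : Fin d, ∑ j : Fin d, (if D = 0 ∧ i = j then 1 / t else 1) *
        Mr s t n (D + Pi.single i 1 - Pi.single j 1)) / d / d) := rfl
    rw [h3]
    have h4 : (d : ℝ) ^ (2 * (n + 1)) = (d : ℝ) ^ (2 * n) * d * d := by ring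
    rw [h4]
    have h5 : ∀ X : ℝ, (d : ℝ) ^ (2 * n) * d * d * ((if Near D then s else 1) * (X / d / d)) =
        (d : ℝ) ^ (2 * n) * (if Near D then s else 1) * X := by
      intro X
      field_simp
    rw [h5, Finset.mul_sum]
    refine Finset.sum_congr rfl fun i _ => ?_
    rw [Finset.mul_sum]
    refine Finset.sum_congr rfl fun j _ => ?_
    ring

end Pool.Agent.CDP
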