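import Mathlib
import Pool.Agent.CDP.PTD
import Pool.Agent.CDP.CONN
import Pool.Agent.CDP.BINM

/-! CDP, module PTH: probabilities for one path and for two paths.

Let `lev x = ∑ j, x j`; `lev (pv w i) = i` for `i ≤ n` and `pv w (i+1) = pv w i + e_{w i}`.
`R i = inc (F \ PE w) (pv w i)`, `i ≤ n`.
GEOMETRY.  (1) An edge `f = (y, k)` incident to two different vertices `pv w i`, `pv w j`, `i < j`, is
`pe w i` (levels differ by one, so `y = pv w i`, `j = i + 1`, `k = w i`); so the sets `R i` (`i ≤ n`)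
are pairwise disjoint and disjoint from `PE w` (which has `n` elements).  `inc F (pv w i)` has `2 d`
elements (all edges at the vertex are in `F`), of which those in `PE w` are `pe w i` (if `i < n`) and
`pe w (i-1)` (if `i > 0`).  So `R i` has `2d - 2`, `2d - 1` or (`n = 0`) `2d` elements.
(2) For `Iw k w ∧ Iw k w'`: keep the conditions at the levels `i` with `D_i = pv w i - pv w' i` not
`Near`.  For those: `pv w i` is not a vertex of `w'` (levels), an edge of `PE w'` is not incident to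
`pv w i`, and no edge joins `pv w i` to `pv w' j`: levels give `j = i ± 1`, and
`pv w' (i+1) = pv w i + e_k`, `pv w' (i+1) = pv w' i + e_l` give `D_i = e_l - e_k`;
`pv w i = pv w' (i-1) + e_k`, `pv w' i = pv w' (i-1) + e_l` give `D_i = e_k - e_l`.  So the sets
`R_w i`, `R_{w'} i` (non-near `i`) are pairwise disjoint and disjoint from `PE w ∪ PE w'`.
PROBABILITY.  `Pr t F (PE w ⊆ ω ∧ ∀ i, (ω ∩ R i).card ≤ k) = t ^ (PE w).card * ∏ i, bin t (R i).card k`
by iterating `Perc.Pr_and_of_disjoint` (a general lemma: for a finset `Z` of indices and pairwise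
disjoint `R i ⊆ F`, disjoint from `P ⊆ F`), `Pr t P (P ⊆ ω) = t ^ P.card`.  For pairs the upper bound
`t ^ (PE w ∪ PE w').card * ∏_{non-near i} (bin (R i)) (bin (R' i))`, with
`(PE w ∪ PE w').card = 2 n - #{i | pv w i = pv w' i ∧ w i = w' i}` (an edge in both is at the same
index, by levels), and `bin t (..) k ≥ b` for the near levels gives the factor `(1 / b ^ 2)` for each
near level. -/

namespace Pool.Agent.CDP

/-! ### Geometry -/

private def pthLev {d : ℕ} (x : Vx d) : ℤ := ∑ j, x j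

private lemma pth_lev_add {d : ℕ} (x y : Vx d) : pthLev (x + y) = pthLev x + pthLev y :=
  Finset.sum_add_distrib

private lemma pth_lev_single {d : ℕ} (k : Fin d) : pthLev (Pi.single k 1 : Vx d) = 1 := by
  unfold pthLev
  rw [Finset.sum_pi_single']
  simp

private lemma pth_single_inj {d : ℕ} {a b : Fin d} (h : (Pi.single a 1 : Vx d) = Pi.single b 1) :
    a = b := by
  by_contra hne
  have h1 := congrFun h a
  rw [Pi.single_eq_same, Pi.single_eq_of_ne hne] at h1
  exact one_ne_zero h1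

private lemma pth_pv_zero {d n : ℕ} (w : Fin n → Fin d) : pv w 0 = 0 := by
  unfold pv
  refine Finset.sum_eq_zero fun j _ => ?_
  rw [if_neg (Nat.not_lt_zero _)]

private lemma pth_pv_succ {d n : ℕ} (w : Fin n → Fin d) (i : Fin n) :
    pv w ((i : ℕ) + 1) = pv w i + Pi.single (w i) 1 := by
  unfold pv
  have h1 : ∀ j : Fin n, (if (j : ℕ) < (i : ℕ) + 1 then (Pi.single (w j) 1 : Vx d) else 0) =
      (if (j : ℕ) < (i : ℕ) then Pi.single (w j) 1 else 0) +
        (if j = i then Pi.single (w j) 1 else 0) := by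
    intro j
    rcases lt_trichotomy (j : ℕ) (i : ℕ) with h | h | h
    · rw [if_pos (by omega), if_pos h, if_neg (by intro h2; rw [h2] at h; exact lt_irrefl _ h),
        add_zero]
    · rw [if_pos (by omega), if_neg (by omega), if_pos (Fin.ext h), zero_add]
    · rw [if_neg (by omega), if_neg (by omega), if_neg (by intro h2; rw [h2] at h; exact lt_irrefl _ h),
        add_zero]
  rw [Finset.sum_congr rfl fun j _ => h1 j, Finset.sum_add_distrib]
  congr 1
  rw [Finset.sum_ite_eq' Finset.univ i (fun j => (Pi.single (w j) 1 : Vx d))]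
  simp

private lemma pth_lev {d n : ℕ} (w : Fin n → Fin d) {i : ℕ} (hi : i ≤ n) :
    pthLev (pv w i) = i := by
  induction i with
  | zero =>
    rw [pth_pv_zero]
    simp [pthLev]
  | succ i ih =>
    have h1 := pth_pv_succ w ⟨i, by omega⟩
    simp only at h1
    rw [h1, pth_lev_add, pth_lev_single, ih (by omega)]
    push_cast
    ring

private lemma pth_inc_iff {d : ℕ} {x : Vx d} {e : Ed d} :
    (latt d).Inc x e ↔ e.1 = x ∨ e.1 + Pi.single e.2 1 = x := Iff.rfl

private lemma pth_mem_inc {d : ℕ} {X : Finset (Ed d)} {x : Vx d} {e : Ed d} :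
    e ∈ (latt d).inc X x ↔ e ∈ X ∧ (latt d).Inc x e := by
  classical
  unfold Gr.inc
  rw [Finset.mem_filter]

private lemma pth_pe_inj {d n : ℕ} (w : Fin n → Fin d) : Function.Injective (pe w) := by
  intro i j h
  have h1 : pv w i = pv w j := congrArg Prod.fst h
  have h2 := congrArg pthLev h1
  rw [pth_lev w i.2.le, pth_lev w j.2.le] at h2
  exact Fin.ext (by exact_mod_cast h2)

private lemma pth_PE_card {d n : ℕ} (w : Fin n → Fin d) : (PE w).card = n := by
  unfold PE
  rw [Finset.card_image_of_injective _ (pth_pe_inj w), Finset.card_univ, Fintype.card_fin]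

private lemma pth_mem_PE {d n : ℕ} {w : Fin n → Fin d} {e : Ed d} :
    e ∈ PE w ↔ ∃ i, pe w i = e := by
  unfold PE
  simp

/-- an edge joining two consecutive vertices of the path -/
private lemma pth_edge {d n : ℕ} (w : Fin n → Fin d) {i : Fin n} {e : Ed d} (h1 : e.1 = pv w i)
    (h2 : e.1 + Pi.single e.2 1 = pv w ((i : ℕ) + 1)) : pe w i = e := by
  rw [pth_pv_succ, h1] at h2
  have h3 := pth_single_inj (add_left_cancel h2)
  unfold pe
  exact Prod.ext h1.symm h3.symm

private lemma pth_inc_card {d : ℕ} {F : Finset (Ed d)} {x : Vx d}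
    (hF : ∀ e, (latt d).Inc x e → e ∈ F) : ((latt d).inc F x).card = 2 * d := by
  classical
  have h1 : (latt d).inc F x = (Finset.univ.image fun k : Fin d => ((x, k) : Ed d)) ∪
      (Finset.univ.image fun k : Fin d => ((x - Pi.single k 1, k) : Ed d)) := by
    ext e
    rw [pth_mem_inc, Finset.mem_union, Finset.mem_image, Finset.mem_image]
    constructor
    · rintro ⟨-, h | h⟩
      · exact Or.inl ⟨e.2, Finset.mem_univ _, Prod.ext h.symm rfl⟩
      · refine Or.inr ⟨e.2, Finset.mem_univ _, Prod.ext ?_ rfl⟩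
        show x - Pi.single e.2 1 = e.1
        have h' : e.1 + Pi.single e.2 1 = x := h
        rw [← h', add_sub_cancel_right]
    · rintro (⟨k, -, rfl⟩ | ⟨k, -, rfl⟩)
      · exact ⟨hF _ (Or.inl rfl), Or.inl rfl⟩
      · have : (latt d).Inc x ((x - Pi.single k 1, k) : Ed d) := Or.inr (sub_add_cancel _ _)
        exact ⟨hF _ this, this⟩
  rw [h1, Finset.card_union_of_disjoint, Finset.card_image_of_injective, Finset.card_image_of_injective,
    Finset.card_univ, Fintype.card_fin]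
  · ring
  · intro a b h
    exact congrArg Prod.snd h
  · intro a b h
    exact congrArg Prod.snd h
  · rw [Finset.disjoint_left]
    intro e h2 h3
    obtain ⟨k, -, rfl⟩ := Finset.mem_image.1 h2
    obtain ⟨l, -, h4⟩ := Finset.mem_image.1 h3
    have h5 : x - Pi.single l 1 = x := congrArg Prod.fst h4
    have h6 := congrArg pthLev (sub_eq_self.1 h5)
    rw [pth_lev_single] at h6
    simp [pthLev] at h6

private lemma pth_count {n i : ℕ} (hi : i ≤ n) :
    (Finset.univ.filter fun j : Fin n => (j : ℕ) = i ∨ (j : ℕ) + 1 = i).card =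
      (if i < n then 1 else 0) + (if 0 < i then 1 else 0) := by
  by_cases h1 : i < n <;> by_cases h2 : 0 < i
  · rw [if_pos h1, if_pos h2]
    have : (Finset.univ.filter fun j : Fin n => (j : ℕ) = i ∨ (j : ℕ) + 1 = i) =
        {⟨i, h1⟩, ⟨i - 1, by omega⟩} := by
      ext j
      simp only [Finset.mem_filter, Finset.mem_univ, true_and, Finset.mem_insert,
        Finset.mem_singleton, Fin.ext_iff]
      omega
    rw [this, Finset.card_pair]
    simp only [ne_eq, Fin.mk.injEq]
    omega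
  · rw [if_pos h1, if_neg h2]
    have : (Finset.univ.filter fun j : Fin n => (j : ℕ) = i ∨ (j : ℕ) + 1 = i) = {⟨i, h1⟩} := by
      ext j
      simp only [Finset.mem_filter, Finset.mem_univ, true_and, Finset.mem_singleton, Fin.ext_iff]
      omega
    rw [this, Finset.card_singleton]
  · rw [if_neg h1, if_pos h2]
    have : (Finset.univ.filter fun j : Fin n => (j : ℕ) = i ∨ (j : ℕ) + 1 = i) =
        {⟨i - 1, by omega⟩} := by
      ext j
      have := j.2
      simp only [Finset.mem_filter, Finset.mem_univ, true_and, Finset.mem_singleton, Fin.ext_iff]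
      omega
    rw [this, Finset.card_singleton]
  · rw [if_neg h1, if_neg h2]
    rw [Finset.card_eq_zero, Finset.filter_eq_empty_iff]
    intro j _ h
    have := j.2
    omega

/-- the size of the set of the other edges at a vertex of the path -/
private def pthM (d n i : ℕ) : ℕ :=
  if n = 0 then 2 * d else if i = 0 ∨ i = n then 2 * d - 1 else 2 * d - 2

/-- the other edges at a vertex of the path -/
private noncomputable def pthR {d n : ℕ} (F : Finset (Ed d)) (w : Fin n → Fin d) (i : ℕ) :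
    Finset (Ed d) := (latt d).inc (F \ PE w) (pv w i)

private lemma pth_mem_R {d n : ℕ} {F : Finset (Ed d)} {w : Fin n → Fin d} {i : ℕ} {e : Ed d} :
    e ∈ pthR F w i ↔ (e ∈ F ∧ e ∉ PE w) ∧ (latt d).Inc (pv w i) e := by
  unfold pthR
  rw [pth_mem_inc, Finset.mem_sdiff]

private lemma pth_R_card {d n : ℕ} (F : Finset (Ed d)) (w : Fin n → Fin d) {i : ℕ} (hi : i ≤ n)
    (hF : ∀ e, (latt d).Inc (pv w i) e → e ∈ F) : (pthR F w i).card = pthM d n i := by
  classical
  have h1 : pthR F w i = (latt d).inc F (pv w i) \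
      ((Finset.univ.filter fun j : Fin n => (j : ℕ) = i ∨ (j : ℕ) + 1 = i).image (pe w)) := by
    ext e
    rw [pth_mem_R, Finset.mem_sdiff, pth_mem_inc, Finset.mem_image]
    constructor
    · rintro ⟨⟨h2, h3⟩, h4⟩
      refine ⟨⟨h2, h4⟩, ?_⟩
      rintro ⟨j, -, rfl⟩
      exact h3 (pth_mem_PE.2 ⟨j, rfl⟩)
    · rintro ⟨⟨h2, h4⟩, h3⟩
      refine ⟨⟨h2, fun h5 => h3 ?_⟩, h4⟩
      obtain ⟨j, rfl⟩ := pth_mem_PE.1 h5
      refine ⟨j, ?_, rfl⟩
      rw [Finset.mem_filter]
      refine ⟨Finset.mem_univ _, ?_⟩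
      rcases h4 with h4 | h4
      · left
        have h5 : pv w j = pv w i := h4
        have h6 := congrArg pthLev h5
        rw [pth_lev w j.2.le, pth_lev w hi] at h6
        exact_mod_cast h6
      · right
        have h5 : pv w j + Pi.single (w j) 1 = pv w i := h4
        have h6 := congrArg pthLev h5
        rw [pth_lev_add, pth_lev_single, pth_lev w j.2.le, pth_lev w hi] at h6
        exact_mod_cast h6
  have h2 : ((Finset.univ.filter fun j : Fin n => (j : ℕ) = i ∨ (j : ℕ) + 1 = i).image (pe w)) ⊆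
      (latt d).inc F (pv w i) := by
    intro e he
    obtain ⟨j, hj, rfl⟩ := Finset.mem_image.1 he
    have hj' := (Finset.mem_filter.1 hj).2
    have h3 : (latt d).Inc (pv w i) (pe w j) := by
      rcases hj' with h | h
      · left
        show pv w j = pv w i
        rw [h]
      · right
        show pv w j + Pi.single (w j) 1 = pv w i
        rw [← pth_pv_succ, h]
    exact pth_mem_inc.2 ⟨hF _ h3, h3⟩
  rw [h1, Finset.card_sdiff_of_subset h2, pth_inc_card hF, Finset.card_image_of_injective _ (pth_pe_inj w),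
    pth_count hi]
  unfold pthM
  split_ifs <;> omega

private lemma pth_R_disj {d n : ℕ} (F : Finset (Ed d)) (w : Fin n → Fin d) {i j : ℕ} (hi : i ≤ n)
    (hj : j ≤ n) (hij : i < j) : Disjoint (pthR F w i) (pthR F w j) := by
  rw [Finset.disjoint_left]
  intro e h1 h2
  rw [pth_mem_R] at h1 h2
  obtain ⟨⟨-, h3⟩, h4⟩ := h1
  obtain ⟨-, h5⟩ := h2
  have hij' : (i : ℤ) < j := by exact_mod_cast hij
  rcases h4 with h4 | h4 <;> rcases h5 with h5 | h5
  · have h6 := congrArg pthLev (h4.symm.trans h5)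
    rw [pth_lev w hi, pth_lev w hj] at h6
    omega
  · have h4' : e.1 = pv w i := h4
    have h5' : e.1 + Pi.single e.2 1 = pv w j := h5
    have h6 := congrArg pthLev h5'
    rw [pth_lev_add, pth_lev_single, h4', pth_lev w hi, pth_lev w hj] at h6
    have h7 : j = i + 1 := by omega
    subst h7
    exact h3 (pth_mem_PE.2 ⟨⟨i, by omega⟩, pth_edge w (i := ⟨i, by omega⟩) h4' h5'⟩)
  · have h4' : e.1 + Pi.single e.2 1 = pv w i := h4
    have h5' : e.1 = pv w j := h5
    have h6 := congrArg pthLev h4'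
    rw [pth_lev_add, pth_lev_single, h5', pth_lev w hi, pth_lev w hj] at h6
    omega
  · have h6 := congrArg pthLev (h4.symm.trans h5)
    rw [pth_lev w hi, pth_lev w hj] at h6
    omega

/-! ### Probability -/

private lemma pth_Pr_subset {d : ℕ} (t : ℝ) (P : Finset (Ed d)) :
    Perc.Pr t P (fun ω => P ⊆ ω) = t ^ P.card := by
  classical
  unfold Perc.Pr Perc.E
  rw [Finset.sum_eq_single P]
  · simp
  · intro ω hω hne
    have h0 : ¬ P ⊆ ω := fun h => hne (Finset.Subset.antisymm (Finset.mem_powerset.1 hω) h)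
    simp [h0]
  · intro h
    exact absurd (Finset.mem_powerset.2 (Finset.Subset.refl P)) h

private lemma pth_Pr {d : ℕ} {ι : Type} [DecidableEq ι] (t : ℝ) (k : ℕ) {F P : Finset (Ed d)} (hP : P ⊆ F)
    (R : ι → Finset (Ed d)) (Z : Finset ι) (hR : ∀ i ∈ Z, R i ⊆ F) (hRP : ∀ i ∈ Z, Disjoint (R i) P)
    (hRR : ∀ i ∈ Z, ∀ j ∈ Z, i ≠ j → Disjoint (R i) (R j)) :
    Perc.Pr t F (fun ω => P ⊆ ω ∧ ∀ i ∈ Z, (ω ∩ R i).card ≤ k) =
      t ^ P.card * ∏ i ∈ Z, bin t (R i).card k := by
  classical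
  induction Z using Finset.induction_on with
  | empty =>
    have h1 : Perc.Pr t F (fun ω => P ⊆ ω ∧ ∀ i ∈ (∅ : Finset ι), (ω ∩ R i).card ≤ k) =
        Perc.Pr t F (fun ω => P ⊆ ω) := by
      refine Perc.Pr_congr fun ω _ => ?_
      simp
    rw [h1, Perc.Pr_restrict t hP, pth_Pr_subset]
    · simp
    · intro ω _
      rw [Finset.subset_inter_iff]
      simp
  | insert a Z ha ih =>
    set Q1 : Finset (Ed d) := P ∪ Z.biUnion R with hQ1
    have hPQ : P ⊆ Q1 := Finset.subset_union_left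
    have hRQ : ∀ i ∈ Z, R i ⊆ Q1 := fun i hi =>
      (Finset.subset_biUnion_of_mem R hi).trans Finset.subset_union_right
    have hQF : Q1 ⊆ F := Finset.union_subset hP
      (Finset.biUnion_subset.2 fun i hi => hR i (Finset.mem_insert_of_mem hi))
    have hdis : Disjoint Q1 (R a) := by
      rw [hQ1, Finset.disjoint_union_left, Finset.disjoint_biUnion_left]
      refine ⟨(hRP a (Finset.mem_insert_self _ _)).symm, fun i hi => ?_⟩
      exact hRR i (Finset.mem_insert_of_mem hi) a (Finset.mem_insert_self _ _)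
        (fun h => ha (h ▸ hi))
    have h1 : Perc.Pr t F (fun ω => P ⊆ ω ∧ ∀ i ∈ insert a Z, (ω ∩ R i).card ≤ k) =
        Perc.Pr t F (fun ω => (fun η : Finset (Ed d) => P ⊆ η ∧ ∀ i ∈ Z, (η ∩ R i).card ≤ k) (ω ∩ Q1) ∧
          (fun η : Finset (Ed d) => η.card ≤ k) (ω ∩ R a)) := by
      refine Perc.Pr_congr fun ω _ => ?_
      have h2 : ∀ i ∈ Z, ω ∩ Q1 ∩ R i = ω ∩ R i := fun i hi => by
        rw [Finset.inter_assoc, Finset.inter_eq_right.2 (hRQ i hi)]
      have h3 : P ⊆ ω ∩ Q1 ↔ P ⊆ ω := by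
        rw [Finset.subset_inter_iff]
        exact ⟨fun h => h.1, fun h => ⟨h, hPQ⟩⟩
      simp only [Finset.forall_mem_insert, h3]
      constructor
      · rintro ⟨h4, h5, h6⟩
        exact ⟨⟨h4, fun i hi => by rw [h2 i hi]; exact h6 i hi⟩, h5⟩
      · rintro ⟨⟨h4, h6⟩, h5⟩
        exact ⟨h4, h5, fun i hi => by rw [← h2 i hi]; exact h6 i hi⟩
    have h5 := Perc.Pr_and_of_disjoint t hQF (hR a (Finset.mem_insert_self _ _)) hdis
      (fun η : Finset (Ed d) => P ⊆ η ∧ ∀ i ∈ Z, (η ∩ R i).card ≤ k) (fun η : Finset (Ed d) => η.card ≤ k)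
    rw [h1]
    refine h5.trans ?_
    rw [Pr_card_le, Finset.prod_insert ha]
    have h4 : Perc.Pr t Q1 (fun η : Finset (Ed d) => P ⊆ η ∧ ∀ i ∈ Z, (η ∩ R i).card ≤ k) =
        Perc.Pr t F (fun η : Finset (Ed d) => P ⊆ η ∧ ∀ i ∈ Z, (η ∩ R i).card ≤ k) := by
      refine (Perc.Pr_restrict t hQF _ fun ω _ => ?_).symm
      have h3 : P ⊆ ω ∩ Q1 ↔ P ⊆ ω := by
        rw [Finset.subset_inter_iff]
        exact ⟨fun h => h.1, fun h => ⟨h, hPQ⟩⟩
      have h2 : ∀ i ∈ Z, ω ∩ Q1 ∩ R i = ω ∩ R i := fun i hi => by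
        rw [Finset.inter_assoc, Finset.inter_eq_right.2 (hRQ i hi)]
      rw [h3]
      constructor
      · rintro ⟨h5, h6⟩
        exact ⟨h5, fun i hi => by rw [h2 i hi]; exact h6 i hi⟩
      · rintro ⟨h5, h6⟩
        exact ⟨h5, fun i hi => by rw [← h2 i hi]; exact h6 i hi⟩
    rw [h4, ih (fun i hi => hR i (Finset.mem_insert_of_mem hi)) (fun i hi => hRP i (Finset.mem_insert_of_mem hi))
      (fun i hi j hj => hRR i (Finset.mem_insert_of_mem hi) j (Finset.mem_insert_of_mem hj))]
    ring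

private lemma pth_Iw {d n : ℕ} (k : ℕ) (w : Fin n → Fin d) {F ω : Finset (Ed d)} (hω : ω ⊆ F) :
    Iw k w ω ↔ PE w ⊆ ω ∧ ∀ i ≤ n, (ω ∩ pthR F w i).card ≤ k := by
  classical
  have h1 : ∀ i, (latt d).inc (ω \ PE w) (pv w i) = ω ∩ pthR F w i := by
    intro i
    ext e
    rw [pth_mem_inc, Finset.mem_sdiff, Finset.mem_inter, pth_mem_R]
    constructor
    · rintro ⟨⟨h2, h3⟩, h4⟩
      exact ⟨h2, ⟨hω h2, h3⟩, h4⟩
    · rintro ⟨h2, ⟨-, h3⟩, h4⟩
      exact ⟨⟨h2, h3⟩, h4⟩
  unfold Iw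
  simp only [h1]

private lemma pth_PE_sub {d n : ℕ} {F : Finset (Ed d)} {w : Fin n → Fin d}
    (hF : ∀ i ≤ n, ∀ e, (latt d).Inc (pv w i) e → e ∈ F) : PE w ⊆ F := by
  intro e he
  obtain ⟨j, rfl⟩ := pth_mem_PE.1 he
  exact hF j j.2.le _ (Or.inl rfl)

/-- one path -/
theorem Pr_Iw {d n : ℕ} (hd : 1 ≤ d) {t : ℝ} (ht0 : 0 ≤ t) (ht1 : t ≤ 1) (k : ℕ)
    (w : Fin n → Fin d) {F : Finset (Ed d)}
    (hF : ∀ i ≤ n, ∀ e, (latt d).Inc (pv w i) e → e ∈ F) :
    Perc.Pr t F (Iw k w) = cI d t k n := by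
  classical
  have h1 : Perc.Pr t F (Iw k w) = Perc.Pr t F (fun ω => PE w ⊆ ω ∧
      ∀ i ∈ Finset.range (n + 1), (ω ∩ pthR F w i).card ≤ k) := by
    refine Perc.Pr_congr fun ω hω => ?_
    rw [pth_Iw k w hω]
    simp only [Finset.mem_range, Nat.lt_succ_iff]
  have hsub : ∀ i ∈ Finset.range (n + 1), pthR F w i ⊆ F := fun i _ e he => (pth_mem_R.1 he).1.1
  have hdP : ∀ i ∈ Finset.range (n + 1), Disjoint (pthR F w i) (PE w) := fun i _ => by
    rw [Finset.disjoint_left]
    exact fun e he => (pth_mem_R.1 he).1.2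
  rw [h1, pth_Pr t k (pth_PE_sub hF) (pthR F w) (Finset.range (n + 1)) hsub hdP, pth_PE_card]
  · unfold cI
    congr 1
    refine Finset.prod_congr rfl fun i hi => ?_
    have hi' : i ≤ n := Nat.lt_succ_iff.1 (Finset.mem_range.1 hi)
    rw [pth_R_card F w hi' (hF i hi')]
    rfl
  · intro i hi j hj hij
    have hi' : i ≤ n := Nat.lt_succ_iff.1 (Finset.mem_range.1 hi)
    have hj' : j ≤ n := Nat.lt_succ_iff.1 (Finset.mem_range.1 hj)
    rcases lt_or_gt_of_ne hij with h | h
    · exact pth_R_disj F w hi' hj' h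
    · exact (pth_R_disj F w hj' hi' h).symm

/-- the level is determined by the vertex -/
private lemma pth_eq_lev {d n : ℕ} {w w' : Fin n → Fin d} {i j : ℕ} (hi : i ≤ n) (hj : j ≤ n)
    (h : pv w i = pv w' j) : i = j := by
  have h6 := congrArg pthLev h
  rw [pth_lev w hi, pth_lev w' hj] at h6
  exact_mod_cast h6

private lemma pth_near_zero {d : ℕ} (hd : 1 ≤ d) : Near (0 : Vx d) :=
  ⟨⟨0, hd⟩, ⟨0, hd⟩, (sub_self _).symm⟩

private lemma pth_near_symm {d : ℕ} {D : Vx d} (h : Near D) : Near (-D) := by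
  obtain ⟨a, b, rfl⟩ := h
  exact ⟨b, a, by abel⟩

/-- the other edges at a vertex of `w` do not belong to `w'` -/
private lemma pth_disj_PE {d n : ℕ} (hd : 1 ≤ d) (F : Finset (Ed d)) (w w' : Fin n → Fin d) {i : ℕ}
    (hi : i ≤ n) (hn : ¬ Near (pv w i - pv w' i)) : Disjoint (pthR F w i) (PE w') := by
  rw [Finset.disjoint_left]
  intro e h1 h2
  obtain ⟨j, rfl⟩ := pth_mem_PE.1 h2
  rcases (pth_mem_R.1 h1).2 with h | h
  · have h3 : pv w' j = pv w i := h
    have h4 := pth_eq_lev j.2.le hi h3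
    rw [h4] at h3
    apply hn
    rw [h3, sub_self]
    exact pth_near_zero hd
  · have h3 : pv w' j + Pi.single (w' j) 1 = pv w i := h
    rw [← pth_pv_succ] at h3
    have h4 := pth_eq_lev (by have := j.2; omega) hi h3
    rw [h4] at h3
    apply hn
    rw [h3, sub_self]
    exact pth_near_zero hd

/-- one level apart -/
private lemma pth_cross {d n : ℕ} (w w' : Fin n → Fin d) {i : ℕ} {e : Ed d} (hi : i + 1 ≤ n)
    (h1 : e.1 = pv w i) (h2 : e.1 + Pi.single e.2 1 = pv w' (i + 1)) : Near (pv w i - pv w' i) := by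
  have h3 := pth_pv_succ w' ⟨i, by omega⟩
  simp only at h3
  rw [h3, h1] at h2
  refine ⟨w' ⟨i, by omega⟩, e.2, ?_⟩
  rw [sub_eq_sub_iff_add_eq_add, h2, add_comm]

private lemma pth_disj_pair {d n : ℕ} (hd : 1 ≤ d) (F : Finset (Ed d)) (w w' : Fin n → Fin d) {i j : ℕ}
    (hi : i ≤ n) (hj : j ≤ n) (hni : ¬ Near (pv w i - pv w' i)) (hnj : ¬ Near (pv w j - pv w' j)) :
    Disjoint (pthR F w i) (pthR F w' j) := by
  rw [Finset.disjoint_left]
  intro e h1 h2
  have h3 := (pth_mem_R.1 h1).2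
  have h4 := (pth_mem_R.1 h2).2
  have hz : ∀ {a b : ℕ}, a ≤ n → b ≤ n → ¬ Near (pv w a - pv w' a) → pv w a ≠ pv w' b := by
    intro a b ha hb hna h
    have h5 := pth_eq_lev ha hb h
    rw [← h5] at h
    apply hna
    rw [h, sub_self]
    exact pth_near_zero hd
  rcases h3 with h3 | h3 <;> rcases h4 with h4 | h4
  · exact hz hi hj hni (h3.symm.trans h4)
  · have h3' : e.1 = pv w i := h3
    have h4' : e.1 + Pi.single e.2 1 = pv w' j := h4
    have h6 := congrArg pthLev h4'
    rw [pth_lev_add, pth_lev_single, h3', pth_lev w hi, pth_lev w' hj] at h6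
    have h7 : j = i + 1 := by omega
    subst h7
    exact hni (pth_cross w w' hj h3' h4')
  · have h3' : e.1 + Pi.single e.2 1 = pv w i := h3
    have h4' : e.1 = pv w' j := h4
    have h6 := congrArg pthLev h3'
    rw [pth_lev_add, pth_lev_single, h4', pth_lev w hi, pth_lev w' hj] at h6
    have h7 : i = j + 1 := by omega
    subst h7
    have h8 := pth_near_symm (pth_cross w' w hi h4' h3')
    rw [neg_sub] at h8
    exact hnj h8
  · exact hz hi hj hni (h3.symm.trans h4)

private lemma pth_union_card {d n : ℕ} {t : ℝ} (ht : 0 < t) (w w' : Fin n → Fin d) :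
    t ^ (PE w ∪ PE w').card = t ^ (2 * n) *
      ∏ i : Fin n, if 0 + pv w i - pv w' i = 0 ∧ w i = w' i then 1 / t else 1 := by
  classical
  have h1 : (PE w ∩ PE w') = (Finset.univ.filter fun i : Fin n =>
      0 + pv w i - pv w' i = 0 ∧ w i = w' i).image (pe w) := by
    ext e
    rw [Finset.mem_inter, Finset.mem_image, pth_mem_PE, pth_mem_PE]
    constructor
    · rintro ⟨⟨i, rfl⟩, j, hj⟩
      have h2 : pv w' j = pv w i := congrArg Prod.fst hj
      have h3 : w' j = w i := congrArg Prod.snd hj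
      have h4 : j = i := Fin.ext (pth_eq_lev j.2.le i.2.le h2)
      subst h4
      refine ⟨j, ?_, rfl⟩
      rw [Finset.mem_filter]
      exact ⟨Finset.mem_univ _, by rw [h2, zero_add, sub_self], h3.symm⟩
    · rintro ⟨i, hi, rfl⟩
      obtain ⟨-, h2, h3⟩ := Finset.mem_filter.1 hi
      rw [zero_add, sub_eq_zero] at h2
      refine ⟨⟨i, rfl⟩, i, ?_⟩
      unfold pe
      rw [h2, h3]
  have h2 := Finset.card_union_add_card_inter (PE w) (PE w')
  rw [h1, Finset.card_image_of_injective _ (pth_pe_inj w), pth_PE_card, pth_PE_card] at h2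
  rw [Finset.prod_ite, Finset.prod_const, Finset.prod_const_one, mul_one]
  set m := (Finset.univ.filter fun i : Fin n => 0 + pv w i - pv w' i = 0 ∧ w i = w' i).card with hm
  have h3 : 2 * n = (PE w ∪ PE w').card + m := by omega
  rw [h3, pow_add, mul_assoc, ← mul_pow, mul_one_div_cancel ht.ne', one_pow, mul_one]

/-- two paths -/
theorem Pr_Iw_pair {d n : ℕ} (hd : 1 ≤ d) {t : ℝ} (ht0 : 0 < t) (ht1 : t ≤ 1) (k : ℕ) {b : ℝ}
    (hb0 : 0 < b) (hb : ∀ m ≤ 2 * d, b ≤ bin t m k)
    (w w' : Fin n → Fin d) {F : Finset (Ed d)}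
    (hF : ∀ i ≤ n, ∀ e, (latt d).Inc (pv w i) e → e ∈ F)
    (hF' : ∀ i ≤ n, ∀ e, (latt d).Inc (pv w' i) e → e ∈ F) :
    Perc.Pr t F (fun B => Iw k w B ∧ Iw k w' B) ≤ cI d t k n ^ 2 * Wt (1 / b ^ 2) t 0 w w' := by
  classical
  set Z : Finset (ℕ × Bool) := ((Finset.range (n + 1)).filter fun i => ¬ Near (pv w i - pv w' i)) ×ˢ
    (Finset.univ : Finset Bool) with hZ
  set R : ℕ × Bool → Finset (Ed d) := fun x => if x.2 then pthR F w x.1 else pthR F w' x.1 with hR
  have hmem : ∀ x ∈ Z, x.1 ≤ n ∧ ¬ Near (pv w x.1 - pv w' x.1) := by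
    intro x hx
    obtain ⟨h1, -⟩ := Finset.mem_product.1 hx
    obtain ⟨h2, h3⟩ := Finset.mem_filter.1 h1
    exact ⟨Nat.lt_succ_iff.1 (Finset.mem_range.1 h2), h3⟩
  have hsym : ∀ i, ¬ Near (pv w i - pv w' i) → ¬ Near (pv w' i - pv w i) := fun i h1 h2 => by
    have h3 := pth_near_symm h2
    rw [neg_sub] at h3
    exact h1 h3
  have h1 : Perc.Pr t F (fun B => Iw k w B ∧ Iw k w' B) ≤
      Perc.Pr t F (fun ω => PE w ∪ PE w' ⊆ ω ∧ ∀ x ∈ Z, (ω ∩ R x).card ≤ k) := by
    refine Perc.Pr_mono ht0.le ht1 fun ω hω h => ?_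
    rw [pth_Iw k w hω, pth_Iw k w' hω] at h
    refine ⟨Finset.union_subset h.1.1 h.2.1, fun x hx => ?_⟩
    have hx' := (hmem x hx).1
    obtain ⟨i, b'⟩ := x
    cases b'
    · exact h.2.2 i hx'
    · exact h.1.2 i hx'
  have h2 := pth_Pr t k (Finset.union_subset (pth_PE_sub hF) (pth_PE_sub hF')) R Z ?_ ?_ ?_
  rotate_left
  · rintro ⟨i, b'⟩ _ e he
    cases b'
    · exact (pth_mem_R.1 he).1.1
    · exact (pth_mem_R.1 he).1.1
  · rintro ⟨i, b'⟩ hx
    obtain ⟨h3, h4⟩ := hmem _ hx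
    rw [Finset.disjoint_union_right]
    cases b'
    · refine ⟨pth_disj_PE hd F w' w h3 (hsym i h4), ?_⟩
      rw [Finset.disjoint_left]
      exact fun e he => (pth_mem_R.1 he).1.2
    · refine ⟨?_, pth_disj_PE hd F w w' h3 h4⟩
      rw [Finset.disjoint_left]
      exact fun e he => (pth_mem_R.1 he).1.2
  · rintro ⟨i, b1⟩ hx ⟨j, b2⟩ hy hne
    obtain ⟨h3, h4⟩ := hmem _ hx
    obtain ⟨h5, h6⟩ := hmem _ hy
    have hself : ∀ v : Fin n → Fin d, i ≠ j → Disjoint (pthR F v i) (pthR F v j) := fun v hij => by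
      rcases lt_or_gt_of_ne hij with h | h
      · exact pth_R_disj F v h3 h5 h
      · exact (pth_R_disj F v h5 h3 h).symm
    cases b1 <;> cases b2
    · exact hself w' fun h => hne (by rw [h])
    · exact (pth_disj_pair hd F w w' h5 h3 h6 h4).symm
    · exact pth_disj_pair hd F w w' h3 h5 h4 h6
    · exact hself w fun h => hne (by rw [h])
  refine h1.trans ?_
  rw [h2, pth_union_card ht0]
  set β : ℕ → ℝ := fun i => bin t (pthM d n i) k with hβ
  have hβb : ∀ i, b ≤ β i := fun i => hb _ (by unfold pthM; split_ifs <;> omega)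
  have hprod : ∏ x ∈ Z, bin t (R x).card k =
      ∏ i ∈ (Finset.range (n + 1)).filter (fun i => ¬ Near (pv w i - pv w' i)), β i ^ 2 := by
    rw [hZ, Finset.prod_product]
    refine Finset.prod_congr rfl fun i hi => ?_
    obtain ⟨h3, -⟩ := Finset.mem_filter.1 hi
    have h4 : i ≤ n := Nat.lt_succ_iff.1 (Finset.mem_range.1 h3)
    rw [Fintype.prod_bool]
    show bin t (pthR F w i).card k * bin t (pthR F w' i).card k = β i ^ 2
    rw [pth_R_card F w h4 (hF i h4), pth_R_card F w' h4 (hF' i h4), sq]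
  have hmain : ∏ i ∈ (Finset.range (n + 1)).filter (fun i => ¬ Near (pv w i - pv w' i)), β i ^ 2 ≤
      (∏ i ∈ Finset.range (n + 1), β i) ^ 2 *
        ∏ i ∈ Finset.range (n + 1), if Near (0 + pv w i - pv w' i) then 1 / b ^ 2 else 1 := by
    rw [← Finset.prod_pow, ← Finset.prod_mul_distrib, Finset.prod_filter]
    refine Finset.prod_le_prod (fun i _ => ?_) fun i _ => ?_
    · show (0 : ℝ) ≤ if ¬ Near (pv w i - pv w' i) then β i ^ 2 else 1
      split_ifs <;> positivity
    · rw [zero_add]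
      by_cases h : Near (pv w i - pv w' i)
      · rw [if_neg (not_not.2 h), if_pos h, mul_one_div, le_div_iff₀ (by positivity), one_mul]
        have := hβb i
        gcongr
      · rw [if_pos h, if_neg h, mul_one]
  have hpos : 0 ≤ t ^ (2 * n) *
      ∏ i : Fin n, (if 0 + pv w i - pv w' i = 0 ∧ w i = w' i then 1 / t else 1) := by
    refine mul_nonneg (by positivity) (Finset.prod_nonneg fun i _ => ?_)
    split_ifs
    · positivity
    · exact zero_le_one
  rw [hprod]
  refine (mul_le_mul_of_nonneg_left hmain hpos).trans (le_of_eq ?_)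
  have hc : cI d t k n = t ^ n * ∏ i ∈ Finset.range (n + 1), β i := rfl
  rw [hc]
  unfold Wt
  ring

end Pool.Agent.CDP
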