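import Mathlib
import Pool.Agent.H96Perc.Green

/-! CDP, module GRN: Green function bounds for the difference walk in dimension `a ≥ 10`,
from `Pool/Agent/H96Perc/Green.lean` (namespace `Pool.Agent.H96Perc`; model: `sum_Pr_le` there).

PROOF.  (T) For all `v`: `∑ n ∈ Ico 2 N, Pr n v ≤ 6 / a ^ 2`.  For `2 ≤ n < a`: `Pr_le_small`:
`Pr n v ≤ n! / a ^ n`; `a ^ 2 * n! / a ^ n` is `2`, `6 / a ≤ 0.6`, `24 / a ^ 2 ≤ 0.24` for
`n = 2, 3, 4`, and for `5 ≤ n ≤ a - 1` it is at most `120 / a ^ 3` (each step multiplies by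
`(n + 1) / a ≤ 1`), altogether at most `(a - 5) * 120 / a ^ 3 ≤ 0.6`.  For `n ≥ a`: `Pr_le_large`,
`sum_inv_sq_le`: the sum is at most `Rk a 1 * 4 a ^ 2 / (a - 1)`, `Rk a 1 = a! / a ^ a`, and
`h(a) = 4 a ^ 4 * a! / ((a - 1) * a ^ a)` is at most `1.7` for `a = 10` and non-increasing:
`h(a+1) / h(a) = ((a - 1) / a) * (a / (a + 1)) ^ (a - 4) ≤ 1`.  Total
`2 + 0.6 + 0.24 + 0.6 + 1.7 ≤ 6`.
(0) `Pr 0 v = [v = 0]`; `Pr 1 0 = 1 / a` (`Pr_succ`: the pairs `i = j`; or just `Pr_le_small` with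
`n = 1`: `Pr 1 v ≤ 1 / a`), and for `v ≠ 0`: `Pr 1 v ≤ 1 / a ^ 2` (at most one pair `(i, j)` with
`v + e_i - e_j = 0`). -/

namespace Pool.Agent.CDP

open Pool.Agent.H96Perc

private lemma grn_fact (b : ℕ) :
    40 * (b + 10).factorial ≤ 17 * ((b + 9) * (b + 10) ^ (b + 6)) := by
  induction b with
  | zero => norm_num [Nat.factorial]
  | succ b ih =>
    have h1 : (b + 1 + 10).factorial = (b + 11) * (b + 10).factorial := by
      rw [show b + 1 + 10 = (b + 10) + 1 by ring, Nat.factorial_succ]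
    have h2 : (b + 10) ^ (b + 6) ≤ (b + 11) ^ (b + 6) := Nat.pow_le_pow_left (by omega) _
    rw [h1]
    calc 40 * ((b + 11) * (b + 10).factorial) = (b + 11) * (40 * (b + 10).factorial) := by ring
      _ ≤ (b + 11) * (17 * ((b + 9) * (b + 10) ^ (b + 6))) := Nat.mul_le_mul_left _ ih
      _ ≤ (b + 11) * (17 * ((b + 10) * (b + 11) ^ (b + 6))) := by
          gcongr
          omega
      _ = 17 * ((b + 1 + 9) * (b + 1 + 10) ^ (b + 1 + 6)) := by
          rw [show b + 1 + 9 = b + 10 by ring, show b + 1 + 10 = b + 11 by ring,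
            show b + 1 + 6 = (b + 6) + 1 by ring, pow_succ]
          ring

private lemma grn_Rk {a : ℕ} (ha : 10 ≤ a) :
    Rk a 1 * (4 * (a : ℝ) ^ 2) * (1 / ((a : ℝ) - 1)) ≤ 17 / 10 / (a : ℝ) ^ 2 := by
  obtain ⟨b, rfl⟩ : ∃ b, a = b + 10 := ⟨a - 10, by omega⟩
  have h := grn_fact b
  have h' : (40 : ℝ) * ((b + 10).factorial : ℝ) ≤
      17 * (((b : ℝ) + 9) * ((b : ℝ) + 10) ^ (b + 6)) := by exact_mod_cast h
  have e1 : ((b + 10 : ℕ) : ℝ) - 1 = (b : ℝ) + 9 := by push_cast; ring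
  have e2 : Rk (b + 10) 1 =
      ((b + 10).factorial : ℝ) / (((b : ℝ) + 10) ^ (b + 6) * ((b : ℝ) + 10) ^ 4) := by
    unfold Rk
    rw [one_mul, Nat.factorial_one]
    push_cast
    rw [one_pow, mul_one, ← pow_add, show b + 6 + 4 = b + 10 by ring]
  rw [e1, e2]
  push_cast
  have hp : (0 : ℝ) < ((b : ℝ) + 10) ^ (b + 6) := by positivity
  have hb : (0 : ℝ) < (b : ℝ) + 9 := by positivity
  have hc : (0 : ℝ) < (b : ℝ) + 10 := by positivity
  have key : ((b + 10).factorial : ℝ) / (((b : ℝ) + 10) ^ (b + 6) * ((b : ℝ) + 10) ^ 4) *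
      (4 * ((b : ℝ) + 10) ^ 2) * (1 / ((b : ℝ) + 9)) =
      (40 * ((b + 10).factorial : ℝ)) / (10 * (((b : ℝ) + 9) * ((b : ℝ) + 10) ^ (b + 6)) *
        ((b : ℝ) + 10) ^ 2) := by
    field_simp
    ring
  rw [key, div_div, div_le_div_iff₀ (by positivity) (by positivity)]
  have := mul_le_mul_of_nonneg_right h' (show (0 : ℝ) ≤ 10 * ((b : ℝ) + 10) ^ 2 by positivity)
  nlinarith [this]

private lemma grn_mid {a : ℕ} (ha : 10 ≤ a) {n : ℕ} (h5 : 5 ≤ n) (hn : n ≤ a) :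
    ((n.factorial : ℕ) : ℝ) / (a : ℝ) ^ n ≤ 120 / (a : ℝ) ^ 5 := by
  have ha' : (0 : ℝ) < (a : ℝ) := by exact_mod_cast (by omega : 0 < a)
  induction n, h5 using Nat.le_induction with
  | base =>
    apply le_of_eq
    norm_num [Nat.factorial]
  | succ n h5 ih =>
    have h := ih (by omega)
    have h1 : (((n + 1).factorial : ℕ) : ℝ) / (a : ℝ) ^ (n + 1) =
        ((n.factorial : ℕ) : ℝ) / (a : ℝ) ^ n * (((n + 1 : ℕ) : ℝ) / a) := by
      rw [Nat.factorial_succ, pow_succ]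
      push_cast
      field_simp
    rw [h1]
    have h2 : ((n + 1 : ℕ) : ℝ) / a ≤ 1 := by
      rw [div_le_one ha']
      exact_mod_cast hn
    calc _ ≤ ((n.factorial : ℕ) : ℝ) / (a : ℝ) ^ n * 1 :=
          mul_le_mul_of_nonneg_left h2 (by positivity)
      _ ≤ _ := by rw [mul_one]; exact h

private lemma grn_small {a : ℕ} (ha : 10 ≤ a) :
    ∑ n ∈ Finset.Ico 2 a, ((n.factorial : ℕ) : ℝ) / (a : ℝ) ^ n ≤ 344 / 100 / (a : ℝ) ^ 2 := by
  have ha' : (10 : ℝ) ≤ (a : ℝ) := by exact_mod_cast ha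
  have hpos : (0 : ℝ) < (a : ℝ) := by linarith
  have hsplit : ∑ n ∈ Finset.Ico 2 a, ((n.factorial : ℕ) : ℝ) / (a : ℝ) ^ n =
      ∑ n ∈ Finset.Ico 2 5, ((n.factorial : ℕ) : ℝ) / (a : ℝ) ^ n +
      ∑ n ∈ Finset.Ico 5 a, ((n.factorial : ℕ) : ℝ) / (a : ℝ) ^ n := by
    rw [Finset.sum_Ico_consecutive _ (by norm_num) (by omega)]
  have h1 : ∑ n ∈ Finset.Ico 5 a, ((n.factorial : ℕ) : ℝ) / (a : ℝ) ^ n ≤
      ((a : ℝ) - 5) * (120 / (a : ℝ) ^ 5) := by
    calc _ ≤ ∑ _n ∈ Finset.Ico 5 a, 120 / (a : ℝ) ^ 5 := by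
          refine Finset.sum_le_sum fun n hn => ?_
          rw [Finset.mem_Ico] at hn
          exact grn_mid ha hn.1 hn.2.le
      _ = ((a : ℝ) - 5) * (120 / (a : ℝ) ^ 5) := by
          rw [Finset.sum_const, Nat.card_Ico, nsmul_eq_mul, Nat.cast_sub (by omega)]
          norm_num
  have h2 : ∑ n ∈ Finset.Ico 2 5, ((n.factorial : ℕ) : ℝ) / (a : ℝ) ^ n =
      2 / (a : ℝ) ^ 2 + 6 / (a : ℝ) ^ 3 + 24 / (a : ℝ) ^ 4 := by
    rw [Finset.sum_Ico_eq_sum_range]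
    norm_num [Finset.sum_range_succ, Nat.factorial]
  rw [hsplit, h2]
  have e3 : 6 / (a : ℝ) ^ 3 ≤ 6 / 10 / (a : ℝ) ^ 2 := by
    rw [div_div, div_le_div_iff₀ (by positivity) (by positivity)]
    nlinarith [pow_pos hpos 2, mul_le_mul_of_nonneg_left ha' (pow_pos hpos 2).le]
  have e4 : 24 / (a : ℝ) ^ 4 ≤ 24 / 100 / (a : ℝ) ^ 2 := by
    rw [div_div, div_le_div_iff₀ (by positivity) (by positivity)]
    have : (100 : ℝ) ≤ (a : ℝ) ^ 2 := by nlinarith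
    nlinarith [pow_pos hpos 2, mul_le_mul_of_nonneg_left this (pow_pos hpos 2).le]
  have e5 : ((a : ℝ) - 5) * (120 / (a : ℝ) ^ 5) ≤ 6 / 10 / (a : ℝ) ^ 2 := by
    rw [mul_div_assoc', div_div, div_le_div_iff₀ (by positivity) (by positivity)]
    have h3 : 200 * ((a : ℝ) - 5) ≤ (a : ℝ) ^ 3 := by
      have : 0 ≤ ((a : ℝ) - 10) * ((a : ℝ) ^ 2 + 10 * (a : ℝ) - 100) :=
        mul_nonneg (by linarith) (by nlinarith)
      nlinarith [this]
    have h4 := mul_le_mul_of_nonneg_left h3 (pow_pos hpos 2).le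
    nlinarith [h4]
  have : 344 / 100 / (a : ℝ) ^ 2 = 2 / (a : ℝ) ^ 2 + 6 / 10 / (a : ℝ) ^ 2 +
      24 / 100 / (a : ℝ) ^ 2 + 6 / 10 / (a : ℝ) ^ 2 := by
    field_simp
    norm_num
  linarith

private lemma grn_T {a : ℕ} (ha : 10 ≤ a) (N : ℕ) (v : Fin a → ℤ) :
    ∑ n ∈ Finset.Ico 2 N, Pr n v ≤ 6 / (a : ℝ) ^ 2 := by
  have ha' : (10 : ℝ) ≤ (a : ℝ) := by exact_mod_cast ha
  have hpos : (0 : ℝ) < (a : ℝ) := by linarith
  have hsplit : ∑ n ∈ Finset.Ico 2 N, Pr n v ≤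
      ∑ n ∈ Finset.Ico 2 a, Pr n v + ∑ n ∈ Finset.Ico a N, Pr n v := by
    rw [← Finset.sum_union]
    · refine Finset.sum_le_sum_of_subset_of_nonneg ?_ (fun n _ _ => Pr_nonneg n v)
      intro n hn
      simp only [Finset.mem_union, Finset.mem_Ico] at hn ⊢
      omega
    · rw [Finset.disjoint_left]
      intro n hn
      simp only [Finset.mem_Ico] at hn ⊢
      omega
  have h1 : ∑ n ∈ Finset.Ico 2 a, Pr n v ≤
      ∑ n ∈ Finset.Ico 2 a, ((n.factorial : ℕ) : ℝ) / (a : ℝ) ^ n :=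
    Finset.sum_le_sum fun n _ => Pr_le_small (by omega) n v
  have h2 : ∑ n ∈ Finset.Ico a N, Pr n v ≤
      (Rk a 1 * (4 * (a : ℝ) ^ 2)) * ∑ n ∈ Finset.Ico a N, (1 : ℝ) / (n : ℝ) ^ 2 := by
    rw [Finset.mul_sum]
    refine Finset.sum_le_sum fun n hn => ?_
    rw [Finset.mem_Ico] at hn
    refine (Pr_le_large (by omega) hn.1 v).trans (le_of_eq ?_)
    ring
  have h3 := sum_inv_sq_le a N (by omega)
  have h6 : 0 ≤ Rk a 1 * (4 * (a : ℝ) ^ 2) := mul_nonneg (Rk_nonneg _ _) (by positivity)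
  have h7 := mul_le_mul_of_nonneg_left h3 h6
  have h8 := grn_Rk ha
  have h9 := grn_small ha
  have : 6 / (a : ℝ) ^ 2 = 344 / 100 / (a : ℝ) ^ 2 + 17 / 10 / (a : ℝ) ^ 2 +
      86 / 100 / (a : ℝ) ^ 2 := by
    field_simp
    norm_num
  have h10 : 0 ≤ 86 / 100 / (a : ℝ) ^ 2 := by positivity
  linarith

private lemma grn_G {a : ℕ} (ha : 10 ≤ a) (N : ℕ) (v : Fin a → ℤ) :
    G N v ≤ Pr 0 v + Pr 1 v + 6 / (a : ℝ) ^ 2 := by
  have h1 : G N v ≤ ∑ n ∈ Finset.range (N + 2), Pr n v := by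
    unfold G
    exact Finset.sum_le_sum_of_subset_of_nonneg
      (Finset.range_subset_range.mpr (by omega)) (fun n _ _ => Pr_nonneg n v)
  have h2 : ∑ n ∈ Finset.range (N + 2), Pr n v =
      ∑ n ∈ Finset.range 2, Pr n v + ∑ n ∈ Finset.Ico 2 (N + 2), Pr n v :=
    (Finset.sum_range_add_sum_Ico _ (by omega)).symm
  have h3 : ∑ n ∈ Finset.range 2, Pr n v = Pr 0 v + Pr 1 v := by
    rw [Finset.sum_range_succ, Finset.sum_range_one]
  have := grn_T ha (N + 2) v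
  linarith

theorem green_zero {a : ℕ} (ha : 10 ≤ a) (N : ℕ) :
    G N (0 : Fin a → ℤ) ≤ 1 + 1 / a + 6 / (a : ℝ) ^ 2 := by
  have h := grn_G ha N 0
  have h0 : Pr 0 (0 : Fin a → ℤ) = 1 := by rw [Pr_zero, if_pos rfl]
  have h1 := Pr_le_small (show 0 < a by omega) 1 (0 : Fin a → ℤ)
  rw [Nat.factorial_one, Nat.cast_one, pow_one] at h1
  linarith

private lemma grn_pair {a : ℕ} {v : Fin a → ℤ} (hv : v ≠ 0) {i j i' j' : Fin a}
    (h : v + Pi.single i 1 - Pi.single j 1 = 0) (h' : v + Pi.single i' 1 - Pi.single j' 1 = 0) :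
    (i, j) = (i', j') := by
  have hij : i ≠ j := by
    rintro rfl
    exact hv (by simpa using h)
  have hij' : i' ≠ j' := by
    rintro rfl
    exact hv (by simpa using h')
  have e1 := congrFun h i
  have e2 := congrFun h j
  have e3 := congrFun h' i
  have e4 := congrFun h' j
  simp only [Pi.add_apply, Pi.sub_apply, Pi.zero_apply, Pi.single_apply] at e1 e2 e3 e4
  have hi : i = i' := by
    by_contra hne
    rw [if_pos trivial, if_neg hij] at e1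
    rw [if_neg hne] at e3
    split_ifs at e3 <;> omega
  have hj : j = j' := by
    by_contra hne
    rw [if_pos trivial, if_neg hij.symm] at e2
    rw [if_neg hne] at e4
    split_ifs at e4 <;> omega
  rw [hi, hj]

private lemma grn_one {a : ℕ} (ha : 0 < a) {v : Fin a → ℤ} (hv : v ≠ 0) :
    Pr 1 v ≤ 1 / (a : ℝ) ^ 2 := by
  have ha' : (0 : ℝ) < (a : ℝ) := by exact_mod_cast ha
  have h := Pr_succ 0 v
  rw [zero_add] at h
  rw [h, ← Finset.sum_product', div_div, ← pow_two]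
  have h2 : ∑ x ∈ (Finset.univ : Finset (Fin a)) ×ˢ (Finset.univ : Finset (Fin a)),
      Pr 0 (v + Pi.single x.1 1 - Pi.single x.2 1) ≤ 1 := by
    simp only [Pr_zero]
    rw [← Finset.sum_filter, Finset.sum_const, nsmul_eq_mul, mul_one]
    have : (Finset.filter (fun x : Fin a × Fin a => v + Pi.single x.1 1 - Pi.single x.2 1 = 0)
        ((Finset.univ : Finset (Fin a)) ×ˢ (Finset.univ : Finset (Fin a)))).card ≤ 1 := by
      rw [Finset.card_le_one]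
      rintro ⟨i, j⟩ hx ⟨i', j'⟩ hy
      rw [Finset.mem_filter] at hx hy
      exact grn_pair hv hx.2 hy.2
    exact_mod_cast this
  exact div_le_div_of_nonneg_right h2 (by positivity)

theorem green_ne {a : ℕ} (ha : 10 ≤ a) (N : ℕ) {v : Fin a → ℤ} (hv : v ≠ 0) :
    G N v ≤ 7 / (a : ℝ) ^ 2 := by
  have h := grn_G ha N v
  have h0 : Pr 0 v = 0 := by rw [Pr_zero, if_neg hv]
  have h1 := grn_one (show 0 < a by omega) hv
  have : 7 / (a : ℝ) ^ 2 = 1 / (a : ℝ) ^ 2 + 6 / (a : ℝ) ^ 2 := by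
    rw [← add_div]
    norm_num
  linarith

end Pool.Agent.CDP
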