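import Mathlib
import Pool.Agent.CDP.PTD
import Pool.Agent.CDP.GRN

/-! CDP, module RECM: the average pair weight is bounded. -/

namespace Pool.Agent.CDP

open Pool.Agent.H96Perc

theorem Mr_nonneg {d : ℕ} {s t : ℝ} (hs : 1 ≤ s) (ht : 0 < t) (n : ℕ) (D : Vx d) :
    0 ≤ Mr s t n D := by
  induction n generalizing D with
  | zero =>
    simp only [Mr]
    split_ifs <;> linarith
  | succ n ih =>
    simp only [Mr]
    apply mul_nonneg
    · split_ifs <;> linarith
    · apply div_nonneg _ (Nat.cast_nonneg d)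
      apply div_nonneg _ (Nat.cast_nonneg d)
      refine Finset.sum_nonneg fun i _ => Finset.sum_nonneg fun j _ => ?_
      apply mul_nonneg _ (ih _)
      split_ifs
      · positivity
      · norm_num

/-- The averaging operator. -/
noncomputable def TT {d : ℕ} (f : Vx d → ℝ) (D : Vx d) : ℝ :=
  (∑ i : Fin d, ∑ j : Fin d, f (D + Pi.single i 1 - Pi.single j 1)) / d / d

theorem TT_mono {d : ℕ} {f g : Vx d → ℝ} (h : ∀ D, f D ≤ g D) (D : Vx d) : TT f D ≤ TT g D := by
  unfold TT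
  gcongr
  exact h _

theorem TT_const {d : ℕ} (hd : 0 < d) (c : ℝ) (D : Vx d) : TT (fun _ : Vx d => c) D = c := by
  unfold TT
  have : (d : ℝ) ≠ 0 := by positivity
  simp
  field_simp

theorem TT_Pr {d : ℕ} (k : ℕ) (D : Vx d) : TT (fun D => Pr k D) D = Pr (k + 1) D := by
  unfold TT
  rw [Pr_succ]

theorem TT_add {d : ℕ} (f g : Vx d → ℝ) (D : Vx d) :
    TT (fun D => f D + g D) D = TT f D + TT g D := by
  unfold TT
  simp only [Finset.sum_add_distrib]
  ring

theorem TT_smul {d : ℕ} (c : ℝ) (f : Vx d → ℝ) (D : Vx d) :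
    TT (fun D => c * f D) D = c * TT f D := by
  unfold TT
  simp only [← Finset.mul_sum]
  ring

theorem TT_sum {d : ℕ} (n : ℕ) (f : ℕ → Vx d → ℝ) (D : Vx d) :
    TT (fun D => ∑ k ∈ Finset.range n, f k D) D = ∑ k ∈ Finset.range n, TT (f k) D := by
  induction n with
  | zero => simp [TT]
  | succ n ih =>
    simp only [Finset.sum_range_succ]
    rw [TT_add, ih]

/-- The majorant of the recursion. -/
noncomputable def vk {d : ℕ} (s : ℝ) (k : ℕ) (D : Vx d) : ℝ :=
  ((s - 1) * (1 - d) + s * (10 / 11 - 1 / d)) * Pr k D + ((s - 1) * (d : ℝ) ^ 2) * Pr (k + 1) D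

theorem TT_vk {d : ℕ} (s : ℝ) (k : ℕ) (D : Vx d) : TT (vk s k) D = vk s (k + 1) D := by
  have h : (vk s k : Vx d → ℝ) = fun D =>
      ((s - 1) * (1 - d) + s * (10 / 11 - 1 / d)) * Pr k D +
        ((s - 1) * (d : ℝ) ^ 2) * Pr (k + 1) D := rfl
  rw [h, TT_add, TT_smul, TT_smul, TT_Pr, TT_Pr]
  rfl

theorem near_zero {d : ℕ} (hd : 0 < d) : Near (0 : Vx d) := ⟨⟨0, hd⟩, ⟨0, hd⟩, by simp⟩

theorem Pr_one_zero {d : ℕ} (hd : 0 < d) : 1 / (d : ℝ) ≤ Pr 1 (0 : Fin d → ℤ) := by
  have hd' : (d : ℝ) ≠ 0 := by positivity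
  rw [Pr_succ]
  have h : (d : ℝ) ≤ ∑ i : Fin d, ∑ j : Fin d,
      Pr 0 ((0 : Fin d → ℤ) + Pi.single i 1 - Pi.single j 1) := by
    calc (d : ℝ) = ∑ _i : Fin d, (1 : ℝ) := by simp
      _ ≤ _ := by
        refine Finset.sum_le_sum fun i _ => ?_
        have h1 : Pr 0 ((0 : Fin d → ℤ) + Pi.single i 1 - Pi.single i 1) = 1 := by
          simp [Pr_zero]
        rw [← h1]
        exact Finset.single_le_sum (f := fun j =>
          Pr 0 ((0 : Fin d → ℤ) + Pi.single i 1 - Pi.single j 1))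
          (fun j _ => Pr_nonneg 0 _) (Finset.mem_univ i)
  rw [div_div, le_div_iff₀ (by positivity)]
  calc 1 / (d : ℝ) * (d * d) = d := by field_simp
    _ ≤ _ := h

theorem Pr_one_near {d : ℕ} (hd : 0 < d) {D : Vx d} (hD : Near D) :
    1 / (d : ℝ) ^ 2 ≤ Pr 1 D := by
  have hd' : (d : ℝ) ≠ 0 := by positivity
  obtain ⟨a, b, rfl⟩ := hD
  rw [Pr_succ]
  have h : (1 : ℝ) ≤ ∑ i : Fin d, ∑ j : Fin d,
      Pr 0 ((Pi.single a 1 - Pi.single b 1 : Fin d → ℤ) + Pi.single i 1 - Pi.single j 1) := by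
    have h1 : Pr 0 ((Pi.single a 1 - Pi.single b 1 : Fin d → ℤ) + Pi.single b 1 -
        Pi.single a 1) = 1 := by
      simp [Pr_zero]
    rw [← h1]
    refine le_trans ?_ (Finset.single_le_sum (f := fun i => ∑ j : Fin d,
      Pr 0 ((Pi.single a 1 - Pi.single b 1 : Fin d → ℤ) + Pi.single i 1 - Pi.single j 1))
      (fun i _ => Finset.sum_nonneg fun j _ => Pr_nonneg 0 _) (Finset.mem_univ b))
    exact Finset.single_le_sum (f := fun j =>
      Pr 0 ((Pi.single a 1 - Pi.single b 1 : Fin d → ℤ) + Pi.single b 1 - Pi.single j 1))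
      (fun j _ => Pr_nonneg 0 _) (Finset.mem_univ a)
  rw [div_div, le_div_iff₀ (by positivity)]
  calc 1 / (d : ℝ) ^ 2 * (d * d) = 1 := by field_simp
    _ ≤ _ := h

theorem sum_vk_le {d : ℕ} (hd : 10 ≤ d) {s : ℝ} (hs : 1 ≤ s) (hs' : s ≤ 1001 / 1000)
    (n : ℕ) (D : Vx d) : ∑ k ∈ Finset.range n, vk s k D ≤ 947 / 1000 := by
  have hdR : (10 : ℝ) ≤ d := by exact_mod_cast hd
  have hd0 : (0 : ℝ) < d := by linarith
  have hG : ∀ m, (0 : ℝ) ≤ G m D := fun m => Finset.sum_nonneg fun k _ => Pr_nonneg k D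
  have e1 : ∑ k ∈ Finset.range n, Pr k D = G n D := rfl
  have e2 : ∑ k ∈ Finset.range n, Pr (k + 1) D = G (n + 1) D - Pr 0 D := by
    unfold G
    rw [Finset.sum_range_succ']
    ring
  have e3 : ∑ k ∈ Finset.range n, vk s k D =
      ((s - 1) * (1 - d) + s * (10 / 11 - 1 / d)) * G n D +
        ((s - 1) * (d : ℝ) ^ 2) * (G (n + 1) D - Pr 0 D) := by
    unfold vk
    rw [Finset.sum_add_distrib, ← Finset.mul_sum, ← Finset.mul_sum, e1, e2]
  rcases Nat.eq_zero_or_pos n with h0 | h0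
  · subst h0; norm_num
  rw [e3]
  set x : ℝ := 1 / d with hx
  have hx0 : 0 < x := by positivity
  have hx1 : x ≤ 1 / 10 := by
    rw [hx, div_le_div_iff₀ hd0 (by norm_num)]
    linarith
  have hxd : (d : ℝ) * x = 1 := by rw [hx]; field_simp
  have hdx2 : (d : ℝ) ^ 2 * x ^ 2 = 1 := by rw [← mul_pow, hxd]; norm_num
  have hcx : 0 ≤ s * (10 / 11 - x) := by
    apply mul_nonneg (by linarith)
    linarith
  by_cases hD : D = 0
  · subst hD
    have g1 : (1 : ℝ) ≤ G n (0 : Fin d → ℤ) := by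
      have : Pr 0 (0 : Fin d → ℤ) ≤ G n (0 : Fin d → ℤ) := by
        unfold G
        exact Finset.single_le_sum (f := fun k => Pr k (0 : Fin d → ℤ))
          (fun k _ => Pr_nonneg k _) (Finset.mem_range.mpr h0)
      simpa [Pr_zero] using this
    have g2 := green_zero hd n
    have g3 := green_zero hd (n + 1)
    have p0 : Pr 0 (0 : Fin d → ℤ) = 1 := by simp [Pr_zero]
    rw [p0]
    have hx6 : 6 / (d : ℝ) ^ 2 = 6 * x ^ 2 := by rw [hx]; field_simp
    rw [← hx, hx6] at g2 g3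
    have t1 : (s - 1) * (1 - d) * G n (0 : Fin d → ℤ) ≤ (s - 1) * (1 - d) := by
      have : (s - 1) * (1 - (d : ℝ)) ≤ 0 :=
        mul_nonpos_of_nonneg_of_nonpos (by linarith) (by linarith)
      nlinarith
    have t2 : ((s - 1) * (d : ℝ) ^ 2) * (G (n + 1) (0 : Fin d → ℤ) - 1) ≤ (s - 1) * (d + 6) := by
      have h1 : ((s - 1) * (d : ℝ) ^ 2) * (G (n + 1) (0 : Fin d → ℤ) - 1) ≤
          ((s - 1) * (d : ℝ) ^ 2) * (x + 6 * x ^ 2) := by
        apply mul_le_mul_of_nonneg_left (by linarith)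
        apply mul_nonneg (by linarith) (by positivity)
      have h2 : ((s - 1) * (d : ℝ) ^ 2) * (x + 6 * x ^ 2) = (s - 1) * (d + 6) := by
        have : (d : ℝ) ^ 2 * x = d := by
          calc (d : ℝ) ^ 2 * x = d * (d * x) := by ring
            _ = d := by rw [hxd, mul_one]
        calc ((s - 1) * (d : ℝ) ^ 2) * (x + 6 * x ^ 2) =
            (s - 1) * ((d : ℝ) ^ 2 * x + 6 * ((d : ℝ) ^ 2 * x ^ 2)) := by ring
          _ = (s - 1) * (d + 6) := by rw [this, hdx2]; ring
      linarith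
    have t3 : s * (10 / 11 - x) * G n (0 : Fin d → ℤ) ≤
        1001 / 1000 * (9386 / 10000) := by
      have h1 : s * (10 / 11 - x) * G n (0 : Fin d → ℤ) ≤
          s * (10 / 11 - x) * (1 + x + 6 * x ^ 2) := mul_le_mul_of_nonneg_left g2 hcx
      have h2 : (10 / 11 - x) * (1 + x + 6 * x ^ 2) ≤ 9386 / 10000 := by
        nlinarith [mul_nonneg hx0.le (sub_nonneg.mpr hx1), mul_nonneg (mul_nonneg hx0.le hx0.le)
          (sub_nonneg.mpr hx1)]
      have h3 : s * ((10 / 11 - x) * (1 + x + 6 * x ^ 2)) ≤ 1001 / 1000 * (9386 / 10000) := by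
        apply mul_le_mul hs' h2 _ (by norm_num)
        apply mul_nonneg (by linarith) (by positivity)
      linarith
    have t4 : (s - 1) * 7 ≤ 7 / 1000 := by linarith
    have t5 : ((s - 1) * (1 - d) + s * (10 / 11 - x)) * G n (0 : Fin d → ℤ) =
      (s - 1) * (1 - d) * G n (0 : Fin d → ℤ) + s * (10 / 11 - x) * G n (0 : Fin d → ℤ) := by ring
    rw [t5]
    nlinarith
  · have g2 := green_ne hd n hD
    have g3 := green_ne hd (n + 1) hD
    have p0 : Pr 0 D = 0 := by rw [Pr_zero, if_neg hD]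
    rw [p0]
    have hx7 : 7 / (d : ℝ) ^ 2 = 7 * x ^ 2 := by rw [hx]; field_simp
    rw [hx7] at g2 g3
    have t1 : (s - 1) * (1 - d) * G n D ≤ 0 := by
      have : (s - 1) * (1 - (d : ℝ)) ≤ 0 :=
        mul_nonpos_of_nonneg_of_nonpos (by linarith) (by linarith)
      exact mul_nonpos_of_nonpos_of_nonneg this (hG n)
    have t2 : ((s - 1) * (d : ℝ) ^ 2) * (G (n + 1) D - 0) ≤ (s - 1) * 7 := by
      have h1 : ((s - 1) * (d : ℝ) ^ 2) * (G (n + 1) D - 0) ≤
          ((s - 1) * (d : ℝ) ^ 2) * (7 * x ^ 2) := by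
        apply mul_le_mul_of_nonneg_left (by linarith)
        apply mul_nonneg (by linarith) (by positivity)
      have h2 : ((s - 1) * (d : ℝ) ^ 2) * (7 * x ^ 2) = (s - 1) * 7 := by
        calc ((s - 1) * (d : ℝ) ^ 2) * (7 * x ^ 2) =
            (s - 1) * (7 * ((d : ℝ) ^ 2 * x ^ 2)) := by ring
          _ = (s - 1) * 7 := by rw [hdx2]; ring
      linarith
    have t3 : s * (10 / 11 - x) * G n D ≤ 1001 / 1000 * 1 * (7 / 100) := by
      have hx2 : 7 * x ^ 2 ≤ 7 / 100 := by nlinarith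
      apply mul_le_mul _ (by linarith) (hG n) (by norm_num)
      apply mul_le_mul hs' (by linarith) (by linarith) (by norm_num)
    have t4 : (s - 1) * 7 ≤ 7 / 1000 := by linarith
    have t5 : ((s - 1) * (1 - d) + s * (10 / 11 - x)) * G n D =
      (s - 1) * (1 - d) * G n D + s * (10 / 11 - x) * G n D := by ring
    rw [t5]
    linarith

theorem Mr_step {d : ℕ} (hd : 10 ≤ d) {s t : ℝ} (hs : 1 ≤ s)
    (ht : t = 11 / (10 * d)) (n : ℕ) (h20 : ∀ D : Vx d, Mr s t n D ≤ 20) (D : Vx d) :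
    Mr s t (n + 1) D ≤ TT (Mr s t n) D + 20 * vk s 0 D := by
  classical
  have hdR : (10 : ℝ) ≤ d := by exact_mod_cast hd
  have hd0 : (0 : ℝ) < d := by linarith
  have hd00 : 0 < d := by omega
  have ht0 : 0 < t := by rw [ht]; positivity
  have htc : (1 / t - 1) / d = 10 / 11 - 1 / d := by
    rw [ht]; field_simp
  have hT : TT (Mr s t n) D ≤ 20 := by
    have := TT_mono h20 D
    rwa [TT_const hd00] at this
  have hsum : (∑ i : Fin d, ∑ j : Fin d, (if D = 0 ∧ i = j then 1 / t else 1) *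
        Mr s t n (D + Pi.single i 1 - Pi.single j 1)) / d / d =
      TT (Mr s t n) D + (if D = 0 then (10 / 11 - 1 / (d : ℝ)) * Mr s t n (0 : Vx d) else 0) := by
    by_cases hD : D = 0
    · subst hD
      have h1 : ∀ i j : Fin d, (if (0 : Vx d) = 0 ∧ i = j then 1 / t else 1) *
          Mr s t n ((0 : Vx d) + Pi.single i 1 - Pi.single j 1) =
          Mr s t n ((0 : Vx d) + Pi.single i 1 - Pi.single j 1) +
            (if i = j then (1 / t - 1) * Mr s t n (0 : Vx d) else 0) := by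
        intro i j
        by_cases hij : i = j
        · subst hij
          simp only [and_self, if_true, add_sub_cancel_right]
          ring
        · rw [if_neg (by tauto), if_neg hij]
          ring
      have h2 : ∑ i : Fin d, ∑ j : Fin d, (if (0 : Vx d) = 0 ∧ i = j then 1 / t else 1) *
          Mr s t n ((0 : Vx d) + Pi.single i 1 - Pi.single j 1) =
          (∑ i : Fin d, ∑ j : Fin d, Mr s t n ((0 : Vx d) + Pi.single i 1 - Pi.single j 1)) +
            d * ((1 / t - 1) * Mr s t n (0 : Vx d)) := by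
        rw [Finset.sum_congr rfl fun i _ => Finset.sum_congr rfl fun j _ => h1 i j]
        simp only [Finset.sum_add_distrib, Finset.sum_ite_eq, Finset.mem_univ, if_true,
          Finset.sum_const, Finset.card_univ, Fintype.card_fin, nsmul_eq_mul]
      rw [h2, if_pos rfl, ← htc]
      unfold TT
      field_simp
    · simp only [hD, false_and, if_false, one_mul, add_zero]
      rfl
  simp only [Mr]
  rw [hsum]
  by_cases hD : D = 0
  · subst hD
    rw [if_pos (near_zero hd00), if_pos rfl]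
    have p1 := Pr_one_zero hd00
    have p0 : Pr 0 (0 : Fin d → ℤ) = 1 := by simp [Pr_zero]
    have hv : (s - 1) + s * (10 / 11 - 1 / (d : ℝ)) ≤ vk s 0 (0 : Vx d) := by
      unfold vk
      rw [p0]
      have h1 : ((s - 1) * (d : ℝ) ^ 2) * (1 / d) ≤ ((s - 1) * (d : ℝ) ^ 2) * Pr (0 + 1) (0 : Fin d → ℤ) := by
        apply mul_le_mul_of_nonneg_left p1
        apply mul_nonneg (by linarith) (by positivity)
      have h2 : ((s - 1) * (d : ℝ) ^ 2) * (1 / d) = (s - 1) * d := by field_simp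
      linarith
    have hc0 : 0 ≤ 10 / 11 - 1 / (d : ℝ) := by
      have : 1 / (d : ℝ) ≤ 1 / 10 := by
        rw [div_le_div_iff₀ hd0 (by norm_num)]
        linarith
      linarith
    have k1 : (s - 1) * TT (Mr s t n) 0 ≤ (s - 1) * 20 :=
      mul_le_mul_of_nonneg_left hT (by linarith)
    have k2 : s * ((10 / 11 - 1 / (d : ℝ)) * Mr s t n (0 : Vx d)) ≤ s * ((10 / 11 - 1 / (d : ℝ)) * 20) := by
      apply mul_le_mul_of_nonneg_left _ (by linarith)
      exact mul_le_mul_of_nonneg_left (h20 0) hc0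
    linarith
  · rw [if_neg hD, add_zero]
    have p0 : Pr 0 D = 0 := by rw [Pr_zero, if_neg hD]
    have hv0 : vk s 0 D = ((s - 1) * (d : ℝ) ^ 2) * Pr (0 + 1) D := by
      unfold vk
      rw [p0]
      ring
    by_cases hN : Near D
    · rw [if_pos hN, hv0]
      have p1 := Pr_one_near hd00 hN
      have h1 : ((s - 1) * (d : ℝ) ^ 2) * (1 / (d : ℝ) ^ 2) ≤
          ((s - 1) * (d : ℝ) ^ 2) * Pr (0 + 1) D := by
        apply mul_le_mul_of_nonneg_left p1
        apply mul_nonneg (by linarith) (by positivity)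
      have h2 : ((s - 1) * (d : ℝ) ^ 2) * (1 / (d : ℝ) ^ 2) = (s - 1) := by field_simp
      have k1 : (s - 1) * TT (Mr s t n) D ≤ (s - 1) * 20 :=
        mul_le_mul_of_nonneg_left hT (by linarith)
      linarith
    · rw [if_neg hN, one_mul, hv0]
      have : 0 ≤ ((s - 1) * (d : ℝ) ^ 2) * Pr (0 + 1) D := by
        apply mul_nonneg _ (Pr_nonneg _ _)
        apply mul_nonneg (by linarith) (by positivity)
      linarith

theorem Mr_le_aux {d : ℕ} (hd : 10 ≤ d) {s t : ℝ} (hs : 1 ≤ s) (hs' : s ≤ 1001 / 1000)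
    (ht : t = 11 / (10 * d)) (n : ℕ) : ∀ D : Vx d,
      Mr s t n D ≤ s + 20 * ∑ k ∈ Finset.range n, vk s k D := by
  induction n with
  | zero =>
    intro D
    simp only [Mr, Finset.range_zero, Finset.sum_empty, mul_zero, add_zero]
    split_ifs <;> linarith
  | succ n ih =>
    intro D
    have h20 : ∀ D : Vx d, Mr s t n D ≤ 20 := fun D => by
      have h1 := ih D
      have h2 := sum_vk_le hd hs hs' n D
      linarith
    have h1 := Mr_step hd hs ht n h20 D
    have h2 : TT (Mr s t n) D ≤ TT (fun D => s + 20 * ∑ k ∈ Finset.range n, vk s k D) D :=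
      TT_mono ih D
    have h3 : TT (fun D => s + 20 * ∑ k ∈ Finset.range n, vk s k D) D =
        s + 20 * ∑ k ∈ Finset.range n, vk s (k + 1) D := by
      rw [TT_add (fun _ => s) (fun D => 20 * ∑ k ∈ Finset.range n, vk s k D) D,
        TT_const (by omega), TT_smul, TT_sum]
      simp only [TT_vk]
    rw [Finset.sum_range_succ']
    linarith

theorem Mr_le {d : ℕ} (hd : 10 ≤ d) {s t : ℝ} (hs : 1 ≤ s) (hs' : s ≤ 1001 / 1000)
    (ht : t = 11 / (10 * d)) (n : ℕ) (D : Vx d) : Mr s t n D ≤ 20 := by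
  have h1 := Mr_le_aux hd hs hs' ht n D
  have h2 := sum_vk_le hd hs hs' n D
  linarith

end Pool.Agent.CDP
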