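import Mathlib
import Pool.Agent.CDP.PTD
import Pool.Agent.CDP.RECM
import Pool.Agent.CDP.MRS
import Pool.Agent.CDP.BINM
import Pool.Agent.CDP.PTH

/-! CDP, module SECM: second moment.

PROOF.  `N B = #{w | Iw k w B}`, `k = κ - 2 ≥ 16`, `c = cI d t k n > 0`, `b = 1 - 1/10^6`, `s = 1/b^2`,
`1 ≤ s ≤ 1001/1000`.  `E N = d^n c` (`Pr_Iw`), `E N^2 = ∑_{w, w'} Pr (Iw ∧ Iw') ≤ c^2 ∑ Wt s t 0 w w'
= c^2 d^(2n) Mr s t n 0 ≤ 20 c^2 d^(2n)` (`sum_Wt`, `Mr_le`).  Cauchy-Schwarz:
`(E N)^2 = (E (N 1_{N>0}))^2 ≤ E N^2 * Pr (N > 0)`, so `Pr (N > 0) ≥ 1/20`.  (Cauchy-Schwarz for the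
weighted finite sum `Perc.E`: `Finset.sum_mul_sq_le_sq_mul_sq` with the square roots of the weights, or
`0 ≤ E ((N - c' 1_{N>0})^2)`.) -/

namespace Pool.Agent.CDP

theorem second_moment {d : ℕ} (hd : 10 ≤ d) {κ : ℕ} (hκ : 18 ≤ κ) {t : ℝ}
    (ht : t = 11 / (10 * d)) (n : ℕ) {F : Finset (Ed d)}
    (hF : ∀ w : Fin n → Fin d, ∀ i ≤ n, ∀ e, (latt d).Inc (pv w i) e → e ∈ F) :
    1 / 20 ≤ Perc.Pr t F (fun B => ∃ w : Fin n → Fin d, Iw (κ - 2) w B) := by
  classical
  have hd0 : 0 < d := by omega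
  have hdr : (10 : ℝ) ≤ d := by exact_mod_cast hd
  have hdpos : (0 : ℝ) < d := by linarith
  have ht0 : 0 < t := by rw [ht]; positivity
  have ht1 : t ≤ 1 := by
    rw [ht, div_le_one (by positivity)]
    linarith
  set k := κ - 2 with hk
  have hk16 : 16 ≤ k := by omega
  set b : ℝ := 1 - 1 / 10 ^ 6 with hb
  have hb0 : 0 < b := by rw [hb]; norm_num
  have hbin : ∀ m ≤ 2 * d, b ≤ bin t m k := fun m hm => bin_ge hd ht hk16 hm
  set s : ℝ := 1 / b ^ 2 with hs
  have hs1 : 1 ≤ s := by rw [hs, hb]; norm_num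
  have hs2 : s ≤ 1001 / 1000 := by rw [hs, hb]; norm_num
  set c := cI d t k n with hc
  have hc0 : 0 < c := by
    rw [hc]
    unfold cI
    refine mul_pos (pow_pos ht0 _) (Finset.prod_pos fun i _ => ?_)
    refine hb0.trans_le (hbin _ ?_)
    split_ifs <;> omega
  set ind : (Fin n → Fin d) → Finset (Ed d) → ℝ := fun w B => if Iw k w B then 1 else 0 with hind
  set N : Finset (Ed d) → ℝ := fun B => ∑ w, ind w B with hN
  set m : ℝ := (d : ℝ) ^ n * c with hm
  have hm0 : 0 < m := by rw [hm]; positivity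
  have hEN : Perc.E t F N = m := by
    rw [hN, Perc.E_sum]
    have h1 : ∀ w ∈ (Finset.univ : Finset (Fin n → Fin d)), Perc.E t F (fun B => ind w B) = c := by
      intro w _
      have h2 := Pr_Iw (n := n) (by omega : 1 ≤ d) ht0.le ht1 k w (hF w)
      rw [hc, ← h2]
      unfold Perc.Pr
      refine Perc.E_congr fun ω _ => ?_
      simp only [hind]
    rw [Finset.sum_congr rfl h1, Finset.sum_const, Finset.card_univ, Fintype.card_fun, Fintype.card_fin,
      Fintype.card_fin, nsmul_eq_mul, hm]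
    push_cast
    ring
  have hEN2 : Perc.E t F (fun B => N B * N B) ≤ 20 * m ^ 2 := by
    have h0 : Perc.E t F (fun B => N B * N B) =
        ∑ w : Fin n → Fin d, ∑ w' : Fin n → Fin d, Perc.Pr t F (fun B => Iw k w B ∧ Iw k w' B) := by
      have h1 : Perc.E t F (fun B => N B * N B) =
          Perc.E t F (fun B => ∑ w : Fin n → Fin d, ∑ w' : Fin n → Fin d, ind w B * ind w' B) := by
        refine Perc.E_congr fun ω _ => ?_
        simp only [hN]
        rw [Finset.sum_mul_sum]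
      rw [h1, Perc.E_sum]
      refine Finset.sum_congr rfl fun w _ => ?_
      rw [Perc.E_sum]
      refine Finset.sum_congr rfl fun w' _ => ?_
      unfold Perc.Pr
      refine Perc.E_congr fun ω _ => ?_
      simp only [hind]
      by_cases h1 : Iw k w ω <;> by_cases h2 : Iw k w' ω <;> simp [h1, h2]
    rw [h0]
    calc ∑ w : Fin n → Fin d, ∑ w' : Fin n → Fin d, Perc.Pr t F (fun B => Iw k w B ∧ Iw k w' B)
        ≤ ∑ w : Fin n → Fin d, ∑ w' : Fin n → Fin d, c ^ 2 * Wt s t 0 w w' :=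
          Finset.sum_le_sum fun w _ => Finset.sum_le_sum fun w' _ =>
            Pr_Iw_pair (by omega : 1 ≤ d) ht0 ht1 k hb0 hbin w w' (hF w) (hF w')
      _ = c ^ 2 * ((d : ℝ) ^ (2 * n) * Mr s t n 0) := by
          rw [← sum_Wt hd0 s t n 0, Finset.mul_sum]
          refine Finset.sum_congr rfl fun w _ => ?_
          rw [Finset.mul_sum]
      _ ≤ c ^ 2 * ((d : ℝ) ^ (2 * n) * 20) := by
          have := Mr_le hd hs1 hs2 ht n 0
          gcongr
      _ = 20 * m ^ 2 := by rw [hm]; ring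
  set A : Finset (Ed d) → Prop := fun B => ∃ w : Fin n → Fin d, Iw k w B with hA
  have hsq : 0 ≤ Perc.E t F (fun B => (N B - 20 * m * (if A B then 1 else 0)) ^ 2) :=
    Perc.E_nonneg ht0.le ht1 fun ω _ => sq_nonneg _
  have hexp : Perc.E t F (fun B => (N B - 20 * m * (if A B then 1 else 0)) ^ 2) =
      Perc.E t F (fun B => N B * N B) - 40 * m * Perc.E t F N + 400 * m ^ 2 * Perc.Pr t F A := by
    have h1 : Perc.E t F (fun B => (N B - 20 * m * (if A B then 1 else 0)) ^ 2) =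
        Perc.E t F (fun B => N B * N B - 40 * m * N B + 400 * m ^ 2 * (if A B then 1 else 0)) := by
      refine Perc.E_congr fun ω _ => ?_
      by_cases h : A ω
      · rw [if_pos h]; ring
      · have h0 : N ω = 0 := by
          simp only [hN, hind]
          refine Finset.sum_eq_zero fun w _ => if_neg fun hw => h ⟨w, hw⟩
        rw [if_neg h, h0]; ring
    have h2 : Perc.E t F (fun B => if A B then (1 : ℝ) else 0) = Perc.Pr t F A := by
      unfold Perc.Pr
      refine Perc.E_congr fun ω _ => ?_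
      by_cases h : A ω
      · rw [if_pos h, if_pos h]
      · rw [if_neg h, if_neg h]
    rw [h1, Perc.E_add, Perc.E_sub, Perc.E_const_mul, Perc.E_const_mul, h2]
  rw [hexp, hEN] at hsq
  have h3 : 0 ≤ -20 * m ^ 2 + 400 * m ^ 2 * Perc.Pr t F A := by nlinarith
  have h4 : 0 < m ^ 2 := by positivity
  have h5 : 0 ≤ m ^ 2 * (400 * Perc.Pr t F A - 20) := by nlinarith
  have h6 : 0 ≤ 400 * Perc.Pr t F A - 20 := nonneg_of_mul_nonneg_right h5 h4
  show 1 / 20 ≤ Perc.Pr t F A
  linarith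

end Pool.Agent.CDP
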