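import Mathlib
import Pool.Agent.CDP.PTD
import Pool.Agent.CDP.SOL
import Pool.Agent.CDP.CONN
import Pool.Agent.CDP.WFU
import Pool.Agent.CDP.EXU
import Pool.Agent.CDP.MUA
import Pool.Agent.CDP.SECM

/-! CDP, module OPN: percolation at time `11/(10 d)`.

PROOF.  Let `F n` be the finite set of all edges `(x, i)` with `|x j| ≤ n + 1` for all `j`; it contains
all edges incident to `pv w i` for words of length `n`, `i ≤ n` (coordinates of `pv w i` are in
`[0, n]`).  `J n B`: there is a word `w` of length `n` with `PE w ⊆ B` and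
`(inc B (pv w i)).card ≤ κ` for all `i ≤ n`.  `Iw (κ - 2) w B` implies this (at most two edges of
`PE w` at `pv w i`).  The events `𝒥 n = {U | J n (att (F n) U t)}` have probability at least `1/20`
(`labels_att`, `second_moment`, `Pr_mono`) and are decreasing in `n` (restrict the word to its first
`n` letters; the edges at `pv w i`, `i ≤ n`, are in `F n`, so `inc (att (F n) U t)` and
`inc (att (F (n+1)) U t)` agree there).  So the intersection has positive measure.
For good `U` in the intersection and the solution `ω` (`exists_unique`): every edge of `PE w` is open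
at time `t`: `U e ≤ t`, and at each endpoint `x = pv w i` of `e` the set
`{f | Inc x f ∧ f ≠ e ∧ U f ≤ U e ∧ ω f}` is contained in `inc (att (F n) U t) x` minus `e`, so it has
at most `κ - 1 < κ` elements.  So the cluster contains `pv w n`, of level `n` (`∑ j, pv w n j = n`),
for every `n`: it is infinite. -/

namespace Pool.Agent.CDP

open MeasureTheory

/-! coordinates of `pv` -/

private theorem opn_pv_apply {d n : ℕ} (w : Fin n → Fin d) (i : ℕ) (k : Fin d) :
    pv w i k = ((Finset.univ.filter (fun j : Fin n => (j : ℕ) < i ∧ w j = k)).card : ℤ) := by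
  classical
  unfold pv
  rw [Finset.sum_apply, Finset.card_filter]
  push_cast
  refine Finset.sum_congr rfl fun j _ => ?_
  by_cases h : (j : ℕ) < i
  · rw [if_pos h]
    by_cases hk : w j = k
    · rw [if_pos ⟨h, hk⟩, hk, Pi.single_eq_same]
    · rw [if_neg (fun hh => hk hh.2), Pi.single_eq_of_ne (fun hh => hk hh.symm)]
  · rw [if_neg h, if_neg (fun hh => h hh.1)]
    rfl

private theorem opn_pv_nonneg {d n : ℕ} (w : Fin n → Fin d) (i : ℕ) (k : Fin d) :
    0 ≤ pv w i k := by
  rw [opn_pv_apply]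
  exact Int.natCast_nonneg _

private theorem opn_pv_le {d n : ℕ} (w : Fin n → Fin d) (i : ℕ) (k : Fin d) :
    pv w i k ≤ n := by
  rw [opn_pv_apply]
  have h := Finset.card_filter_le (Finset.univ : Finset (Fin n))
    (fun j : Fin n => (j : ℕ) < i ∧ w j = k)
  rw [Finset.card_univ, Fintype.card_fin] at h
  exact_mod_cast h

private theorem opn_pv_zero {d n : ℕ} (w : Fin n → Fin d) : pv w 0 = 0 := by
  unfold pv
  refine Finset.sum_eq_zero fun j _ => ?_
  rw [if_neg (Nat.not_lt_zero _)]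

private theorem opn_pv_succ {d n : ℕ} (w : Fin n → Fin d) (i : Fin n) :
    pv w ((i : ℕ) + 1) = pv w i + Pi.single (w i) 1 := by
  classical
  unfold pv
  have h : ∀ j : Fin n, (if (j : ℕ) < (i : ℕ) + 1 then (Pi.single (w j) 1 : Vx d) else 0) =
      (if (j : ℕ) < (i : ℕ) then Pi.single (w j) 1 else 0) +
        (if j = i then Pi.single (w j) 1 else 0) := by
    intro j
    rcases lt_trichotomy (j : ℕ) (i : ℕ) with hlt | heq | hgt
    · rw [if_pos (by omega), if_pos hlt, if_neg (fun hh => by rw [hh] at hlt; omega), add_zero]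
    · rw [if_pos (by omega), if_neg (by omega), if_pos (Fin.ext heq), zero_add]
    · rw [if_neg (by omega), if_neg (by omega), if_neg (fun hh => by rw [hh] at hgt; omega),
        add_zero]
  rw [Finset.sum_congr rfl fun j _ => h j, Finset.sum_add_distrib]
  congr 1
  rw [Finset.sum_ite_eq' Finset.univ i (fun j => (Pi.single (w j) 1 : Vx d)),
    if_pos (Finset.mem_univ i)]

private theorem opn_level {d n : ℕ} (w : Fin n → Fin d) (i : ℕ) (hi : i ≤ n) :
    ∑ k, pv w i k = i := by
  induction i with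
  | zero => rw [opn_pv_zero]; simp
  | succ i ih =>
    have h1 := opn_pv_succ w ⟨i, by omega⟩
    have h2 : pv w (i + 1) = pv w i + Pi.single (w ⟨i, by omega⟩) 1 := h1
    rw [h2]
    simp only [Pi.add_apply]
    rw [Finset.sum_add_distrib, ih (by omega), Finset.sum_pi_single' (w ⟨i, by omega⟩) (1 : ℤ)
      Finset.univ, if_pos (Finset.mem_univ _)]
    push_cast
    ring

/-! the boxes -/

private noncomputable def opnF (d n : ℕ) : Finset (Ed d) :=
  (Finset.Icc (fun _ => -((n : ℤ) + 1)) (fun _ => (n : ℤ) + 1)) ×ˢ Finset.univ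

private theorem opn_mem_F {d n : ℕ} {e : Ed d} :
    e ∈ opnF d n ↔ ∀ k, -((n : ℤ) + 1) ≤ e.1 k ∧ e.1 k ≤ (n : ℤ) + 1 := by
  unfold opnF
  rw [Finset.mem_product, Finset.mem_Icc, Pi.le_def, Pi.le_def]
  constructor
  · rintro ⟨⟨h1, h2⟩, _⟩ k
    exact ⟨h1 k, h2 k⟩
  · intro h
    exact ⟨⟨fun k => (h k).1, fun k => (h k).2⟩, Finset.mem_univ _⟩

private theorem opn_F_mono {d n : ℕ} : opnF d n ⊆ opnF d (n + 1) := by
  intro e he
  rw [opn_mem_F] at he ⊢
  intro k
  have h := he k
  push_cast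
  constructor
  · linarith [h.1]
  · linarith [h.2]

private theorem opn_hF {d n : ℕ} (w : Fin n → Fin d) (i : ℕ) (e : Ed d)
    (h : (latt d).Inc (pv w i) e) : e ∈ opnF d n := by
  rw [opn_mem_F]
  intro k
  have h0 := opn_pv_nonneg w i k
  have h1 := opn_pv_le w i k
  rcases h with h | h
  · have h2 : e.1 = pv w i := h
    rw [h2]
    constructor
    · linarith
    · linarith
  · have h2 : e.1 + Pi.single e.2 1 = pv w i := h
    have h3 := congrFun h2 k
    rw [Pi.add_apply] at h3
    have h4 : (0 : ℤ) ≤ (Pi.single e.2 1 : Vx d) k ∧ (Pi.single e.2 1 : Vx d) k ≤ 1 := by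
      by_cases hk : k = e.2
      · rw [hk, Pi.single_eq_same]
        exact ⟨zero_le_one, le_refl _⟩
      · rw [Pi.single_eq_of_ne hk]
        exact ⟨le_refl _, zero_le_one⟩
    constructor
    · linarith [h4.2]
    · linarith [h4.1]

/-! the edges of a path at its vertices -/

private theorem opn_inc_pe_left {d n : ℕ} (w : Fin n → Fin d) (j : Fin n) :
    (latt d).Inc (pv w j) (pe w j) := Or.inl rfl

private theorem opn_inc_pe_right {d n : ℕ} (w : Fin n → Fin d) (j : Fin n) :
    (latt d).Inc (pv w ((j : ℕ) + 1)) (pe w j) := by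
  right
  rw [opn_pv_succ]
  rfl

private theorem opn_pv_inj {d n : ℕ} (w : Fin n → Fin d) {i j : ℕ} (hi : i ≤ n) (hj : j ≤ n)
    (h : pv w i = pv w j) : i = j := by
  have h1 := opn_level w i hi
  have h2 := opn_level w j hj
  rw [h, h2] at h1
  exact_mod_cast h1.symm

private theorem opn_inc_pe {d n : ℕ} (w : Fin n → Fin d) {i : ℕ} (hi : i ≤ n) (j : Fin n)
    (h : (latt d).Inc (pv w i) (pe w j)) : (j : ℕ) = i ∨ (j : ℕ) + 1 = i := by
  have hj := j.2
  rcases h with h | h
  · left
    exact opn_pv_inj w (by omega) hi h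
  · right
    have h2 : pv w j + Pi.single (w j) 1 = pv w i := h
    rw [← opn_pv_succ] at h2
    exact opn_pv_inj w (by omega) hi h2

private theorem opn_card_PE {d n : ℕ} (w : Fin n → Fin d) {i : ℕ} (hi : i ≤ n) :
    ((latt d).inc (PE w) (pv w i)).card ≤ 2 := by
  classical
  have h : (latt d).inc (PE w) (pv w i) ⊆
      (Finset.univ.filter (fun j : Fin n => (j : ℕ) = i ∨ (j : ℕ) + 1 = i)).image (pe w) := by
    intro e he
    rw [Gr.mem_inc] at he
    unfold PE at he
    obtain ⟨j, _, rfl⟩ := Finset.mem_image.mp he.1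
    exact Finset.mem_image_of_mem _ (Finset.mem_filter.mpr ⟨Finset.mem_univ _,
      opn_inc_pe w hi j he.2⟩)
  refine le_trans (Finset.card_le_card h) (le_trans Finset.card_image_le ?_)
  have h2 : (Finset.univ.filter (fun j : Fin n => (j : ℕ) = i ∨ (j : ℕ) + 1 = i)).image
      (fun j : Fin n => (j : ℕ)) ⊆ {i, i - 1} := by
    intro x hx
    obtain ⟨j, hj, rfl⟩ := Finset.mem_image.mp hx
    have hj2 := (Finset.mem_filter.mp hj).2
    rw [Finset.mem_insert, Finset.mem_singleton]
    omega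
  have h3 := Finset.card_le_card h2
  rw [Finset.card_image_of_injective _ Fin.val_injective] at h3
  exact le_trans h3 Finset.card_le_two

/-! the events -/

private noncomputable def opnR {d : ℕ} (κ n : ℕ) (B : Finset (Ed d)) : Prop :=
  ∃ w : Fin n → Fin d, PE w ⊆ B ∧ ∀ i ≤ n, ((latt d).inc B (pv w i)).card ≤ κ

private theorem opn_R_of_Iw {d κ n : ℕ} (hκ : 18 ≤ κ) {B : Finset (Ed d)} {w : Fin n → Fin d}
    (h : Iw (κ - 2) w B) : opnR κ n B := by
  classical
  refine ⟨w, h.1, fun i hi => ?_⟩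
  have h1 := h.2 i hi
  have h2 := opn_card_PE w hi
  have h3 : (latt d).inc B (pv w i) ⊆
      (latt d).inc (B \ PE w) (pv w i) ∪ (latt d).inc (PE w) (pv w i) := by
    intro e he
    rw [Gr.mem_inc] at he
    rw [Finset.mem_union, Gr.mem_inc, Gr.mem_inc, Finset.mem_sdiff]
    by_cases hp : e ∈ PE w
    · exact Or.inr ⟨hp, he.2⟩
    · exact Or.inl ⟨⟨he.1, hp⟩, he.2⟩
  have h4 := le_trans (Finset.card_le_card h3) (Finset.card_union_le _ _)
  have h5 : ((latt d).inc (B \ PE w) (pv w i)).card ≤ κ - 2 := by convert h1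
  omega

private theorem opn_mem_att {d : ℕ} {F : Finset (Ed d)} {U : Ed d → unitInterval} {t : ℝ}
    {e : Ed d} : e ∈ att F U t ↔ e ∈ F ∧ (U e : ℝ) ≤ t := by
  classical
  unfold att
  exact Finset.mem_filter

private theorem opn_anti {d κ n : ℕ} {U : Ed d → unitInterval} {t : ℝ}
    (h : opnR κ (n + 1) (att (opnF d (n + 1)) U t)) : opnR κ n (att (opnF d n) U t) := by
  classical
  obtain ⟨w, h1, h2⟩ := h
  have hpv : ∀ i ≤ n, pv (fun j : Fin n => w j.castSucc) i = pv w i := by
    intro i hi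
    unfold pv
    rw [Fin.sum_univ_castSucc]
    have hl : ¬ ((Fin.last n : Fin (n + 1)) : ℕ) < i := by
      rw [Fin.val_last]
      omega
    rw [if_neg hl, add_zero]
    refine Finset.sum_congr rfl fun j _ => ?_
    rfl
  refine ⟨fun j : Fin n => w j.castSucc, ?_, ?_⟩
  · intro e he
    unfold PE at he
    obtain ⟨j, _, rfl⟩ := Finset.mem_image.mp he
    rw [opn_mem_att]
    refine ⟨opn_hF _ (j : ℕ) _ (opn_inc_pe_left _ j), ?_⟩
    have h3 : pe (fun j : Fin n => w j.castSucc) j = pe w j.castSucc := by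
      unfold pe
      rw [hpv j (by omega)]
      rfl
    rw [h3]
    have h4 : pe w j.castSucc ∈ PE w := Finset.mem_image_of_mem _ (Finset.mem_univ _)
    exact (opn_mem_att.mp (h1 h4)).2
  · intro i hi
    rw [hpv i hi]
    refine le_trans (Finset.card_le_card ?_) (h2 i (by omega))
    intro e he
    rw [Gr.mem_inc, opn_mem_att] at he ⊢
    exact ⟨⟨opn_F_mono he.1.1, he.1.2⟩, he.2⟩

/-! from the events to percolation -/

private theorem opn_open {d κ n : ℕ} (hκ : 18 ≤ κ) {U : Ed d → unitInterval} {t : ℝ}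
    {ω : Ed d → Prop} (hω : IsCDP κ U ω) {w : Fin n → Fin d}
    (h1 : PE w ⊆ att (opnF d n) U t)
    (h2 : ∀ i ≤ n, ((latt d).inc (att (opnF d n) U t) (pv w i)).card ≤ κ) (j : Fin n) :
    pe w j ∈ openAt U ω t := by
  classical
  have h3 : pe w j ∈ PE w := Finset.mem_image_of_mem _ (Finset.mem_univ _)
  have h4 := opn_mem_att.mp (h1 h3)
  refine ⟨h4.2, (hω _).mpr fun x hx => ?_⟩
  obtain ⟨i, hi, rfl⟩ : ∃ i ≤ n, pv w i = x := by
    have hj := j.2
    rcases hx with hx | hx
    · exact ⟨j, by omega, hx⟩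
    · refine ⟨j + 1, by omega, ?_⟩
      rw [opn_pv_succ]
      exact hx
  have h5 : {f | (latt d).Inc (pv w i) f ∧ f ≠ pe w j ∧ U f ≤ U (pe w j) ∧ ω f} ⊆
      (((latt d).inc (att (opnF d n) U t) (pv w i)).erase (pe w j) : Finset (Ed d)) := by
    rintro f ⟨hf1, hf2, hf3, _⟩
    rw [Finset.mem_coe, Finset.mem_erase, Gr.mem_inc, opn_mem_att]
    refine ⟨hf2, ⟨opn_hF w i f hf1, ?_⟩, hf1⟩
    exact le_trans hf3 h4.2
  have h6 := Set.ncard_le_ncard h5 (Finset.finite_toSet _)
  rw [Set.ncard_coe_finset] at h6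
  have h7 : pe w j ∈ (latt d).inc (att (opnF d n) U t) (pv w i) := by
    rw [Gr.mem_inc]
    exact ⟨h1 h3, hx⟩
  rw [Finset.card_erase_of_mem h7] at h6
  have h8 := h2 i hi
  omega

private theorem opn_reach {d n : ℕ} {W : Set (Ed d)} {w : Fin n → Fin d}
    (h : ∀ j, pe w j ∈ W) (i : ℕ) (hi : i ≤ n) :
    Relation.ReflTransGen ((latt d).Adj W) 0 (pv w i) := by
  induction i with
  | zero =>
    rw [opn_pv_zero]
  | succ i ih =>
    refine (ih (by omega)).tail ⟨pe w ⟨i, by omega⟩, h _, ?_, ?_⟩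
    · exact opn_inc_pe_left w ⟨i, by omega⟩
    · exact opn_inc_pe_right w ⟨i, by omega⟩

private theorem opn_infinite {d κ : ℕ} (hκ : 18 ≤ κ) {U : Ed d → unitInterval}
    {t : ℝ} {ω : Ed d → Prop} (hω : IsCDP κ U ω)
    (h : ∀ n, opnR κ n (att (opnF d n) U t)) : (cluster (openAt U ω t)).Infinite := by
  rw [cluster_infinite_iff]
  intro n
  obtain ⟨w, h1, h2⟩ := h (d * n + 1)
  have h3 := opn_reach (fun j => opn_open hκ hω h1 h2 j) (d * n + 1) (le_refl _)
  refine ⟨pv w (d * n + 1), ?_, h3⟩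
  by_contra hcon
  have h4 : ∀ k, pv w (d * n + 1) k ≤ n := by
    intro k
    by_contra hk
    refine hcon ⟨k, lt_of_lt_of_le (not_le.mp hk) (le_abs_self _)⟩
  have h5 := opn_level w (d * n + 1) (le_refl _)
  have h6 : ∑ k, pv w (d * n + 1) k ≤ ∑ _k : Fin d, (n : ℤ) :=
    Finset.sum_le_sum fun k _ => h4 k
  rw [h5, Finset.sum_const, Finset.card_univ, Fintype.card_fin, nsmul_eq_mul] at h6
  push_cast at h6
  linarith

theorem theta_pos {d : ℕ} (hd : 10 ≤ d) {κ : ℕ} (hκ : 18 ≤ κ) :
    0 < theta κ d (11 / (10 * d)) := by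
  have hdr : (10 : ℝ) ≤ d := by exact_mod_cast hd
  obtain ⟨t, ht⟩ : ∃ t : ℝ, t = 11 / (10 * d) := ⟨_, rfl⟩
  rw [← ht]
  have ht0 : 0 ≤ t := by
    rw [ht]
    positivity
  have ht1 : t ≤ 1 := by
    rw [ht, div_le_one (by positivity)]
    linarith
  have : IsProbabilityMeasure (labels d) := by
    unfold labels
    infer_instance
  have hJ : ∀ n, ENNReal.ofReal (1 / 20) ≤
      labels d {U | opnR κ n (att (opnF d n) U t)} := by
    intro n
    rw [labels_att (opnF d n) ht0 ht1]
    refine ENNReal.ofReal_le_ofReal (le_trans (second_moment hd hκ ht n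
      (fun w i _ e he => opn_hF w i e he)) (Perc.Pr_mono ht0 ht1 fun S _ hS => ?_))
    obtain ⟨w, hw⟩ := hS
    exact opn_R_of_Iw hκ hw
  have hanti : Antitone (fun n => {U : Ed d → unitInterval | opnR κ n (att (opnF d n) U t)}) :=
    antitone_nat_of_succ_le fun n U hU => opn_anti hU
  have hinter : ENNReal.ofReal (1 / 20) ≤
      labels d (⋂ n, {U : Ed d → unitInterval | opnR κ n (att (opnF d n) U t)}) := by
    rw [hanti.measure_iInter (fun n => (measurableSet_att' _ _ _).nullMeasurableSet)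
      ⟨0, measure_ne_top _ _⟩]
    exact le_iInf hJ
  have hpos : (0 : ENNReal) < ENNReal.ofReal (1 / 20) := by
    rw [ENNReal.ofReal_pos]
    norm_num
  refine lt_of_lt_of_le hpos (le_trans hinter ?_)
  unfold theta
  refine measure_mono_ae ?_
  filter_upwards [ae_good d] with U hU hU2
  obtain ⟨ω, hω, _⟩ := exists_unique hU κ
  refine ⟨ω, hω, opn_infinite hκ hω fun n => ?_⟩
  exact (Set.mem_iInter.mp hU2 n)

end Pool.Agent.CDP
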