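import Mathlib
import Pool.Agent.CDP.Defs
import Pool.Agent.CDP.WFU
import Pool.Agent.CDP.EXU
import Pool.Agent.CDP.LIM
import Pool.Agent.CDP.OPN

/-! CDP, module ENDM: the main theorem.

PROOF.  If `2 d ≤ κ`: `tc_eq_of_large`.  Otherwise `κ + 1 ≤ 2 d`, `d ≥ 10`.  Let `t0 = 11/(10 d)`.
`tc (κ+1) d ≤ t0` by `theta_pos`.  Let `t` be in the set of `tc κ d`.  If `t ≤ t0` then
`theta (κ+1) d t ≥ theta κ d t > 0` so `tc (κ+1) d ≤ t`; if `t > t0`, `tc (κ+1) d ≤ t0 ≤ t`.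
Take the infimum. -/

namespace Pool.Agent.CDP

open MeasureTheory

theorem tc_succ_le {κ : ℕ} (hκ : 18 ≤ κ) (d : ℕ) : tc (κ + 1) d ≤ tc κ d := by
  by_cases h : 2 * d ≤ κ
  · exact (tc_eq_of_large h).symm.le
  · have hd2 : κ + 1 ≤ 2 * d := by omega
    have hd : 10 ≤ d := by omega
    have hd0 : (0 : ℝ) < d := by exact_mod_cast (by omega : 0 < d)
    have h0 : (0 : ℝ) ≤ 11 / (10 * d) := by positivity
    have h1 : (11 : ℝ) / (10 * d) ≤ 1 := by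
      rw [div_le_one (by positivity)]
      have : (10 : ℝ) ≤ d := by exact_mod_cast hd
      linarith
    have hmem : ENNReal.ofReal (11 / (10 * d)) ∈
        ENNReal.ofReal '' {t : ℝ | 0 ≤ t ∧ t ≤ 1 ∧ 0 < theta (κ + 1) d t} :=
      ⟨_, ⟨h0, h1, theta_pos hd (by omega)⟩, rfl⟩
    apply le_sInf
    rintro _ ⟨t, ⟨ht0, ht1, htp⟩, rfl⟩
    rcases le_total t (11 / (10 * d)) with h2 | h2
    · apply sInf_le
      exact ⟨t, ⟨ht0, ht1, htp.trans_le (theta_mono hκ hd2 ht0 h2)⟩, rfl⟩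
    · exact (sInf_le hmem).trans (ENNReal.ofReal_le_ofReal h2)

theorem main : (∀ κ d : ℕ, ∀ᵐ U ∂(labels d), ∃! ω : Ed d → Prop, IsCDP κ U ω) ∧
    ∀ κ d : ℕ, 18 ≤ κ → tc (κ + 1) d ≤ tc κ d := by
  refine ⟨fun κ d => ?_, fun κ d hκ => tc_succ_le hκ d⟩
  filter_upwards [ae_good d] with U hU
  exact exists_unique hU κ

end Pool.Agent.CDP
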